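import Pool.Agent.LibBohr.Defs

set_option autoImplicit false

namespace Pool.Agent.LibBohr

open Finset Filter

theorem asym_bound : ∃ N : ℕ, ∀ n : ℕ, N ≤ n →
    10 ^ 20 * (((4 * Nat.log 2 n + 12 : ℕ) : ℝ)) ≤ (n : ℝ) ^ ((1 : ℝ) / 2000) := by
  have hr : (0 : ℝ) < 1 / 2000 := by norm_num
  have h1 : ∀ᶠ x : ℝ in atTop, Real.log x ≤ (1 / 10 ^ 22) * x ^ ((1 : ℝ) / 2000) := by
    have := (isLittleO_log_rpow_atTop hr).bound (show (0 : ℝ) < 1 / 10 ^ 22 by norm_num)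
    filter_upwards [this, eventually_ge_atTop (1 : ℝ)] with x hx hx1
    have h2 : 0 ≤ Real.log x := Real.log_nonneg hx1
    have h3 : 0 ≤ x ^ ((1 : ℝ) / 2000) := Real.rpow_nonneg (by linarith) _
    rw [Real.norm_of_nonneg h2, Real.norm_of_nonneg h3] at hx
    exact hx
  have h2 : ∀ᶠ x : ℝ in atTop, (10 : ℝ) ^ 22 ≤ x ^ ((1 : ℝ) / 2000) :=
    (tendsto_rpow_atTop hr).eventually_ge_atTop _
  have h3 : ∀ᶠ x : ℝ in atTop, (1 : ℝ) ≤ x := eventually_ge_atTop 1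
  have h4 := ((h1.and h2).and h3)
  have h5 : ∀ᶠ n : ℕ in atTop, (Real.log (n : ℝ) ≤ (1 / 10 ^ 22) * (n : ℝ) ^ ((1 : ℝ) / 2000) ∧
      (10 : ℝ) ^ 22 ≤ (n : ℝ) ^ ((1 : ℝ) / 2000)) ∧ (1 : ℝ) ≤ n :=
    tendsto_natCast_atTop_atTop.eventually h4
  obtain ⟨N, hN⟩ := eventually_atTop.mp h5
  refine ⟨N, fun n hn => ?_⟩
  obtain ⟨⟨ha, hb⟩, hc⟩ := hN n hn
  have hn0 : n ≠ 0 := by
    rintro rfl; norm_num at hc
  have h6 : (Nat.log 2 n : ℝ) * Real.log 2 ≤ Real.log n := by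
    have h7 : ((2 ^ Nat.log 2 n : ℕ) : ℝ) ≤ n := by exact_mod_cast Nat.pow_log_le_self 2 hn0
    have h8 := Real.log_le_log (by positivity) h7
    push_cast at h8
    rw [Real.log_pow] at h8
    exact h8
  have h7 : (0.69 : ℝ) < Real.log 2 := by
    have := Real.log_two_gt_d9; linarith
  have h8 : (0 : ℝ) ≤ (Nat.log 2 n : ℝ) := Nat.cast_nonneg _
  have h9 : (Nat.log 2 n : ℝ) ≤ 2 * Real.log n := by nlinarith
  push_cast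
  have h10 : (Nat.log 2 n : ℝ) ≤ 2 * ((1 / 10 ^ 22) * (n : ℝ) ^ ((1 : ℝ) / 2000)) := by linarith
  norm_num at hb h10 ⊢
  linarith

theorem bohr_of_final_step
    (final : ∀ (A : Finset ℕ), (∀ a ∈ A, 0 < a) → ∀ (y : ℝ) (L : ℕ), 10 ≤ L →
      10 ^ 20 * (L : ℝ) ≤ y → (A.card : ℝ) = y ^ 2000 → 200 * (A.card : ℝ) ^ 4 ≤ 2 ^ L →
      SupB A (y ^ 1001) → False) :
    ∃ c : ℝ, 0 < c ∧ ∃ N : ℕ, ∀ A : Finset ℕ, (∀ a ∈ A, 0 < a) → N ≤ A.card →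
      ∃ θ : ℝ, (A.card : ℝ) ^ ((1 : ℝ) / 2 + c) ≤ |∑ a ∈ A, Real.sin ((a : ℝ) * θ)| := by
  obtain ⟨N, hN⟩ := asym_bound
  refine ⟨1 / 2000, by norm_num, N, fun A hpos hcard => ?_⟩
  by_contra hcon
  push Not at hcon
  set n := A.card with hn
  have hn0 : (0 : ℝ) ≤ (n : ℝ) := Nat.cast_nonneg _
  set y : ℝ := (n : ℝ) ^ ((1 : ℝ) / 2000) with hy
  set L : ℕ := 4 * Nat.log 2 n + 12 with hL
  have h1 := hN n hcard
  have hy2000 : (n : ℝ) = y ^ 2000 := by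
    rw [hy, ← Real.rpow_natCast, ← Real.rpow_mul hn0]
    norm_num
  have hy1001 : (n : ℝ) ^ ((1 : ℝ) / 2 + 1 / 2000) = y ^ 1001 := by
    rw [hy, ← Real.rpow_natCast, ← Real.rpow_mul hn0]
    norm_num
  apply final A hpos y L (by omega) h1 hy2000
  · have h2 : n < 2 ^ (Nat.log 2 n + 1) := Nat.lt_pow_succ_log_self (by norm_num) n
    have h3 : (n : ℝ) ≤ 2 ^ (Nat.log 2 n + 1) := by exact_mod_cast h2.le
    have h4 : (n : ℝ) ^ 4 ≤ (2 ^ (Nat.log 2 n + 1)) ^ 4 := pow_le_pow_left₀ hn0 h3 4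
    have h5 : (2 : ℝ) ^ L = 2 ^ 8 * (2 ^ (Nat.log 2 n + 1)) ^ 4 := by
      rw [← pow_mul, ← pow_add]; congr 1; omega
    rw [h5]
    have h6 : (0 : ℝ) ≤ (2 ^ (Nat.log 2 n + 1)) ^ 4 := by positivity
    nlinarith
  · intro θ
    rw [← hy1001]
    exact (hcon θ).le

end Pool.Agent.LibBohr
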