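import Pool.Agent.LibBohr.Defs

set_option autoImplicit false

/-!
# Fejér kernel averages of a bounded sine sum

Second moments of a bounded sine sum against Fejér kernels (`bmo`, `level_card`), and the
power mean inequality for weighted additive energies (`energy_union`).
-/

namespace Pool.Agent.LibBohr

open Finset

theorem int_cos (u : ℤ) :
    ∫ θ in (0 : ℝ)..(2 * Real.pi), Real.cos ((u : ℝ) * θ) = if u = 0 then 2 * Real.pi else 0 := by
  split_ifs with h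
  · subst h; simp
  · have hu : (u : ℝ) ≠ 0 := by exact_mod_cast h
    rw [intervalIntegral.integral_comp_mul_left (fun x => Real.cos x) hu, integral_cos]
    have h2 : Real.sin ((u : ℝ) * (2 * Real.pi)) = 0 := by
      have := Real.sin_int_mul_pi (2 * u)
      rw [← this]
      congr 1
      push_cast
      ring
    rw [h2]
    simp

theorem int_cos_cos (u v : ℤ) :
    ∫ θ in (0 : ℝ)..(2 * Real.pi), Real.cos ((u : ℝ) * θ) * Real.cos ((v : ℝ) * θ) =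
      (if u = v then Real.pi else 0) + (if u = -v then Real.pi else 0) := by
  have h1 : ∀ θ : ℝ, Real.cos ((u : ℝ) * θ) * Real.cos ((v : ℝ) * θ) =
      (1 / 2) * Real.cos (((u - v : ℤ) : ℝ) * θ) + (1 / 2) * Real.cos (((u + v : ℤ) : ℝ) * θ) := by
    intro θ
    push_cast
    rw [sub_mul, add_mul, Real.cos_sub, Real.cos_add]
    ring
  simp_rw [h1]
  rw [intervalIntegral.integral_add
    ((by fun_prop : Continuous fun θ : ℝ => (1 / 2) * Real.cos (((u - v : ℤ) : ℝ) * θ)).intervalIntegrable _ _)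
    ((by fun_prop : Continuous fun θ : ℝ => (1 / 2) * Real.cos (((u + v : ℤ) : ℝ) * θ)).intervalIntegrable _ _),
    intervalIntegral.integral_const_mul, intervalIntegral.integral_const_mul, int_cos, int_cos]
  have e1 : (u - v = 0) = (u = v) := by rw [sub_eq_zero]
  have e2 : (u + v = 0) = (u = -v) := by rw [add_eq_zero_iff_eq_neg]
  simp only [e1, e2]
  split_ifs <;> ring

/-- The kernel `|∑_{a ∈ s} e^{iaθ}|²`. -/
noncomputable def K (s : Finset ℕ) (θ : ℝ) : ℝ :=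
  ∑ a ∈ s, ∑ b ∈ s, Real.cos ((((a : ℤ) - (b : ℤ) : ℤ) : ℝ) * θ)

theorem K_eq (s : Finset ℕ) (θ : ℝ) :
    K s θ = (∑ a ∈ s, Real.cos ((a : ℝ) * θ)) ^ 2 + (∑ a ∈ s, Real.sin ((a : ℝ) * θ)) ^ 2 := by
  unfold K
  rw [sq, sq, Finset.sum_mul_sum, Finset.sum_mul_sum, ← Finset.sum_add_distrib]
  refine Finset.sum_congr rfl fun a _ => ?_
  rw [← Finset.sum_add_distrib]
  refine Finset.sum_congr rfl fun b _ => ?_
  push_cast
  rw [sub_mul, Real.cos_sub]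

theorem K_nonneg (s : Finset ℕ) (θ : ℝ) : 0 ≤ K s θ := by
  rw [K_eq]; positivity

theorem K_cont (s : Finset ℕ) : Continuous (K s) := by
  unfold K; fun_prop

/-- Number of representations of `u` as a difference of two elements of `[0, N)`. -/
def rep (N : ℕ) (u : ℤ) : ℕ :=
  ((range N ×ˢ range N).filter (fun p => (p.1 : ℤ) - (p.2 : ℤ) = u)).card

theorem rep_neg (N : ℕ) (u : ℤ) : rep N (-u) = rep N u := by
  unfold rep
  apply Finset.card_bij (fun p _ => (p.2, p.1))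
  · rintro ⟨a, b⟩ h
    simp only [mem_filter, mem_product, mem_range] at h ⊢
    exact ⟨⟨h.1.2, h.1.1⟩, by omega⟩
  · rintro ⟨a, b⟩ _ ⟨c, d⟩ _ h
    simp only [Prod.mk.injEq] at h ⊢
    exact ⟨h.2, h.1⟩
  · rintro ⟨a, b⟩ h
    simp only [mem_filter, mem_product, mem_range] at h
    exact ⟨(b, a), by simp only [mem_filter, mem_product, mem_range]; exact ⟨⟨h.1.2, h.1.1⟩, by omega⟩, rfl⟩

theorem rep_nat (N u : ℕ) : rep N (u : ℤ) = N - u := by
  unfold rep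
  rw [← Finset.card_range (N - u)]
  symm
  apply Finset.card_bij (fun l _ => (l + u, l))
  · intro l h
    simp only [mem_filter, mem_product, mem_range] at h ⊢
    refine ⟨⟨by omega, by omega⟩, by push_cast; ring⟩
  · intro l _ l' _ h
    simp only [Prod.mk.injEq] at h
    exact h.2
  · rintro ⟨a, b⟩ h
    simp only [mem_filter, mem_product, mem_range] at h
    refine ⟨b, by simp only [mem_range]; omega, ?_⟩
    simp only [Prod.mk.injEq, and_true]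
    omega

theorem rep_eq (N : ℕ) (u : ℤ) : (rep N u : ℤ) = max 0 ((N : ℤ) - |u|) := by
  rcases le_total 0 u with h | h
  · obtain ⟨n, rfl⟩ := Int.eq_ofNat_of_zero_le h
    rw [rep_nat, abs_of_nonneg h]
    omega
  · obtain ⟨n, hn⟩ := Int.eq_ofNat_of_zero_le (by omega : 0 ≤ -u)
    have hu : u = -(n : ℤ) := by omega
    rw [hu, rep_neg, rep_nat, abs_neg, abs_of_nonneg (by positivity)]
    omega

theorem rep_tri (W : ℕ) (hW : 1 ≤ W) (u : ℤ) : (rep W u : ℝ) = W * tri W u := by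
  have h := rep_eq W u
  have h2 : (rep W u : ℝ) = max 0 ((W : ℝ) - |(u : ℝ)|) := by
    have : ((rep W u : ℤ) : ℝ) = ((max 0 ((W : ℤ) - |u|) : ℤ) : ℝ) := by rw [h]
    push_cast at this
    exact this
  rw [h2]
  unfold tri
  have hW' : (0 : ℝ) < W := by exact_mod_cast hW
  rw [mul_max_of_nonneg _ _ hW'.le]
  congr 1
  · ring
  · field_simp

theorem int_K_cos (N : ℕ) (u : ℤ) :
    ∫ θ in (0 : ℝ)..(2 * Real.pi), K (range N) θ * Real.cos ((u : ℝ) * θ) =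
      2 * Real.pi * rep N u := by
  unfold K
  simp_rw [Finset.sum_mul]
  rw [intervalIntegral.integral_finsetSum
    (fun k _ => (by fun_prop : Continuous _).intervalIntegrable _ _)]
  have : ∀ k ∈ range N, ∫ θ in (0 : ℝ)..(2 * Real.pi),
      ∑ l ∈ range N, Real.cos ((((k : ℤ) - (l : ℤ) : ℤ) : ℝ) * θ) * Real.cos ((u : ℝ) * θ) =
      ∑ l ∈ range N, ((if (k : ℤ) - l = u then Real.pi else 0) +
        (if (k : ℤ) - l = -u then Real.pi else 0)) := by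
    intro k _
    rw [intervalIntegral.integral_finsetSum
      (fun l _ => (by fun_prop : Continuous _).intervalIntegrable _ _)]
    exact Finset.sum_congr rfl fun l _ => int_cos_cos _ _
  rw [Finset.sum_congr rfl this, ← Finset.sum_product' (f := fun (k l : ℕ) =>
    ((if (k : ℤ) - l = u then Real.pi else 0) + (if (k : ℤ) - l = -u then Real.pi else 0))),
    Finset.sum_add_distrib, ← Finset.sum_filter, ← Finset.sum_filter, Finset.sum_const,
    Finset.sum_const, nsmul_eq_mul, nsmul_eq_mul]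
  have h1 : (((range N ×ˢ range N).filter (fun p => (p.1 : ℤ) - (p.2 : ℤ) = u)).card : ℝ) =
    rep N u := rfl
  have h2 : (((range N ×ˢ range N).filter (fun p => (p.1 : ℤ) - (p.2 : ℤ) = -u)).card : ℝ) =
    rep N (-u) := rfl
  rw [h1, h2, rep_neg]
  ring

theorem sin_sq_expand (A : Finset ℕ) (θ : ℝ) :
    (∑ a ∈ A, Real.sin ((a : ℝ) * θ)) ^ 2 =
      ∑ p ∈ A ×ˢ A, ((1 / 2) * Real.cos ((((p.1 : ℤ) - (p.2 : ℤ) : ℤ) : ℝ) * θ) -
        (1 / 2) * Real.cos ((((p.1 : ℤ) + (p.2 : ℤ) : ℤ) : ℝ) * θ)) := by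
  rw [sq, Finset.sum_mul_sum, ← Finset.sum_product' (f := fun (a b : ℕ) =>
    Real.sin ((a : ℝ) * θ) * Real.sin ((b : ℝ) * θ))]
  refine Finset.sum_congr rfl fun p _ => ?_
  push_cast
  rw [sub_mul, add_mul, Real.cos_sub, Real.cos_add]
  ring

theorem SupB.nonneg {A : Finset ℕ} {M : ℝ} (hM : SupB A M) : 0 ≤ M :=
  (abs_nonneg _).trans (hM 0)

theorem bmo_sum (A : Finset ℕ) (M : ℝ) (hM : SupB A M) (N : ℕ) :
    ∑ p ∈ A ×ˢ A, ((rep N ((p.1 : ℤ) - (p.2 : ℤ)) : ℝ) - rep N ((p.1 : ℤ) + (p.2 : ℤ))) ≤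
      2 * N * M ^ 2 := by
  have hpi := Real.pi_pos
  have hle : ∫ θ in (0 : ℝ)..(2 * Real.pi), K (range N) θ * (∑ a ∈ A, Real.sin ((a : ℝ) * θ)) ^ 2 ≤
      ∫ θ in (0 : ℝ)..(2 * Real.pi), M ^ 2 * (K (range N) θ * Real.cos (((0 : ℤ) : ℝ) * θ)) := by
    apply intervalIntegral.integral_mono (by positivity)
    · exact ((K_cont _).mul (by fun_prop)).intervalIntegrable _ _
    · exact (continuous_const.mul ((K_cont _).mul (by fun_prop))).intervalIntegrable _ _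
    · intro θ
      simp only [Int.cast_zero, zero_mul, Real.cos_zero, mul_one]
      rw [mul_comm]
      apply mul_le_mul_of_nonneg_right _ (K_nonneg _ _)
      rw [← sq_abs]
      exact pow_le_pow_left₀ (abs_nonneg _) (hM θ) 2
  rw [intervalIntegral.integral_const_mul, int_K_cos] at hle
  have h0 : rep N 0 = N := by simpa using rep_nat N 0
  rw [h0] at hle
  have heq : ∫ θ in (0 : ℝ)..(2 * Real.pi), K (range N) θ * (∑ a ∈ A, Real.sin ((a : ℝ) * θ)) ^ 2 =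
      ∑ p ∈ A ×ˢ A, (Real.pi * rep N ((p.1 : ℤ) - (p.2 : ℤ)) -
        Real.pi * rep N ((p.1 : ℤ) + (p.2 : ℤ))) := by
    simp_rw [sin_sq_expand, Finset.mul_sum]
    have hc : ∀ p ∈ A ×ˢ A, IntervalIntegrable (fun θ : ℝ => K (range N) θ *
        ((1 / 2) * Real.cos ((((p.1 : ℤ) - (p.2 : ℤ) : ℤ) : ℝ) * θ) -
        (1 / 2) * Real.cos ((((p.1 : ℤ) + (p.2 : ℤ) : ℤ) : ℝ) * θ)))
        MeasureTheory.volume 0 (2 * Real.pi) := fun p _ =>
      Continuous.intervalIntegrable ((K_cont _).mul (by fun_prop)) _ _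
    rw [intervalIntegral.integral_finsetSum hc]
    refine Finset.sum_congr rfl fun p _ => ?_
    have e : ∀ θ : ℝ, K (range N) θ *
        ((1 / 2) * Real.cos ((((p.1 : ℤ) - (p.2 : ℤ) : ℤ) : ℝ) * θ) -
        (1 / 2) * Real.cos ((((p.1 : ℤ) + (p.2 : ℤ) : ℤ) : ℝ) * θ)) =
        (1 / 2) * (K (range N) θ * Real.cos ((((p.1 : ℤ) - (p.2 : ℤ) : ℤ) : ℝ) * θ)) -
        (1 / 2) * (K (range N) θ * Real.cos ((((p.1 : ℤ) + (p.2 : ℤ) : ℤ) : ℝ) * θ)) := by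
      intro θ; ring
    simp_rw [e]
    rw [intervalIntegral.integral_sub, intervalIntegral.integral_const_mul,
      intervalIntegral.integral_const_mul, int_K_cos, int_K_cos]
    · ring
    · exact (continuous_const.mul ((K_cont _).mul (by fun_prop))).intervalIntegrable _ _
    · exact (continuous_const.mul ((K_cont _).mul (by fun_prop))).intervalIntegrable _ _
  rw [heq] at hle
  simp_rw [← mul_sub] at hle
  rw [← Finset.mul_sum] at hle
  have : Real.pi * ∑ p ∈ A ×ˢ A, ((rep N ((p.1 : ℤ) - (p.2 : ℤ)) : ℝ) -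
      rep N ((p.1 : ℤ) + (p.2 : ℤ))) ≤ Real.pi * (2 * N * M ^ 2) := by linarith
  exact le_of_mul_le_mul_left this hpi

theorem bmo (A : Finset ℕ) (M : ℝ) (hM : SupB A M) (L : ℕ) (hL : 1 ≤ L) :
    ((((A ×ˢ A).filter (fun p => L ≤ p.1 ∧ L ≤ p.2 ∧ p.1 ≤ p.2 + L ∧ p.2 ≤ p.1 + L)).card : ℕ) : ℝ)
      ≤ 4 * M ^ 2 := by
  have h := bmo_sum A M hM (2 * L)
  have hnn : ∀ p ∈ A ×ˢ A, (0 : ℝ) ≤ (rep (2 * L) ((p.1 : ℤ) - (p.2 : ℤ)) : ℝ) -
      rep (2 * L) ((p.1 : ℤ) + (p.2 : ℤ)) := by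
    intro p _
    rw [sub_nonneg]
    have h1 := rep_eq (2 * L) ((p.1 : ℤ) - (p.2 : ℤ))
    have h2 := rep_eq (2 * L) ((p.1 : ℤ) + (p.2 : ℤ))
    have h3 : |(p.1 : ℤ) - (p.2 : ℤ)| ≤ |(p.1 : ℤ) + (p.2 : ℤ)| := by
      rw [abs_of_nonneg (by positivity : (0 : ℤ) ≤ (p.1 : ℤ) + (p.2 : ℤ)), abs_le]
      omega
    have : rep (2 * L) ((p.1 : ℤ) + (p.2 : ℤ)) ≤ rep (2 * L) ((p.1 : ℤ) - (p.2 : ℤ)) := by
      omega
    exact_mod_cast this
  have hsub := Finset.sum_le_sum_of_subset_of_nonneg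
    (Finset.filter_subset (fun p => L ≤ p.1 ∧ L ≤ p.2 ∧ p.1 ≤ p.2 + L ∧ p.2 ≤ p.1 + L) (A ×ˢ A))
    (fun p hp _ => hnn p hp)
  have hge : ∀ p ∈ (A ×ˢ A).filter (fun p => L ≤ p.1 ∧ L ≤ p.2 ∧ p.1 ≤ p.2 + L ∧ p.2 ≤ p.1 + L),
      (L : ℝ) ≤ (rep (2 * L) ((p.1 : ℤ) - (p.2 : ℤ)) : ℝ) -
      rep (2 * L) ((p.1 : ℤ) + (p.2 : ℤ)) := by
    intro p hp
    rw [mem_filter] at hp
    obtain ⟨_, ha, hb, hab, hba⟩ := hp
    have h1 := rep_eq (2 * L) ((p.1 : ℤ) - (p.2 : ℤ))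
    have h2 := rep_eq (2 * L) ((p.1 : ℤ) + (p.2 : ℤ))
    have h3 : |(p.1 : ℤ) - (p.2 : ℤ)| ≤ L := by rw [abs_le]; omega
    rw [abs_of_nonneg (by positivity : (0 : ℤ) ≤ (p.1 : ℤ) + (p.2 : ℤ))] at h2
    have h4 : rep (2 * L) ((p.1 : ℤ) + (p.2 : ℤ)) = 0 := by omega
    have h5 : L ≤ rep (2 * L) ((p.1 : ℤ) - (p.2 : ℤ)) := by omega
    rw [h4]
    simpa using (by exact_mod_cast h5 : (L : ℝ) ≤ rep (2 * L) ((p.1 : ℤ) - (p.2 : ℤ)))
  have hc := Finset.card_nsmul_le_sum _ _ _ hge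
  rw [nsmul_eq_mul] at hc
  have hL' : (0 : ℝ) < L := by exact_mod_cast hL
  have hfin : ((((A ×ˢ A).filter (fun p => L ≤ p.1 ∧ L ≤ p.2 ∧ p.1 ≤ p.2 + L ∧
      p.2 ≤ p.1 + L)).card : ℕ) : ℝ) * L ≤ (4 * M ^ 2) * L := by
    push_cast at h
    linarith
  exact le_of_mul_le_mul_right hfin hL'

theorem level_card (A : Finset ℕ) (M : ℝ) (hM : SupB A M) (j : ℕ) :
    ((win A j (j + 1)).card : ℝ) ≤ 2 * M := by
  have h := bmo A M hM (2 ^ j) Nat.one_le_two_pow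
  have hsub : win A j (j + 1) ×ˢ win A j (j + 1) ⊆ (A ×ˢ A).filter
      (fun p => 2 ^ j ≤ p.1 ∧ 2 ^ j ≤ p.2 ∧ p.1 ≤ p.2 + 2 ^ j ∧ p.2 ≤ p.1 + 2 ^ j) := by
    rintro ⟨a, b⟩ hab
    simp only [win, mem_product, mem_filter, pow_succ] at hab ⊢
    refine ⟨⟨hab.1.1, hab.2.1⟩, hab.1.2.1, hab.2.2.1, ?_, ?_⟩ <;> omega
  have hcard := Finset.card_le_card hsub
  rw [Finset.card_product] at hcard
  have h2 : ((win A j (j + 1)).card : ℝ) ^ 2 ≤ (2 * M) ^ 2 := by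
    have : (((win A j (j + 1)).card * (win A j (j + 1)).card : ℕ) : ℝ) ≤ 4 * M ^ 2 :=
      le_trans (by exact_mod_cast hcard) h
    push_cast at this
    nlinarith
  exact le_of_sq_le_sq h2 (by have := hM.nonneg; positivity) |>.trans le_rfl

/-! ### Weighted additive energy -/

theorem K_sq (Z : Finset ℕ) (θ : ℝ) :
    (K Z θ) ^ 2 = ∑ a ∈ Z, ∑ b ∈ Z, ∑ c ∈ Z, ∑ d ∈ Z,
      Real.cos ((((a : ℤ) + (b : ℤ) - (c : ℤ) - (d : ℤ) : ℤ) : ℝ) * θ) := by
  have h1 : (K Z θ) ^ 2 = ∑ a ∈ Z, ∑ c ∈ Z, ∑ b ∈ Z, ∑ d ∈ Z,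
      Real.cos ((((a : ℤ) - (c : ℤ) : ℤ) : ℝ) * θ) * Real.cos ((((b : ℤ) - (d : ℤ) : ℤ) : ℝ) * θ) := by
    unfold K
    rw [sq, Finset.sum_mul]
    refine Finset.sum_congr rfl fun a _ => ?_
    rw [Finset.sum_mul]
    refine Finset.sum_congr rfl fun c _ => ?_
    rw [Finset.mul_sum]
    refine Finset.sum_congr rfl fun b _ => ?_
    rw [Finset.mul_sum]
  have h2 : ∀ a c : ℕ, ∑ b ∈ Z, ∑ d ∈ Z,
      Real.cos ((((a : ℤ) - (c : ℤ) : ℤ) : ℝ) * θ) * Real.cos ((((b : ℤ) - (d : ℤ) : ℤ) : ℝ) * θ) =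
      ∑ b ∈ Z, ∑ d ∈ Z, Real.cos ((((a : ℤ) + (b : ℤ) - (c : ℤ) - (d : ℤ) : ℤ) : ℝ) * θ) := by
    intro a c
    have e : ∀ b d : ℕ, Real.cos ((((a : ℤ) - (c : ℤ) : ℤ) : ℝ) * θ) *
        Real.cos ((((b : ℤ) - (d : ℤ) : ℤ) : ℝ) * θ) =
        (1 / 2) * Real.cos ((((a : ℤ) + (b : ℤ) - (c : ℤ) - (d : ℤ) : ℤ) : ℝ) * θ) +
        (1 / 2) * Real.cos ((((a : ℤ) + (d : ℤ) - (c : ℤ) - (b : ℤ) : ℤ) : ℝ) * θ) := by
      intro b d
      have e1 : (((a : ℤ) + (b : ℤ) - (c : ℤ) - (d : ℤ) : ℤ) : ℝ) * θ =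
        (((a : ℤ) - (c : ℤ) : ℤ) : ℝ) * θ + (((b : ℤ) - (d : ℤ) : ℤ) : ℝ) * θ := by
        push_cast; ring
      have e2 : (((a : ℤ) + (d : ℤ) - (c : ℤ) - (b : ℤ) : ℤ) : ℝ) * θ =
        (((a : ℤ) - (c : ℤ) : ℤ) : ℝ) * θ - (((b : ℤ) - (d : ℤ) : ℤ) : ℝ) * θ := by
        push_cast; ring
      rw [e1, e2, Real.cos_add, Real.cos_sub]
      ring
    simp_rw [e, Finset.sum_add_distrib, ← Finset.mul_sum]
    rw [Finset.sum_comm (f := fun (b d : ℕ) =>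
      Real.cos ((((a : ℤ) + (d : ℤ) - (c : ℤ) - (b : ℤ) : ℤ) : ℝ) * θ))]
    ring
  rw [h1]
  refine Finset.sum_congr rfl fun a _ => ?_
  rw [Finset.sum_congr rfl fun c _ => h2 a c, Finset.sum_comm]

theorem En_eq (W : ℕ) (hW : 1 ≤ W) (Z : Finset ℕ) :
    ∫ θ in (0 : ℝ)..(2 * Real.pi), K (range W) θ * (K Z θ) ^ 2 = 2 * Real.pi * W * En W Z := by
  simp_rw [K_sq, Finset.mul_sum]
  have c1 : ∀ a b c d : ℕ, Continuous fun θ : ℝ => K (range W) θ *
      Real.cos ((((a : ℤ) + (b : ℤ) - (c : ℤ) - (d : ℤ) : ℤ) : ℝ) * θ) := by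
    intro a b c d
    exact (K_cont _).mul (by fun_prop)
  unfold En
  rw [intervalIntegral.integral_finsetSum (fun a _ => (continuous_finsetSum _ fun b _ =>
    continuous_finsetSum _ fun c _ => continuous_finsetSum _ fun d _ =>
      c1 a b c d).intervalIntegrable _ _), Finset.mul_sum]
  refine Finset.sum_congr rfl fun a _ => ?_
  rw [intervalIntegral.integral_finsetSum (fun b _ => (
    continuous_finsetSum _ fun c _ => continuous_finsetSum _ fun d _ =>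
      c1 a b c d).intervalIntegrable _ _), Finset.mul_sum]
  refine Finset.sum_congr rfl fun b _ => ?_
  rw [intervalIntegral.integral_finsetSum (fun c _ => (continuous_finsetSum _ fun d _ =>
      c1 a b c d).intervalIntegrable _ _), Finset.mul_sum]
  refine Finset.sum_congr rfl fun c _ => ?_
  rw [intervalIntegral.integral_finsetSum (fun d _ => (c1 a b c d).intervalIntegrable _ _),
    Finset.mul_sum]
  refine Finset.sum_congr rfl fun d _ => ?_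
  rw [int_K_cos, rep_tri W hW]
  ring

/-- The energy of a disjoint union of `q` sets is at most `q³` times the sum of the energies. -/
theorem energy_union (W : ℕ) (hW : 1 ≤ W) (F : Finset (Finset ℕ))
    (hF : (F : Set (Finset ℕ)).PairwiseDisjoint id) :
    En W (F.biUnion id) ≤ (F.card : ℝ) ^ 3 * ∑ Λ ∈ F, En W Λ := by
  have hpt : ∀ θ : ℝ, K (range W) θ * (K (F.biUnion id) θ) ^ 2 ≤
      (F.card : ℝ) ^ 3 * ∑ Λ ∈ F, K (range W) θ * (K Λ θ) ^ 2 := by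
    intro θ
    rw [← Finset.mul_sum, mul_left_comm]
    apply mul_le_mul_of_nonneg_left _ (K_nonneg _ _)
    have h1 : K (F.biUnion id) θ ≤ F.card * ∑ Λ ∈ F, K Λ θ := by
      simp_rw [K_eq]
      rw [Finset.sum_biUnion hF, Finset.sum_biUnion hF, Finset.sum_add_distrib, mul_add]
      exact add_le_add sq_sum_le_card_mul_sum_sq sq_sum_le_card_mul_sum_sq
    calc (K (F.biUnion id) θ) ^ 2 ≤ (F.card * ∑ Λ ∈ F, K Λ θ) ^ 2 :=
          pow_le_pow_left₀ (K_nonneg _ _) h1 2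
      _ = (F.card : ℝ) ^ 2 * (∑ Λ ∈ F, K Λ θ) ^ 2 := by ring
      _ ≤ (F.card : ℝ) ^ 2 * (F.card * ∑ Λ ∈ F, (K Λ θ) ^ 2) := by
          apply mul_le_mul_of_nonneg_left sq_sum_le_card_mul_sum_sq (by positivity)
      _ = (F.card : ℝ) ^ 3 * ∑ Λ ∈ F, (K Λ θ) ^ 2 := by ring
  have hpi := Real.pi_pos
  have hint : ∀ Z : Finset ℕ, Continuous fun θ : ℝ => K (range W) θ * (K Z θ) ^ 2 :=
    fun Z => (K_cont _).mul ((K_cont _).pow 2)
  have h2 : ∫ θ in (0 : ℝ)..(2 * Real.pi), K (range W) θ * (K (F.biUnion id) θ) ^ 2 ≤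
      ∫ θ in (0 : ℝ)..(2 * Real.pi), (F.card : ℝ) ^ 3 * ∑ Λ ∈ F, K (range W) θ * (K Λ θ) ^ 2 :=
    intervalIntegral.integral_mono (by positivity : (0 : ℝ) ≤ 2 * Real.pi)
      ((hint (F.biUnion id)).intervalIntegrable (μ := MeasureTheory.volume) _ _)
      ((continuous_const.mul (continuous_finsetSum _ fun Λ _ => hint Λ)).intervalIntegrable _ _)
      hpt
  rw [En_eq W hW, intervalIntegral.integral_const_mul,
    intervalIntegral.integral_finsetSum (fun Λ _ => (hint Λ).intervalIntegrable _ _)] at h2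
  simp_rw [En_eq W hW] at h2
  rw [← Finset.mul_sum] at h2
  have hW' : (0 : ℝ) < 2 * Real.pi * W := by
    have : (0 : ℝ) < W := by exact_mod_cast hW
    positivity
  have h3 : 2 * Real.pi * W * En W (F.biUnion id) ≤
      2 * Real.pi * W * ((F.card : ℝ) ^ 3 * ∑ Λ ∈ F, En W Λ) := by
    calc _ ≤ _ := h2
      _ = _ := by ring
  exact le_of_mul_le_mul_left h3 hW'

end Pool.Agent.LibBohr
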