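import Pool.Agent.LibBohr.Mart

set_option autoImplicit false

namespace Pool.Agent.LibBohr

open Finset Real

theorem gE_weight_bound (H : ℕ) {P g F : ℕ → ℝ} {β C : ℝ} (hP : ∀ x, 0 ≤ P x) (hP1 : gE H P = 1)
    (hg : ∀ x, |g x| ≤ β) (hF : ∀ x, |F x| ≤ C) :
    |gE H (fun x => (P x * g x) * F x)| ≤ β * C := by
  refine (abs_gE_le H _).trans ?_
  have hβ : 0 ≤ β := (abs_nonneg _).trans (hg 0)
  have h : gE H (fun x => |P x * g x * F x|) ≤ gE H (fun x => (β * C) * P x) := by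
    apply gE_mono; intro x
    rw [abs_mul, abs_mul, abs_of_nonneg (hP x)]
    have h1 : |g x| * |F x| ≤ β * C := mul_le_mul (hg x) (hF x) (abs_nonneg _) hβ
    calc P x * |g x| * |F x| = P x * (|g x| * |F x|) := by ring
      _ ≤ P x * (β * C) := mul_le_mul_of_nonneg_left h1 (hP x)
      _ = β * C * P x := by ring
  rw [gE_const_mul, hP1, mul_one] at h
  exact h

section coef

variable {H : ℕ} {lam B : ℝ} {s e : ℕ → ℕ} {f : ℕ → ℝ} {J : ℕ}

/-- step of the recursion -/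
theorem coef_step (i : ℕ) (u : ℤ) (ψ : ℝ) :
    gE H (fun x => Pseq H lam B s e f (i + 1) x * gcos H u ψ x) =
      gE H (fun x => Pseq H lam B s e f i x * gcos H u ψ x) +
      gE H (fun x => (Pseq H lam B s e f i x * gfac H lam B (s i) (e i) f x) * gcos H u ψ x) := by
  rw [← gE_add]
  apply gE_congr; intro x; simp only [Pseq]; ring

theorem coef_step1 (hse : ∀ i, i < J → s i ≤ e i) (hes : ∀ i, i + 1 < J → e i ≤ s (i + 1))
    (heH : ∀ i, i < J → e i ≤ H) (hlam : 0 ≤ lam) (hB : 0 ≤ B) (hβ : 2 * lam * B ≤ 1)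
    {i : ℕ} (hi : i < J) (u : ℤ) (hu0 : u ≠ 0) (hu : 2 * |u| ≤ 2 ^ H) (ψ : ℝ) :
    |gE H (fun x => (Pseq H lam B s e f i x * gfac H lam B (s i) (e i) f x) * gcos H u ψ x)| ≤
      (2 * lam * B) * (2 ^ (e i) / (2 * |(u : ℝ)|)) := by
  have hm : Meas H (e i) (fun x => Pseq H lam B s e f i x * gfac H lam B (s i) (e i) f x) := by
    have hs := hse i hi
    have he := heH i hi
    exact ((meas_Pseq_s hse hes hi (hs.trans he)).mono hs he).mul (meas_gfac lam B hs he f)
  have h1 := gE_mul_ce (heH i hi) hm (gcos H u ψ)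
  rw [← h1]
  exact gE_weight_bound H (Pseq_nonneg hlam hB hβ i) (gE_Pseq hse hes heH hi.le)
    (gfac_abs_le hlam hB f) (ce_gcos_bound (heH i hi) u hu0 hu ψ)

theorem coef_step2 (hse : ∀ i, i < J → s i ≤ e i) (hes : ∀ i, i + 1 < J → e i ≤ s (i + 1))
    (heH : ∀ i, i < J → e i ≤ H) (hlam : 0 ≤ lam) (hB : 0 ≤ B) (hβ : 2 * lam * B ≤ 1)
    {i : ℕ} (hi : i < J) (u : ℤ) (ψ : ℝ) :
    |gE H (fun x => (Pseq H lam B s e f i x * gfac H lam B (s i) (e i) f x) * gcos H u ψ x)| ≤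
      (2 * lam * B) * (2 * π * |(u : ℝ)| / 2 ^ (s i)) := by
  have hsH : s i ≤ H := (hse i hi).trans (heH i hi)
  have hm : Meas H (s i) (fun x => Pseq H lam B s e f i x * ce H (s i) (gcos H u ψ) x) :=
    (meas_Pseq_s hse hes hi hsH).mul (meas_ce H (s i) _)
  have h0 := gE_mul_gfac hsH lam B f hm (e := e i)
  have h1 : gE H (fun x => (Pseq H lam B s e f i x * gfac H lam B (s i) (e i) f x) * gcos H u ψ x) =
      gE H (fun x => (Pseq H lam B s e f i x * gfac H lam B (s i) (e i) f x) *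
        (gcos H u ψ x - ce H (s i) (gcos H u ψ) x)) := by
    have h2 : gE H (fun x => (Pseq H lam B s e f i x * gfac H lam B (s i) (e i) f x) *
        (gcos H u ψ x - ce H (s i) (gcos H u ψ) x)) =
        gE H (fun x => (Pseq H lam B s e f i x * gfac H lam B (s i) (e i) f x) * gcos H u ψ x) -
        gE H (fun x => (Pseq H lam B s e f i x * ce H (s i) (gcos H u ψ) x) *
          gfac H lam B (s i) (e i) f x) := by
      rw [← gE_sub]
      apply gE_congr; intro x; ring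
    rw [h2, h0, sub_zero]
  rw [h1]
  exact gE_weight_bound H (Pseq_nonneg hlam hB hβ i) (gE_Pseq hse hes heH hi.le)
    (gfac_abs_le hlam hB f) (gcos_sub_ce_bound hsH u ψ)

theorem coef_step3 (hse : ∀ i, i < J → s i ≤ e i) (hes : ∀ i, i + 1 < J → e i ≤ s (i + 1))
    (heH : ∀ i, i < J → e i ≤ H) (hlam : 0 ≤ lam) (hB : 0 ≤ B) (hβ : 2 * lam * B ≤ 1)
    {i : ℕ} (hi : i < J) (u : ℤ) (ψ : ℝ) :
    |gE H (fun x => (Pseq H lam B s e f i x * gfac H lam B (s i) (e i) f x) * gcos H u ψ x)| ≤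
      2 * lam * B := by
  have h := gE_weight_bound H (Pseq_nonneg (f := f) hlam hB hβ i) (gE_Pseq hse hes heH hi.le)
    (gfac_abs_le (H := H) (s := s i) (e := e i) hlam hB f) (gcos_abs_le H u ψ)
  rwa [mul_one] at h

theorem coef_bound1 (hse : ∀ i, i < J → s i + 1 ≤ e i) (hes : ∀ i, i + 1 < J → e i ≤ s (i + 1))
    (heH : ∀ i, i < J → e i ≤ H) (hlam : 0 ≤ lam) (hB : 0 ≤ B) (hβ : 2 * lam * B ≤ 1)
    (u : ℤ) (hu0 : u ≠ 0) (hu : 2 * |u| ≤ 2 ^ H) (ψ : ℝ) {i : ℕ} (hi : i < J) :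
    |gE H (fun x => Pseq H lam B s e f i x * gcos H u ψ x)| ≤
      (2 * lam * B) * (2 ^ (s i) / |(u : ℝ)|) := by
  have hβ0 : 0 ≤ 2 * lam * B := by positivity
  have hupos : 0 < |(u : ℝ)| := abs_pos.mpr (by exact_mod_cast hu0)
  have hse' : ∀ i, i < J → s i ≤ e i := fun i hi => (Nat.le_succ _).trans (hse i hi)
  induction i with
  | zero =>
    have h0 : gE H (fun x => Pseq H lam B s e f 0 x * gcos H u ψ x) = 0 := by
      simp only [Pseq, one_mul]
      exact gE_gcos_zero u hu0 hu ψ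
    rw [h0, abs_zero]
    positivity
  | succ i ih =>
    have h1 := ih (by omega)
    have h2 := coef_step1 (f := f) hse' hes heH hlam hB hβ (show i < J by omega) u hu0 hu ψ
    rw [coef_step]
    have h3 : (2 : ℝ) ^ (s i) ≤ 2 ^ (e i) / 2 := by
      rw [le_div_iff₀ (by norm_num), ← pow_succ]
      exact pow_le_pow_right₀ (by norm_num) (hse i (by omega))
    have h4 : (2 : ℝ) ^ (e i) ≤ 2 ^ (s (i + 1)) := pow_le_pow_right₀ (by norm_num) (hes i hi)
    calc _ ≤ _ := abs_add_le _ _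
      _ ≤ (2 * lam * B) * (2 ^ (s i) / |(u : ℝ)|) + (2 * lam * B) * (2 ^ (e i) / (2 * |(u : ℝ)|)) :=
          add_le_add h1 h2
      _ ≤ (2 * lam * B) * ((2 ^ (e i) / 2) / |(u : ℝ)|) + (2 * lam * B) * (2 ^ (e i) / (2 * |(u : ℝ)|)) := by
          gcongr
      _ = (2 * lam * B) * (2 ^ (e i) / |(u : ℝ)|) := by field_simp; ring
      _ ≤ _ := by gcongr

theorem coef_bound2 (hse : ∀ i, i < J → s i + 1 ≤ e i) (hes : ∀ i, i + 1 < J → e i ≤ s (i + 1))
    (heH : ∀ i, i < J → e i ≤ H) (hlam : 0 ≤ lam) (hB : 0 ≤ B) (hβ : 2 * lam * B ≤ 1)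
    (u : ℤ) (hu0 : u ≠ 0) (hu : 2 * |u| ≤ 2 ^ H) (ψ : ℝ) {i : ℕ} (hi : i < J) :
    |gE H (fun x => Pseq H lam B s e f i x * gcos H u ψ x)| ≤ 15 * (2 * lam * B) := by
  have hβ0 : 0 ≤ 2 * lam * B := by positivity
  have hupos : 0 < |(u : ℝ)| := abs_pos.mpr (by exact_mod_cast hu0)
  have hse' : ∀ i, i < J → s i ≤ e i := fun i hi => (Nat.le_succ _).trans (hse i hi)
  have hπ := Real.pi_pos
  have hsmall : ∀ i, i < J → (2 : ℝ) ^ (s i) ≤ |(u : ℝ)| →
      |gE H (fun x => Pseq H lam B s e f i x * gcos H u ψ x)| ≤ 2 * lam * B := by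
    intro i hi h
    have h1 := coef_bound1 (f := f) hse hes heH hlam hB hβ u hu0 hu ψ hi
    have h2 : (2 : ℝ) ^ (s i) / |(u : ℝ)| ≤ 1 := (div_le_one hupos).mpr h
    calc _ ≤ _ := h1
      _ ≤ (2 * lam * B) * 1 := by gcongr
      _ = _ := mul_one _
  have hlarge : ∀ i, i < J → |(u : ℝ)| < (2 : ℝ) ^ (s i) →
      |gE H (fun x => Pseq H lam B s e f i x * gcos H u ψ x)| ≤
        (2 * lam * B) * (2 + 4 * π - 4 * π * (|(u : ℝ)| / 2 ^ (s i))) := by
    intro i
    induction i with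
    | zero =>
      intro hi h
      have h0 : gE H (fun x => Pseq H lam B s e f 0 x * gcos H u ψ x) = 0 := by
        simp only [Pseq, one_mul]
        exact gE_gcos_zero u hu0 hu ψ
      rw [h0, abs_zero]
      have h1 : |(u : ℝ)| / 2 ^ (s 0) ≤ 1 := (div_le_one (by positivity)).mpr h.le
      apply mul_nonneg hβ0
      nlinarith
    | succ i ih =>
      intro hi h
      have h1 : |(u : ℝ)| / 2 ^ (s (i + 1)) ≤ 1 := (div_le_one (by positivity)).mpr h.le
      rw [coef_step]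
      refine (abs_add_le _ _).trans ?_
      rcases le_or_gt ((2 : ℝ) ^ (s i)) |(u : ℝ)| with hc | hc
      · have h2 := hsmall i (by omega) hc
        have h3 := coef_step3 (f := f) hse' hes heH hlam hB hβ (show i < J by omega) u ψ
        calc _ ≤ 2 * lam * B + 2 * lam * B := add_le_add h2 h3
          _ = (2 * lam * B) * 2 := by ring
          _ ≤ _ := by
              apply mul_le_mul_of_nonneg_left _ hβ0
              nlinarith
      · have h2 := ih (by omega) hc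
        have h3 := coef_step2 (f := f) hse' hes heH hlam hB hβ (show i < J by omega) u ψ
        calc _ ≤ (2 * lam * B) * (2 + 4 * π - 4 * π * (|(u : ℝ)| / 2 ^ (s i))) +
              (2 * lam * B) * (2 * π * |(u : ℝ)| / 2 ^ (s i)) := add_le_add h2 h3
          _ = (2 * lam * B) * (2 + 4 * π - 2 * π * (|(u : ℝ)| / 2 ^ (s i))) := by ring
          _ ≤ _ := by
              apply mul_le_mul_of_nonneg_left _ hβ0
              have h4 : (2 : ℝ) * 2 ^ (s i) ≤ 2 ^ (s (i + 1)) := by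
                rw [mul_comm, ← pow_succ]
                exact pow_le_pow_right₀ (by norm_num) ((hse i (by omega)).trans (hes i hi))
              have h5 : |(u : ℝ)| / 2 ^ (s (i + 1)) ≤ |(u : ℝ)| / (2 * 2 ^ (s i)) := by
                gcongr
              have h6 : |(u : ℝ)| / (2 * 2 ^ (s i)) = (|(u : ℝ)| / 2 ^ (s i)) / 2 := by
                field_simp
              rw [h6] at h5
              nlinarith
  have hp : π < 3.15 := Real.pi_lt_d2
  rcases le_or_gt ((2 : ℝ) ^ (s i)) |(u : ℝ)| with hc | hc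
  · have := hsmall i hi hc
    linarith
  · have h1 := hlarge i hi hc
    refine h1.trans ?_
    rw [mul_comm 15]
    apply mul_le_mul_of_nonneg_left _ hβ0
    have h2 : 0 ≤ |(u : ℝ)| / 2 ^ (s i) := by positivity
    nlinarith

end coef

end Pool.Agent.LibBohr
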