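import Mathlib

set_option autoImplicit false

namespace Pool.Agent.LibBohr

open Finset

/-- Average over the grid of `2^H` points. -/
noncomputable def gE (H : ℕ) (f : ℕ → ℝ) : ℝ := (∑ x ∈ range (2 ^ H), f x) / 2 ^ H

/-- Conditional expectation on the dyadic blocks at level `t`. -/
noncomputable def ce (H t : ℕ) (f : ℕ → ℝ) (x : ℕ) : ℝ :=
  (∑ y ∈ range (2 ^ (H - t)), f (x / 2 ^ (H - t) * 2 ^ (H - t) + y)) / 2 ^ (H - t)

/-- Measurability with respect to the dyadic blocks at level `t`. -/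
def Meas (H t : ℕ) (g : ℕ → ℝ) : Prop :=
  ∀ x y, x / 2 ^ (H - t) = y / 2 ^ (H - t) → g x = g y

theorem sum_range_mul_block (a b : ℕ) (f : ℕ → ℝ) :
    ∑ x ∈ range (a * b), f x = ∑ k ∈ range a, ∑ y ∈ range b, f (k * b + y) := by
  induction a with
  | zero => simp
  | succ a ih =>
    rw [Finset.sum_range_succ, ← ih, Nat.succ_mul, Finset.sum_range_add]

theorem pow_split {H t : ℕ} (h : t ≤ H) : (2 : ℕ) ^ H = 2 ^ t * 2 ^ (H - t) := by
  rw [← pow_add]; congr 1; omega

theorem Meas.const (H t : ℕ) (c : ℝ) : Meas H t (fun _ => c) := fun _ _ _ => rfl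

theorem Meas.mono {H s t : ℕ} (hst : s ≤ t) (htH : t ≤ H) {g : ℕ → ℝ} (hg : Meas H s g) :
    Meas H t g := by
  intro x y hxy
  apply hg
  have h : (2 : ℕ) ^ (H - s) = 2 ^ (H - t) * 2 ^ (t - s) := by
    rw [← pow_add]; congr 1; omega
  rw [h, ← Nat.div_div_eq_div_mul, ← Nat.div_div_eq_div_mul, hxy]

theorem Meas.mul {H t : ℕ} {f g : ℕ → ℝ} (hf : Meas H t f) (hg : Meas H t g) :
    Meas H t (fun x => f x * g x) := by
  intro x y h
  simp only [hf x y h, hg x y h]

theorem Meas.add {H t : ℕ} {f g : ℕ → ℝ} (hf : Meas H t f) (hg : Meas H t g) :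
    Meas H t (fun x => f x + g x) := by
  intro x y h
  simp only [hf x y h, hg x y h]

theorem Meas.sub {H t : ℕ} {f g : ℕ → ℝ} (hf : Meas H t f) (hg : Meas H t g) :
    Meas H t (fun x => f x - g x) := by
  intro x y h
  simp only [hf x y h, hg x y h]

theorem Meas.comp {H t : ℕ} {f : ℕ → ℝ} (hf : Meas H t f) (φ : ℝ → ℝ) :
    Meas H t (fun x => φ (f x)) := by
  intro x y h
  simp only [hf x y h]

theorem meas_ce (H t : ℕ) (f : ℕ → ℝ) : Meas H t (ce H t f) := by
  intro x y h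
  simp only [ce, h]

theorem gE_add (H : ℕ) (f g : ℕ → ℝ) : gE H (fun x => f x + g x) = gE H f + gE H g := by
  simp only [gE, Finset.sum_add_distrib, add_div]

theorem gE_sub (H : ℕ) (f g : ℕ → ℝ) : gE H (fun x => f x - g x) = gE H f - gE H g := by
  simp only [gE, Finset.sum_sub_distrib, sub_div]

theorem gE_const_mul (H : ℕ) (c : ℝ) (f : ℕ → ℝ) :
    gE H (fun x => c * f x) = c * gE H f := by
  simp only [gE, ← Finset.mul_sum, mul_div_assoc]

theorem gE_sum {ι : Type*} (H : ℕ) (s : Finset ι) (f : ι → ℕ → ℝ) :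
    gE H (fun x => ∑ i ∈ s, f i x) = ∑ i ∈ s, gE H (f i) := by
  simp only [gE]
  rw [Finset.sum_comm, Finset.sum_div]

theorem gE_const (H : ℕ) (c : ℝ) : gE H (fun _ => c) = c := by
  simp only [gE, Finset.sum_const, Finset.card_range, nsmul_eq_mul]
  push_cast
  field_simp

theorem gE_mono (H : ℕ) {f g : ℕ → ℝ} (h : ∀ x, f x ≤ g x) : gE H f ≤ gE H g := by
  simp only [gE]
  gcongr
  exact h _

theorem gE_nonneg (H : ℕ) {f : ℕ → ℝ} (h : ∀ x, 0 ≤ f x) : 0 ≤ gE H f := by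
  have := gE_mono H h
  rwa [gE_const] at this

theorem gE_congr (H : ℕ) {f g : ℕ → ℝ} (h : ∀ x, f x = g x) : gE H f = gE H g := by
  have : f = g := funext h
  rw [this]

theorem abs_gE_le (H : ℕ) (f : ℕ → ℝ) : |gE H f| ≤ gE H (fun x => |f x|) := by
  simp only [gE]
  rw [abs_div, abs_of_pos (by positivity : (0 : ℝ) < 2 ^ H)]
  gcongr
  exact Finset.abs_sum_le_sum_abs _ _

/-- Cauchy-Schwarz with a nonnegative weight. -/
theorem gE_cauchy (H : ℕ) (P f g : ℕ → ℝ) (hP : ∀ x, 0 ≤ P x) :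
    (gE H (fun x => P x * (f x * g x))) ^ 2 ≤
      gE H (fun x => P x * f x ^ 2) * gE H (fun x => P x * g x ^ 2) := by
  simp only [gE]
  rw [div_pow, div_mul_div_comm, ← sq]
  gcongr
  apply Finset.sum_sq_le_sum_mul_sum_of_sq_le_mul
  · intro i _; exact mul_nonneg (hP i) (sq_nonneg _)
  · intro i _; exact mul_nonneg (hP i) (sq_nonneg _)
  · intro i _; exact le_of_eq (by ring)

/-- Key identity: averaging against a block-measurable function. -/
theorem gE_mul_ce {H t : ℕ} (htH : t ≤ H) {g : ℕ → ℝ} (hg : Meas H t g) (f : ℕ → ℝ) :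
    gE H (fun x => g x * ce H t f x) = gE H (fun x => g x * f x) := by
  simp only [gE]
  congr 1
  rw [pow_split htH, sum_range_mul_block, sum_range_mul_block]
  apply Finset.sum_congr rfl
  intro k _
  have hb : 0 < 2 ^ (H - t) := by positivity
  have hdiv : ∀ y ∈ range (2 ^ (H - t)), (k * 2 ^ (H - t) + y) / 2 ^ (H - t) = k := by
    intro y hy
    rw [Finset.mem_range] at hy
    rw [Nat.mul_comm k, Nat.mul_add_div hb, Nat.div_eq_of_lt hy, Nat.add_zero]
  have h1 : ∀ y ∈ range (2 ^ (H - t)), g (k * 2 ^ (H - t) + y) * ce H t f (k * 2 ^ (H - t) + y)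
      = g (k * 2 ^ (H - t)) * ((∑ z ∈ range (2 ^ (H - t)), f (k * 2 ^ (H - t) + z)) / 2 ^ (H - t)) := by
    intro y hy
    simp only [ce]
    rw [hdiv y hy]
    congr 1
    apply hg
    rw [hdiv y hy, Nat.mul_div_cancel _ hb]
  have h2 : ∀ y ∈ range (2 ^ (H - t)), g (k * 2 ^ (H - t) + y) * f (k * 2 ^ (H - t) + y)
      = g (k * 2 ^ (H - t)) * f (k * 2 ^ (H - t) + y) := by
    intro y hy
    congr 1
    apply hg
    rw [hdiv y hy, Nat.mul_div_cancel _ hb]
  rw [Finset.sum_congr rfl h1, Finset.sum_congr rfl h2, Finset.sum_const, ← Finset.mul_sum,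
    Finset.card_range, nsmul_eq_mul]
  push_cast
  field_simp

theorem gE_mul_ce' {H t : ℕ} (htH : t ≤ H) {g : ℕ → ℝ} (hg : Meas H t g) (f : ℕ → ℝ) :
    gE H (fun x => g x * (f x - ce H t f x)) = 0 := by
  have h : (fun x => g x * (f x - ce H t f x)) = (fun x => g x * f x - g x * ce H t f x) := by
    funext x; ring
  rw [h, gE_sub, gE_mul_ce htH hg, sub_self]

theorem ce_abs_le {H t : ℕ} {f : ℕ → ℝ} {C : ℝ} (h : ∀ x, |f x| ≤ C) (x : ℕ) :
    |ce H t f x| ≤ C := by
  simp only [ce]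
  rw [abs_div, abs_of_pos (by positivity : (0 : ℝ) < 2 ^ (H - t)), div_le_iff₀ (by positivity)]
  calc |∑ y ∈ range (2 ^ (H - t)), f (x / 2 ^ (H - t) * 2 ^ (H - t) + y)|
      ≤ ∑ y ∈ range (2 ^ (H - t)), |f (x / 2 ^ (H - t) * 2 ^ (H - t) + y)| :=
        Finset.abs_sum_le_sum_abs _ _
    _ ≤ ∑ _y ∈ range (2 ^ (H - t)), C := Finset.sum_le_sum (fun y _ => h _)
    _ = C * 2 ^ (H - t) := by
        rw [Finset.sum_const, Finset.card_range, nsmul_eq_mul]; push_cast; ring

theorem ce_sum {ι : Type*} (H t : ℕ) (s : Finset ι) (f : ι → ℕ → ℝ) (x : ℕ) :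
    ce H t (fun x => ∑ i ∈ s, f i x) x = ∑ i ∈ s, ce H t (f i) x := by
  simp only [ce]
  rw [Finset.sum_comm, Finset.sum_div]

theorem ce_add (H t : ℕ) (f g : ℕ → ℝ) (x : ℕ) :
    ce H t (fun x => f x + g x) x = ce H t f x + ce H t g x := by
  simp only [ce, Finset.sum_add_distrib, add_div]

theorem ce_const_mul (H t : ℕ) (c : ℝ) (f : ℕ → ℝ) (x : ℕ) :
    ce H t (fun x => c * f x) x = c * ce H t f x := by
  simp only [ce, ← Finset.mul_sum, mul_div_assoc]

/-- Weighted conditional Jensen. -/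
theorem gE_ce_sq_le {H t : ℕ} (htH : t ≤ H) {P : ℕ → ℝ} (hP : Meas H t P) (hP0 : ∀ x, 0 ≤ P x)
    (f : ℕ → ℝ) :
    gE H (fun x => P x * ce H t f x ^ 2) ≤ gE H (fun x => P x * f x ^ 2) := by
  have h1 : gE H (fun x => (P x * ce H t f x) * ce H t f x) =
      gE H (fun x => (P x * ce H t f x) * f x) :=
    gE_mul_ce htH (hP.mul (meas_ce H t f)) f
  have h2 : 0 ≤ gE H (fun x => P x * (f x - ce H t f x) ^ 2) :=
    gE_nonneg H (fun x => mul_nonneg (hP0 x) (sq_nonneg _))
  have h3 : gE H (fun x => P x * (f x - ce H t f x) ^ 2) =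
      gE H (fun x => P x * f x ^ 2) - 2 * gE H (fun x => (P x * ce H t f x) * f x)
        + gE H (fun x => (P x * ce H t f x) * ce H t f x) := by
    rw [← gE_const_mul, ← gE_sub, ← gE_add]
    apply gE_congr; intro x; ring
  have h4 : gE H (fun x => (P x * ce H t f x) * ce H t f x) = gE H (fun x => P x * ce H t f x ^ 2) := by
    apply gE_congr; intro x; ring
  rw [h3, ← h1, h4] at h2
  linarith

/-- Second moment of a martingale difference is at most the second moment. -/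
theorem gE_diff_sq_le {H s t : ℕ} (hst : s ≤ t) (htH : t ≤ H) {P : ℕ → ℝ} (hP : Meas H s P)
    (hP0 : ∀ x, 0 ≤ P x) (f : ℕ → ℝ) :
    gE H (fun x => P x * (ce H t f x - ce H s f x) ^ 2) ≤ gE H (fun x => P x * f x ^ 2) := by
  have hsH : s ≤ H := hst.trans htH
  have hPt : Meas H t P := hP.mono hst htH
  have hm : Meas H s (fun x => P x * ce H s f x) := hP.mul (meas_ce H s f)
  have h1 : gE H (fun x => (P x * ce H s f x) * ce H t f x) =
      gE H (fun x => (P x * ce H s f x) * f x) :=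
    gE_mul_ce htH (hm.mono hst htH) f
  have h2 : gE H (fun x => (P x * ce H s f x) * ce H s f x) =
      gE H (fun x => (P x * ce H s f x) * f x) :=
    gE_mul_ce hsH hm f
  have h3 : gE H (fun x => P x * (ce H t f x - ce H s f x) ^ 2) =
      gE H (fun x => P x * ce H t f x ^ 2) - 2 * gE H (fun x => (P x * ce H s f x) * ce H t f x)
        + gE H (fun x => (P x * ce H s f x) * ce H s f x) := by
    rw [← gE_const_mul, ← gE_sub, ← gE_add]
    apply gE_congr; intro x; ring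
  have h4 : 0 ≤ gE H (fun x => P x * ce H s f x ^ 2) :=
    gE_nonneg H (fun x => mul_nonneg (hP0 x) (sq_nonneg _))
  have h5 : gE H (fun x => (P x * ce H s f x) * ce H s f x) = gE H (fun x => P x * ce H s f x ^ 2) := by
    apply gE_congr; intro x; ring
  have h6 := gE_ce_sq_le htH hPt hP0 f
  rw [h3, h1, ← h2, h5]
  linarith

end Pool.Agent.LibBohr
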