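import Pool.Agent.LibBohr.Defs

set_option autoImplicit false

namespace Pool.Agent.LibBohr

open Finset

theorem group_count_aux (d c : ℕ) (good : ℕ → Prop) [DecidablePred good] (N : ℕ)
    (h : ∀ g, g < N → c ≤ ((Finset.Ico (d * g) (d * (g + 1))).filter good).card) :
    N * c ≤ ((range (d * N)).filter good).card := by
  induction N with
  | zero => simp
  | succ N ih =>
    have h1 := ih (fun g hg => h g (by omega))
    have h2 := h N (by omega)
    have h3 : range (d * (N + 1)) = range (d * N) ∪ Finset.Ico (d * N) (d * (N + 1)) := by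
      ext x
      have : d * N ≤ d * (N + 1) := Nat.mul_le_mul_left _ (by omega)
      simp only [Finset.mem_range, Finset.mem_union, Finset.mem_Ico]
      omega
    rw [h3, Finset.filter_union, Finset.card_union_of_disjoint]
    · calc (N + 1) * c = N * c + c := by ring
        _ ≤ _ := add_le_add h1 h2
    · apply Finset.disjoint_filter_filter
      rw [Finset.disjoint_left]
      intro x hx hx'
      rw [Finset.mem_range] at hx
      rw [Finset.mem_Ico] at hx'
      omega

theorem group_count (J d c : ℕ) (good : ℕ → Prop) [DecidablePred good]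
    (h : ∀ g, g < J / d → c ≤ ((Finset.Ico (d * g) (d * (g + 1))).filter good).card) :
    (J / d) * c ≤ ((range J).filter good).card := by
  refine (group_count_aux d c good (J / d) h).trans ?_
  apply Finset.card_le_card
  apply Finset.filter_subset_filter
  intro x hx
  rw [Finset.mem_range] at *
  exact lt_of_lt_of_le hx (Nat.mul_div_le J d)

theorem exists_enum (T : Finset ℕ) : ∃ t : ℕ → ℕ, (∀ i, i < T.card → t i ∈ T) ∧
    (∀ i i', i < i' → i' < T.card → t i < t i') := by
  refine ⟨fun i => if h : i < T.card then T.orderEmbOfFin rfl ⟨i, h⟩ else 0, ?_, ?_⟩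
  · intro i hi
    simp only [hi, dif_pos]
    exact Finset.orderEmbOfFin_mem T rfl _
  · intro i i' hlt hi'
    have hi : i < T.card := by omega
    simp only [hi, hi', dif_pos]
    exact (T.orderEmbOfFin rfl).strictMono (by simpa using hlt)

/-- Close pairs inside disjoint high windows are controlled by a single pair count. -/
theorem closePairs_sum_le (A : Finset ℕ) (W : ℕ) (I : Finset ℕ) (Y : ℕ → Finset ℕ)
    (hYA : ∀ i ∈ I, Y i ⊆ A) (hW : ∀ i ∈ I, ∀ a ∈ Y i, W ≤ a)
    (hdisj : ∀ i ∈ I, ∀ i' ∈ I, i ≠ i' → Disjoint (Y i) (Y i')) :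
    ∑ i ∈ I, closePairs (Y i) W ≤
      ((A ×ˢ A).filter (fun p => W ≤ p.1 ∧ W ≤ p.2 ∧ p.1 ≤ p.2 + W ∧ p.2 ≤ p.1 + W)).card := by
  unfold closePairs
  rw [← Finset.card_biUnion]
  · apply Finset.card_le_card
    intro p hp
    rw [Finset.mem_biUnion] at hp
    obtain ⟨i, hi, hp⟩ := hp
    rw [Finset.mem_filter, Finset.mem_product] at hp
    rw [Finset.mem_filter, Finset.mem_product]
    obtain ⟨⟨h1, h2⟩, h3, h4⟩ := hp
    exact ⟨⟨hYA i hi h1, hYA i hi h2⟩, hW i hi _ h1, hW i hi _ h2, h3.le, h4.le⟩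
  · intro i hi i' hi' hne
    rw [Function.onFun, Finset.disjoint_left]
    intro p hp hp'
    rw [Finset.mem_filter, Finset.mem_product] at hp hp'
    exact Finset.disjoint_left.mp (hdisj i hi i' hi' hne) hp.1.1 hp'.1.1

/-- Markov inequality for counts. -/
theorem markov_count (I : Finset ℕ) (f : ℕ → ℕ) (N S : ℝ)
    (hS : ((∑ i ∈ I, f i : ℕ) : ℝ) ≤ S) :
    ((I.filter (fun i => N < (f i : ℝ))).card : ℝ) * N ≤ S := by
  have h1 : ((I.filter (fun i => N < (f i : ℝ))).card : ℝ) * N ≤
      ∑ i ∈ I.filter (fun i => N < (f i : ℝ)), (f i : ℝ) := by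
    rw [← nsmul_eq_mul, ← Finset.sum_const]
    apply Finset.sum_le_sum
    intro i hi
    rw [Finset.mem_filter] at hi
    exact hi.2.le
  have h2 : ∑ i ∈ I.filter (fun i => N < (f i : ℝ)), (f i : ℝ) ≤ ∑ i ∈ I, (f i : ℝ) :=
    Finset.sum_le_sum_of_subset_of_nonneg (Finset.filter_subset _ _)
      (fun i _ _ => Nat.cast_nonneg _)
  have h3 : ((∑ i ∈ I, f i : ℕ) : ℝ) = ∑ i ∈ I, (f i : ℝ) := by push_cast; rfl
  linarith

end Pool.Agent.LibBohr
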