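import Pool.Agent.LibBohr.Defs

set_option autoImplicit false

namespace Pool.Agent.LibBohr

open Finset

namespace DA

/-- The group algebra of `ℤ^κ` over the reals. -/
abbrev BB (κ : Type) := AddMonoidAlgebra ℝ (κ → ℤ)

section basic

variable {κ : Type} [Fintype κ]

/-- Phase of the frequency `γ` at the point `x`. -/
noncomputable def dotp (γ : κ → ℤ) (x : κ → ℝ) : ℝ := ∑ k, (γ k : ℝ) * x k

lemma dotp_zero (x : κ → ℝ) : dotp 0 x = 0 := by simp [dotp]

lemma dotp_add (γ δ : κ → ℤ) (x : κ → ℝ) : dotp (γ + δ) x = dotp γ x + dotp δ x := by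
  simp [dotp, add_mul, sum_add_distrib]

lemma dotp_neg (γ : κ → ℤ) (x : κ → ℝ) : dotp (-γ) x = - dotp γ x := by
  simp [dotp]

lemma dotp_sub (γ δ : κ → ℤ) (x : κ → ℝ) : dotp (γ - δ) x = dotp γ x - dotp δ x := by
  rw [sub_eq_add_neg, dotp_add, dotp_neg, sub_eq_add_neg]

lemma dotp_smul (c : ℤ) (γ : κ → ℤ) (x : κ → ℝ) : dotp (c • γ) x = c * dotp γ x := by
  simp [dotp, mul_sum, mul_assoc]

lemma dotp_nsmul (c : ℕ) (γ : κ → ℤ) (x : κ → ℝ) : dotp (c • γ) x = c * dotp γ x := by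
  simp [dotp, mul_sum, mul_assoc]

lemma dotp_single [DecidableEq κ] (k : κ) (c : ℤ) (x : κ → ℝ) :
    dotp (Pi.single k c) x = c * x k := by
  unfold dotp
  rw [sum_eq_single k]
  · simp
  · intro b _ hb
    simp [hb]
  · simp

/-- The character at the point `x`. -/
noncomputable def chr (x : κ → ℝ) : Multiplicative (κ → ℤ) →* ℂ where
  toFun γ := Complex.exp (dotp (Multiplicative.toAdd γ) x * Complex.I)
  map_one' := by simp [dotp_zero]
  map_mul' := by
    intro a b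
    rw [← Complex.exp_add, toAdd_mul, dotp_add]
    push_cast
    ring_nf

/-- Evaluation at the point `x`. -/
noncomputable def ev (x : κ → ℝ) : BB κ →ₐ[ℝ] ℂ :=
  AddMonoidAlgebra.lift ℝ ℂ (κ → ℤ) (chr x)

lemma ev_apply (x : κ → ℝ) (p : BB κ) :
    ev x p = ∑ γ ∈ p.coeff.support, ((p.coeff γ : ℝ) : ℂ) * Complex.exp (dotp γ x * Complex.I) := by
  unfold ev
  rw [AddMonoidAlgebra.lift_apply]
  unfold Finsupp.sum
  apply sum_congr rfl
  intro γ _
  simp only [Complex.real_smul]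
  rfl

/-- monomial -/
noncomputable def zz (γ : κ → ℤ) : BB κ := AddMonoidAlgebra.single γ 1

lemma ev_zz (x : κ → ℝ) (γ : κ → ℤ) : ev x (zz γ) = Complex.exp (dotp γ x * Complex.I) := by
  unfold ev zz
  rw [AddMonoidAlgebra.lift_single, one_smul]
  rfl

omit [Fintype κ] in
lemma zz_mul (γ δ : κ → ℤ) : zz γ * zz δ = zz (γ + δ) := by
  unfold zz
  rw [AddMonoidAlgebra.single_mul_single, one_mul]

omit [Fintype κ] in
lemma zz_zero : zz (0 : κ → ℤ) = 1 := rfl

omit [Fintype κ] in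
lemma zz_pow (γ : κ → ℤ) (n : ℕ) : zz γ ^ n = zz (n • γ) := by
  unfold zz
  rw [AddMonoidAlgebra.single_pow, one_pow]

/-- pointwise nonnegative elements -/
def Pos (p : BB κ) : Prop := ∀ x : κ → ℝ, ∃ r : ℝ, 0 ≤ r ∧ ev x p = (r : ℂ)

omit [Fintype κ] in
/-- elements with nonnegative coefficients -/
def NN (p : BB κ) : Prop := ∀ γ, 0 ≤ p.coeff γ

omit [Fintype κ] in
/-- constant coefficient -/
noncomputable def tau (p : BB κ) : ℝ := p.coeff 0

lemma Pos.mul {p q : BB κ} (hp : Pos p) (hq : Pos q) : Pos (p * q) := by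
  intro x
  obtain ⟨r, hr, h1⟩ := hp x
  obtain ⟨s, hs, h2⟩ := hq x
  exact ⟨r * s, mul_nonneg hr hs, by rw [map_mul, h1, h2]; push_cast; rfl⟩

lemma Pos.prod {ι : Type} (s : Finset ι) (p : ι → BB κ) (hp : ∀ i ∈ s, Pos (p i)) :
    Pos (∏ i ∈ s, p i) := by
  classical
  induction s using Finset.induction_on with
  | empty => exact fun x => ⟨1, zero_le_one, by simp⟩
  | insert a s ha ih =>
    rw [prod_insert ha]
    exact (hp a (mem_insert_self _ _)).mul (ih fun i hi => hp i (mem_insert_of_mem hi))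

section NNlemmas

omit [Fintype κ]

lemma NN.add {p q : BB κ} (hp : NN p) (hq : NN q) : NN (p + q) := by
  intro γ
  rw [AddMonoidAlgebra.coeff_add, Finsupp.add_apply]
  exact add_nonneg (hp γ) (hq γ)

lemma NN.mul {p q : BB κ} (hp : NN p) (hq : NN q) : NN (p * q) := by
  classical
  intro γ
  rw [AddMonoidAlgebra.coeff_mul]
  unfold Finsupp.sum
  apply sum_nonneg
  intro a _
  apply sum_nonneg
  intro b _
  simp only []
  split_ifs
  · exact mul_nonneg (hp a) (hq b)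
  · exact le_rfl

lemma NN.zero : NN (0 : BB κ) := fun γ => by simp

lemma NN.zz (γ : κ → ℤ) : NN (zz γ) := by
  classical
  intro δ
  unfold DA.zz
  rw [AddMonoidAlgebra.coeff_single, Finsupp.single_apply]
  split_ifs <;> norm_num

lemma NN.one : NN (1 : BB κ) := by
  rw [← zz_zero]
  exact NN.zz 0

lemma NN.smul {p : BB κ} (c : ℝ) (hc : 0 ≤ c) (hp : NN p) : NN (c • p) := by
  intro γ
  rw [AddMonoidAlgebra.coeff_smul_apply, smul_eq_mul]
  exact mul_nonneg hc (hp γ)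

lemma NN.sum {ι : Type} (s : Finset ι) (p : ι → BB κ) (hp : ∀ i ∈ s, NN (p i)) :
    NN (∑ i ∈ s, p i) := by
  classical
  induction s using Finset.induction_on with
  | empty => simpa using NN.zero
  | insert a s ha ih =>
    rw [sum_insert ha]
    exact (hp a (mem_insert_self _ _)).add (ih fun i hi => hp i (mem_insert_of_mem hi))

lemma NN.prod {ι : Type} (s : Finset ι) (p : ι → BB κ) (hp : ∀ i ∈ s, NN (p i)) :
    NN (∏ i ∈ s, p i) := by
  classical
  induction s using Finset.induction_on with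
  | empty => simpa using NN.one
  | insert a s ha ih =>
    rw [prod_insert ha]
    exact (hp a (mem_insert_self _ _)).mul (ih fun i hi => hp i (mem_insert_of_mem hi))

lemma NN.tau {p : BB κ} (hp : NN p) : 0 ≤ tau p := hp 0

lemma tau_add (p q : BB κ) : tau (p + q) = tau p + tau q := rfl

lemma tau_sub (p q : BB κ) : tau (p - q) = tau p - tau q := rfl

lemma tau_smul (c : ℝ) (p : BB κ) : tau (c • p) = c * tau p := rfl

lemma tau_zero : tau (0 : BB κ) = 0 := rfl

lemma tau_sum {ι : Type} (s : Finset ι) (p : ι → BB κ) :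
    tau (∑ i ∈ s, p i) = ∑ i ∈ s, tau (p i) := by
  classical
  induction s using Finset.induction_on with
  | empty => simp [tau_zero]
  | insert a s ha ih => rw [sum_insert ha, sum_insert ha, tau_add, ih]

end NNlemmas

/-- geometric sum over roots of unity -/
lemma root_sum (Q : ℕ) (g : ℤ) (hg : g ≠ 0) (hgQ : |g| < (Q : ℤ)) :
    ∑ n ∈ range Q, Complex.exp ((g : ℂ) * (2 * Real.pi * (n : ℂ) / Q) * Complex.I) = 0 := by
  have hQ : 0 < Q := by
    have := abs_nonneg g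
    omega
  have hQ0 : (Q : ℂ) ≠ 0 := by exact_mod_cast hQ.ne'
  set w : ℂ := Complex.exp (2 * Real.pi * Complex.I * ((g : ℂ) / Q)) with hw
  have h1 : ∀ n : ℕ, Complex.exp ((g : ℂ) * (2 * Real.pi * (n : ℂ) / Q) * Complex.I) = w ^ n := by
    intro n
    rw [hw, ← Complex.exp_nat_mul]
    congr 1
    ring
  rw [sum_congr rfl fun n _ => h1 n]
  have h2 : w ≠ 1 := by
    intro h
    rw [hw, Complex.exp_eq_one_iff] at h
    obtain ⟨k, hk⟩ := h
    have hpi : (2 * (Real.pi : ℂ) * Complex.I) ≠ 0 := by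
      simp [Real.pi_ne_zero]
    rw [mul_comm (k : ℂ)] at hk
    have h3 := mul_left_cancel₀ hpi hk
    rw [div_eq_iff hQ0] at h3
    have h4 : g = k * Q := by exact_mod_cast h3
    rw [h4, abs_mul, Nat.abs_cast] at hgQ
    have hk0 : k ≠ 0 := by
      rintro rfl
      simp at h4
      exact hg h4
    have h5 : 1 ≤ |k| := Int.one_le_abs hk0
    nlinarith
  rw [geom_sum_eq h2]
  have h3 : w ^ Q = 1 := by
    rw [hw, ← Complex.exp_nat_mul]
    rw [Complex.exp_eq_one_iff]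
    refine ⟨g, ?_⟩
    field_simp
  rw [h3, sub_self, zero_div]

theorem Pos.tau {p : BB κ} (hp : Pos p) : 0 ≤ DA.tau p := by
  classical
  set Q : ℕ := 1 + ∑ γ ∈ p.coeff.support, ∑ k, (γ k).natAbs with hQ
  have hQpos : 0 < Q := by omega
  -- grid sum
  have h1 : ∑ n ∈ Fintype.piFinset (fun _ : κ => range Q),
      ev (fun k => 2 * Real.pi * (n k : ℝ) / Q) p = ((Q : ℝ) ^ Fintype.card κ * DA.tau p : ℝ) := by
    simp only [ev_apply]
    rw [sum_comm]
    simp only [← mul_sum]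
    have h2 : ∀ γ ∈ p.coeff.support, γ ≠ 0 →
        ∑ n ∈ Fintype.piFinset (fun _ : κ => range Q),
          Complex.exp (dotp γ (fun k => 2 * Real.pi * (n k : ℝ) / Q) * Complex.I) = 0 := by
      intro γ hγ hne
      have h3 : ∀ n : κ → ℕ,
          Complex.exp (dotp γ (fun k => 2 * Real.pi * (n k : ℝ) / Q) * Complex.I) =
          ∏ k, Complex.exp ((γ k : ℂ) * (2 * Real.pi * (n k : ℂ) / Q) * Complex.I) := by
        intro n
        rw [← Complex.exp_sum, ← sum_mul]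
        congr 2
        unfold dotp
        push_cast
        rfl
      rw [sum_congr rfl fun n _ => h3 n]
      rw [← prod_univ_sum (fun _ : κ => range Q)
        (fun k m => Complex.exp ((γ k : ℂ) * (2 * Real.pi * (m : ℂ) / Q) * Complex.I))]
      obtain ⟨k, hk⟩ := Function.ne_iff.1 hne
      apply prod_eq_zero (mem_univ k)
      apply root_sum Q _ hk
      have h4 : (γ k).natAbs ≤ ∑ k, (γ k).natAbs :=
        single_le_sum (f := fun k => (γ k).natAbs) (fun _ _ => Nat.zero_le _) (mem_univ k)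
      have h5 : ∑ k, (γ k).natAbs ≤ ∑ γ ∈ p.coeff.support, ∑ k, (γ k).natAbs :=
        single_le_sum (f := fun γ : κ → ℤ => ∑ k, (γ k).natAbs) (fun _ _ => Nat.zero_le _) hγ
      rw [Int.abs_eq_natAbs]
      omega
    rw [sum_eq_single (0 : κ → ℤ)]
    · simp only [dotp_zero, Complex.ofReal_zero, zero_mul, Complex.exp_zero, sum_const,
        Fintype.card_piFinset, card_range, prod_const, card_univ, nsmul_eq_mul, mul_one]
      unfold DA.tau
      push_cast
      ring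
    · intro γ hγ hne
      rw [h2 γ hγ hne, mul_zero]
    · intro h0
      rw [Finsupp.notMem_support_iff.1 h0]
      simp
  have h2 : 0 ≤ (Q : ℝ) ^ Fintype.card κ * DA.tau p := by
    have h3 : ∀ n : κ → ℕ, ∃ r : ℝ, 0 ≤ r ∧
        ev (fun k => 2 * Real.pi * (n k : ℝ) / Q) p = (r : ℂ) := fun n => hp _
    choose r hr hr2 using h3
    rw [sum_congr rfl fun n _ => hr2 n, ← Complex.ofReal_sum] at h1
    have h4 := Complex.ofReal_injective h1
    rw [← h4]
    exact sum_nonneg fun n _ => hr n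
  have h3 : (0 : ℝ) < (Q : ℝ) ^ Fintype.card κ := by positivity
  exact nonneg_of_mul_nonneg_right h2 h3

/-- cosine element -/
noncomputable def CC (γ : κ → ℤ) : BB κ := (1 / 2 : ℝ) • (zz γ + zz (-γ))

omit [Fintype κ] in
lemma CC_neg (γ : κ → ℤ) : CC (-γ) = CC γ := by
  unfold CC
  rw [neg_neg, add_comm]

omit [Fintype κ] in
lemma CC_zero : CC (0 : κ → ℤ) = 1 := by
  unfold CC
  rw [neg_zero, zz_zero, ← two_smul ℝ (1 : BB κ), smul_smul]
  norm_num

omit [Fintype κ] in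
lemma NN.CC (γ : κ → ℤ) : NN (CC γ) := NN.smul _ (by norm_num) ((NN.zz _).add (NN.zz _))

lemma ev_smul (x : κ → ℝ) (c : ℝ) (p : BB κ) : ev x (c • p) = (c : ℂ) * ev x p := by
  rw [map_smul, Complex.real_smul]

lemma ev_CC (x : κ → ℝ) (γ : κ → ℤ) : ev x (CC γ) = (Real.cos (dotp γ x) : ℂ) := by
  unfold CC
  rw [ev_smul, map_add, ev_zz, ev_zz, dotp_neg, Complex.ofReal_cos, Complex.cos]
  push_cast
  ring

/-- geometric sum -/
noncomputable def KK (n : ℕ) (γ : κ → ℤ) : BB κ := ∑ k ∈ range n, zz γ ^ k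

/-- Fejer kernel -/
noncomputable def FF (n : ℕ) (γ : κ → ℤ) : BB κ := (1 / (n : ℝ)) • (KK n γ * KK n (-γ))

omit [Fintype κ] in
lemma NN.KK (n : ℕ) (γ : κ → ℤ) : NN (KK n γ) := by
  unfold DA.KK
  apply NN.sum
  intro k _
  rw [zz_pow]
  exact NN.zz _

omit [Fintype κ] in
lemma NN.FF (n : ℕ) (γ : κ → ℤ) : NN (FF n γ) :=
  NN.smul _ (by positivity) ((NN.KK _ _).mul (NN.KK _ _))

lemma Pos.FF (n : ℕ) (γ : κ → ℤ) : Pos (FF n γ) := by
  intro x
  have h1 : ev x (KK n γ) = ∑ k ∈ range n, Complex.exp (dotp γ x * Complex.I) ^ k := by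
    unfold DA.KK
    rw [map_sum]
    simp only [map_pow, ev_zz]
  have h2 : ev x (KK n (-γ)) = (starRingEnd ℂ) (ev x (KK n γ)) := by
    rw [h1]
    unfold DA.KK
    rw [map_sum, map_sum]
    apply sum_congr rfl
    intro k _
    rw [map_pow, map_pow, ev_zz, ← Complex.exp_conj, dotp_neg]
    congr 2
    simp
  refine ⟨1 / (n : ℝ) * Complex.normSq (ev x (KK n γ)), ?_, ?_⟩
  · have := Complex.normSq_nonneg (ev x (KK n γ))
    positivity
  · unfold DA.FF
    rw [ev_smul, map_mul, h2, Complex.mul_conj]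
    push_cast
    rfl

omit [Fintype κ] in
lemma FF_sub_one (n : ℕ) (hn : 1 ≤ n) (γ : κ → ℤ) : NN (FF n γ - 1) := by
  have h1 : KK n γ * KK n (-γ) = (n : ℝ) • (1 : BB κ) +
      ∑ a ∈ range n, ∑ b ∈ (range n).erase a, zz (a • γ) * zz (b • (-γ)) := by
    unfold KK
    rw [sum_mul_sum]
    have h2 : ∀ a ∈ range n, ∑ b ∈ range n, zz γ ^ a * zz (-γ) ^ b =
        1 + ∑ b ∈ (range n).erase a, zz (a • γ) * zz (b • (-γ)) := by
      intro a ha
      rw [← add_sum_erase _ _ ha]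
      congr 1
      · rw [zz_pow, zz_pow, zz_mul, smul_neg, add_neg_cancel, zz_zero]
      · apply sum_congr rfl
        intro b _
        rw [zz_pow, zz_pow]
    rw [sum_congr rfl h2, sum_add_distrib, sum_const, card_range]
    congr 1
    rw [Nat.cast_smul_eq_nsmul]
  have hn0 : (n : ℝ) ≠ 0 := by positivity
  have h3 : FF n γ - 1 = (1 / (n : ℝ)) •
      ∑ a ∈ range n, ∑ b ∈ (range n).erase a, zz (a • γ) * zz (b • (-γ)) := by
    unfold FF
    rw [h1, smul_add, smul_smul, one_div_mul_cancel hn0, one_smul, add_sub_cancel_left]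
  rw [h3]
  apply NN.smul _ (by positivity)
  apply NN.sum
  intro a _
  apply NN.sum
  intro b _
  exact (NN.zz _).mul (NN.zz _)

section kernel

omit [Fintype κ]

/-- Dirichlet kernel -/
noncomputable def DD (n : ℕ) (γ : κ → ℤ) : BB κ :=
  1 + zz γ ^ n * KK n (-γ) + zz (-γ) ^ n * KK n γ

lemma zz_mul_neg (γ : κ → ℤ) : zz γ * zz (-γ) = 1 := by
  rw [zz_mul, add_neg_cancel, zz_zero]

lemma zz_pow_mul_neg (γ : κ → ℤ) (n : ℕ) : zz γ ^ n * zz (-γ) ^ n = 1 := by
  rw [← mul_pow, zz_mul_neg, one_pow]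

lemma KK_succ (n : ℕ) (γ : κ → ℤ) : KK (n + 1) γ = KK n γ + zz γ ^ n := by
  unfold KK
  rw [sum_range_succ]

lemma KK_succ' (n : ℕ) (γ : κ → ℤ) : KK (n + 1) γ = zz γ * KK n γ + 1 := by
  unfold KK
  rw [sum_range_succ', mul_sum, pow_zero]
  congr 1
  apply sum_congr rfl
  intro k _
  ring

lemma KK_mul_succ (n : ℕ) (γ : κ → ℤ) :
    KK (n + 1) γ * KK (n + 1) (-γ) = KK n γ * KK n (-γ) + DD n γ := by
  have h := zz_pow_mul_neg γ n
  rw [KK_succ, KK_succ]
  unfold DD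
  rw [← h]
  ring

lemma DD_succ (n : ℕ) (γ : κ → ℤ) :
    DD (n + 1) γ = DD n γ + (zz γ ^ (n + 1) + zz (-γ) ^ (n + 1)) := by
  have h := zz_mul_neg γ
  have h2 : zz γ ^ (n + 1) * KK (n + 1) (-γ) = zz γ ^ n * KK n (-γ) + zz γ ^ (n + 1) := by
    rw [KK_succ' n (-γ)]
    calc zz γ ^ (n + 1) * (zz (-γ) * KK n (-γ) + 1)
        = zz γ ^ n * (zz γ * zz (-γ)) * KK n (-γ) + zz γ ^ (n + 1) := by ring
      _ = _ := by rw [h, mul_one]
  have h3 : zz (-γ) ^ (n + 1) * KK (n + 1) γ = zz (-γ) ^ n * KK n γ + zz (-γ) ^ (n + 1) := by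
    rw [KK_succ' n γ]
    calc zz (-γ) ^ (n + 1) * (zz γ * KK n γ + 1)
        = zz (-γ) ^ n * (zz γ * zz (-γ)) * KK n γ + zz (-γ) ^ (n + 1) := by ring
      _ = _ := by rw [h, mul_one]
  unfold DD
  rw [h2, h3]
  ring

lemma DD_mono (γ : κ → ℤ) {n N : ℕ} (h : n ≤ N) : NN (DD N γ - DD n γ) := by
  induction N, h using Nat.le_induction with
  | base => rw [sub_self]; exact NN.zero
  | succ N _ ih =>
    rw [DD_succ, add_sub_right_comm]
    apply ih.add
    rw [zz_pow, zz_pow]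
    exact (NN.zz _).add (NN.zz _)

lemma KK_mul_eq (n : ℕ) (γ : κ → ℤ) : KK n γ * KK n (-γ) = ∑ k ∈ range n, DD k γ := by
  induction n with
  | zero => simp [KK]
  | succ n ih => rw [KK_mul_succ, sum_range_succ, ih]

lemma FF_mono (γ : κ → ℤ) {v N : ℕ} (hv : 1 ≤ v) (h : v ≤ N) : NN (FF N γ - FF v γ) := by
  have hv0 : (v : ℝ) ≠ 0 := by positivity
  have hN0 : (N : ℝ) ≠ 0 := by
    have : 1 ≤ N := hv.trans h
    positivity
  have key : FF N γ - FF v γ = (1 / ((N : ℝ) * v)) •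
      ∑ k ∈ Ico v N, ∑ l ∈ range v, (DD k γ - DD l γ) := by
    have h1 : ∑ k ∈ range N, DD k γ = ∑ k ∈ range v, DD k γ + ∑ k ∈ Ico v N, DD k γ := by
      rw [range_eq_Ico, range_eq_Ico, sum_Ico_consecutive _ (Nat.zero_le _) h]
    have h2 : ∑ k ∈ Ico v N, ∑ l ∈ range v, (DD k γ - DD l γ) =
        (v : ℝ) • (∑ k ∈ Ico v N, DD k γ) - ((N : ℝ) - v) • ∑ l ∈ range v, DD l γ := by
      simp only [sum_sub_distrib, sum_const, card_range, Nat.card_Ico]
      rw [← smul_sum]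
      congr 1
      · rw [Nat.cast_smul_eq_nsmul]
      · rw [← Nat.cast_sub h, Nat.cast_smul_eq_nsmul]
    unfold FF
    rw [KK_mul_eq, KK_mul_eq, h1, h2]
    rw [smul_sub, smul_smul, smul_smul, smul_add]
    have e1 : 1 / ((N : ℝ) * v) * v = 1 / N := by
      field_simp
    have e2 : 1 / ((N : ℝ) * v) * (N - v) = 1 / v - 1 / N := by
      field_simp
    rw [e1, e2, sub_smul]
    abel
  rw [key]
  apply NN.smul _ (by positivity)
  apply NN.sum
  intro k hk
  apply NN.sum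
  intro l hl
  exact DD_mono γ ((mem_range.1 hl).le.trans (mem_Ico.1 hk).1)

lemma KK_swap (N v : ℕ) (γ : κ → ℤ) :
    KK N γ * (1 - zz γ ^ v) = KK v γ * (1 - zz γ ^ N) := by
  unfold KK
  rw [← mul_neg_geom_sum, ← mul_neg_geom_sum]
  ring

lemma one_sub_CC (v : ℕ) (γ : κ → ℤ) :
    (1 - zz γ ^ v) * (1 - zz (-γ) ^ v) = (2 : ℝ) • (1 - CC (v • γ)) := by
  have h := zz_pow_mul_neg γ v
  have h2 : (1 - zz γ ^ v) * (1 - zz (-γ) ^ v) = 1 + 1 - (zz γ ^ v + zz (-γ) ^ v) := by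
    calc (1 - zz γ ^ v) * (1 - zz (-γ) ^ v)
        = 1 + zz γ ^ v * zz (-γ) ^ v - (zz γ ^ v + zz (-γ) ^ v) := by ring
      _ = _ := by rw [h]
  rw [h2, smul_sub]
  unfold CC
  rw [smul_smul, two_smul, zz_pow, zz_pow, smul_neg]
  norm_num

lemma FF_swap (N v : ℕ) (hN : 1 ≤ N) (hv : 1 ≤ v) (γ : κ → ℤ) :
    FF N γ * (1 - CC (v • γ)) = ((v : ℝ) / N) • (FF v γ * (1 - CC (N • γ))) := by
  have hv0 : (v : ℝ) ≠ 0 := by positivity
  have hN0 : (N : ℝ) ≠ 0 := by positivity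
  have h1 := one_sub_CC v γ
  have h2 := one_sub_CC N γ
  have h3 := KK_swap N v γ
  have h4 := KK_swap N v (-γ)
  have h5 : (KK N γ * KK N (-γ)) * (2 : ℝ) • (1 - CC (v • γ)) =
      (KK v γ * KK v (-γ)) * (2 : ℝ) • (1 - CC (N • γ)) := by
    rw [← h1, ← h2]
    calc KK N γ * KK N (-γ) * ((1 - zz γ ^ v) * (1 - zz (-γ) ^ v))
        = (KK N γ * (1 - zz γ ^ v)) * (KK N (-γ) * (1 - zz (-γ) ^ v)) := by ring
      _ = (KK v γ * (1 - zz γ ^ N)) * (KK v (-γ) * (1 - zz (-γ) ^ N)) := by rw [h3, h4]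
      _ = _ := by ring
  rw [mul_smul_comm, mul_smul_comm] at h5
  have h6 := congrArg (fun p : BB κ => (1 / 2 : ℝ) • p) h5
  simp only [smul_smul] at h6
  rw [show (1 / 2 : ℝ) * 2 = 1 by norm_num, one_smul, one_smul] at h6
  unfold FF
  rw [smul_mul_assoc, smul_mul_assoc, h6, smul_smul]
  congr 1
  field_simp

/-- The key positivity of coefficients. -/
theorem NN_key (N v : ℕ) (hN : 1 ≤ N) (hv : v ≤ N) (γ : κ → ℤ) :
    NN (((v : ℝ) / N) • FF N γ - FF N γ * (1 - CC (v • γ))) := by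
  rcases Nat.eq_zero_or_pos v with h0 | h0
  · subst h0
    simp [CC_zero, NN.zero]
  · rw [FF_swap N v hN h0, ← smul_sub]
    apply NN.smul _ (by positivity)
    have e : FF N γ - FF v γ * (1 - CC (N • γ)) = (FF N γ - FF v γ) + FF v γ * CC (N • γ) := by
      ring
    rw [e]
    exact (FF_mono γ h0 hv).add ((NN.FF _ _).mul (NN.CC _))

/-- Truncated frequencies cost little. -/
theorem tau_cost (N : ℕ) (v : ℤ) (hN : 1 ≤ N) (hv : |v| ≤ N) (γ : κ → ℤ) (p : BB κ)
    (hp : NN p) :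
    tau (FF N γ * p * (1 - CC (v • γ))) ≤ (|v| : ℝ) / N * tau (FF N γ * p) := by
  have h1 : CC (v • γ) = CC (v.natAbs • γ) := by
    rcases Int.natAbs_eq v with h | h
    · conv_lhs => rw [h]
      rw [natCast_zsmul]
    · conv_lhs => rw [h]
      rw [neg_smul, natCast_zsmul, CC_neg]
  have h2 : v.natAbs ≤ N := by
    rw [Int.abs_eq_natAbs] at hv
    exact_mod_cast hv
  have h3 := (NN.mul hp (NN_key N v.natAbs hN h2 γ)).tau
  have h4 : p * (((v.natAbs : ℝ) / N) • FF N γ - FF N γ * (1 - CC (v.natAbs • γ))) =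
      ((v.natAbs : ℝ) / N) • (FF N γ * p) - FF N γ * p * (1 - CC (v • γ)) := by
    rw [h1, mul_sub, mul_smul_comm, mul_comm p (FF N γ)]
    ring
  rw [h4, tau_sub, tau_smul] at h3
  have h5 : ((v.natAbs : ℕ) : ℝ) = |(v : ℝ)| := by
    rw [← Int.cast_abs, Int.abs_eq_natAbs, Int.cast_natCast]
  rw [h5] at h3
  linarith

end kernel

end basic

end DA

end Pool.Agent.LibBohr
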