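import Pool.Agent.LibBohr.Defs

set_option autoImplicit false

namespace Pool.Agent.LibBohr

open Finset

/-- Low-pass frequencies at one scale: `|v| < N` and `v = ∑ k_a a` with `|k_a| < R`. -/
def PSet (Λ : Finset ℕ) (R N : ℕ) : Set ℤ :=
  {v | |v| < (N : ℤ) ∧ ∃ k : ℕ → ℤ, (∀ a, |k a| < (R : ℤ)) ∧ v = ∑ a ∈ Λ, k a * (a : ℤ)}

/-- Sums of low-pass frequencies over the indices of `T` above `i`. -/
def VSet (T : Finset ℕ) (j : ℕ → ℕ) (Λ : ℕ → Finset ℕ) (R : ℕ) (i : ℕ) : Set ℤ :=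
  {v | ∃ p : ℕ → ℤ, (∀ i' ∈ T, i < i' → p i' ∈ PSet (Λ i') R (2 ^ (j i' - 3))) ∧
    v = ∑ i' ∈ T.filter (fun i' => i < i'), p i'}

/-- No difference of two elements of `V` lies near scale `2^j`. -/
def Clean (V : Set ℤ) (j : ℕ) : Prop :=
  ∀ v ∈ V, ∀ v' ∈ V, ¬ ((2 : ℤ) ^ (j - 2) ≤ v - v' ∧ v - v' ≤ (2 : ℤ) ^ (j + 3))

open Classical in
/-- Elements `b` of `A` with `v - b` near scale `2^j` for some `v ∈ V`. -/
noncomputable def Bad (A : Finset ℕ) (V : Set ℤ) (j : ℕ) : Finset ℕ :=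
  A.filter (fun b => ∃ v ∈ V, (2 : ℤ) ^ (j - 1) ≤ v - (b : ℤ) ∧ v - (b : ℤ) ≤ (2 : ℤ) ^ (j + 2))

end Pool.Agent.LibBohr
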