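import Pool.Agent.LibBohr.DPsi
import Pool.Agent.LibBohr.DDefs

set_option autoImplicit false

namespace Pool.Agent.LibBohr

open Finset

namespace DA

lemma spec_split (W R : ℕ) (hR : 1 ≤ R) (hW : 1 ≤ W) (T : Finset ℕ) (j : ℕ → ℕ)
    (Λ : ℕ → Finset ℕ)
    (hj : ∀ i ∈ T, ∀ i' ∈ T, i < i' → j i + 6 ≤ j i')
    (hjW : ∀ i ∈ T, 2 ^ 18 * W ≤ 2 ^ (j i)) (u : ℤ)
    (hu : psi (ι := {i // i ∈ T}) (1000 * W) (fun i => 2 ^ (j i.1 - 3)) R (fun i => Λ i.1) u ≠ 0)
    (i : ℕ) (hi : i ∈ T) :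
    ∃ low v : ℤ, u = low + v ∧ |low| < 2 ^ (j i - 2) ∧ v ∈ VSet T j Λ R i := by
  classical
  have hj18 : ∀ i ∈ T, 18 ≤ j i := by
    intro i hi
    by_contra hlt
    push Not at hlt
    have h1 := hjW i hi
    have h2 : 2 ^ (j i) < 2 ^ 18 := Nat.pow_lt_pow_right (by norm_num) hlt
    have h3 : 2 ^ 18 * 1 ≤ 2 ^ 18 * W := Nat.mul_le_mul_left _ hW
    omega
  obtain ⟨k0, l, h1, h2, h3⟩ := psi_spec _ _ _ _ u hu
  set p : ℕ → ℤ := fun n => if h : n ∈ T then l ⟨n, h⟩ else 0 with hp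
  have hpl : ∀ x : {i // i ∈ T}, p x.1 = l x := by
    intro x
    simp only [hp, x.2, dif_pos]
  have hpT : ∀ n ∈ T, |p n| < 2 ^ (j n - 3) ∧ ∃ k : ℕ → ℤ, (∀ a ∈ Λ n, |k a| < (R : ℤ)) ∧
      p n = ∑ a ∈ Λ n, k a * (a : ℤ) := by
    intro n hn
    have := h2 ⟨n, hn⟩
    rw [← hpl ⟨n, hn⟩] at this
    refine ⟨by simpa using this.1, this.2⟩
  have hsum : ∑ x, l x = ∑ n ∈ T, p n := by
    rw [← sum_coe_sort T p]
    exact sum_congr rfl fun x _ => (hpl x).symm
  refine ⟨k0 + ∑ n ∈ T.filter (fun n => ¬ i < n), p n, ∑ n ∈ T.filter (fun n => i < n), p n,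
    ?_, ?_, p, ?_, rfl⟩
  · rw [h3, hsum, ← sum_filter_add_sum_filter_not T (fun n => i < n)]
    ring
  · have h4 : |∑ n ∈ T.filter (fun n => ¬ i < n), p n| ≤
        ∑ n ∈ T.filter (fun n => ¬ i < n), (2 : ℤ) ^ (j n - 3) := by
      refine (abs_sum_le_sum_abs _ _).trans (sum_le_sum ?_)
      intro n hn
      exact (hpT n (mem_filter.1 hn).1).1.le
    have h5 : ∑ n ∈ T.filter (fun n => ¬ i < n), (2 : ℕ) ^ (j n - 3) <
        2 ^ (j i - 3) + 2 ^ (j i - 8) := by
      have e : T.filter (fun n => ¬ i < n) = insert i (T.filter (fun n => n < i)) := by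
        ext n
        simp only [mem_filter, mem_insert, not_lt]
        constructor
        · rintro ⟨h, h'⟩
          rcases h'.eq_or_lt with h'' | h''
          · exact Or.inl h''
          · exact Or.inr ⟨h, h''⟩
        · rintro (h | h)
          · subst h
            exact ⟨hi, le_rfl⟩
          · exact ⟨h.1, h.2.le⟩
      rw [e, sum_insert (by simp)]
      apply Nat.add_lt_add_left
      have hinj : Set.InjOn (fun n => j n - 3) (T.filter (fun n => n < i) : Finset ℕ) := by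
        intro a ha b hb hab
        simp only [coe_filter, Set.mem_ofPred_eq] at ha hb hab
        have ha18 := hj18 a ha.1
        have hb18 := hj18 b hb.1
        rcases lt_trichotomy a b with h | h | h
        · have := hj a ha.1 b hb.1 h
          omega
        · exact h
        · have := hj b hb.1 a ha.1 h
          omega
      rw [← sum_image (g := fun n => j n - 3) (f := fun k => 2 ^ k) hinj]
      apply Nat.geomSum_lt le_rfl
      intro k hk
      rw [mem_image] at hk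
      obtain ⟨n, hn, rfl⟩ := hk
      rw [mem_filter] at hn
      have := hj n hn.1 i hi hn.2
      have := hj18 n hn.1
      omega
    have h6 : ∑ n ∈ T.filter (fun n => ¬ i < n), (2 : ℤ) ^ (j n - 3) <
        2 ^ (j i - 3) + 2 ^ (j i - 8) := by
      exact_mod_cast h5
    have h7 := abs_add_le k0 (∑ n ∈ T.filter (fun n => ¬ i < n), p n)
    have h8 : |k0| < 1000 * (W : ℤ) := by exact_mod_cast h1
    have h9 := hjW i hi
    have h18 := hj18 i hi
    obtain ⟨P, hP⟩ : ∃ P : ℕ, P = 2 ^ (j i - 8) := ⟨_, rfl⟩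
    have e1 : 2 ^ (j i) = 256 * P := by
      rw [hP, show (256 : ℕ) = 2 ^ 8 by norm_num, ← pow_add]
      congr 1
      omega
    have e2 : (2 : ℤ) ^ (j i - 8) = P := by
      rw [hP]
      push_cast
      rfl
    have e3 : (2 : ℤ) ^ (j i - 3) = 32 * P := by
      rw [hP]
      push_cast
      rw [show (32 : ℤ) = 2 ^ 5 by norm_num, ← pow_add]
      congr 1
      omega
    have e4 : (2 : ℤ) ^ (j i - 2) = 64 * P := by
      rw [hP]
      push_cast
      rw [show (64 : ℤ) = 2 ^ 6 by norm_num, ← pow_add]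
      congr 1
      omega
    rw [e1] at h9
    rw [e2, e3] at h6
    rw [e4]
    omega
  · intro n hn _
    obtain ⟨g1, k, g2, g3⟩ := hpT n hn
    refine ⟨by exact_mod_cast g1, fun a => if a ∈ Λ n then k a else 0, ?_, ?_⟩
    · intro a
      by_cases ha : a ∈ Λ n
      · simp only [if_pos ha]
        exact g2 a ha
      · simp only [if_neg ha, abs_zero]
        exact_mod_cast hR
    · rw [g3]
      apply sum_congr rfl
      intro a ha
      simp only [if_pos ha]

lemma zero_mem_VSet (R : ℕ) (hR : 1 ≤ R) (T : Finset ℕ) (j : ℕ → ℕ) (Λ : ℕ → Finset ℕ) (i : ℕ) :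
    (0 : ℤ) ∈ VSet T j Λ R i := by
  refine ⟨fun _ => 0, ?_, by simp⟩
  intro n _ _
  refine ⟨by simp, fun _ => 0, ?_, by simp⟩
  intro a
  simp only [abs_zero]
  exact_mod_cast hR

end DA

open DA in
theorem lemmaD_analytic (A : Finset ℕ) (M : ℝ) (hM : SupB A M) (m W R : ℕ) (hm : 1 ≤ m)
    (hR : 200 * m ^ 2 ≤ R) (hW : 1 ≤ W) (T : Finset ℕ) (j : ℕ → ℕ) (X Λ : ℕ → Finset ℕ)
    (hj : ∀ i ∈ T, ∀ i' ∈ T, i < i' → j i + 6 ≤ j i')
    (hjW : ∀ i ∈ T, 2 ^ 18 * W ≤ 2 ^ (j i))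
    (hX : ∀ i ∈ T, X i ⊆ win A (j i) (j i + 1))
    (hXd : ∀ i ∈ T, ∀ a ∈ X i, ∀ b ∈ X i, a ≤ b + 2 ^ (j i - 9))
    (hΛ : ∀ i ∈ T, (Λ i).card ≤ m)
    (hspan : ∀ i ∈ T, ∀ a ∈ X i, NearSpan W (Λ i) a)
    (hclean : ∀ i ∈ T, Clean (VSet T j Λ R i) (j i))
    (hbad : ∀ i ∈ T, 4 * (Bad A (VSet T j Λ R i) (j i)).card ≤ (X i).card) :
    ∑ i ∈ T, ((X i).card : ℝ) ^ 2 ≤ 8 * M ^ 2 := by
  classical
  have hm2 : 1 ≤ m ^ 2 := Nat.one_le_pow _ _ hm
  have hR1 : 1 ≤ R := by omega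
  have hj18 : ∀ i ∈ T, 18 ≤ j i := by
    intro i hi
    by_contra hlt
    push Not at hlt
    have h1 := hjW i hi
    have h2 : 2 ^ (j i) < 2 ^ 18 := Nat.pow_lt_pow_right (by norm_num) hlt
    have h3 : 2 ^ 18 * 1 ≤ 2 ^ 18 * W := Nat.mul_le_mul_left _ hW
    omega
  set ψ : ℤ → ℝ := psi (ι := {i // i ∈ T}) (1000 * W) (fun i => 2 ^ (j i.1 - 3)) R
    (fun i => Λ i.1) with hψ
  set Z : ℝ := tau (Om (ι := {i // i ∈ T}) (1000 * W) (fun i => 2 ^ (j i.1 - 3)) R
    (fun i => Λ i.1)) with hZ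
  have hZ1 : 1 ≤ Z := one_le_tau _ _ _ _ (by omega) (fun i => Nat.one_le_two_pow) hR1
  have hψ0 : ∀ u, 0 ≤ ψ u := fun u => psi_nonneg _ _ _ _ u
  have hψZ : ∀ u, ψ u ≤ Z := fun u => psi_le _ _ _ _ u
  have hψn : ∀ u, ψ (-u) = ψ u := fun u => psi_neg _ _ _ _ u
  have hsplit : ∀ u, ψ u ≠ 0 → ∀ i ∈ T, ∃ low v : ℤ, u = low + v ∧ |low| < 2 ^ (j i - 2) ∧
      v ∈ VSet T j Λ R i := fun u hu i hi => spec_split W R hR1 hW T j Λ hj hjW u hu i hi
  have hXA : ∀ i ∈ T, X i ⊆ A := fun i hi => (hX i hi).trans (filter_subset _ _)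
  have hXr : ∀ i ∈ T, ∀ a ∈ X i, 2 ^ (j i) ≤ a ∧ a < 2 ^ (j i + 1) := by
    intro i hi a ha
    have := hX i hi ha
    unfold win at this
    exact (mem_filter.1 this).2
  -- (A)
  have hAux : ∀ i ∈ T, ∀ i' ∈ T, i' < i → ∀ a ∈ X i, ∀ b ∈ X i', ψ ((a : ℤ) - b) = 0 := by
    intro i hi i' hi' hlt a ha b hb
    by_contra hne
    obtain ⟨low, v, h1, h2, h3⟩ := hsplit _ hne i hi
    have hcl := hclean i hi v h3 0 (zero_mem_VSet R hR1 T j Λ i)
    apply hcl
    obtain ⟨g1, g2⟩ := hXr i hi a ha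
    obtain ⟨g3, g4⟩ := hXr i' hi' b hb
    have g5 := hj i' hi' i hi hlt
    have g6 : 2 ^ (j i' + 1) ≤ 2 ^ (j i - 5) := Nat.pow_le_pow_right (by norm_num) (by omega)
    have h18 := hj18 i hi
    obtain ⟨P, hP⟩ : ∃ P : ℕ, P = 2 ^ (j i - 5) := ⟨_, rfl⟩
    have e1 : 2 ^ (j i) = 32 * P := by
      rw [hP, show (32 : ℕ) = 2 ^ 5 by norm_num, ← pow_add]
      congr 1
      omega
    have e2 : 2 ^ (j i + 1) = 64 * P := by
      rw [hP, show (64 : ℕ) = 2 ^ 6 by norm_num, ← pow_add]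
      congr 1
      omega
    have e3 : (2 : ℤ) ^ (j i - 2) = 8 * P := by
      rw [hP]
      push_cast
      rw [show (8 : ℤ) = 2 ^ 3 by norm_num, ← pow_add]
      congr 1
      omega
    have e4 : (2 : ℤ) ^ (j i + 3) = 256 * P := by
      rw [hP]
      push_cast
      rw [show (256 : ℤ) = 2 ^ 8 by norm_num, ← pow_add]
      congr 1
      omega
    rw [e3] at h2
    rw [e1] at g1
    rw [e2] at g2
    rw [← hP] at g6
    rw [e3, e4]
    obtain ⟨h5, h6⟩ := abs_lt.1 h2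
    omega
  have hAne : ∀ i ∈ T, ∀ i' ∈ T, i' ≠ i → ∀ a ∈ X i, ∀ b ∈ X i', ψ ((a : ℤ) - b) = 0 := by
    intro i hi i' hi' hne a ha b hb
    rcases lt_or_gt_of_ne hne with h | h
    · exact hAux i hi i' hi' h a ha b hb
    · rw [← hψn, neg_sub]
      exact hAux i' hi' i hi h b hb a ha
  -- (B)
  have hB : ∀ i ∈ T, ∀ a ∈ X i, ∀ b ∈ A, b ∉ Bad A (VSet T j Λ R i) (j i) →
      ψ ((a : ℤ) + b) = 0 := by
    intro i hi a ha b hb hnb
    by_contra hne
    obtain ⟨low, v, h1, h2, h3⟩ := hsplit _ hne i hi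
    apply hnb
    unfold Bad
    rw [mem_filter]
    refine ⟨hb, v, h3, ?_⟩
    obtain ⟨g1, g2⟩ := hXr i hi a ha
    have h18 := hj18 i hi
    obtain ⟨P, hP⟩ : ∃ P : ℕ, P = 2 ^ (j i - 2) := ⟨_, rfl⟩
    have e1 : 2 ^ (j i) = 4 * P := by
      rw [hP, show (4 : ℕ) = 2 ^ 2 by norm_num, ← pow_add]
      congr 1
      omega
    have e2 : 2 ^ (j i + 1) = 8 * P := by
      rw [hP, show (8 : ℕ) = 2 ^ 3 by norm_num, ← pow_add]
      congr 1
      omega
    have e3 : (2 : ℤ) ^ (j i - 2) = P := by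
      rw [hP]
      push_cast
      rfl
    have e4 : (2 : ℤ) ^ (j i + 2) = 16 * P := by
      rw [hP]
      push_cast
      rw [show (16 : ℤ) = 2 ^ 4 by norm_num, ← pow_add]
      congr 1
      omega
    have e5 : (2 : ℤ) ^ (j i - 1) = 2 * P := by
      rw [hP]
      push_cast
      rw [← pow_succ']
      congr 1
      omega
    rw [e3] at h2
    rw [e1] at g1
    rw [e2] at g2
    rw [e4, e5]
    obtain ⟨h5, h6⟩ := abs_lt.1 h2
    omega
  -- claim 1
  have hC : ∀ i ∈ T, ∀ a ∈ X i, ∀ b ∈ X i, 3 / 4 * Z ≤ ψ ((a : ℤ) - b) := by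
    intro i hi a ha b hb
    obtain ⟨ε, hε, hεa⟩ := hspan i hi a ha
    obtain ⟨δ, hδ, hδb⟩ := hspan i hi b hb
    have h18 := hj18 i hi
    set v : ℤ := (a : ℤ) - b with hv
    set w : ℤ := ((a : ℤ) - ∑ x ∈ Λ i, ε x * (x : ℤ)) - ((b : ℤ) - ∑ x ∈ Λ i, δ x * (x : ℤ))
      with hw
    have h1 : v = ∑ x ∈ Λ i, (ε x - δ x) * (x : ℤ) + w := by
      have : ∑ x ∈ Λ i, (ε x - δ x) * (x : ℤ) =
          ∑ x ∈ Λ i, ε x * (x : ℤ) - ∑ x ∈ Λ i, δ x * (x : ℤ) := by
        rw [← sum_sub_distrib]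
        exact sum_congr rfl fun x _ => by ring
      rw [this, hw, hv]
      ring
    have h2 : ∀ x ∈ Λ i, |ε x - δ x| ≤ 2 := by
      intro x _
      rw [abs_le]
      rcases hε x with h | h | h <;> rcases hδ x with h' | h' | h' <;> rw [h, h'] <;> norm_num
    have hvb : |v| ≤ 2 ^ (j i - 9) := by
      have g1 := hXd i hi a ha b hb
      have g2 := hXd i hi b hb a ha
      rw [abs_le]
      have e : ((2 ^ (j i - 9) : ℕ) : ℤ) = 2 ^ (j i - 9) := by push_cast; rfl
      rw [← e]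
      constructor <;> omega
    have hwb : |w| ≤ 2 * (W : ℤ) := by
      rw [hw]
      have := abs_sub ((a : ℤ) - ∑ x ∈ Λ i, ε x * (x : ℤ)) ((b : ℤ) - ∑ x ∈ Λ i, δ x * (x : ℤ))
      linarith
    obtain ⟨P, hP⟩ : ∃ P : ℕ, P = 2 ^ (j i - 9) := ⟨_, rfl⟩
    have hP1 : 1 ≤ P := by rw [hP]; exact Nat.one_le_two_pow
    have e1 : 2 ^ (j i) = 512 * P := by
      rw [hP, show (512 : ℕ) = 2 ^ 9 by norm_num, ← pow_add]
      congr 1
      omega
    have e2 : 2 ^ (j i - 3) = 64 * P := by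
      rw [hP, show (64 : ℕ) = 2 ^ 6 by norm_num, ← pow_add]
      congr 1
      omega
    have hWP : 512 * W ≤ P := by
      have := hjW i hi
      rw [e1] at this
      omega
    have hvP : |v| ≤ (P : ℤ) := by
      rw [hP]
      push_cast
      exact hvb
    have key := psi_close (ι := {i // i ∈ T}) (1000 * W) (fun i => 2 ^ (j i.1 - 3)) R
      (fun i => Λ i.1) (by omega) (fun i => Nat.one_le_two_pow) hR1 ⟨i, hi⟩ v w
      (fun x => ε x - δ x) h2 h1 (by
        simp only [e2]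
        push_cast
        omega) (by
        push_cast
        omega) (by
        simp only [e2]
        push_cast
        omega)
    simp only [e2] at key
    push_cast at key
    have c1 : 2 * (|(v : ℝ)| / (64 * (P : ℝ))) ≤ 1 / 32 := by
      have : |(v : ℝ)| ≤ (P : ℝ) := by exact_mod_cast hvP
      have hP0 : (0 : ℝ) < P := by exact_mod_cast hP1
      rw [← mul_div_assoc, div_le_div_iff₀ (by positivity) (by norm_num)]
      linarith
    have hW0 : (0 : ℝ) < W := by exact_mod_cast hW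
    have hwR : |(w : ℝ)| ≤ 2 * (W : ℝ) := by exact_mod_cast hwb
    have c2 : 8 * (|(w : ℝ)| / (1000 * (W : ℝ))) ≤ 16 / 1000 := by
      rw [← mul_div_assoc, div_le_div_iff₀ (by positivity) (by norm_num)]
      linarith
    have c3 : 8 * (|(w : ℝ)| / (64 * (P : ℝ))) ≤ 1 / 2000 := by
      have hP0 : (0 : ℝ) < P := by exact_mod_cast hP1
      have hWP' : 512 * (W : ℝ) ≤ P := by exact_mod_cast hWP
      rw [← mul_div_assoc, div_le_div_iff₀ (by positivity) (by norm_num)]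
      linarith
    have c4 : 16 * ((Λ i).card : ℝ) * ((Λ i).card * (1 / R)) ≤ 8 / 100 := by
      have hc : ((Λ i).card : ℝ) ≤ m := by exact_mod_cast hΛ i hi
      have hR' : 200 * (m : ℝ) ^ 2 ≤ R := by exact_mod_cast hR
      have hR0 : (0 : ℝ) < R := by exact_mod_cast hR1
      have hcc : ((Λ i).card : ℝ) * (Λ i).card ≤ m ^ 2 := by
        rw [pow_two]
        exact mul_le_mul hc hc (by positivity) (by positivity)
      have e : 16 * ((Λ i).card : ℝ) * ((Λ i).card * (1 / R)) =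
          16 * (((Λ i).card : ℝ) * (Λ i).card) / R := by ring
      rw [e, div_le_div_iff₀ hR0 (by norm_num)]
      linarith
    have c5 : Z - ψ v ≤ (1 / 32 + 16 / 1000 + 1 / 2000 + 8 / 100) * Z := by
      refine key.trans ?_
      apply mul_le_mul_of_nonneg_right _ (by linarith)
      linarith
    linarith
  -- the quadratic form
  set XX := T.biUnion X with hXX
  have hdisj : ∀ i ∈ T, ∀ i' ∈ T, i ≠ i' → Disjoint (X i) (X i') := by
    intro i hi i' hi' hne
    rw [disjoint_left]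
    intro a ha ha'
    obtain ⟨g1, g2⟩ := hXr i hi a ha
    obtain ⟨g3, g4⟩ := hXr i' hi' a ha'
    rcases lt_or_gt_of_ne hne with h | h
    · have := hj i hi i' hi' h
      have h5 : 2 ^ (j i + 1) ≤ 2 ^ (j i') := Nat.pow_le_pow_right (by norm_num) (by omega)
      omega
    · have := hj i' hi' i hi h
      have h5 : 2 ^ (j i' + 1) ≤ 2 ^ (j i) := Nat.pow_le_pow_right (by norm_num) (by omega)
      omega
  have hXXA : XX ⊆ A := by
    rw [hXX, biUnion_subset]
    exact hXA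
  set Ψ : ℕ → ℕ → ℝ := fun a b => (1 / 2) * (ψ ((a : ℤ) - b) - ψ ((a : ℤ) + b)) with hΨ
  have hsymm : ∀ a b, Ψ a b = Ψ b a := by
    intro a b
    simp only [hΨ]
    rw [← hψn ((a : ℤ) - b), neg_sub, add_comm (a : ℤ) b]
  set Q11 := ∑ a ∈ A, ∑ b ∈ A, Ψ a b with hQ11
  set Q01 := ∑ a ∈ XX, ∑ b ∈ A, Ψ a b with hQ01
  set Q00 := ∑ a ∈ XX, ∑ b ∈ XX, Ψ a b with hQ00
  have hle : Q11 ≤ M ^ 2 * Z := by
    have := qf_le (ι := {i // i ∈ T}) (1000 * W) (fun i => 2 ^ (j i.1 - 3)) R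
      (fun i => Λ i.1) A M hM
    unfold qf at this
    simp only [one_mul] at this
    exact this
  have hnn : 0 ≤ Q11 - Q01 + 1 / 4 * Q00 := by
    have h1 := qf_nonneg (ι := {i // i ∈ T}) (1000 * W) (fun i => 2 ^ (j i.1 - 3)) R
      (fun i => Λ i.1) A (fun a => 1 - (if a ∈ XX then 1 / 2 else 0))
    have h2 : qf (ι := {i // i ∈ T}) (1000 * W) (fun i => 2 ^ (j i.1 - 3)) R
      (fun i => Λ i.1) A (fun a => 1 - (if a ∈ XX then 1 / 2 else 0))
        (fun a => 1 - (if a ∈ XX then 1 / 2 else 0)) = Q11 - Q01 + 1 / 4 * Q00 := by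
      have e0 : ∀ f : ℕ → ℝ, ∑ a ∈ A, (if a ∈ XX then f a else 0) = ∑ a ∈ XX, f a := by
        intro f
        rw [← sum_filter]
        congr 1
        ext a
        rw [mem_filter]
        exact ⟨fun h => h.2, fun h => ⟨hXXA h, h⟩⟩
      have e1 : Q01 = ∑ a ∈ A, ∑ b ∈ A, (if a ∈ XX then Ψ a b else 0) := by
        rw [hQ01, ← e0]
        apply sum_congr rfl
        intro a _
        split_ifs
        · rfl
        · simp
      have e2 : Q01 = ∑ a ∈ A, ∑ b ∈ A, (if b ∈ XX then Ψ a b else 0) := by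
        rw [e1, sum_comm]
        apply sum_congr rfl
        intro a _
        apply sum_congr rfl
        intro b _
        rw [hsymm]
      have e3 : Q00 = ∑ a ∈ A, ∑ b ∈ A, (if a ∈ XX then (if b ∈ XX then Ψ a b else 0) else 0) := by
        rw [hQ00, ← e0]
        apply sum_congr rfl
        intro a _
        split_ifs
        · rw [e0]
        · simp
      have e4 : Q11 - Q01 + 1 / 4 * Q00 = Q11 - 1 / 2 * Q01 - 1 / 2 * Q01 + 1 / 4 * Q00 := by ring
      rw [e4]
      conv_rhs =>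
        rw [e3]
      nth_rewrite 1 [e1]
      rw [e2, hQ11]
      simp only [mul_sum, ← sum_sub_distrib, ← sum_add_distrib]
      unfold qf
      apply sum_congr rfl
      intro a _
      apply sum_congr rfl
      intro b _
      simp only [hΨ, hψ]
      split_ifs <;> ring
    rw [h2] at h1
    exact h1
  have h01 : (∑ i ∈ T, ((X i).card : ℝ) ^ 2) * Z / 4 ≤ Q01 := by
    rw [hQ01, hXX, sum_biUnion hdisj, sum_mul, sum_div]
    apply sum_le_sum
    intro i hi
    have h1 : ∀ a ∈ X i, ((X i).card : ℝ) * Z / 4 ≤ ∑ b ∈ A, Ψ a b := by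
      intro a ha
      have h2 : ∑ b ∈ A, ((if b ∈ X i then 3 / 8 * Z else 0) -
          (if b ∈ Bad A (VSet T j Λ R i) (j i) then 1 / 2 * Z else 0)) ≤ ∑ b ∈ A, Ψ a b := by
        apply sum_le_sum
        intro b hb
        have g1 : (if b ∈ X i then 3 / 8 * Z else 0) ≤ 1 / 2 * ψ ((a : ℤ) - b) := by
          split_ifs with h
          · have := hC i hi a ha b h
            linarith
          · have := hψ0 ((a : ℤ) - b)
            linarith
        have g2 : 1 / 2 * ψ ((a : ℤ) + b) ≤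
            (if b ∈ Bad A (VSet T j Λ R i) (j i) then 1 / 2 * Z else 0) := by
          split_ifs with h
          · have := hψZ ((a : ℤ) + b)
            linarith
          · rw [hB i hi a ha b hb h, mul_zero]
        simp only [hΨ]
        linarith
      refine le_trans ?_ h2
      rw [sum_sub_distrib, ← sum_filter, ← sum_filter, sum_const, sum_const, nsmul_eq_mul,
        nsmul_eq_mul]
      have e1 : A.filter (fun b => b ∈ X i) = X i := by
        ext b
        rw [mem_filter]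
        exact ⟨fun h => h.2, fun h => ⟨hXA i hi h, h⟩⟩
      have e2 : (A.filter (fun b => b ∈ Bad A (VSet T j Λ R i) (j i))).card ≤
          (Bad A (VSet T j Λ R i) (j i)).card := by
        apply card_le_card
        intro b hb
        exact (mem_filter.1 hb).2
      rw [e1]
      have e3 : 4 * (((A.filter (fun b => b ∈ Bad A (VSet T j Λ R i) (j i))).card : ℕ) : ℝ) ≤
          (X i).card := by
        have := (Nat.mul_le_mul_left 4 e2).trans (hbad i hi)
        exact_mod_cast this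
      have e4 := mul_le_mul_of_nonneg_right e3 (by linarith : (0 : ℝ) ≤ Z)
      linarith
    calc ((X i).card : ℝ) ^ 2 * Z / 4 = ∑ a ∈ X i, ((X i).card : ℝ) * Z / 4 := by
          rw [sum_const, nsmul_eq_mul]
          ring
      _ ≤ _ := sum_le_sum h1
  have h00 : Q00 ≤ (∑ i ∈ T, ((X i).card : ℝ) ^ 2) * Z / 2 := by
    rw [hQ00]
    conv_lhs =>
      rw [hXX, sum_biUnion hdisj]
    rw [sum_mul, sum_div]
    apply sum_le_sum
    intro i hi
    have h1 : ∀ a ∈ X i, ∑ b ∈ T.biUnion X, Ψ a b ≤ ((X i).card : ℝ) * Z / 2 := by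
      intro a ha
      have h2 : ∑ b ∈ T.biUnion X, Ψ a b ≤
          ∑ b ∈ T.biUnion X, (if b ∈ X i then 1 / 2 * Z else 0) := by
        apply sum_le_sum
        intro b hb
        have g0 := hψ0 ((a : ℤ) + b)
        split_ifs with h
        · have := hψZ ((a : ℤ) - b)
          simp only [hΨ]
          linarith
        · rw [mem_biUnion] at hb
          obtain ⟨i', hi', hb'⟩ := hb
          have hne : i' ≠ i := by
            rintro rfl
            exact h hb'
          have := hAne i hi i' hi' hne a ha b hb'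
          simp only [hΨ, this]
          linarith
      refine h2.trans ?_
      rw [← sum_filter, sum_const, nsmul_eq_mul]
      have e1 : (T.biUnion X).filter (fun b => b ∈ X i) = X i := by
        ext b
        rw [mem_filter]
        exact ⟨fun h => h.2, fun h => ⟨mem_biUnion.2 ⟨i, hi, h⟩, h⟩⟩
      rw [e1]
      linarith
    calc ∑ a ∈ X i, ∑ b ∈ T.biUnion X, Ψ a b ≤ ∑ a ∈ X i, ((X i).card : ℝ) * Z / 2 :=
          sum_le_sum h1
      _ = ((X i).card : ℝ) ^ 2 * Z / 2 := by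
          rw [sum_const, nsmul_eq_mul]
          ring
  have hZ0 : 0 < Z := by linarith
  have hfin : (∑ i ∈ T, ((X i).card : ℝ) ^ 2) * Z ≤ (8 * M ^ 2) * Z := by
    linarith
  exact le_of_mul_le_mul_right hfin hZ0

end Pool.Agent.LibBohr
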