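import Pool.Agent.LibBohr.DSelect
import Pool.Agent.LibBohr.DAnalytic

set_option autoImplicit false

namespace Pool.Agent.LibBohr

open Finset

theorem lemmaD (A : Finset ℕ) (M : ℝ) (hM : SupB A M)
    (hlev : ∀ i, ((win A i (i + 1)).card : ℝ) ≤ 2 * M)
    (m W r q q0 X0 : ℕ) (hm : 1 ≤ m)
    (hW : 1 ≤ W) (T : Finset ℕ) (j : ℕ → ℕ) (X Λ : ℕ → Finset ℕ)
    (hj : ∀ i ∈ T, ∀ i' ∈ T, i < i' → j i + 6 ≤ j i')
    (hjW : ∀ i ∈ T, 2 ^ 18 * W ≤ 2 ^ (j i))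
    (hX : ∀ i ∈ T, X i ⊆ win A (j i) (j i + 1))
    (hXd : ∀ i ∈ T, ∀ a ∈ X i, ∀ b ∈ X i, a ≤ b + 2 ^ (j i - 9))
    (hX0 : ∀ i ∈ T, X0 ≤ (X i).card)
    (hΛ : ∀ i ∈ T, (Λ i).card ≤ m)
    (hspan : ∀ i ∈ T, ∀ a ∈ X i, NearSpan W (Λ i) a)
    (hq0 : (4 * q0 * (200 * m ^ 2) + 1) ^ (r * m) < 2 ^ q0)
    (hq : (q0 : ℝ) * X0 + 32 * q0 * M ≤ (q : ℝ) * X0)
    (hT : r * q ≤ T.card) : (r : ℝ) * (X0 : ℝ) ^ 2 ≤ 8 * M ^ 2 := by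
  rcases Nat.eq_zero_or_pos X0 with h0 | h0
  · subst h0; simp; positivity
  have hj9 : ∀ i ∈ T, 9 ≤ j i := by
    intro i hi
    by_contra hlt
    push Not at hlt
    have h1 := hjW i hi
    have h2 : 2 ^ (j i) ≤ 2 ^ 9 := Nat.pow_le_pow_right (by norm_num) hlt.le
    have h3 : 2 ^ 18 * 1 ≤ 2 ^ 18 * W := Nat.mul_le_mul_left _ hW
    omega
  obtain ⟨T', hT', hcard, hcl, hbad⟩ := lemmaD_select A M hlev m (200 * m ^ 2) r q q0 X0 h0 T j Λ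
    hj hj9 hΛ hq0 hq hT
  have key := lemmaD_analytic A M hM m W (200 * m ^ 2) hm le_rfl hW T' j X Λ
    (fun i hi i' hi' => hj i (hT' hi) i' (hT' hi')) (fun i hi => hjW i (hT' hi))
    (fun i hi => hX i (hT' hi)) (fun i hi => hXd i (hT' hi)) (fun i hi => hΛ i (hT' hi))
    (fun i hi => hspan i (hT' hi)) hcl (fun i hi => (hbad i hi).trans (hX0 i (hT' hi)))
  refine le_trans ?_ key
  rw [← hcard]
  rw [← nsmul_eq_mul, ← Finset.sum_const]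
  apply Finset.sum_le_sum
  intro i hi
  have := hX0 i (hT' hi)
  have h' : (X0 : ℝ) ≤ (X i).card := by exact_mod_cast this
  gcongr

end Pool.Agent.LibBohr
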