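import Pool.Agent.LibBohr.DAlg

set_option autoImplicit false

namespace Pool.Agent.LibBohr

open Finset

namespace DA

section support

variable {κ : Type}

/-- The frequencies of `p` lie in `S`. -/
def Sup (S : Set (κ → ℤ)) (p : BB κ) : Prop := ∀ γ, p.coeff γ ≠ 0 → γ ∈ S

lemma Sup.mono {S S' : Set (κ → ℤ)} {p : BB κ} (h : Sup S p) (hS : S ⊆ S') : Sup S' p :=
  fun γ hγ => hS (h γ hγ)

lemma Sup.mul {S S' : Set (κ → ℤ)} {p q : BB κ} (hp : Sup S p) (hq : Sup S' q) :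
    Sup {γ | ∃ a ∈ S, ∃ b ∈ S', γ = a + b} (p * q) := by
  classical
  intro γ hγ
  have h1 : γ ∈ (p * q).coeff.support := Finsupp.mem_support_iff.2 hγ
  have h2 := AddMonoidAlgebra.support_coeff_mul_subset p q h1
  obtain ⟨a, ha, b, hb, hab⟩ := Finset.mem_add.1 h2
  exact ⟨a, hp a (Finsupp.mem_support_iff.1 ha), b, hq b (Finsupp.mem_support_iff.1 hb), hab.symm⟩

lemma Sup.add {S : Set (κ → ℤ)} {p q : BB κ} (hp : Sup S p) (hq : Sup S q) : Sup S (p + q) := by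
  intro γ hγ
  rw [AddMonoidAlgebra.coeff_add, Finsupp.add_apply] at hγ
  by_cases h : p.coeff γ = 0
  · rw [h, zero_add] at hγ
    exact hq γ hγ
  · exact hp γ h

lemma Sup.smul {S : Set (κ → ℤ)} {p : BB κ} (c : ℝ) (hp : Sup S p) : Sup S (c • p) := by
  intro γ hγ
  rw [AddMonoidAlgebra.coeff_smul_apply, smul_eq_mul] at hγ
  exact hp γ (right_ne_zero_of_mul hγ)

lemma Sup.sum {ι : Type} {S : Set (κ → ℤ)} (s : Finset ι) (p : ι → BB κ)
    (hp : ∀ i ∈ s, Sup S (p i)) : Sup S (∑ i ∈ s, p i) := by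
  classical
  induction s using Finset.induction_on with
  | empty => intro γ hγ; simp at hγ
  | insert a s ha ih =>
    rw [sum_insert ha]
    exact (hp a (mem_insert_self _ _)).add (ih fun i hi => hp i (mem_insert_of_mem hi))

lemma Sup.zz {S : Set (κ → ℤ)} {γ : κ → ℤ} (h : γ ∈ S) : Sup S (zz γ) := by
  classical
  intro δ hδ
  unfold DA.zz at hδ
  rw [AddMonoidAlgebra.coeff_single, Finsupp.single_apply] at hδ
  by_cases e : γ = δ
  · rwa [← e]
  · rw [if_neg e] at hδ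
    exact absurd rfl hδ

lemma Sup.prod {ι : Type} (S : ι → Set (κ → ℤ)) (s : Finset ι) (p : ι → BB κ)
    (hp : ∀ i ∈ s, Sup (S i) (p i)) :
    Sup {γ | ∃ g : ι → (κ → ℤ), (∀ i ∈ s, g i ∈ S i) ∧ γ = ∑ i ∈ s, g i} (∏ i ∈ s, p i) := by
  classical
  induction s using Finset.induction_on with
  | empty =>
    rw [prod_empty, ← zz_zero]
    exact Sup.zz ⟨fun _ => 0, by simp, by simp⟩
  | insert a s ha ih =>
    rw [prod_insert ha]
    refine ((hp a (mem_insert_self _ _)).mul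
      (ih fun i hi => hp i (mem_insert_of_mem hi))).mono ?_
    rintro γ ⟨b, hb, c, ⟨g, hg, rfl⟩, rfl⟩
    refine ⟨fun i => if i = a then b else g i, ?_, ?_⟩
    · intro i hi
      rw [mem_insert] at hi
      by_cases e : i = a
      · subst e
        simpa using hb
      · simp only [if_neg e]
        exact hg i (hi.resolve_left e)
    · rw [sum_insert ha]
      simp only [if_true]
      congr 1
      apply sum_congr rfl
      intro i hi
      rw [if_neg]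
      rintro rfl
      exact ha hi

lemma Sup.FF (n : ℕ) (γ : κ → ℤ) :
    Sup {δ | ∃ k : ℤ, |k| < (n : ℤ) ∧ δ = k • γ} (FF n γ) := by
  unfold DA.FF KK
  apply Sup.smul
  rw [sum_mul_sum]
  apply Sup.sum
  intro a ha
  apply Sup.sum
  intro b hb
  rw [zz_pow, zz_pow, zz_mul]
  apply Sup.zz
  rw [mem_range] at ha hb
  refine ⟨(a : ℤ) - b, ?_, ?_⟩
  · rw [abs_lt]
    constructor <;> omega
  · rw [sub_smul, natCast_zsmul, natCast_zsmul, smul_neg, sub_eq_add_neg]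

end support

section psi

variable {ι : Type} [Fintype ι] [DecidableEq ι]

/-- base frequency -/
def e0 : Option ι → ℤ := Pi.single none 1

/-- frequency of the auxiliary variable -/
def ei (i : ι) : Option ι → ℤ := Pi.single (some i) 1

/-- The weight. -/
noncomputable def Om (N0 : ℕ) (N : ι → ℕ) (R : ℕ) (Λ : ι → Finset ℕ) : BB (Option ι) :=
  FF N0 e0 * (∏ i, FF (N i) (e0 - ei i)) *
    ∏ x ∈ (univ : Finset ι).sigma Λ, FF R ((x.2 : ℤ) • ei x.1)

variable (N0 : ℕ) (N : ι → ℕ) (R : ℕ) (Λ : ι → Finset ℕ)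

lemma Om_NN : NN (Om N0 N R Λ) :=
  ((NN.FF _ _).mul (NN.prod _ _ fun _ _ => NN.FF _ _)).mul (NN.prod _ _ fun _ _ => NN.FF _ _)

lemma Om_Pos : Pos (Om N0 N R Λ) :=
  ((Pos.FF _ _).mul (Pos.prod _ _ fun _ _ => Pos.FF _ _)).mul (Pos.prod _ _ fun _ _ => Pos.FF _ _)

omit [Fintype ι] [DecidableEq ι] in
lemma one_le_mul {κ : Type} {p q : BB κ} (hp : NN (p - 1)) (hq : NN (q - 1)) :
    NN (p * q - 1) := by
  have hq' : NN q := by
    have := hq.add NN.one
    rwa [sub_add_cancel] at this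
  have := (hp.mul hq').add hq
  have e : (p - 1) * q + (q - 1) = p * q - 1 := by ring
  rwa [e] at this

omit [Fintype ι] [DecidableEq ι] in
lemma one_le_prod {κ α : Type} (s : Finset α) (p : α → BB κ) (hp : ∀ i ∈ s, NN (p i - 1)) :
    NN (∏ i ∈ s, p i - 1) := by
  classical
  induction s using Finset.induction_on with
  | empty => rw [prod_empty, sub_self]; exact NN.zero
  | insert a s ha ih =>
    rw [prod_insert ha]
    exact one_le_mul (hp a (mem_insert_self _ _)) (ih fun i hi => hp i (mem_insert_of_mem hi))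

lemma one_le_tau (hN0 : 1 ≤ N0) (hN : ∀ i, 1 ≤ N i) (hR : 1 ≤ R) : 1 ≤ tau (Om N0 N R Λ) := by
  have h1 : NN (Om N0 N R Λ - 1) := by
    apply one_le_mul
    · apply one_le_mul (FF_sub_one _ hN0 _)
      exact one_le_prod _ _ fun i _ => FF_sub_one _ (hN i) _
    · exact one_le_prod _ _ fun i _ => FF_sub_one _ hR _
  have h2 := h1.tau
  rw [tau_sub] at h2
  have h3 : tau (1 : BB (Option ι)) = 1 := by
    unfold tau
    exact AddMonoidAlgebra.coeff_one_zero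
  linarith

/-- The correlation sequence. -/
noncomputable def psi (u : ℤ) : ℝ := tau (Om N0 N R Λ * CC (u • e0))

lemma psi_nonneg (u : ℤ) : 0 ≤ psi N0 N R Λ u := ((Om_NN N0 N R Λ).mul (NN.CC _)).tau

lemma psi_neg (u : ℤ) : psi N0 N R Λ (-u) = psi N0 N R Λ u := by
  unfold psi
  rw [neg_smul, CC_neg]

lemma psi_zero : psi N0 N R Λ 0 = tau (Om N0 N R Λ) := by
  unfold psi
  rw [zero_smul, CC_zero, mul_one]

lemma Pos_of {κ : Type} [Fintype κ] (q : BB κ) (f : (κ → ℝ) → ℝ) (h : ∀ x, ev x q = (f x : ℂ))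
    (h0 : ∀ x, 0 ≤ f x) : Pos q := fun x => ⟨f x, h0 x, h x⟩

lemma psi_le (u : ℤ) : psi N0 N R Λ u ≤ tau (Om N0 N R Λ) := by
  have h1 : Pos (1 - CC (u • (e0 : Option ι → ℤ))) := by
    apply Pos_of _ (fun x => 1 - Real.cos (dotp (u • e0) x))
    · intro x
      rw [map_sub, map_one, ev_CC]
      push_cast
      rfl
    · intro x
      have := Real.cos_le_one (dotp (u • e0) x)
      linarith
  have h2 := ((Om_Pos N0 N R Λ).mul h1).tau
  rw [mul_sub, mul_one, tau_sub] at h2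
  unfold psi
  linarith

lemma Om_Sup : Sup {γ | ∃ (k0 : ℤ) (l : ι → ℤ) (k : ι → ℕ → ℤ), |k0| < (N0 : ℤ) ∧
    (∀ i, |l i| < (N i : ℤ)) ∧ (∀ i, ∀ a ∈ Λ i, |k i a| < (R : ℤ)) ∧
    γ = k0 • e0 + ∑ i, l i • (e0 - ei i) + ∑ i, (∑ a ∈ Λ i, k i a * (a : ℤ)) • ei i}
    (Om N0 N R Λ) := by
  refine (((Sup.FF N0 (e0 : Option ι → ℤ)).mul (Sup.prod _ univ _ fun i _ =>
    Sup.FF (N i) ((e0 : Option ι → ℤ) - ei i))).mul
      (Sup.prod _ ((univ : Finset ι).sigma Λ) _ fun x _ =>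
        Sup.FF R ((x.2 : ℤ) • (ei x.1 : Option ι → ℤ)))).mono ?_
  rintro γ ⟨_, ⟨_, ⟨k0, hk0, rfl⟩, _, ⟨g, hg, rfl⟩, rfl⟩, _, ⟨g', hg', rfl⟩, rfl⟩
  choose l hl using fun i => hg i (mem_univ i)
  choose! k hk using hg'
  refine ⟨k0, l, fun i a => k ⟨i, a⟩, hk0, fun i => (hl i).1, ?_, ?_⟩
  · intro i a ha
    exact (hk ⟨i, a⟩ (mem_sigma.2 ⟨mem_univ _, ha⟩)).1
  · congr 1
    · congr 1
      exact sum_congr rfl fun i _ => (hl i).2
    · rw [sum_congr rfl fun x hx => (hk x hx).2, sum_sigma]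
      apply sum_congr rfl
      intro i _
      rw [sum_smul]
      apply sum_congr rfl
      intro a _
      rw [smul_smul]

lemma Om_spec (u : ℤ) (h : (Om N0 N R Λ).coeff (u • e0) ≠ 0) :
    ∃ (k0 : ℤ) (l : ι → ℤ), |k0| < (N0 : ℤ) ∧
      (∀ i, |l i| < (N i : ℤ) ∧ ∃ k : ℕ → ℤ, (∀ a ∈ Λ i, |k a| < (R : ℤ)) ∧
        l i = ∑ a ∈ Λ i, k a * (a : ℤ)) ∧ u = k0 + ∑ i, l i := by
  obtain ⟨k0, l, k, h1, h2, h3, h4⟩ := Om_Sup N0 N R Λ _ h
  refine ⟨k0, l, h1, fun i => ⟨h2 i, k i, h3 i, ?_⟩, ?_⟩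
  · have h5 := congrFun h4 (some i)
    simp only [Pi.add_apply, Pi.smul_apply, Finset.sum_apply, Pi.sub_apply, smul_eq_mul] at h5
    have h6 : (e0 : Option ι → ℤ) (some i) = 0 := by simp [e0]
    have h7 : ∀ c, (ei c : Option ι → ℤ) (some i) = if c = i then 1 else 0 := by
      intro c
      unfold ei
      rw [Pi.single_apply]
      simp only [Option.some.injEq, eq_comm]
    simp only [h6, h7, mul_zero, zero_sub, zero_add] at h5
    simp at h5
    linarith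
  · have h5 := congrFun h4 none
    simp only [Pi.add_apply, Pi.smul_apply, Finset.sum_apply, Pi.sub_apply, smul_eq_mul] at h5
    have h6 : (e0 : Option ι → ℤ) none = 1 := by simp [e0]
    have h7 : ∀ c, (ei c : Option ι → ℤ) none = 0 := by
      intro c
      simp [ei]
    simp only [h6, h7, mul_one, mul_zero, sub_zero, sum_const_zero, add_zero] at h5
    exact h5

lemma psi_spec (u : ℤ) (h : psi N0 N R Λ u ≠ 0) :
    ∃ (k0 : ℤ) (l : ι → ℤ), |k0| < (N0 : ℤ) ∧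
      (∀ i, |l i| < (N i : ℤ) ∧ ∃ k : ℕ → ℤ, (∀ a ∈ Λ i, |k a| < (R : ℤ)) ∧
        l i = ∑ a ∈ Λ i, k a * (a : ℤ)) ∧ u = k0 + ∑ i, l i := by
  have h1 : psi N0 N R Λ u = (1 / 2) * ((Om N0 N R Λ).coeff ((-u) • e0) +
      (Om N0 N R Λ).coeff (u • e0)) := by
    unfold psi CC
    rw [mul_smul_comm, tau_smul, mul_add, tau_add]
    unfold tau zz
    rw [AddMonoidAlgebra.coeff_mul_single_apply, AddMonoidAlgebra.coeff_mul_single_apply]
    simp
  by_cases h2 : (Om N0 N R Λ).coeff (u • e0) = 0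
  · by_cases h3 : (Om N0 N R Λ).coeff ((-u) • e0) = 0
    · rw [h2, h3] at h1
      simp at h1
      exact absurd h1 h
    · obtain ⟨k0, l, g1, g2, g3⟩ := Om_spec N0 N R Λ _ h3
      refine ⟨-k0, fun i => -l i, by rwa [abs_neg], ?_, ?_⟩
      · intro i
        obtain ⟨g4, k, g5, g6⟩ := g2 i
        refine ⟨by rwa [abs_neg], fun a => -k a, ?_, ?_⟩
        · intro a ha
          rw [abs_neg]
          exact g5 a ha
        · simp only [g6, ← sum_neg_distrib]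
          exact sum_congr rfl fun a _ => by ring
      · rw [sum_neg_distrib]
        linarith
  · exact Om_spec N0 N R Λ _ h2

lemma sin_sum_le {α : Type} (s : Finset α) (f : α → ℝ) :
    |Real.sin (∑ i ∈ s, f i)| ≤ ∑ i ∈ s, |Real.sin (f i)| := by
  classical
  induction s using Finset.induction_on with
  | empty => simp
  | insert a s ha ih =>
    rw [sum_insert ha, sum_insert ha, Real.sin_add]
    have h1 : |Real.sin (f a) * Real.cos (∑ i ∈ s, f i)| ≤ |Real.sin (f a)| := by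
      rw [abs_mul]
      exact mul_le_of_le_one_right (abs_nonneg _) (Real.abs_cos_le_one _)
    have h2 : |Real.cos (f a) * Real.sin (∑ i ∈ s, f i)| ≤ |Real.sin (∑ i ∈ s, f i)| := by
      rw [abs_mul]
      exact mul_le_of_le_one_left (abs_nonneg _) (Real.abs_cos_le_one _)
    have h3 := abs_add_le (Real.sin (f a) * Real.cos (∑ i ∈ s, f i))
      (Real.cos (f a) * Real.sin (∑ i ∈ s, f i))
    linarith

lemma sin_int_le (c : ℤ) (hc : |c| ≤ 2) (y : ℝ) : |Real.sin (c * y)| ≤ 2 * |Real.sin y| := by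
  have h0 := abs_nonneg (Real.sin y)
  have h2 : |Real.sin (2 * y)| ≤ 2 * |Real.sin y| := by
    rw [Real.sin_two_mul, mul_assoc, abs_mul, abs_mul]
    have := Real.abs_cos_le_one y
    rw [abs_of_pos (by norm_num : (0 : ℝ) < 2)]
    nlinarith
  obtain ⟨h3, h4⟩ := abs_le.1 hc
  have h5 : c = -2 ∨ c = -1 ∨ c = 0 ∨ c = 1 ∨ c = 2 := by omega
  rcases h5 with h | h | h | h | h <;> subst h
  · have e : ((-2 : ℤ) : ℝ) * y = -(2 * y) := by push_cast; ring
    rw [e, Real.sin_neg, abs_neg]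
    exact h2
  · have e : ((-1 : ℤ) : ℝ) * y = -y := by push_cast; ring
    rw [e, Real.sin_neg, abs_neg]
    linarith
  · simp
  · simp
    linarith
  · push_cast
    exact h2

lemma one_sub_cos_eq (y : ℝ) : 1 - Real.cos y = 2 * Real.sin (y / 2) ^ 2 := by
  have h := Real.cos_two_mul (y / 2)
  have h2 := Real.sin_sq_add_cos_sq (y / 2)
  rw [mul_div_cancel₀ y (two_ne_zero)] at h
  linarith

lemma one_sub_cos_add (x y : ℝ) :
    1 - Real.cos (x + y) ≤ 2 * (1 - Real.cos x) + 2 * (1 - Real.cos y) := by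
  rw [one_sub_cos_eq, one_sub_cos_eq x, one_sub_cos_eq y]
  have h1 : |Real.sin ((x + y) / 2)| ≤ |Real.sin (x / 2)| + |Real.sin (y / 2)| := by
    have h := sin_sum_le (univ : Finset (Fin 2)) ![x / 2, y / 2]
    simp only [Fin.sum_univ_two] at h
    simp at h
    have e : (x + y) / 2 = x / 2 + y / 2 := by ring
    rw [e]
    exact h
  have h2 : Real.sin ((x + y) / 2) ^ 2 ≤ (|Real.sin (x / 2)| + |Real.sin (y / 2)|) ^ 2 := by
    rw [← sq_abs]
    exact pow_le_pow_left₀ (abs_nonneg _) h1 2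
  have h3 := sq_abs (Real.sin (x / 2))
  have h4 := sq_abs (Real.sin (y / 2))
  nlinarith [sq_nonneg (|Real.sin (x / 2)| - |Real.sin (y / 2)|)]

lemma one_sub_cos_sum (s : Finset ℕ) (c : ℕ → ℤ) (hc : ∀ a ∈ s, |c a| ≤ 2) (f : ℕ → ℝ) :
    1 - Real.cos (∑ a ∈ s, c a * f a) ≤ 4 * s.card * ∑ a ∈ s, (1 - Real.cos (f a)) := by
  rw [one_sub_cos_eq]
  have h1 : |Real.sin ((∑ a ∈ s, c a * f a) / 2)| ≤ ∑ a ∈ s, 2 * |Real.sin (f a / 2)| := by
    rw [sum_div]
    refine (sin_sum_le s _).trans (sum_le_sum ?_)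
    intro a ha
    rw [mul_div_assoc]
    exact sin_int_le _ (hc a ha) _
  have h2 : Real.sin ((∑ a ∈ s, c a * f a) / 2) ^ 2 ≤ (∑ a ∈ s, 2 * |Real.sin (f a / 2)|) ^ 2 := by
    rw [← sq_abs]
    exact pow_le_pow_left₀ (abs_nonneg _) h1 2
  have h3 := sq_sum_le_card_mul_sum_sq (s := s) (f := fun a => 2 * |Real.sin (f a / 2)|)
  have h4 : ∑ a ∈ s, (2 * |Real.sin (f a / 2)|) ^ 2 = 2 * ∑ a ∈ s, (1 - Real.cos (f a)) := by
    rw [mul_sum]
    apply sum_congr rfl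
    intro a _
    rw [one_sub_cos_eq, mul_pow, sq_abs]
    ring
  rw [h4] at h3
  linarith

omit [Fintype ι] [DecidableEq ι] in
lemma ev_one_sub_CC {κ : Type} [Fintype κ] (x : κ → ℝ) (γ : κ → ℤ) :
    ev x (1 - CC γ) = ((1 - Real.cos (dotp γ x) : ℝ) : ℂ) := by
  rw [map_sub, map_one, ev_CC]
  push_cast
  rfl

/-- the pointwise trigonometric inequality -/
lemma trig_ineq (i : ι) (v w : ℤ) (c : ℕ → ℤ) (hc : ∀ a ∈ Λ i, |c a| ≤ 2)
    (hv : v = ∑ a ∈ Λ i, c a * (a : ℤ) + w) (x : Option ι → ℝ) :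
    1 - Real.cos (dotp (v • e0) x) ≤ 2 * (1 - Real.cos (dotp (v • (e0 - ei i)) x)) +
      8 * (1 - Real.cos (dotp (w • e0) x)) + 8 * (1 - Real.cos (dotp (w • (e0 - ei i)) x)) +
      16 * (Λ i).card * ∑ a ∈ Λ i, (1 - Real.cos (dotp ((1 : ℤ) • ((a : ℤ) • ei i)) x)) := by
  have d0 : dotp (e0 : Option ι → ℤ) x = x none := by
    unfold e0
    rw [dotp_single]
    simp
  have di : dotp (ei i : Option ι → ℤ) x = x (some i) := by
    unfold ei
    rw [dotp_single]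
    simp
  simp only [dotp_smul, dotp_sub, d0, di, Int.cast_one, one_mul]
  set θ := x none
  set φ := x (some i)
  have h1 := one_sub_cos_add ((v : ℝ) * (θ - φ)) ((v : ℝ) * φ)
  have h2 := one_sub_cos_add ((w : ℝ) * φ) (∑ a ∈ Λ i, c a * ((a : ℝ) * φ))
  have h3 := one_sub_cos_add ((w : ℝ) * θ) (-((w : ℝ) * (θ - φ)))
  have h4 := one_sub_cos_sum (Λ i) c hc (fun a => (a : ℝ) * φ)
  have e1 : (v : ℝ) * (θ - φ) + v * φ = v * θ := by ring
  have e2 : (w : ℝ) * φ + ∑ a ∈ Λ i, c a * ((a : ℝ) * φ) = v * φ := by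
    rw [hv]
    push_cast
    rw [add_mul, sum_mul, add_comm]
    congr 1
    exact sum_congr rfl fun a _ => by ring
  have e3 : (w : ℝ) * θ + -((w : ℝ) * (θ - φ)) = w * φ := by ring
  rw [e1] at h1
  rw [e2] at h2
  rw [e3, Real.cos_neg] at h3
  simp only [Int.cast_natCast]
  linarith

theorem psi_close (hN0 : 1 ≤ N0) (hN : ∀ i, 1 ≤ N i) (hR : 1 ≤ R) (i : ι) (v w : ℤ) (c : ℕ → ℤ)
    (hc : ∀ a ∈ Λ i, |c a| ≤ 2) (hv : v = ∑ a ∈ Λ i, c a * (a : ℤ) + w)
    (hvN : |v| ≤ N i) (hw0 : |w| ≤ N0) (hwN : |w| ≤ N i) :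
    tau (Om N0 N R Λ) - psi N0 N R Λ v ≤
      (2 * ((|v| : ℝ) / N i) + 8 * ((|w| : ℝ) / N0) + 8 * ((|w| : ℝ) / N i) +
        16 * (Λ i).card * ((Λ i).card * (1 / R))) * tau (Om N0 N R Λ) := by
  set O := Om N0 N R Λ with hO
  -- the three factorisations
  have f0 : ∃ p, NN p ∧ O = FF N0 e0 * p := by
    refine ⟨(∏ i, FF (N i) (e0 - ei i)) *
      ∏ x ∈ (univ : Finset ι).sigma Λ, FF R ((x.2 : ℤ) • ei x.1),
      (NN.prod _ _ fun _ _ => NN.FF _ _).mul (NN.prod _ _ fun _ _ => NN.FF _ _), ?_⟩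
    rw [hO]
    unfold Om
    ring
  have f1 : ∃ p, NN p ∧ O = FF (N i) (e0 - ei i) * p := by
    refine ⟨FF N0 e0 * (∏ i' ∈ univ.erase i, FF (N i') (e0 - ei i')) *
      ∏ x ∈ (univ : Finset ι).sigma Λ, FF R ((x.2 : ℤ) • ei x.1),
      ((NN.FF _ _).mul (NN.prod _ _ fun _ _ => NN.FF _ _)).mul
        (NN.prod _ _ fun _ _ => NN.FF _ _), ?_⟩
    rw [hO]
    unfold Om
    rw [← mul_prod_erase univ (fun i' => FF (N i') ((e0 : Option ι → ℤ) - ei i')) (mem_univ i)]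
    ring
  have f2 : ∀ a ∈ Λ i, ∃ p, NN p ∧ O = FF R ((a : ℤ) • ei i) * p := by
    intro a ha
    have hm : (⟨i, a⟩ : (_ : ι) × ℕ) ∈ (univ : Finset ι).sigma Λ :=
      mem_sigma.2 ⟨mem_univ _, ha⟩
    refine ⟨FF N0 e0 * (∏ i', FF (N i') (e0 - ei i')) *
      ∏ x ∈ ((univ : Finset ι).sigma Λ).erase ⟨i, a⟩, FF R ((x.2 : ℤ) • ei x.1),
      ((NN.FF _ _).mul (NN.prod _ _ fun _ _ => NN.FF _ _)).mul
        (NN.prod _ _ fun _ _ => NN.FF _ _), ?_⟩
    rw [hO]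
    unfold Om
    rw [← mul_prod_erase ((univ : Finset ι).sigma Λ)
      (fun x => FF R ((x.2 : ℤ) • (ei x.1 : Option ι → ℤ))) hm]
    ring
  -- the costs
  have g1 : tau (O * (1 - CC (v • (e0 - ei i)))) ≤ (|v| : ℝ) / N i * tau O := by
    obtain ⟨p, hp, e⟩ := f1
    rw [e]
    exact tau_cost (N i) v (hN i) hvN _ p hp
  have g2 : tau (O * (1 - CC (w • e0))) ≤ (|w| : ℝ) / N0 * tau O := by
    obtain ⟨p, hp, e⟩ := f0
    rw [e]
    exact tau_cost N0 w hN0 hw0 _ p hp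
  have g3 : tau (O * (1 - CC (w • (e0 - ei i)))) ≤ (|w| : ℝ) / N i * tau O := by
    obtain ⟨p, hp, e⟩ := f1
    rw [e]
    exact tau_cost (N i) w (hN i) hwN _ p hp
  have g4 : ∀ a ∈ Λ i, tau (O * (1 - CC ((1 : ℤ) • ((a : ℤ) • ei i)))) ≤ 1 / (R : ℝ) * tau O := by
    intro a ha
    obtain ⟨p, hp, e⟩ := f2 a ha
    rw [e]
    have := tau_cost R 1 hR (by simpa using hR) ((a : ℤ) • (ei i : Option ι → ℤ)) p hp
    simpa using this
  -- positivity
  set q : BB (Option ι) := (2 : ℝ) • (1 - CC (v • (e0 - ei i))) + (8 : ℝ) • (1 - CC (w • e0)) +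
    (8 : ℝ) • (1 - CC (w • (e0 - ei i))) +
    (16 * ((Λ i).card : ℝ)) • (∑ a ∈ Λ i, (1 - CC ((1 : ℤ) • ((a : ℤ) • ei i)))) -
    (1 - CC (v • e0)) with hq
  have hqPos : Pos q := by
    apply Pos_of q (fun x => 2 * (1 - Real.cos (dotp (v • (e0 - ei i)) x)) +
      8 * (1 - Real.cos (dotp (w • e0) x)) + 8 * (1 - Real.cos (dotp (w • (e0 - ei i)) x)) +
      16 * (Λ i).card * ∑ a ∈ Λ i, (1 - Real.cos (dotp ((1 : ℤ) • ((a : ℤ) • ei i)) x)) -
      (1 - Real.cos (dotp (v • e0) x)))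
    · intro x
      rw [hq, map_sub, map_add, map_add, map_add, ev_smul, ev_smul, ev_smul, ev_smul, map_sum]
      simp only [ev_one_sub_CC]
      push_cast
      ring
    · intro x
      have := trig_ineq Λ i v w c hc hv x
      linarith
  have h := ((Om_Pos N0 N R Λ).mul hqPos).tau
  rw [← hO] at h
  have e : O * q = (2 : ℝ) • (O * (1 - CC (v • (e0 - ei i)))) + (8 : ℝ) • (O * (1 - CC (w • e0))) +
    (8 : ℝ) • (O * (1 - CC (w • (e0 - ei i)))) +
    (16 * ((Λ i).card : ℝ)) • (∑ a ∈ Λ i, O * (1 - CC ((1 : ℤ) • ((a : ℤ) • ei i)))) -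
    (O - O * CC (v • e0)) := by
    rw [hq, mul_sub, mul_add, mul_add, mul_add, mul_smul_comm, mul_smul_comm, mul_smul_comm,
      mul_smul_comm, mul_sum, mul_sub O 1 (CC (v • e0)), mul_one]
  rw [e, tau_sub, tau_add, tau_add, tau_add, tau_smul, tau_smul, tau_smul, tau_smul, tau_sum,
    tau_sub] at h
  have g5 : ∑ a ∈ Λ i, tau (O * (1 - CC ((1 : ℤ) • ((a : ℤ) • ei i)))) ≤
      (Λ i).card * (1 / (R : ℝ) * tau O) := by
    rw [← nsmul_eq_mul, ← sum_const]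
    exact sum_le_sum g4
  have g6 := mul_le_mul_of_nonneg_left g5 (by positivity : (0 : ℝ) ≤ 16 * ((Λ i).card : ℝ))
  have e2 : psi N0 N R Λ v = tau (O * CC (v • e0)) := rfl
  rw [e2]
  linarith

/-- The quadratic form attached to `psi`. -/
noncomputable def qf (A : Finset ℕ) (y z : ℕ → ℝ) : ℝ :=
  ∑ a ∈ A, ∑ b ∈ A, y a * z b * ((1 / 2) *
    (psi N0 N R Λ ((a : ℤ) - b) - psi N0 N R Λ ((a : ℤ) + b)))

/-- element representing a square of a sine sum -/
noncomputable def sq (ι : Type) [DecidableEq ι] (A : Finset ℕ) (y : ℕ → ℝ) : BB (Option ι) :=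
  ∑ a ∈ A, ∑ b ∈ A, (y a * y b * (1 / 2)) •
    (CC (((a : ℤ) - b) • e0) - CC (((a : ℤ) + b) • e0))

lemma ev_sq (A : Finset ℕ) (y : ℕ → ℝ) (x : Option ι → ℝ) :
    ev x (sq ι A y) = (((∑ a ∈ A, y a * Real.sin (a * x none)) ^ 2 : ℝ) : ℂ) := by
  have d0 : dotp (e0 : Option ι → ℤ) x = x none := by
    unfold e0
    rw [dotp_single]
    simp
  unfold sq
  simp only [map_sum, ev_smul, map_sub, ev_CC, dotp_smul, d0]
  rw [pow_two, sum_mul_sum]
  push_cast
  apply sum_congr rfl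
  intro a _
  apply sum_congr rfl
  intro b _
  have h : Real.cos ((a - b : ℝ) * x none) - Real.cos ((a + b : ℝ) * x none) =
      2 * (Real.sin (a * x none) * Real.sin (b * x none)) := by
    rw [sub_mul, add_mul, Real.cos_sub, Real.cos_add]
    ring
  have h' : ((Real.cos ((a - b : ℝ) * x none) - Real.cos ((a + b : ℝ) * x none) : ℝ) : ℂ) =
      ((2 * (Real.sin (a * x none) * Real.sin (b * x none)) : ℝ) : ℂ) := by rw [h]
  push_cast at h'
  rw [h']
  ring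

lemma tau_sq (A : Finset ℕ) (y : ℕ → ℝ) :
    tau (Om N0 N R Λ * sq ι A y) = qf N0 N R Λ A y y := by
  unfold sq qf psi
  rw [mul_sum, tau_sum]
  apply sum_congr rfl
  intro a _
  rw [mul_sum, tau_sum]
  apply sum_congr rfl
  intro b _
  rw [mul_smul_comm, tau_smul, mul_sub, tau_sub]
  ring

theorem qf_nonneg (A : Finset ℕ) (y : ℕ → ℝ) : 0 ≤ qf N0 N R Λ A y y := by
  rw [← tau_sq]
  apply Pos.tau
  apply (Om_Pos N0 N R Λ).mul
  exact Pos_of _ _ (ev_sq A y) (fun x => sq_nonneg _)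

theorem qf_le (A : Finset ℕ) (M : ℝ) (hM : SupB A M) :
    qf N0 N R Λ A (fun _ => 1) (fun _ => 1) ≤ M ^ 2 * tau (Om N0 N R Λ) := by
  rw [← tau_sq]
  have h1 : Pos ((M ^ 2) • (1 : BB (Option ι)) - sq ι A (fun _ => 1)) := by
    apply Pos_of _ (fun x => M ^ 2 - (∑ a ∈ A, 1 * Real.sin (a * x none)) ^ 2)
    · intro x
      rw [map_sub, ev_sq, ev_smul, map_one]
      push_cast
      ring
    · intro x
      have := hM (x none)
      simp only [one_mul]
      have h2 : (∑ a ∈ A, Real.sin (a * x none)) ^ 2 ≤ M ^ 2 := by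
        rw [← sq_abs]
        exact pow_le_pow_left₀ (abs_nonneg _) this 2
      linarith
  have h2 := ((Om_Pos N0 N R Λ).mul h1).tau
  rw [mul_sub, tau_sub, mul_smul_comm, tau_smul, mul_one] at h2
  linarith

end psi

end DA

end Pool.Agent.LibBohr
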