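import Pool.Agent.LibBohr.DDefs

set_option autoImplicit false

namespace Pool.Agent.LibBohr

open Finset

namespace DSel

lemma sum_lt_of_super (u : ℕ → ℤ) (I : Finset ℕ) :
    ∀ a : ℕ, (∀ i ∈ I, i < a) → (∀ i ∈ insert a I, 0 < u i) →
      (∀ i ∈ insert a I, ∀ i' ∈ insert a I, i < i' → 2 * u i ≤ u i') →
      ∑ i ∈ I, u i < u a := by
  induction I using Finset.induction_on_max with
  | empty =>
    intro a _ hpos _
    simpa using hpos a (by simp)
  | insert b I hb ih =>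
    intro a ha hpos hsup
    have hbI : b ∉ I := fun h => lt_irrefl _ (hb b h)
    rw [Finset.sum_insert hbI]
    have h1 : ∑ i ∈ I, u i < u b := by
      apply ih b hb
      · intro i hi
        exact hpos i (Finset.mem_insert_of_mem hi)
      · intro i hi i' hi' hlt
        exact hsup i (Finset.mem_insert_of_mem hi) i' (Finset.mem_insert_of_mem hi') hlt
    have h2 : 2 * u b ≤ u a := by
      apply hsup b (by simp) a (by simp)
      exact ha b (by simp)
    linarith

lemma subset_sum_inj (u : ℕ → ℤ) (I : Finset ℕ) :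
    (∀ i ∈ I, 0 < u i) → (∀ i ∈ I, ∀ i' ∈ I, i < i' → 2 * u i ≤ u i') →
      ∀ S ⊆ I, ∀ S' ⊆ I, ∑ i ∈ S, u i = ∑ i ∈ S', u i → S = S' := by
  induction I using Finset.induction_on_max with
  | empty =>
    intro _ _ S hS S' hS' _
    rw [Finset.subset_empty.mp hS, Finset.subset_empty.mp hS']
  | insert b I hb ih =>
    intro hpos hsup
    have hbI : b ∉ I := fun h => lt_irrefl _ (hb b h)
    have hlt : ∑ i ∈ I, u i < u b := sum_lt_of_super u I b hb hpos hsup
    have ih' := ih (fun i hi => hpos i (Finset.mem_insert_of_mem hi))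
      (fun i hi i' hi' h => hsup i (Finset.mem_insert_of_mem hi) i'
        (Finset.mem_insert_of_mem hi') h)
    -- one contains `b`, the other does not: impossible
    have key : ∀ S ⊆ insert b I, ∀ S' ⊆ insert b I, b ∈ S → b ∉ S' →
        ∑ i ∈ S, u i ≠ ∑ i ∈ S', u i := by
      intro S hS S' hS' h1 h2
      have h3 : u b ≤ ∑ i ∈ S, u i :=
        Finset.single_le_sum (f := u) (fun i hi => (hpos i (hS hi)).le) h1
      have h4 : S' ⊆ I := by
        intro x hx
        rcases Finset.mem_insert.mp (hS' hx) with h | h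
        · exact absurd (h ▸ hx) h2
        · exact h
      have h5 : ∑ i ∈ S', u i ≤ ∑ i ∈ I, u i :=
        Finset.sum_le_sum_of_subset_of_nonneg h4
          (fun i hi _ => (hpos i (Finset.mem_insert_of_mem hi)).le)
      intro h
      linarith
    intro S hS S' hS' hsum
    by_cases h1 : b ∈ S
    · by_cases h2 : b ∈ S'
      · have e1 := Finset.add_sum_erase S u h1
        have e2 := Finset.add_sum_erase S' u h2
        have hE : S.erase b ⊆ I := by
          intro x hx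
          have hx' := Finset.mem_erase.mp hx
          rcases Finset.mem_insert.mp (hS hx'.2) with h | h
          · exact absurd h hx'.1
          · exact h
        have hE' : S'.erase b ⊆ I := by
          intro x hx
          have hx' := Finset.mem_erase.mp hx
          rcases Finset.mem_insert.mp (hS' hx'.2) with h | h
          · exact absurd h hx'.1
          · exact h
        have := ih' _ hE _ hE' (by linarith)
        rw [← Finset.insert_erase h1, ← Finset.insert_erase h2, this]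
      · exact absurd hsum (key S hS S' hS' h1 h2)
    · by_cases h2 : b ∈ S'
      · exact absurd hsum.symm (key S' hS' S hS h2 h1)
      · apply ih' S _ S' _ hsum
        · intro x hx
          rcases Finset.mem_insert.mp (hS hx) with h | h
          · exact absurd (h ▸ hx) h1
          · exact h
        · intro x hx
          rcases Finset.mem_insert.mp (hS' hx) with h | h
          · exact absurd (h ▸ hx) h2
          · exact h

lemma super_count {ι : Type} [DecidableEq ι] (G : Finset ι) (g : ι → ℤ) (I : Finset ℕ)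
    (u : ℕ → ℤ) (k : ℕ → ι → ℤ) (K : ℕ) (hk : ∀ i ∈ I, ∀ x ∈ G, |k i x| ≤ (K : ℤ))
    (hu : ∀ i ∈ I, u i = ∑ x ∈ G, k i x * g x) (hpos : ∀ i ∈ I, 0 < u i)
    (hsup : ∀ i ∈ I, ∀ i' ∈ I, i < i' → 2 * u i ≤ u i') :
    2 ^ I.card ≤ (2 * (I.card * K) + 1) ^ G.card := by
  classical
  set N : ℕ := I.card * K with hN
  let F : Finset ℕ → (G → ℤ) := fun S x => ∑ i ∈ S, k i x.1
  let tgt : Finset (G → ℤ) := Fintype.piFinset (fun _ : G => Finset.Icc (-(N : ℤ)) (N : ℤ))
  have hcard : tgt.card = (2 * N + 1) ^ G.card := by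
    simp only [tgt, Fintype.card_piFinset, Finset.prod_const, Finset.card_univ,
      Fintype.card_coe, Int.card_Icc]
    congr 1
    omega
  rw [← hcard, ← Finset.card_powerset]
  apply Finset.card_le_card_of_injOn F
  · intro S hS
    have hS' : S ⊆ I := Finset.mem_powerset.mp hS
    rw [Finset.mem_coe, Fintype.mem_piFinset]
    intro x
    rw [Finset.mem_Icc, ← abs_le]
    calc |F S x| ≤ ∑ i ∈ S, |k i x.1| := Finset.abs_sum_le_sum_abs _ _
      _ ≤ ∑ i ∈ S, (K : ℤ) := Finset.sum_le_sum (fun i hi => hk i (hS' hi) x.1 x.2)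
      _ = (S.card : ℤ) * K := by rw [Finset.sum_const, nsmul_eq_mul]
      _ ≤ (N : ℤ) := by
        rw [hN]; push_cast
        exact mul_le_mul_of_nonneg_right (by exact_mod_cast Finset.card_le_card hS')
          (by positivity)
  · intro S hS S' hS' hF
    have hS1 : S ⊆ I := Finset.mem_powerset.mp hS
    have hS1' : S' ⊆ I := Finset.mem_powerset.mp hS'
    apply subset_sum_inj u I hpos hsup S hS1 S' hS1'
    have expand : ∀ S ⊆ I, ∑ i ∈ S, u i = ∑ x ∈ G.attach, (∑ i ∈ S, k i x.1) * g x.1 := by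
      intro S hS
      rw [Finset.sum_congr rfl (fun i hi => hu i (hS hi)), Finset.sum_comm,
        ← Finset.sum_attach G]
      refine Finset.sum_congr rfl (fun x _ => ?_)
      rw [Finset.sum_mul]
    rw [expand S hS1, expand S' hS1']
    refine Finset.sum_congr rfl (fun x _ => ?_)
    have := congrFun hF x
    simp only [F] at this
    rw [this]

/-- The elements of `V`-sets, all indices of `T` allowed. -/
def V0 (T : Finset ℕ) (j : ℕ → ℕ) (Λ : ℕ → Finset ℕ) (R : ℕ) : Set ℤ :=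
  {v | ∃ p : ℕ → ℤ, (∀ i' ∈ T, p i' ∈ PSet (Λ i') R (2 ^ (j i' - 3))) ∧ v = ∑ i' ∈ T, p i'}

lemma VSet_insert_low (T : Finset ℕ) (j : ℕ → ℕ) (Λ : ℕ → Finset ℕ) (R i : ℕ)
    (h : ∀ i' ∈ T, i < i') : VSet (insert i T) j Λ R i = V0 T j Λ R := by
  have hf : (insert i T).filter (fun i' => i < i') = T := by
    ext x
    simp only [Finset.mem_filter, Finset.mem_insert]
    constructor
    · rintro ⟨h1 | h1, h2⟩
      · omega
      · exact h1
    · intro hx
      exact ⟨Or.inr hx, h x hx⟩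
  ext v
  unfold VSet V0
  simp only [Set.mem_ofPred_eq, hf]
  constructor
  · rintro ⟨p, hp, hv⟩
    exact ⟨p, fun i' hi' => hp i' (Finset.mem_insert_of_mem hi') (h i' hi'), hv⟩
  · rintro ⟨p, hp, hv⟩
    refine ⟨p, fun i' hi' hlt => ?_, hv⟩
    rcases Finset.mem_insert.mp hi' with h1 | h1
    · omega
    · exact hp i' h1

lemma VSet_insert_high (T : Finset ℕ) (j : ℕ → ℕ) (Λ : ℕ → Finset ℕ) (R i i'' : ℕ)
    (h : i < i'') : VSet (insert i T) j Λ R i'' = VSet T j Λ R i'' := by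
  have hf : (insert i T).filter (fun i' => i'' < i') = T.filter (fun i' => i'' < i') := by
    ext x
    simp only [Finset.mem_filter, Finset.mem_insert]
    constructor
    · rintro ⟨h1 | h1, h2⟩
      · omega
      · exact ⟨h1, h2⟩
    · rintro ⟨h1, h2⟩
      exact ⟨Or.inr h1, h2⟩
  ext v
  unfold VSet
  simp only [Set.mem_ofPred_eq, hf]
  constructor
  · rintro ⟨p, hp, hv⟩
    exact ⟨p, fun i' hi' hlt => hp i' (Finset.mem_insert_of_mem hi') hlt, hv⟩
  · rintro ⟨p, hp, hv⟩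
    refine ⟨p, fun i' hi' hlt => ?_, hv⟩
    rcases Finset.mem_insert.mp hi' with h1 | h1
    · omega
    · exact hp i' h1 hlt

lemma V0_rep (T : Finset ℕ) (j : ℕ → ℕ) (Λ : ℕ → Finset ℕ) (R : ℕ) (v : ℤ)
    (hv : v ∈ V0 T j Λ R) :
    ∃ k : (Σ _ : ℕ, ℕ) → ℤ, (∀ x ∈ T.sigma Λ, |k x| < (R : ℤ)) ∧
      v = ∑ x ∈ T.sigma Λ, k x * (x.2 : ℤ) := by
  obtain ⟨p, hp, hv⟩ := hv
  have hp' : ∀ i', ∃ k : ℕ → ℤ, i' ∈ T → (∀ a, |k a| < (R : ℤ)) ∧
      p i' = ∑ a ∈ Λ i', k a * (a : ℤ) := by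
    intro i'
    by_cases h : i' ∈ T
    · obtain ⟨_, k, h1, h2⟩ := hp i' h
      exact ⟨k, fun _ => ⟨h1, h2⟩⟩
    · exact ⟨0, fun h' => absurd h' h⟩
  choose k hk using hp'
  refine ⟨fun x => k x.1 x.2, ?_, ?_⟩
  · intro x hx
    exact (hk x.1 (Finset.mem_sigma.mp hx).1).1 x.2
  · rw [hv, Finset.sum_sigma]
    exact Finset.sum_congr rfl (fun i' hi' => (hk i' hi').2)

lemma zero_mem_V0 (T : Finset ℕ) (j : ℕ → ℕ) (Λ : ℕ → Finset ℕ) (R : ℕ) (v : ℤ)
    (hv : v ∈ V0 T j Λ R) : (0 : ℤ) ∈ V0 T j Λ R := by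
  obtain ⟨p, hp, -⟩ := hv
  refine ⟨fun _ => 0, fun i' hi' => ?_, by simp⟩
  obtain ⟨_, k, h1, _⟩ := hp i' hi'
  have hR : (0 : ℤ) < R := lt_of_le_of_lt (abs_nonneg _) (h1 0)
  refine ⟨by simp, fun _ => 0, fun a => by simpa using hR, by simp⟩

/-- superincreasing families of differences of elements of `V0` are short -/
lemma few_super (T : Finset ℕ) (j : ℕ → ℕ) (Λ : ℕ → Finset ℕ) (m R r q0 : ℕ)
    (hΛ : ∀ i ∈ T, (Λ i).card ≤ m) (hTr : T.card ≤ r)
    (hq0 : (4 * q0 * R + 1) ^ (r * m) < 2 ^ q0) (I : Finset ℕ) (u : ℕ → ℤ)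
    (hu : ∀ i ∈ I, ∃ v ∈ V0 T j Λ R, ∃ v' ∈ V0 T j Λ R, u i = v - v')
    (hpos : ∀ i ∈ I, 0 < u i) (hsup : ∀ i ∈ I, ∀ i' ∈ I, i < i' → 2 * u i ≤ u i') :
    I.card < q0 := by
  classical
  by_contra hge
  push Not at hge
  obtain ⟨I', hI', hcard⟩ := Finset.exists_subset_card_eq hge
  have hk : ∀ i, ∃ k : (Σ _ : ℕ, ℕ) → ℤ, i ∈ I' →
      (∀ x ∈ T.sigma Λ, |k x| ≤ ((2 * R : ℕ) : ℤ)) ∧
        u i = ∑ x ∈ T.sigma Λ, k x * (x.2 : ℤ) := by
    intro i
    by_cases h : i ∈ I'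
    · obtain ⟨v, hv, v', hv', huv⟩ := hu i (hI' h)
      obtain ⟨k, hk1, hk2⟩ := V0_rep T j Λ R v hv
      obtain ⟨k', hk1', hk2'⟩ := V0_rep T j Λ R v' hv'
      refine ⟨fun x => k x - k' x, fun _ => ⟨fun x hx => ?_, ?_⟩⟩
      · have h1 := hk1 x hx
        have h2 := hk1' x hx
        have h3 : |k x - k' x| ≤ |k x| + |k' x| := abs_sub _ _
        push_cast
        linarith
      · rw [huv, hk2, hk2', ← Finset.sum_sub_distrib]
        exact Finset.sum_congr rfl (fun x _ => by ring)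
    · exact ⟨0, fun h' => absurd h' h⟩
  choose k hk using hk
  have h1 := super_count (T.sigma Λ) (fun x => (x.2 : ℤ)) I' u k (2 * R)
    (fun i hi => (hk i hi).1) (fun i hi => (hk i hi).2)
    (fun i hi => hpos i (hI' hi)) (fun i hi i' hi' h => hsup i (hI' hi) i' (hI' hi') h)
  rw [hcard] at h1
  have h2 : (T.sigma Λ).card ≤ r * m := by
    rw [Finset.card_sigma]
    calc ∑ i ∈ T, (Λ i).card ≤ ∑ _i ∈ T, m := Finset.sum_le_sum hΛ
      _ = T.card * m := by rw [Finset.sum_const, smul_eq_mul]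
      _ ≤ r * m := Nat.mul_le_mul_right _ hTr
  have h3 : (2 * (q0 * (2 * R)) + 1) ^ (T.sigma Λ).card ≤ (4 * q0 * R + 1) ^ (r * m) := by
    have : 2 * (q0 * (2 * R)) + 1 = 4 * q0 * R + 1 := by ring
    rw [this]
    exact Nat.pow_le_pow_right (by omega) h2
  omega

lemma exists_low (q : ℕ) : ∀ T : Finset ℕ, q ≤ T.card →
    ∃ S ⊆ T, S.card = q ∧ ∀ x ∈ S, ∀ y ∈ T \ S, x < y := by
  induction q with
  | zero =>
    intro T _
    exact ⟨∅, by simp, by simp, by simp⟩
  | succ q ih =>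
    intro T hT
    have hne : T.Nonempty := Finset.card_pos.mp (by omega)
    set a := T.min' hne with ha
    have haT : a ∈ T := T.min'_mem hne
    obtain ⟨S, hS, hSc, hlt⟩ := ih (T.erase a) (by rw [Finset.card_erase_of_mem haT]; omega)
    have haS : a ∉ S := fun h => (Finset.mem_erase.mp (hS h)).1 rfl
    refine ⟨insert a S, ?_, ?_, ?_⟩
    · intro x hx
      rcases Finset.mem_insert.mp hx with h | h
      · rw [h]; exact haT
      · exact (Finset.mem_erase.mp (hS h)).2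
    · rw [Finset.card_insert_of_notMem haS, hSc]
    · intro x hx y hy
      rw [Finset.mem_sdiff, Finset.mem_insert, not_or] at hy
      rcases Finset.mem_insert.mp hx with h | h
      · rw [h]
        exact lt_of_le_of_ne (T.min'_le y hy.1) (fun h => hy.2.1 h.symm)
      · exact hlt x h y (Finset.mem_sdiff.mpr ⟨Finset.mem_erase.mpr ⟨hy.2.1, hy.1⟩, hy.2.2⟩)

/-- one step: a good low index exists -/
lemma exists_good (A : Finset ℕ) (M : ℝ) (hlev : ∀ i, ((win A i (i + 1)).card : ℝ) ≤ 2 * M)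
    (m R r q q0 X0 : ℕ) (hX0 : 1 ≤ X0) (j : ℕ → ℕ) (Λ : ℕ → Finset ℕ)
    (hq0 : (4 * q0 * R + 1) ^ (r * m) < 2 ^ q0)
    (hq : (q0 : ℝ) * X0 + 32 * q0 * M ≤ (q : ℝ) * X0)
    (S T : Finset ℕ) (hS : S.card = q) (hTr : T.card ≤ r) (hΛ : ∀ i ∈ T, (Λ i).card ≤ m)
    (hj : ∀ i ∈ S, ∀ i' ∈ S, i < i' → j i + 6 ≤ j i') (hj9 : ∀ i ∈ S, 9 ≤ j i) :
    ∃ i ∈ S, Clean (V0 T j Λ R) (j i) ∧ 4 * (Bad A (V0 T j Λ R) (j i)).card ≤ X0 := by
  classical
  set V := V0 T j Λ R with hV
  have hM : 0 ≤ M := by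
    have := hlev 0
    have h0 : (0 : ℝ) ≤ ((win A 0 (0 + 1)).card : ℝ) := by positivity
    linarith
  have hq0pos : 1 ≤ q0 := by
    rcases Nat.eq_zero_or_pos q0 with h | h
    · subst h
      simp at hq0
    · exact h
  -- unclean indices are few
  set U := S.filter (fun i => ¬ Clean V (j i)) with hU
  set G := S.filter (fun i => Clean V (j i)) with hG
  have hUG : G.card + U.card = q := by
    rw [hU, hG, Finset.card_filter_add_card_filter_not, hS]
  have hUc : U.card < q0 := by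
    have hw : ∀ i, ∃ w : ℤ, i ∈ U → (∃ v ∈ V, ∃ v' ∈ V, w = v - v') ∧
        (2 : ℤ) ^ (j i - 2) ≤ w ∧ w ≤ (2 : ℤ) ^ (j i + 3) := by
      intro i
      by_cases h : i ∈ U
      · have h1 := (Finset.mem_filter.mp h).2
        unfold Clean at h1
        push Not at h1
        obtain ⟨v, hv, v', hv', h2, h3⟩ := h1
        exact ⟨v - v', fun _ => ⟨⟨v, hv, v', hv', rfl⟩, h2, h3⟩⟩
      · exact ⟨0, fun h' => absurd h' h⟩
    choose u hu using hw
    apply few_super T j Λ m R r q0 hΛ hTr hq0 U u (fun i hi => (hu i hi).1)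
    · intro i hi
      exact lt_of_lt_of_le (by positivity) (hu i hi).2.1
    · intro i hi i' hi' hlt
      have h1 := (hu i hi).2.2
      have h2 := (hu i' hi').2.1
      have h3 := hj i (Finset.mem_filter.mp hi).1 i' (Finset.mem_filter.mp hi').1 hlt
      calc 2 * u i ≤ 2 * (2 : ℤ) ^ (j i + 3) := by linarith
        _ = (2 : ℤ) ^ (j i + 4) := by ring
        _ ≤ (2 : ℤ) ^ (j i' - 2) := pow_le_pow_right₀ (by norm_num) (by omega)
        _ ≤ u i' := h2
  -- the bad sets of clean indices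
  set B := G.biUnion (fun i => Bad A V (j i)) with hB
  have hdisj : ∀ i ∈ G, ∀ i' ∈ G, i ≠ i' → Disjoint (Bad A V (j i)) (Bad A V (j i')) := by
    have main : ∀ i ∈ G, ∀ i' ∈ G, i < i' → Disjoint (Bad A V (j i)) (Bad A V (j i')) := by
      intro i hi i' hi' hlt
      rw [Finset.disjoint_left]
      intro b hb hb'
      obtain ⟨_, v, hv, h1, h2⟩ := Finset.mem_filter.mp hb
      obtain ⟨_, v', hv', h1', h2'⟩ := Finset.mem_filter.mp hb'
      have h3 := hj i (Finset.mem_filter.mp hi).1 i' (Finset.mem_filter.mp hi').1 hlt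
      have h9 := hj9 i (Finset.mem_filter.mp hi).1
      apply (Finset.mem_filter.mp hi').2 v' hv' v hv
      have e1 : (2 : ℤ) ^ (j i' - 1) = 2 * (2 : ℤ) ^ (j i' - 2) := by
        rw [← pow_succ']; congr 1; omega
      have e2 : (2 : ℤ) ^ (j i + 2) ≤ (2 : ℤ) ^ (j i' - 2) :=
        pow_le_pow_right₀ (by norm_num) (by omega)
      have e3 : (2 : ℤ) ^ (j i' + 2) ≤ (2 : ℤ) ^ (j i' + 3) :=
        pow_le_pow_right₀ (by norm_num) (by omega)
      have e4 : (0 : ℤ) < (2 : ℤ) ^ (j i - 1) := by positivity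
      constructor <;> linarith
    intro i hi i' hi' hne
    rcases lt_or_gt_of_ne hne with h | h
    · exact main i hi i' hi' h
    · exact (main i' hi' i hi h).symm
  have hBcard : B.card = ∑ i ∈ G, (Bad A V (j i)).card := Finset.card_biUnion hdisj
  -- levels
  have hb : ∀ b, ∃ v : ℤ, b ∈ B → v ∈ V ∧ (b : ℤ) < v ∧ v < 2 * (b : ℤ) ∧ 2 ≤ v := by
    intro b
    by_cases h : b ∈ B
    · obtain ⟨i, hi, hbi⟩ := Finset.mem_biUnion.mp h
      obtain ⟨_, v, hv, h1, h2⟩ := Finset.mem_filter.mp hbi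
      have h0 := zero_mem_V0 T j Λ R v hv
      have hcl := (Finset.mem_filter.mp hi).2 v hv 0 h0
      have h9 := hj9 i (Finset.mem_filter.mp hi).1
      rw [sub_zero] at hcl
      have e1 : (2 : ℤ) ^ (j i - 1) = 2 * (2 : ℤ) ^ (j i - 2) := by
        rw [← pow_succ']; congr 1; omega
      have e4 : (0 : ℤ) < (2 : ℤ) ^ (j i - 2) := by positivity
      have hb0 : (0 : ℤ) ≤ (b : ℤ) := by positivity
      have h3 : (2 : ℤ) ^ (j i - 2) ≤ v := by linarith
      have h4 : (2 : ℤ) ^ (j i + 3) < v := by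
        by_contra hcon
        exact hcl ⟨h3, not_lt.mp hcon⟩
      have e5 : (2 : ℤ) ^ (j i + 3) = 2 * (2 : ℤ) ^ (j i + 2) := by ring
      have e6 : (2 : ℤ) ≤ (2 : ℤ) ^ (j i + 3) := by
        calc (2 : ℤ) = 2 ^ 1 := by norm_num
          _ ≤ (2 : ℤ) ^ (j i + 3) := pow_le_pow_right₀ (by norm_num) (by omega)
      refine ⟨v, fun _ => ⟨hv, ?_, ?_, ?_⟩⟩ <;> linarith
    · exact ⟨0, fun h' => absurd h' h⟩
  choose w hw using hb
  set lev : ℕ → ℕ := fun b => Nat.log 2 (w b).toNat with hlevdef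
  set Lv := B.image lev with hLv
  have hlevb : ∀ b ∈ B, (2 : ℤ) ^ (lev b) ≤ w b ∧ w b < (2 : ℤ) ^ (lev b + 1) ∧ 1 ≤ lev b := by
    intro b hbB
    obtain ⟨_, h1, h2, h3⟩ := hw b hbB
    have hcast : ((w b).toNat : ℤ) = w b := Int.toNat_of_nonneg (by linarith)
    have hne : (w b).toNat ≠ 0 := by
      intro h
      rw [h] at hcast
      simp at hcast
      linarith
    have e1 := Nat.pow_log_le_self 2 hne
    have e2 := Nat.lt_pow_succ_log_self (b := 2) (by norm_num) (w b).toNat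
    refine ⟨?_, ?_, ?_⟩
    · rw [← hcast]
      exact_mod_cast e1
    · rw [← hcast]
      exact_mod_cast e2
    · have : 2 ≤ (w b).toNat := by
        have : (2 : ℤ) ≤ ((w b).toNat : ℤ) := by rw [hcast]; exact h3
        exact_mod_cast this
      exact (Nat.le_log_iff_pow_le (by norm_num) hne).mpr (by simpa using this)
  have hBsub : B ⊆ Lv.biUnion (fun l => win A (l - 1) (l - 1 + 1) ∪ win A l (l + 1)) := by
    intro b hbB
    rw [Finset.mem_biUnion]
    refine ⟨lev b, Finset.mem_image_of_mem _ hbB, ?_⟩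
    obtain ⟨_, h1, h2, _⟩ := hw b hbB
    obtain ⟨h3, h4, h5⟩ := hlevb b hbB
    have hbA : b ∈ A := by
      obtain ⟨i, _, hbi⟩ := Finset.mem_biUnion.mp hbB
      exact (Finset.mem_filter.mp hbi).1
    have h6 : lev b - 1 + 1 = lev b := by omega
    rw [Finset.mem_union, h6]
    have h7 : (b : ℤ) < (2 : ℤ) ^ (lev b + 1) := lt_trans h1 h4
    have h7' : b < 2 ^ (lev b + 1) := by exact_mod_cast h7
    have h8 : (2 : ℤ) ^ (lev b - 1) < (b : ℤ) := by
      have e1 : (2 : ℤ) ^ (lev b) = 2 * (2 : ℤ) ^ (lev b - 1) := by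
        rw [← pow_succ']; congr 1; omega
      linarith
    have h8' : 2 ^ (lev b - 1) < b := by exact_mod_cast h8
    by_cases h9 : b < 2 ^ (lev b)
    · left
      exact Finset.mem_filter.mpr ⟨hbA, h8'.le, h9⟩
    · right
      exact Finset.mem_filter.mpr ⟨hbA, not_lt.mp h9, h7'⟩
  -- number of levels
  have hpick : ∀ l, ∃ v : ℤ, l ∈ Lv → v ∈ V ∧ (2 : ℤ) ^ l ≤ v ∧ v < (2 : ℤ) ^ (l + 1) := by
    intro l
    by_cases h : l ∈ Lv
    · obtain ⟨b, hbB, hbl⟩ := Finset.mem_image.mp h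
      obtain ⟨h1, h2, _⟩ := hlevb b hbB
      rw [hbl] at h1 h2
      exact ⟨w b, fun _ => ⟨(hw b hbB).1, h1, h2⟩⟩
    · exact ⟨0, fun h' => absurd h' h⟩
  choose z hz using hpick
  have hzero : ∀ l ∈ Lv, (0 : ℤ) ∈ V := fun l hl => zero_mem_V0 T j Λ R _ (hz l hl).1
  have hpar : ∀ c, (Lv.filter (fun l => l % 2 = c)).card < q0 := by
    intro c
    apply few_super T j Λ m R r q0 hΛ hTr hq0 _ z
    · intro l hl
      have hl' := (Finset.mem_filter.mp hl).1
      exact ⟨z l, (hz l hl').1, 0, hzero l hl', by ring⟩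
    · intro l hl
      exact lt_of_lt_of_le (by positivity) (hz l (Finset.mem_filter.mp hl).1).2.1
    · intro l hl l' hl' hlt
      have h1 := (hz l (Finset.mem_filter.mp hl).1).2.2
      have h2 := (hz l' (Finset.mem_filter.mp hl').1).2.1
      have h3 := (Finset.mem_filter.mp hl).2
      have h4 := (Finset.mem_filter.mp hl').2
      have h5 : l + 2 ≤ l' := by omega
      calc 2 * z l ≤ 2 * (2 : ℤ) ^ (l + 1) := by linarith
        _ = (2 : ℤ) ^ (l + 2) := by ring
        _ ≤ (2 : ℤ) ^ l' := pow_le_pow_right₀ (by norm_num) h5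
        _ ≤ z l' := h2
  have hLvc : Lv.card ≤ 2 * (q0 - 1) := by
    have h0 := hpar 0
    have h1 := hpar 1
    have h2 : (Lv.filter (fun l => l % 2 = 0)).card + (Lv.filter (fun l => ¬ l % 2 = 0)).card
        = Lv.card := Finset.card_filter_add_card_filter_not _
    have h3 : Lv.filter (fun l => ¬ l % 2 = 0) = Lv.filter (fun l => l % 2 = 1) := by
      apply Finset.filter_congr
      intro l _
      omega
    rw [h3] at h2
    omega
  have hBle : (B.card : ℝ) ≤ 8 * M * (q0 - 1) := by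
    have h1 : B.card ≤ ∑ l ∈ Lv, ((win A (l - 1) (l - 1 + 1)).card + (win A l (l + 1)).card) := by
      refine (Finset.card_le_card hBsub).trans (Finset.card_biUnion_le.trans ?_)
      exact Finset.sum_le_sum (fun l _ => Finset.card_union_le _ _)
    have h2 : (B.card : ℝ) ≤ ∑ l ∈ Lv, (2 * M + 2 * M) := by
      have : (B.card : ℝ) ≤ ∑ l ∈ Lv,
          (((win A (l - 1) (l - 1 + 1)).card : ℝ) + ((win A l (l + 1)).card : ℝ)) := by
        exact_mod_cast h1
      exact this.trans (Finset.sum_le_sum (fun l _ => add_le_add (hlev _) (hlev _)))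
    rw [Finset.sum_const, nsmul_eq_mul] at h2
    have h3 : (Lv.card : ℝ) ≤ 2 * ((q0 : ℝ) - 1) := by
      have : (Lv.card : ℝ) ≤ ((2 * (q0 - 1) : ℕ) : ℝ) := by exact_mod_cast hLvc
      rw [Nat.cast_mul, Nat.cast_sub hq0pos] at this
      simpa using this
    calc (B.card : ℝ) ≤ (Lv.card : ℝ) * (2 * M + 2 * M) := h2
      _ ≤ (2 * ((q0 : ℝ) - 1)) * (2 * M + 2 * M) := by
        apply mul_le_mul_of_nonneg_right h3; linarith
      _ = 8 * M * (q0 - 1) := by ring
  -- conclude by counting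
  by_contra hcon
  push Not at hcon
  have hall : ∀ i ∈ G, X0 < 4 * (Bad A V (j i)).card := fun i hi =>
    hcon i (Finset.mem_filter.mp hi).1 (Finset.mem_filter.mp hi).2
  have h1 : (G.card : ℝ) * X0 ≤ 4 * B.card := by
    rw [hBcard]
    have : G.card * X0 ≤ 4 * ∑ i ∈ G, (Bad A V (j i)).card := by
      rw [Finset.mul_sum, ← smul_eq_mul, ← Finset.sum_const]
      exact Finset.sum_le_sum (fun i hi => (hall i hi).le)
    exact_mod_cast this
  have h2 : (q : ℝ) = G.card + U.card := by exact_mod_cast hUG.symm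
  have h3 : (U.card : ℝ) ≤ q0 - 1 := by
    have : U.card + 1 ≤ q0 := hUc
    have : ((U.card + 1 : ℕ) : ℝ) ≤ q0 := by exact_mod_cast this
    push_cast at this
    linarith
  have hX : (1 : ℝ) ≤ X0 := by exact_mod_cast hX0
  have h4 : (q : ℝ) * X0 ≤ 4 * (8 * M * (q0 - 1)) + (q0 - 1) * X0 := by
    rw [h2, add_mul]
    have : (U.card : ℝ) * X0 ≤ (q0 - 1) * X0 := mul_le_mul_of_nonneg_right h3 (by linarith)
    linarith
  nlinarith [hq, h4, hM, hX]

end DSel

open DSel in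
/-- Combinatorial selection. -/
theorem lemmaD_select (A : Finset ℕ) (M : ℝ) (hlev : ∀ i, ((win A i (i + 1)).card : ℝ) ≤ 2 * M)
    (m R r q q0 X0 : ℕ) (hX0 : 1 ≤ X0) (T : Finset ℕ) (j : ℕ → ℕ) (Λ : ℕ → Finset ℕ)
    (hj : ∀ i ∈ T, ∀ i' ∈ T, i < i' → j i + 6 ≤ j i') (hj9 : ∀ i ∈ T, 9 ≤ j i)
    (hΛ : ∀ i ∈ T, (Λ i).card ≤ m)
    (hq0 : (4 * q0 * R + 1) ^ (r * m) < 2 ^ q0)
    (hq : (q0 : ℝ) * X0 + 32 * q0 * M ≤ (q : ℝ) * X0)
    (hT : r * q ≤ T.card) :
    ∃ T' ⊆ T, T'.card = r ∧ (∀ i ∈ T', Clean (VSet T' j Λ R i) (j i)) ∧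
      (∀ i ∈ T', 4 * (Bad A (VSet T' j Λ R i) (j i)).card ≤ X0) := by
  have main : ∀ r' ≤ r, ∀ T₁ ⊆ T, r' * q ≤ T₁.card →
      ∃ T' ⊆ T₁, T'.card = r' ∧ (∀ i ∈ T', Clean (VSet T' j Λ R i) (j i)) ∧
        (∀ i ∈ T', 4 * (Bad A (VSet T' j Λ R i) (j i)).card ≤ X0) := by
    intro r'
    induction r' with
    | zero =>
      intro _ T₁ _ _
      exact ⟨∅, by simp, by simp, by simp, by simp⟩
    | succ r' ih =>
      intro hr T₁ hT₁ hcard
      have hq1 : q ≤ T₁.card := le_trans (by nlinarith) hcard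
      obtain ⟨S, hS, hSc, hlt⟩ := exists_low q T₁ hq1
      have hHc : r' * q ≤ (T₁ \ S).card := by
        rw [Finset.card_sdiff_of_subset hS, hSc]
        have : (r' + 1) * q = r' * q + q := by ring
        omega
      obtain ⟨T'', hT'', hc'', hcl'', hbad''⟩ := ih (by omega) (T₁ \ S)
        (fun x hx => hT₁ (Finset.mem_sdiff.mp hx).1) hHc
      have hsub : ∀ i ∈ T'', i ∈ T := fun i hi => hT₁ (Finset.mem_sdiff.mp (hT'' hi)).1
      obtain ⟨i, hiS, hcl, hbad⟩ := exists_good A M hlev m R r q q0 X0 hX0 j Λ hq0 hq S T'' hSc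
        (by omega) (fun i hi => hΛ i (hsub i hi))
        (fun i hi i' hi' h => hj i (hT₁ (hS hi)) i' (hT₁ (hS hi')) h)
        (fun i hi => hj9 i (hT₁ (hS hi)))
      have hlow : ∀ i' ∈ T'', i < i' := fun i' hi' => hlt i hiS i' (hT'' hi')
      have hnot : i ∉ T'' := fun h => lt_irrefl _ (hlow i h)
      refine ⟨insert i T'', ?_, ?_, ?_, ?_⟩
      · intro x hx
        rcases Finset.mem_insert.mp hx with h | h
        · rw [h]; exact hS hiS
        · exact (Finset.mem_sdiff.mp (hT'' h)).1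
      · rw [Finset.card_insert_of_notMem hnot, hc'']
      · intro x hx
        rcases Finset.mem_insert.mp hx with h | h
        · rw [h, VSet_insert_low T'' j Λ R i hlow]; exact hcl
        · rw [VSet_insert_high T'' j Λ R i x (hlow x h)]; exact hcl'' x h
      · intro x hx
        rcases Finset.mem_insert.mp hx with h | h
        · rw [h, VSet_insert_low T'' j Λ R i hlow]; exact hbad
        · rw [VSet_insert_high T'' j Λ R i x (hlow x h)]; exact hbad'' x h
  exact main r le_rfl T (Finset.Subset.refl T) hT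

end Pool.Agent.LibBohr
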