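import Mathlib

set_option autoImplicit false

namespace Pool.Agent.LibBohr

open Finset

/-- Sup bound for the sine sum of `A`. -/
def SupB (A : Finset ℕ) (M : ℝ) : Prop :=
  ∀ θ : ℝ, |∑ a ∈ A, Real.sin ((a : ℝ) * θ)| ≤ M

/-- Triangle weight. -/
noncomputable def tri (W : ℕ) (u : ℤ) : ℝ := max 0 (1 - |(u : ℝ)| / (W : ℝ))

/-- Weighted additive energy. -/
noncomputable def En (W : ℕ) (Y : Finset ℕ) : ℝ :=
  ∑ a ∈ Y, ∑ b ∈ Y, ∑ c ∈ Y, ∑ d ∈ Y, tri W ((a : ℤ) + (b : ℤ) - (c : ℤ) - (d : ℤ))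

/-- `W`-dissociated finite set of natural numbers. -/
def Dissoc (W : ℕ) (Λ : Finset ℕ) : Prop :=
  ∀ ε : ℕ → ℤ, (∀ a, ε a = -1 ∨ ε a = 0 ∨ ε a = 1) → (∃ a ∈ Λ, ε a ≠ 0) →
    (W : ℤ) ≤ |∑ a ∈ Λ, ε a * (a : ℤ)|

/-- `x` is within distance `< W` of a `{-1,0,1}`-combination of `Λ`. -/
def NearSpan (W : ℕ) (Λ : Finset ℕ) (x : ℕ) : Prop :=
  ∃ ε : ℕ → ℤ, (∀ a, ε a = -1 ∨ ε a = 0 ∨ ε a = 1) ∧
    |(x : ℤ) - ∑ a ∈ Λ, ε a * (a : ℤ)| < (W : ℤ)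

/-- Elements of `A` in `[2^i, 2^j)`. -/
def win (A : Finset ℕ) (i j : ℕ) : Finset ℕ := A.filter (fun a => 2 ^ i ≤ a ∧ a < 2 ^ j)

/-- Core of a window `(s, e)` with margin `L`. -/
def core (A : Finset ℕ) (L s e : ℕ) : Finset ℕ := win A (s + L) (e - L)

/-- Enlarged window. -/
def near (A : Finset ℕ) (L s e : ℕ) : Finset ℕ := win A (s - L) (e + L)

/-- Number of ordered pairs of `Y` at distance `< W`. -/
def closePairs (Y : Finset ℕ) (W : ℕ) : ℕ :=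
  ((Y ×ˢ Y).filter (fun p => p.1 < p.2 + W ∧ p.2 < p.1 + W)).card

end Pool.Agent.LibBohr
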