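import Pool.Agent.LibBohr.BMO

set_option autoImplicit false

/-!
# Dissociated sets: a structure/energy dichotomy

Every finite set `Y` splits as `X ∪ (Y \ X)`, where `X` is within `W` of the `{-1,0,1}`-span of
at most `m` elements and all subsets of `Y \ X` have small weighted additive energy.
-/

namespace Pool.Agent.LibBohr

open Finset

theorem tri_nonneg (W : ℕ) (u : ℤ) : 0 ≤ tri W u := le_max_left _ _

theorem tri_le_one (W : ℕ) (u : ℤ) : tri W u ≤ 1 := by
  unfold tri
  apply max_le zero_le_one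
  have : 0 ≤ |(u : ℝ)| / (W : ℝ) := by positivity
  linarith

theorem tri_eq_zero (W : ℕ) (hW : 1 ≤ W) (u : ℤ) (h : (W : ℤ) ≤ |u|) : tri W u = 0 := by
  unfold tri
  apply max_eq_left
  have hW' : (0 : ℝ) < W := by exact_mod_cast hW
  have h' : (W : ℝ) ≤ |(u : ℝ)| := by exact_mod_cast h
  have : 1 ≤ |(u : ℝ)| / (W : ℝ) := by rwa [le_div_iff₀ hW', one_mul]
  linarith

theorem En_mono (W : ℕ) {Z Z' : Finset ℕ} (h : Z ⊆ Z') : En W Z ≤ En W Z' := by
  unfold En
  have nn : ∀ a b c d : ℕ, 0 ≤ tri W ((a : ℤ) + (b : ℤ) - (c : ℤ) - (d : ℤ)) :=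
    fun _ _ _ _ => tri_nonneg _ _
  refine (Finset.sum_le_sum fun a _ => ?_).trans
    (Finset.sum_le_sum_of_subset_of_nonneg h fun a _ _ => Finset.sum_nonneg fun b _ =>
      Finset.sum_nonneg fun c _ => Finset.sum_nonneg fun d _ => nn a b c d)
  refine (Finset.sum_le_sum fun b _ => ?_).trans
    (Finset.sum_le_sum_of_subset_of_nonneg h fun b _ _ =>
      Finset.sum_nonneg fun c _ => Finset.sum_nonneg fun d _ => nn a b c d)
  refine (Finset.sum_le_sum fun c _ => ?_).trans
    (Finset.sum_le_sum_of_subset_of_nonneg h fun c _ _ => Finset.sum_nonneg fun d _ => nn a b c d)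
  exact Finset.sum_le_sum_of_subset_of_nonneg h fun d _ _ => nn a b c d

theorem Dissoc.subset {W : ℕ} {Λ Λ' : Finset ℕ} (h : Dissoc W Λ) (hs : Λ' ⊆ Λ) : Dissoc W Λ' := by
  classical
  intro ε hε ⟨a, ha, hne⟩
  have := h (fun x => if x ∈ Λ' then ε x else 0) (by
    intro x
    by_cases hx : x ∈ Λ'
    · simpa [hx] using hε x
    · simp [hx]) ⟨a, hs ha, by simpa [ha] using hne⟩
  have e : ∑ x ∈ Λ, (if x ∈ Λ' then ε x else 0) * (x : ℤ) = ∑ x ∈ Λ', ε x * (x : ℤ) := by
    simp_rw [ite_mul, zero_mul]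
    rw [← Finset.sum_filter]
    congr 1
    ext x
    simp only [mem_filter]
    exact ⟨fun hx => hx.2, fun hx => ⟨hs hx, hx⟩⟩
  rwa [e] at this

/-- two distinct elements of a dissociated set are `W`-separated -/
theorem Dissoc.sep {W : ℕ} {Λ : Finset ℕ} (h : Dissoc W Λ) {a b : ℕ} (ha : a ∈ Λ) (hb : b ∈ Λ)
    (hab : a ≠ b) : (W : ℤ) ≤ |(a : ℤ) - (b : ℤ)| := by
  classical
  have := h (fun x => (if x = a then 1 else 0) - (if x = b then 1 else 0)) (by
    intro x
    split_ifs <;> omega)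
    ⟨a, ha, by simp [hab]⟩
  simp only [sub_mul, ite_mul, one_mul, zero_mul, Finset.sum_sub_distrib, Finset.sum_ite_eq',
    ha, hb, if_true] at this
  exact this

theorem Dissoc.quad {W : ℕ} {Λ : Finset ℕ} (h : Dissoc W Λ) {a b c d : ℕ}
    (ha : a ∈ Λ) (hb : b ∈ Λ) (hc : c ∈ Λ) (hd : d ∈ Λ) (hab : a ≠ b) (hcd : c ≠ d)
    (hsmall : |(a : ℤ) + b - c - d| < W) : (a = c ∧ b = d) ∨ (a = d ∧ b = c) := by
  classical
  set ε : ℕ → ℤ := fun x => (if x = a then 1 else 0) + (if x = b then 1 else 0) -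
    (if x = c then 1 else 0) - (if x = d then 1 else 0) with hε
  have h1 : ∀ x, ε x = -1 ∨ ε x = 0 ∨ ε x = 1 := by
    intro x
    simp only [hε]
    split_ifs <;> omega
  have hsum : ∑ x ∈ Λ, ε x * (x : ℤ) = (a : ℤ) + b - c - d := by
    simp only [hε, sub_mul, add_mul, ite_mul, one_mul, zero_mul, Finset.sum_sub_distrib,
      Finset.sum_add_distrib, Finset.sum_ite_eq', ha, hb, hc, hd, if_true]
  have h2 : ∀ x ∈ Λ, ε x = 0 := by
    by_contra hne
    push Not at hne
    have := h ε h1 hne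
    rw [hsum] at this
    omega
  have ha' := h2 a ha
  have hb' := h2 b hb
  simp only [hε] at ha' hb'
  by_cases e1 : a = c <;> by_cases e2 : a = d <;> by_cases e3 : b = c <;> by_cases e4 : b = d <;>
    simp_all

theorem En_dissoc {W : ℕ} (hW : 1 ≤ W) {Λ : Finset ℕ} (h : Dissoc W Λ) :
    En W Λ ≤ 4 * (Λ.card : ℝ) ^ 2 := by
  classical
  set T := (Λ ×ˢ Λ) ×ˢ (Λ ×ˢ Λ) with hT
  have h1 : En W Λ = ∑ p ∈ T, tri W ((p.1.1 : ℤ) + p.1.2 - p.2.1 - p.2.2) := by
    unfold En
    rw [hT, Finset.sum_product, Finset.sum_product]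
    refine Finset.sum_congr rfl fun a _ => Finset.sum_congr rfl fun b _ => ?_
    rw [Finset.sum_product]
  have h2 : En W Λ ≤ ((T.filter (fun p => |(p.1.1 : ℤ) + p.1.2 - p.2.1 - p.2.2| < W)).card : ℝ) := by
    rw [h1, Finset.card_filter]
    push_cast
    refine Finset.sum_le_sum fun p _ => ?_
    split_ifs with hp
    · exact tri_le_one _ _
    · rw [tri_eq_zero W hW _ (not_lt.mp hp)]
  set S := T.filter (fun p => |(p.1.1 : ℤ) + p.1.2 - p.2.1 - p.2.2| < W) with hS
  set S1 := S.filter (fun p => p.1.1 = p.2.1 ∧ p.1.2 = p.2.2) with hS1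
  set S2 := S.filter (fun p => p.1.1 = p.2.2 ∧ p.1.2 = p.2.1) with hS2
  set S3 := S.filter (fun p => p.1.1 = p.1.2) with hS3
  set S4 := S.filter (fun p => p.2.1 = p.2.2) with hS4
  have hmem : ∀ p, p ∈ S ↔ (((p.1.1 ∈ Λ ∧ p.1.2 ∈ Λ) ∧ (p.2.1 ∈ Λ ∧ p.2.2 ∈ Λ)) ∧
      |(p.1.1 : ℤ) + p.1.2 - p.2.1 - p.2.2| < W) := by
    intro p
    simp only [hS, hT, mem_filter, mem_product]
  have hsub : S ⊆ (S1 ∪ S2) ∪ (S3 ∪ S4) := by
    intro p hp
    have hp' := (hmem p).mp hp
    by_cases e1 : p.1.1 = p.1.2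
    · simp only [mem_union, hS3, mem_filter]
      exact Or.inr (Or.inl ⟨hp, e1⟩)
    by_cases e2 : p.2.1 = p.2.2
    · simp only [mem_union, hS4, mem_filter]
      exact Or.inr (Or.inr ⟨hp, e2⟩)
    have := h.quad hp'.1.1.1 hp'.1.1.2 hp'.1.2.1 hp'.1.2.2 e1 e2 hp'.2
    simp only [mem_union, hS1, hS2, mem_filter]
    rcases this with t | t
    · exact Or.inl (Or.inl ⟨hp, t⟩)
    · exact Or.inl (Or.inr ⟨hp, t⟩)
  have c1 : S1.card ≤ (Λ ×ˢ Λ).card := by
    apply Finset.card_le_card_of_injOn (fun p => p.1)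
    · intro p hp
      have hp2 := (mem_filter.mp (Finset.mem_coe.mp hp))
      have := (hmem p).mp hp2.1
      simp only [Finset.mem_coe, mem_product]
      exact this.1.1
    · rintro p hp q hq hpq
      have hp2 := (mem_filter.mp (Finset.mem_coe.mp hp)).2
      have hq2 := (mem_filter.mp (Finset.mem_coe.mp hq)).2
      simp only at hpq
      rw [hpq] at hp2
      exact Prod.ext hpq (Prod.ext (hp2.1.symm.trans hq2.1) (hp2.2.symm.trans hq2.2))
  have c2 : S2.card ≤ (Λ ×ˢ Λ).card := by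
    apply Finset.card_le_card_of_injOn (fun p => p.1)
    · intro p hp
      have hp2 := (mem_filter.mp (Finset.mem_coe.mp hp))
      have := (hmem p).mp hp2.1
      simp only [Finset.mem_coe, mem_product]
      exact this.1.1
    · rintro p hp q hq hpq
      have hp2 := (mem_filter.mp (Finset.mem_coe.mp hp)).2
      have hq2 := (mem_filter.mp (Finset.mem_coe.mp hq)).2
      simp only at hpq
      rw [hpq] at hp2
      exact Prod.ext hpq (Prod.ext (hp2.2.symm.trans hq2.2) (hp2.1.symm.trans hq2.1))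
  have c3 : S3.card ≤ (Λ ×ˢ Λ).card := by
    apply Finset.card_le_card_of_injOn (fun p => p.2)
    · intro p hp
      have hp2 := (mem_filter.mp (Finset.mem_coe.mp hp))
      have := (hmem p).mp hp2.1
      simp only [Finset.mem_coe, mem_product]
      exact this.1.2
    · rintro ⟨⟨a, b⟩, r⟩ hp ⟨⟨a', b'⟩, r'⟩ hq hpq
      have hp2 := (mem_filter.mp (Finset.mem_coe.mp hp))
      have hq2 := (mem_filter.mp (Finset.mem_coe.mp hq))
      simp only at hpq
      subst hpq
      have e1 : a = b := hp2.2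
      have e2 : a' = b' := hq2.2
      subst e1 e2
      have m1 := (hmem _).mp hp2.1
      have m2 := (hmem _).mp hq2.1
      simp only at m1 m2
      by_contra hne
      have haa : a ≠ a' := fun e => hne (by rw [e])
      have s := h.sep m1.1.1.1 m2.1.1.1 haa
      have l1 := m1.2
      have l2 := m2.2
      rw [abs_lt] at l1 l2
      rw [le_abs] at s
      omega
  have c4 : S4.card ≤ (Λ ×ˢ Λ).card := by
    apply Finset.card_le_card_of_injOn (fun p => p.1)
    · intro p hp
      have hp2 := (mem_filter.mp (Finset.mem_coe.mp hp))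
      have := (hmem p).mp hp2.1
      simp only [Finset.mem_coe, mem_product]
      exact this.1.1
    · rintro ⟨r, ⟨a, b⟩⟩ hp ⟨r', ⟨a', b'⟩⟩ hq hpq
      have hp2 := (mem_filter.mp (Finset.mem_coe.mp hp))
      have hq2 := (mem_filter.mp (Finset.mem_coe.mp hq))
      simp only at hpq
      subst hpq
      have e1 : a = b := hp2.2
      have e2 : a' = b' := hq2.2
      subst e1 e2
      have m1 := (hmem _).mp hp2.1
      have m2 := (hmem _).mp hq2.1
      simp only at m1 m2
      by_contra hne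
      have haa : a ≠ a' := fun e => hne (by rw [e])
      have s := h.sep m1.1.2.1 m2.1.2.1 haa
      have l1 := m1.2
      have l2 := m2.2
      rw [abs_lt] at l1 l2
      rw [le_abs] at s
      omega
  have hfin : S.card ≤ 4 * (Λ.card * Λ.card) := by
    have t1 := Finset.card_le_card hsub
    have t2 := Finset.card_union_le (S1 ∪ S2) (S3 ∪ S4)
    have t3 := Finset.card_union_le S1 S2
    have t4 := Finset.card_union_le S3 S4
    rw [Finset.card_product] at c1 c2 c3 c4
    omega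
  calc En W Λ ≤ (S.card : ℝ) := h2
    _ ≤ ((4 * (Λ.card * Λ.card) : ℕ) : ℝ) := by exact_mod_cast hfin
    _ = 4 * (Λ.card : ℝ) ^ 2 := by push_cast; ring

theorem diss_partition (W m : ℕ) (hW : 1 ≤ W) (hm : 1 ≤ m) (Y : Finset ℕ) :
    ∃ X ⊆ Y, ∃ Λ : Finset ℕ, Λ.card ≤ m ∧ (∀ x ∈ X, NearSpan W Λ x) ∧
      ∀ Z ⊆ Y \ X, En W Z ≤ 4 * (Y.card : ℝ) ^ 4 / (m : ℝ) ^ 2 := by
  classical
  -- a maximal family of disjoint dissociated `m`-subsets
  set 𝓕 : Finset (Finset (Finset ℕ)) := (powersetCard m Y).powerset.filter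
    (fun F => (∀ Λ ∈ F, Dissoc W Λ) ∧ ∀ Λ ∈ F, ∀ Λ' ∈ F, Λ ≠ Λ' → Disjoint Λ Λ') with h𝓕
  have hne : 𝓕.Nonempty := ⟨∅, by simp [h𝓕]⟩
  obtain ⟨F, hF, hmax⟩ := Finset.exists_max_image 𝓕 Finset.card hne
  rw [h𝓕, mem_filter, mem_powerset] at hF
  obtain ⟨hFs, hFd, hFp⟩ := hF
  have hFs' : ∀ Λ ∈ F, Λ ⊆ Y ∧ Λ.card = m := fun Λ hΛ => mem_powersetCard.mp (hFs hΛ)
  have hpd : (F : Set (Finset ℕ)).PairwiseDisjoint id := fun a ha b hb hab => hFp a ha b hb hab
  set U := F.biUnion id with hU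
  have hUY : U ⊆ Y := by
    rw [hU]
    exact Finset.biUnion_subset.mpr fun Λ hΛ => (hFs' Λ hΛ).1
  have hUcard : U.card = F.card * m := by
    rw [hU, Finset.card_biUnion hpd]
    rw [Finset.sum_congr rfl (fun Λ hΛ => by exact (hFs' Λ hΛ).2), Finset.sum_const, smul_eq_mul]
  -- no dissociated `m`-subset outside
  have hno : ∀ Λ ⊆ Y \ U, Λ.card = m → ¬ Dissoc W Λ := by
    intro Λ hΛ hc hd
    have hdisj : ∀ Λ' ∈ F, Disjoint Λ Λ' := by
      intro Λ' hΛ'
      have : Λ' ⊆ U := by rw [hU]; exact Finset.subset_biUnion_of_mem id hΛ'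
      exact Finset.disjoint_of_subset_left hΛ (Finset.disjoint_of_subset_right this
        Finset.sdiff_disjoint)
    have hnot : Λ ∉ F := by
      intro hin
      have := hdisj Λ hin
      rw [disjoint_self, Finset.bot_eq_empty] at this
      rw [this] at hc
      simp at hc
      omega
    have hin : insert Λ F ∈ 𝓕 := by
      rw [h𝓕, mem_filter, mem_powerset]
      refine ⟨?_, ?_, ?_⟩
      · intro x hx
        rcases mem_insert.mp hx with rfl | hx
        · exact mem_powersetCard.mpr ⟨hΛ.trans Finset.sdiff_subset, hc⟩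
        · exact hFs hx
      · intro x hx
        rcases mem_insert.mp hx with rfl | hx
        · exact hd
        · exact hFd x hx
      · intro x hx y hy hxy
        rcases mem_insert.mp hx with h1 | h1 <;> rcases mem_insert.mp hy with h2 | h2
        · exact absurd (h1.trans h2.symm) hxy
        · rw [h1]; exact hdisj y h2
        · rw [h2]; exact (hdisj x h1).symm
        · exact hFp x h1 y h2 hxy
    have := hmax _ hin
    rw [Finset.card_insert_of_notMem hnot] at this
    omega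
  -- a maximal dissociated subset of the rest
  set 𝓖 : Finset (Finset ℕ) := (Y \ U).powerset.filter (fun Λ => Dissoc W Λ) with h𝓖
  have hne2 : 𝓖.Nonempty := ⟨∅, by
    rw [h𝓖, mem_filter]
    exact ⟨by simp, fun ε _ ⟨a, ha, _⟩ => by simp at ha⟩⟩
  obtain ⟨Λ, hΛ, hmax2⟩ := Finset.exists_max_image 𝓖 Finset.card hne2
  rw [h𝓖, mem_filter, mem_powerset] at hΛ
  obtain ⟨hΛs, hΛd⟩ := hΛ
  have hΛm : Λ.card ≤ m := by
    by_contra hlt
    push Not at hlt
    obtain ⟨Λ', hs', hc'⟩ := Finset.exists_subset_card_eq hlt.le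
    exact hno Λ' (hs'.trans hΛs) hc' (hΛd.subset hs')
  refine ⟨Y \ U, Finset.sdiff_subset, Λ, hΛm, ?_, ?_⟩
  · intro x hx
    by_cases hxΛ : x ∈ Λ
    · refine ⟨fun y => if y = x then 1 else 0, ?_, ?_⟩
      · intro a
        by_cases h : a = x <;> simp [h]
      · simp only [ite_mul, one_mul, zero_mul, Finset.sum_ite_eq', hxΛ, if_true, sub_self,
          abs_zero]
        exact_mod_cast hW
    · have hnd : ¬ Dissoc W (insert x Λ) := by
        intro hd
        have hin : insert x Λ ∈ 𝓖 := by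
          rw [h𝓖, mem_filter, mem_powerset]
          exact ⟨Finset.insert_subset hx hΛs, hd⟩
        have := hmax2 _ hin
        rw [Finset.card_insert_of_notMem hxΛ] at this
        omega
      unfold Dissoc at hnd
      push Not at hnd
      obtain ⟨ε, hε, ⟨a, ha, hane⟩, hlt⟩ := hnd
      rw [Finset.sum_insert hxΛ] at hlt
      rcases hε x with h1 | h1 | h1
      · refine ⟨ε, hε, ?_⟩
        rw [h1] at hlt
        rw [abs_lt] at hlt ⊢
        constructor <;> linarith [hlt.1, hlt.2]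
      · exfalso
        have haΛ : a ∈ Λ := by
          rcases mem_insert.mp ha with rfl | h
          · exact absurd h1 hane
          · exact h
        have := hΛd ε hε ⟨a, haΛ, hane⟩
        rw [h1] at hlt
        simp only [zero_mul, zero_add] at hlt
        omega
      · refine ⟨fun y => - ε y, ?_, ?_⟩
        · intro y
          rcases hε y with h | h | h <;> simp [h]
        · simp only [neg_mul, Finset.sum_neg_distrib, sub_neg_eq_add]
          rw [h1, one_mul] at hlt
          exact hlt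
  · intro Z hZ
    have hZU : Z ⊆ U := by
      intro z hz
      have := hZ hz
      rw [mem_sdiff, mem_sdiff] at this
      by_contra hzU
      exact this.2 ⟨this.1, hzU⟩
    have hm' : (0 : ℝ) < m := by exact_mod_cast hm
    have e1 : En W Z ≤ (F.card : ℝ) ^ 3 * ∑ Λ ∈ F, En W Λ :=
      (En_mono W hZU).trans (energy_union W hW F hpd)
    have e2 : ∑ Λ ∈ F, En W Λ ≤ F.card * (4 * (m : ℝ) ^ 2) := by
      rw [← nsmul_eq_mul, ← Finset.sum_const]
      refine Finset.sum_le_sum fun Λ hΛ => ?_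
      have := En_dissoc hW (hFd Λ hΛ)
      rwa [(hFs' Λ hΛ).2] at this
    have e3 : (F.card : ℝ) * m ≤ Y.card := by
      have := Finset.card_le_card hUY
      rw [hUcard] at this
      exact_mod_cast this
    have e4 : (F.card : ℝ) ^ 3 * ∑ Λ ∈ F, En W Λ ≤ 4 * ((F.card : ℝ) * m) ^ 4 / (m : ℝ) ^ 2 := by
      rw [le_div_iff₀ (by positivity)]
      calc (F.card : ℝ) ^ 3 * (∑ Λ ∈ F, En W Λ) * (m : ℝ) ^ 2
          ≤ (F.card : ℝ) ^ 3 * (F.card * (4 * (m : ℝ) ^ 2)) * (m : ℝ) ^ 2 := by gcongr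
        _ = 4 * ((F.card : ℝ) * m) ^ 4 := by ring
    refine e1.trans (e4.trans ?_)
    gcongr

end Pool.Agent.LibBohr
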