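import Pool.Agent.LibBohr.DMain

set_option autoImplicit false

namespace Pool.Agent.LibBohr

open Finset

theorem fine_block (A : Finset ℕ) (L s e D X0 : ℕ) (hL : 3 ≤ L) (hlen : e ≤ s + D)
    (hD : 1 ≤ D) (hX0 : 1 ≤ X0) (hs9 : 9 ≤ s + L) (X : Finset ℕ) (hX : X ⊆ core A L s e)
    (hc : 512 * D * X0 ≤ X.card) :
    ∃ j, s + L ≤ j ∧ j < e - L ∧ ∃ X' ⊆ X, X' ⊆ win A j (j + 1) ∧
      (∀ a ∈ X', ∀ b ∈ X', a ≤ b + 2 ^ (j - 9)) ∧ X0 ≤ X'.card := by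
  have hmem : ∀ a ∈ X, a ∈ A ∧ 2 ^ (s + L) ≤ a ∧ a < 2 ^ (e - L) := by
    intro a ha
    have := hX ha
    unfold core win at this
    rw [Finset.mem_filter] at this
    exact this
  have hlog : ∀ a ∈ X, s + L ≤ Nat.log 2 a ∧ Nat.log 2 a < e - L ∧ 2 ^ (Nat.log 2 a) ≤ a ∧
      a < 2 ^ (Nat.log 2 a + 1) := by
    intro a ha
    obtain ⟨_, h1, h2⟩ := hmem a ha
    have ha0 : a ≠ 0 := by
      have : 0 < 2 ^ (s + L) := by positivity
      omega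
    refine ⟨?_, ?_, Nat.pow_log_le_self 2 ha0, Nat.lt_pow_succ_log_self (by norm_num) a⟩
    · exact (Nat.le_log_iff_pow_le (by norm_num) ha0).mpr h1
    · exact Nat.log_lt_of_lt_pow ha0 h2
  set g : ℕ → ℕ × ℕ := fun a => (Nat.log 2 a, a / 2 ^ (Nat.log 2 a - 9)) with hg
  set t : Finset (ℕ × ℕ) := (Finset.Ico (s + L) (e - L)) ×ˢ (Finset.Ico 512 1024) with ht
  have hgt : ∀ a ∈ X, g a ∈ t := by
    intro a ha
    obtain ⟨h1, h2, h3, h4⟩ := hlog a ha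
    rw [ht, Finset.mem_product, Finset.mem_Ico, Finset.mem_Ico]
    refine ⟨⟨h1, h2⟩, ?_, ?_⟩
    · show 512 ≤ a / 2 ^ (Nat.log 2 a - 9)
      rw [Nat.le_div_iff_mul_le (by positivity)]
      have : 512 * 2 ^ (Nat.log 2 a - 9) = 2 ^ (Nat.log 2 a) := by
        rw [show (512 : ℕ) = 2 ^ 9 by norm_num, ← pow_add]; congr 1; omega
      omega
    · show a / 2 ^ (Nat.log 2 a - 9) < 1024
      rw [Nat.div_lt_iff_lt_mul (by positivity)]
      have : 1024 * 2 ^ (Nat.log 2 a - 9) = 2 ^ (Nat.log 2 a + 1) := by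
        rw [show (1024 : ℕ) = 2 ^ 10 by norm_num, ← pow_add]; congr 1; omega
      omega
  have hXne : X.Nonempty := by
    rw [← Finset.card_pos]
    have : 1 ≤ 512 * D * X0 := Nat.one_le_iff_ne_zero.mpr (by positivity)
    omega
  have htne : t.Nonempty := by
    obtain ⟨a, ha⟩ := hXne
    exact ⟨g a, hgt a ha⟩
  have htc : t.card * X0 ≤ X.card := by
    have h1 : t.card ≤ 512 * D := by
      rw [ht, Finset.card_product, Nat.card_Ico, Nat.card_Ico]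
      have : e - L - (s + L) ≤ D := by omega
      calc (e - L - (s + L)) * (1024 - 512) ≤ D * 512 := Nat.mul_le_mul this (by norm_num)
        _ = 512 * D := by ring
    exact (Nat.mul_le_mul_right _ h1).trans hc
  obtain ⟨p, hp, hpc⟩ := Finset.exists_le_card_fiber_of_mul_le_card_of_maps_to hgt htne htc
  rw [ht, Finset.mem_product, Finset.mem_Ico, Finset.mem_Ico] at hp
  refine ⟨p.1, hp.1.1, hp.1.2, X.filter (fun a => g a = p), Finset.filter_subset _ _, ?_, ?_, hpc⟩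
  · intro a ha
    rw [Finset.mem_filter] at ha
    obtain ⟨haX, hga⟩ := ha
    obtain ⟨h1, h2, h3, h4⟩ := hlog a haX
    have e1 : Nat.log 2 a = p.1 := by rw [← hga]
    unfold win
    rw [Finset.mem_filter]
    rw [e1] at h3 h4
    exact ⟨(hmem a haX).1, h3, h4⟩
  · intro a ha b hb
    rw [Finset.mem_filter] at ha hb
    have e1 : Nat.log 2 a = p.1 := by rw [← ha.2]
    have e2 : Nat.log 2 b = p.1 := by rw [← hb.2]
    have e3 : a / 2 ^ (p.1 - 9) = p.2 := by rw [← ha.2, hg, ]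
    have e4 : b / 2 ^ (p.1 - 9) = p.2 := by rw [← hb.2, hg, ]
    have hpos : 0 < 2 ^ (p.1 - 9) := by positivity
    have h5 := Nat.lt_div_mul_add (a := a) hpos
    have h6 := Nat.div_mul_le_self b (2 ^ (p.1 - 9))
    rw [e3] at h5
    rw [e4] at h6
    omega

theorem few_structured (A : Finset ℕ) (M : ℝ) (hM : SupB A M)
    (hlev : ∀ i, ((win A i (i + 1)).card : ℝ) ≤ 2 * M)
    (m W r q q0 X0 : ℕ) (hm : 1 ≤ m)
    (hW : 1 ≤ W) (L D : ℕ) (hL : 3 ≤ L) (hD : 1 ≤ D) (T : Finset ℕ) (s e : ℕ → ℕ)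
    (hgap : ∀ i ∈ T, ∀ i' ∈ T, i < i' → e i ≤ s i')
    (hlen : ∀ i ∈ T, e i ≤ s i + D)
    (hsW : ∀ i ∈ T, 2 ^ 18 * W ≤ 2 ^ (s i + L))
    (hst : ∀ i ∈ T, ∃ X ⊆ core A L (s i) (e i), ∃ Λ : Finset ℕ, Λ.card ≤ m ∧
      (∀ x ∈ X, NearSpan W Λ x) ∧ 512 * D * X0 ≤ X.card)
    (hq0 : (4 * q0 * (200 * m ^ 2) + 1) ^ (r * m) < 2 ^ q0)
    (hq : (q0 : ℝ) * X0 + 32 * q0 * M ≤ (q : ℝ) * X0)
    (hT : r * q ≤ T.card) : (r : ℝ) * (X0 : ℝ) ^ 2 ≤ 8 * M ^ 2 := by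
  rcases Nat.eq_zero_or_pos X0 with h0 | h0
  · subst h0; simp; positivity
  have hs18 : ∀ i ∈ T, 18 ≤ s i + L := by
    intro i hi
    by_contra hlt
    push Not at hlt
    have h1 := hsW i hi
    have h2 : 2 ^ (s i + L) < 2 ^ 18 := Nat.pow_lt_pow_right (by norm_num) hlt
    have h3 : 2 ^ 18 * 1 ≤ 2 ^ 18 * W := Nat.mul_le_mul_left _ hW
    omega
  have hex : ∀ i : ℕ, ∃ (j : ℕ) (X' Λ : Finset ℕ), i ∈ T → (s i + L ≤ j ∧ j < e i - L ∧
      X' ⊆ win A j (j + 1) ∧ (∀ a ∈ X', ∀ b ∈ X', a ≤ b + 2 ^ (j - 9)) ∧ X0 ≤ X'.card ∧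
      Λ.card ≤ m ∧ (∀ x ∈ X', NearSpan W Λ x)) := by
    intro i
    by_cases hi : i ∈ T
    · obtain ⟨X, hXC, Λ, hΛ, hsp, hc⟩ := hst i hi
      obtain ⟨j, hj1, hj2, X', hX'X, hX'w, hX'd, hX'c⟩ := fine_block A L (s i) (e i) D X0 hL
        (hlen i hi) hD h0 (by have := hs18 i hi; omega) X hXC hc
      exact ⟨j, X', Λ, fun _ => ⟨hj1, hj2, hX'w, hX'd, hX'c, hΛ, fun x hx => hsp x (hX'X hx)⟩⟩
    · exact ⟨0, ∅, ∅, fun h => absurd h hi⟩
  choose j X Λ hprop using hex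
  apply lemmaD A M hM hlev m W r q q0 X0 hm hW T j X Λ
  · intro i hi i' hi' hlt
    have h1 := (hprop i hi).2.1
    have h2 := (hprop i' hi').1
    have h3 := hgap i hi i' hi' hlt
    omega
  · intro i hi
    have h1 := (hprop i hi).1
    exact (hsW i hi).trans (Nat.pow_le_pow_right (by norm_num) h1)
  · intro i hi; exact (hprop i hi).2.2.1
  · intro i hi; exact (hprop i hi).2.2.2.1
  · intro i hi; exact (hprop i hi).2.2.2.2.1
  · intro i hi; exact (hprop i hi).2.2.2.2.2.1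
  · intro i hi; exact (hprop i hi).2.2.2.2.2.2
  · exact hq0
  · exact hq
  · exact hT

end Pool.Agent.LibBohr
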