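import Pool.Agent.LibBohr.BMO

set_option autoImplicit false

namespace Pool.Agent.LibBohr

open Finset

/-- Block index of `a`. -/
def blk (L a : ℕ) : ℕ := (Nat.log 2 a + L) / (2 * L)

theorem mem_win_log {A : Finset ℕ} (hpos : ∀ a ∈ A, 0 < a) {i j a : ℕ} :
    a ∈ win A i j ↔ a ∈ A ∧ i ≤ Nat.log 2 a ∧ Nat.log 2 a < j := by
  unfold win
  rw [Finset.mem_filter]
  constructor
  · rintro ⟨ha, h1, h2⟩
    have h0 : a ≠ 0 := (hpos a ha).ne'
    exact ⟨ha, Nat.le_log_of_pow_le (by norm_num) h1, Nat.log_lt_of_lt_pow h0 h2⟩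
  · rintro ⟨ha, h1, h2⟩
    have h0 : a ≠ 0 := (hpos a ha).ne'
    exact ⟨ha, (Nat.pow_le_pow_right (by norm_num) h1).trans (Nat.pow_log_le_self 2 h0),
      Nat.lt_pow_of_log_lt (by norm_num) h2⟩

theorem le_blk_iff {L c a : ℕ} (hL : 1 ≤ L) : c ≤ blk L a ↔ c * (2 * L) ≤ Nat.log 2 a + L := by
  unfold blk
  exact Nat.le_div_iff_mul_le (by omega)

theorem blk_lt_iff {L c a : ℕ} (hL : 1 ≤ L) : blk L a < c ↔ Nat.log 2 a + L < c * (2 * L) := by
  unfold blk
  exact Nat.div_lt_iff_lt_mul (by omega)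

/-- Start of the window `l`. -/
def wst (L K k l : ℕ) : ℕ := 2 * L * (l * K + k)

theorem mem_core_blk {A : Finset ℕ} (hpos : ∀ a ∈ A, 0 < a) {L K k l a : ℕ} (hL : 1 ≤ L)
    (hK : 1 ≤ K) :
    a ∈ core A L (wst L K k l) (wst L K k l + 2 * L * K) ↔
      a ∈ A ∧ l * K + k < blk L a ∧ blk L a < (l + 1) * K + k := by
  unfold core
  rw [mem_win_log hpos, blk_lt_iff hL, Nat.lt_iff_add_one_le (m := l * K + k), le_blk_iff hL]
  have h1 : (l * K + k + 1) * (2 * L) = wst L K k l + 2 * L := by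
    unfold wst; ring
  have h2 : ((l + 1) * K + k) * (2 * L) = wst L K k l + 2 * L * K := by
    unfold wst; ring
  rw [h1, h2]
  have h3 : 2 * L * 1 ≤ 2 * L * K := Nat.mul_le_mul_left _ hK
  constructor
  · rintro ⟨ha, h4, h5⟩
    exact ⟨ha, by omega, by omega⟩
  · rintro ⟨ha, h4, h5⟩
    exact ⟨ha, by omega, by omega⟩

theorem mem_near_blk {A : Finset ℕ} (hpos : ∀ a ∈ A, 0 < a) {L K k l a : ℕ} (hL : 1 ≤ L)
    (hK : 1 ≤ K) (hl : 1 ≤ l) :
    a ∈ near A L (wst L K k l) (wst L K k l + 2 * L * K) ↔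
      a ∈ A ∧ l * K + k ≤ blk L a ∧ blk L a ≤ (l + 1) * K + k := by
  unfold near
  rw [mem_win_log hpos, le_blk_iff hL, ← Nat.lt_succ_iff (m := blk L a), blk_lt_iff hL]
  have h1 : (l * K + k) * (2 * L) = wst L K k l := by
    unfold wst; ring
  have h2 : ((l + 1) * K + k).succ * (2 * L) = wst L K k l + 2 * L * K + 2 * L := by
    unfold wst; rw [Nat.succ_eq_add_one]; ring
  rw [h1, h2]
  have h3 : 2 * L ≤ wst L K k l := by
    unfold wst
    have : 1 ≤ l * K + k := by nlinarith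
    nlinarith
  constructor
  · rintro ⟨ha, h4, h5⟩
    exact ⟨ha, by omega, by omega⟩
  · rintro ⟨ha, h4, h5⟩
    exact ⟨ha, by omega, by omega⟩

theorem exists_shift (A : Finset ℕ) (u : ℕ → ℕ) (K : ℕ) (hK : 1 ≤ K) :
    ∃ k, k < K ∧ K * (A.filter (fun a => u a % K = k)).card ≤ A.card := by
  by_contra hcon
  push Not at hcon
  have h1 : A.card = ∑ k ∈ range K, (A.filter (fun a => u a % K = k)).card :=
    Finset.card_eq_sum_card_fiberwise (fun a _ => by
      simpa using Nat.mod_lt _ (by omega))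
  have h2 : ∑ k ∈ range K, A.card < ∑ k ∈ range K, K * (A.filter (fun a => u a % K = k)).card := by
    apply Finset.sum_lt_sum_of_nonempty
    · exact ⟨0, by rw [Finset.mem_range]; omega⟩
    · intro k hk
      exact hcon k (by simpa using hk)
  rw [← Finset.mul_sum, ← h1, Finset.sum_const, Finset.card_range, smul_eq_mul] at h2
  exact lt_irrefl _ h2

theorem card_small {A : Finset ℕ} {M : ℝ} (hM : SupB A M) (hpos : ∀ a ∈ A, 0 < a) (N : ℕ) :
    ((A.filter (fun a => Nat.log 2 a < N)).card : ℝ) ≤ 2 * N * M := by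
  have h1 : A.filter (fun a => Nat.log 2 a < N) ⊆ (range N).biUnion (fun j => win A j (j + 1)) := by
    intro a ha
    rw [Finset.mem_filter] at ha
    rw [Finset.mem_biUnion]
    refine ⟨Nat.log 2 a, by simpa using ha.2, ?_⟩
    rw [mem_win_log hpos]
    exact ⟨ha.1, le_rfl, by omega⟩
  have h2 := (Finset.card_le_card h1).trans Finset.card_biUnion_le
  have h3 : ((A.filter (fun a => Nat.log 2 a < N)).card : ℝ) ≤
      ∑ j ∈ range N, ((win A j (j + 1)).card : ℝ) := by exact_mod_cast h2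
  refine h3.trans ?_
  have h4 : ∑ j ∈ range N, ((win A j (j + 1)).card : ℝ) ≤ ∑ j ∈ range N, 2 * M :=
    Finset.sum_le_sum (fun j _ => level_card A M hM j)
  refine h4.trans ?_
  rw [Finset.sum_const, Finset.card_range, nsmul_eq_mul]
  nlinarith

theorem sum_boundary (A : Finset ℕ) (u : ℕ → ℕ) (K k : ℕ) (hk : k < K) (I : Finset ℕ)
    (c : ℕ) :
    ∑ l ∈ I, (A.filter (fun a => u a = (l + c) * K + k)).card ≤
      (A.filter (fun a => u a % K = k)).card := by
  rw [← Finset.card_biUnion]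
  · apply Finset.card_le_card
    intro a ha
    rw [Finset.mem_biUnion] at ha
    obtain ⟨l, _, hl⟩ := ha
    rw [Finset.mem_filter] at hl ⊢
    refine ⟨hl.1, ?_⟩
    rw [hl.2, Nat.mul_add_mod_self_right, Nat.mod_eq_of_lt hk]
  · intro l _ l' _ hll'
    refine Finset.disjoint_left.mpr ?_
    intro a ha ha'
    rw [Finset.mem_filter] at ha ha'
    apply hll'
    have h1 : (l + c) * K = (l' + c) * K := by omega
    have h2 : l + c = l' + c := Nat.eq_of_mul_eq_mul_right (by omega) h1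
    omega

/-- Weighted pigeonhole. -/
theorem exists_class {I C : Finset ℕ} (w cl : ℕ → ℕ) (N : ℕ) (hC : C.card ≤ N)
    (hcl : ∀ l ∈ I, cl l ∈ C) (hpos : 0 < ∑ l ∈ I, w l) :
    ∃ c ∈ C, ∑ l ∈ I, w l ≤ N * ∑ l ∈ I.filter (fun l => cl l = c), w l := by
  by_contra hcon
  push Not at hcon
  have h1 : ∑ l ∈ I, w l = ∑ c ∈ C, ∑ l ∈ I.filter (fun l => cl l = c), w l :=
    (Finset.sum_fiberwise_of_maps_to hcl w).symm
  have hne : C.Nonempty := by
    by_contra h
    rw [Finset.not_nonempty_iff_eq_empty] at h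
    rw [h, Finset.sum_empty] at h1
    omega
  have hN : 0 < N := lt_of_lt_of_le (Finset.card_pos.mpr hne) hC
  have h2 : ∑ c ∈ C, N * ∑ l ∈ I.filter (fun l => cl l = c), w l < ∑ c ∈ C, ∑ l ∈ I, w l :=
    Finset.sum_lt_sum_of_nonempty hne hcon
  rw [← Finset.mul_sum, ← h1, Finset.sum_const, smul_eq_mul] at h2
  have h3 : C.card * ∑ l ∈ I, w l ≤ N * ∑ l ∈ I, w l := Nat.mul_le_mul_right _ hC
  omega

theorem windows (A : Finset ℕ) (M : ℝ) (hM : SupB A M) (hpos : ∀ a ∈ A, 0 < a) (L K : ℕ)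
    (hL : 1 ≤ L) (hK : 20000 ≤ K) (hbig : 1000 * (L : ℝ) * K * M ≤ A.card) (hA : 1 ≤ A.card) :
    ∃ (s e : ℕ → ℕ) (κ : ℕ) (T : Finset ℕ), 1 ≤ κ ∧
      (∀ i ∈ T, L ≤ s i) ∧ (∀ i ∈ T, e i = s i + 2 * L * K) ∧
      (∀ i ∈ T, ∀ i' ∈ T, i < i' → e i + 2 * L ≤ s i') ∧
      (∀ i ∈ T, κ ≤ (core A L (s i) (e i)).card ∧ (core A L (s i) (e i)).card ≤ 2 * κ ∧
        500 * (near A L (s i) (e i) \ core A L (s i) (e i)).card ≤ κ) ∧
      A.card ≤ 20 * (Nat.log 2 A.card + 1) * κ * T.card := by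
  have hK1 : 1 ≤ K := by omega
  obtain ⟨k, hk, hkA⟩ := exists_shift A (blk L) K hK1
  set F := A.filter (fun a => blk L a % K = k) with hF
  have hF2 : 20000 * F.card ≤ A.card := (Nat.mul_le_mul_right _ hK).trans hkA
  set Lm := ∑ a ∈ A, blk L a with hLm
  set I := Finset.Icc 1 Lm with hI
  set cor : ℕ → Finset ℕ := fun l => core A L (wst L K k l) (wst L K k l + 2 * L * K) with hcor
  set nr : ℕ → Finset ℕ := fun l => near A L (wst L K k l) (wst L K k l + 2 * L * K) with hnr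
  have hmc : ∀ l a, a ∈ cor l ↔ a ∈ A ∧ l * K + k < blk L a ∧ blk L a < (l + 1) * K + k :=
    fun l a => mem_core_blk hpos hL hK1
  have hmn : ∀ l, 1 ≤ l → ∀ a, a ∈ nr l ↔
      a ∈ A ∧ l * K + k ≤ blk L a ∧ blk L a ≤ (l + 1) * K + k :=
    fun l hl a => mem_near_blk hpos hL hK1 hl
  -- covering
  set Sm := A.filter (fun a => Nat.log 2 a < 4 * L * K) with hSm
  have hcov : A ⊆ Sm ∪ F ∪ I.biUnion cor := by
    intro a ha
    rw [Finset.mem_union, Finset.mem_union]
    by_cases h1 : Nat.log 2 a < 4 * L * K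
    · left; left
      rw [hSm, Finset.mem_filter]; exact ⟨ha, h1⟩
    by_cases h2 : blk L a % K = k
    · left; right
      rw [hF, Finset.mem_filter]; exact ⟨ha, h2⟩
    right
    rw [Finset.mem_biUnion]
    have h3 : 2 * K ≤ blk L a := by
      rw [le_blk_iff hL]
      push Not at h1
      have : 2 * K * (2 * L) = 4 * L * K := by ring
      omega
    have h4 := Nat.div_add_mod (blk L a - k) K
    have h5 := Nat.mod_lt (blk L a - k) (show 0 < K by omega)
    set l := (blk L a - k) / K with hl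
    set ρ := (blk L a - k) % K with hρ
    have h6 : ρ ≠ 0 := by
      intro h7
      apply h2
      have h8 : blk L a = k + K * l := by omega
      rw [h8, Nat.add_mul_mod_self_left, Nat.mod_eq_of_lt hk]
    have h9 : blk L a ≤ Lm := Finset.single_le_sum (f := blk L) (fun _ _ => Nat.zero_le _) ha
    have h10 : K * l = l * K := Nat.mul_comm _ _
    have h11 : (l + 1) * K = l * K + K := by ring
    have hl1 : 1 ≤ l := by
      rcases Nat.eq_zero_or_pos l with h | h
      · exfalso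
        rw [h, Nat.mul_zero, Nat.zero_add] at h4
        omega
      · exact h
    have hlm : l ≤ Lm := by
      have : l * 1 ≤ l * K := Nat.mul_le_mul_left _ hK1
      omega
    refine ⟨l, ?_, ?_⟩
    · rw [hI, Finset.mem_Icc]; exact ⟨hl1, hlm⟩
    · rw [hmc]
      exact ⟨ha, by omega, by omega⟩
  have hcard1 : A.card ≤ Sm.card + F.card + ∑ l ∈ I, (cor l).card := by
    refine (Finset.card_le_card hcov).trans ?_
    refine (Finset.card_union_le _ _).trans ?_
    exact Nat.add_le_add (Finset.card_union_le _ _) Finset.card_biUnion_le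
  have hSmall : 125 * Sm.card ≤ A.card := by
    have h1 := card_small hM hpos (4 * L * K)
    have h2 : (125 * Sm.card : ℝ) ≤ A.card := by
      calc (125 * Sm.card : ℝ) ≤ 125 * (2 * ((4 * L * K : ℕ) : ℝ) * M) := by
            rw [hSm]; linarith
        _ = 1000 * (L : ℝ) * K * M := by push_cast; ring
        _ ≤ A.card := hbig
    exact_mod_cast h2
  -- boundary
  have hbd : ∑ l ∈ I, (nr l \ cor l).card ≤ 2 * F.card := by
    have h1 : ∀ l ∈ I, (nr l \ cor l).card ≤
        (A.filter (fun a => blk L a = (l + 0) * K + k)).card +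
        (A.filter (fun a => blk L a = (l + 1) * K + k)).card := by
      intro l hl
      rw [hI, Finset.mem_Icc] at hl
      refine (Finset.card_le_card ?_).trans (Finset.card_union_le _ _)
      intro a ha
      rw [Finset.mem_sdiff, hmn l hl.1, hmc] at ha
      rw [Finset.mem_union, Finset.mem_filter, Finset.mem_filter]
      obtain ⟨⟨haA, h2, h3⟩, h4⟩ := ha
      by_cases h5 : blk L a = l * K + k
      · left; exact ⟨haA, by rw [h5]; ring⟩
      · right
        refine ⟨haA, ?_⟩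
        by_contra h6
        exact h4 ⟨haA, by omega, by omega⟩
    refine (Finset.sum_le_sum h1).trans ?_
    rw [Finset.sum_add_distrib]
    have h2 := sum_boundary A (blk L) K k hk I 0
    have h3 := sum_boundary A (blk L) K k hk I 1
    rw [← hF] at h2 h3
    omega
  -- good windows
  set Gd := I.filter (fun l => 1000 * (nr l \ cor l).card ≤ (cor l).card ∧ 1 ≤ (cor l).card)
    with hGd
  have hsplit : ∑ l ∈ I, (cor l).card ≤ ∑ l ∈ Gd, (cor l).card +
      1000 * ∑ l ∈ I, (nr l \ cor l).card := by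
    rw [hGd, Finset.sum_filter, Finset.mul_sum, ← Finset.sum_add_distrib]
    apply Finset.sum_le_sum
    intro l _
    by_cases h : 1000 * (nr l \ cor l).card ≤ (cor l).card ∧ 1 ≤ (cor l).card
    · rw [if_pos h]; omega
    · rw [if_neg h]; omega
  have hgood : A.card ≤ 2 * ∑ l ∈ Gd, (cor l).card := by omega
  -- classes
  set Q := Nat.log 2 A.card with hQ
  obtain ⟨c, hcC, hc⟩ := exists_class (I := Gd) (C := range (2 * (Q + 1)))
    (fun l => (cor l).card) (fun l => 2 * Nat.log 2 (cor l).card + l % 2) (2 * (Q + 1))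
    (by rw [Finset.card_range]) (by
      intro l _
      rw [Finset.mem_range]
      have h1 : (cor l).card ≤ A.card := Finset.card_le_card (fun a ha => ((hmc l a).1 ha).1)
      have h2 : Nat.log 2 (cor l).card ≤ Q := Nat.log_mono_right h1
      have h3 := Nat.mod_lt l (show 0 < 2 by norm_num)
      omega) (by omega)
  set T := Gd.filter (fun l => 2 * Nat.log 2 (cor l).card + l % 2 = c) with hT
  have hTm : ∀ l ∈ T, 1 ≤ l ∧ 1000 * (nr l \ cor l).card ≤ (cor l).card ∧ 1 ≤ (cor l).card ∧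
      2 * Nat.log 2 (cor l).card + l % 2 = c := by
    intro l hl
    rw [hT, Finset.mem_filter, hGd, Finset.mem_filter, hI, Finset.mem_Icc] at hl
    exact ⟨hl.1.1.1, hl.1.2.1, hl.1.2.2, hl.2⟩
  have hTκ : ∀ l ∈ T, 2 ^ (c / 2) ≤ (cor l).card ∧ (cor l).card < 2 * 2 ^ (c / 2) := by
    intro l hl
    obtain ⟨_, _, h3, h4⟩ := hTm l hl
    have h5 : Nat.log 2 (cor l).card = c / 2 := by omega
    rw [← h5]
    refine ⟨Nat.pow_log_le_self 2 (by omega), ?_⟩
    have := Nat.lt_pow_succ_log_self (b := 2) (by norm_num) (cor l).card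
    rw [Nat.pow_succ] at this
    omega
  refine ⟨wst L K k, fun l => wst L K k l + 2 * L * K, 2 ^ (c / 2), T, Nat.one_le_two_pow,
    ?_, fun i _ => rfl, ?_, ?_, ?_⟩
  · intro l hl
    have h1 := (hTm l hl).1
    unfold wst
    have : 1 ≤ l * K + k := by nlinarith
    nlinarith
  · intro i hi i' hi' hii'
    have h1 := (hTm i hi).2.2.2
    have h2 := (hTm i' hi').2.2.2
    have h3 : i + 2 ≤ i' := by omega
    have h4 : wst L K k i + 2 * L * K + 2 * L ≤ 2 * L * ((i + 2) * K + k) := by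
      unfold wst
      have : 2 * L * ((i + 2) * K + k) = 2 * L * (i * K + k) + 2 * L * K + 2 * L * K := by ring
      rw [this]
      have h5 : 2 * L * 1 ≤ 2 * L * K := Nat.mul_le_mul_left _ hK1
      omega
    refine h4.trans ?_
    unfold wst
    apply Nat.mul_le_mul_left
    have : (i + 2) * K ≤ i' * K := Nat.mul_le_mul_right _ h3
    omega
  · intro i hi
    obtain ⟨_, h2, _, _⟩ := hTm i hi
    obtain ⟨h3, h4⟩ := hTκ i hi
    refine ⟨h3, h4.le, ?_⟩
    change 500 * (nr i \ cor i).card ≤ _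
    omega
  · have h1 : ∑ l ∈ T, (cor l).card ≤ T.card * (2 * 2 ^ (c / 2)) := by
      have := Finset.sum_le_card_nsmul T (fun l => (cor l).card) (2 * 2 ^ (c / 2))
        (fun l hl => (hTκ l hl).2.le)
      simpa using this
    have h2 : ∑ l ∈ Gd, (cor l).card ≤ 2 * (Q + 1) * (T.card * (2 * 2 ^ (c / 2))) :=
      hc.trans (Nat.mul_le_mul_left _ h1)
    calc A.card ≤ 2 * ∑ l ∈ Gd, (cor l).card := hgood
      _ ≤ 2 * (2 * (Q + 1) * (T.card * (2 * 2 ^ (c / 2)))) := Nat.mul_le_mul_left _ h2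
      _ = 8 * (Q + 1) * 2 ^ (c / 2) * T.card := by ring
      _ ≤ 20 * (Q + 1) * 2 ^ (c / 2) * T.card := by gcongr; norm_num

end Pool.Agent.LibBohr
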