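import Pool.Agent.LibBohr.FinalE
import Pool.Agent.LibBohr.Windows
import Pool.Agent.LibBohr.Asym

set_option autoImplicit false

namespace Pool.Agent.LibBohr

open Finset

theorem final_step (A : Finset ℕ) (hpos : ∀ a ∈ A, 0 < a) (y : ℝ) (L : ℕ) (hL : 10 ≤ L)
    (hy : 10 ^ 20 * (L : ℝ) ≤ y) (hn : (A.card : ℝ) = y ^ 2000)
    (hL2 : 200 * (A.card : ℝ) ^ 4 ≤ 2 ^ L) (hM : SupB A (y ^ 1001)) : False := by
  have h : Par A y L := ⟨hL, hy, hn, hL2, hM, hpos⟩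
  have hy21 := h.hy21
  have hy1 : (1 : ℝ) < y := lt_of_lt_of_le (by norm_num) hy21
  have hy0 : (0 : ℝ) < y := by linarith
  have hA1 : (1 : ℝ) ≤ A.card := by rw [hn]; exact one_le_pow₀ hy1.le
  have hbig : 1000 * (L : ℝ) * ((20000 : ℕ) : ℝ) * y ^ 1001 ≤ A.card := by
    rw [hn]
    push_cast
    have h1 : 1000 * (L : ℝ) * 20000 ≤ y := by
      have hL0 : (0 : ℝ) ≤ L := Nat.cast_nonneg _
      linarith
    calc 1000 * (L : ℝ) * 20000 * y ^ 1001 ≤ y * y ^ 1001 :=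
          mul_le_mul_of_nonneg_right h1 (by positivity)
      _ = y ^ 1002 := by ring
      _ ≤ y ^ 2000 := pow_le_pow_right₀ hy1.le (by norm_num)
  obtain ⟨s, e, κ, T, hκ, hs, he, hgap, hc, hmass⟩ := windows A (y ^ 1001) hM hpos L 20000
    (by omega) le_rfl hbig (by exact_mod_cast hA1)
  have w : WinData A L (40000 * L) s e κ T :=
    { κ1 := hκ
      hs := hs
      hlen := fun i hi => by rw [he i hi]; ring
      gap := hgap
      c1 := fun i hi => (hc i hi).1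
      c2 := fun i hi => (hc i hi).2.1
      c3 := fun i hi => (hc i hi).2.2 }
  exact final_core h w hmass

theorem bohr : ∃ c : ℝ, 0 < c ∧ ∃ N : ℕ, ∀ A : Finset ℕ, (∀ a ∈ A, 0 < a) → N ≤ A.card →
      ∃ θ : ℝ, (A.card : ℝ) ^ ((1 : ℝ) / 2 + c) ≤ |∑ a ∈ A, Real.sin ((a : ℝ) * θ)| :=
  bohr_of_final_step final_step

end Pool.Agent.LibBohr
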