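import Pool.Agent.LibBohr.Defs

set_option autoImplicit false

namespace Pool.Agent.LibBohr

open Finset Complex

/-- Fourier coefficient of a real function on the circle. -/
noncomputable def fc (P : ℝ → ℝ) (u : ℤ) : ℂ :=
  (∫ θ in (0:ℝ)..(2 * Real.pi), (P θ : ℂ) * cexp (I * ((u : ℂ) * (θ : ℂ)))) / (2 * Real.pi)

/-- Average of a real function on the circle. -/
noncomputable def av (f : ℝ → ℝ) : ℝ := (∫ θ in (0:ℝ)..(2 * Real.pi), f θ) / (2 * Real.pi)

/-- Riesz product. -/
noncomputable def rp (A : Finset ℕ) (L : ℕ) (s e : ℕ → ℕ) (ε : ℝ) : ℕ → ℝ → ℝ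
  | 0 => fun _ => 1
  | i + 1 => fun θ => rp A L s e ε i θ *
      (1 + ε * ∑ a ∈ core A L (s i) (e i), Real.sin ((a : ℝ) * θ))

lemma fc_one (u : ℤ) : fc (fun _ => 1) u = if u = 0 then 1 else 0 := by
  unfold fc
  have hpi : (2 * (Real.pi : ℂ)) ≠ 0 := by
    simp [Real.pi_ne_zero]
  split_ifs with h
  · subst h
    simp
  · have hu : (I * (u : ℂ)) ≠ 0 := by
      simp [h]
    have h1 : ∀ θ : ℝ, (((1 : ℝ) : ℂ)) * cexp (I * ((u : ℂ) * (θ : ℂ))) = cexp ((I * (u : ℂ)) * θ) := by
      intro θ
      rw [Complex.ofReal_one, one_mul]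
      ring_nf
    simp_rw [h1]
    rw [integral_exp_mul_complex hu]
    have h2 : cexp (I * (u : ℂ) * ((2 * Real.pi : ℝ) : ℂ)) = 1 := by
      rw [Complex.exp_eq_one_iff]
      refine ⟨u, ?_⟩
      push_cast
      ring
    rw [h2]
    simp

lemma fc_step (P : ℝ → ℝ) (hP : Continuous P) (C : Finset ℕ) (ε : ℝ) (u : ℤ) :
    fc (fun θ => P θ * (1 + ε * ∑ a ∈ C, Real.sin ((a : ℝ) * θ))) u =
      fc P u + (ε / (2 * I)) * ∑ a ∈ C, (fc P (u + a) - fc P (u - a)) := by
  unfold fc
  have hI : (2 * I : ℂ) ≠ 0 := by simp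
  have key : ∀ θ : ℝ, ((P θ * (1 + ε * ∑ a ∈ C, Real.sin ((a : ℝ) * θ)) : ℝ) : ℂ) *
      cexp (I * ((u : ℂ) * (θ : ℂ))) =
      (P θ : ℂ) * cexp (I * ((u : ℂ) * (θ : ℂ))) +
        ∑ a ∈ C, (ε / (2 * I)) * ((P θ : ℂ) * cexp (I * (((u + a : ℤ) : ℂ) * (θ : ℂ))) -
          (P θ : ℂ) * cexp (I * (((u - a : ℤ) : ℂ) * (θ : ℂ)))) := by
    intro θ
    push_cast
    rw [mul_add, mul_one, add_mul]
    congr 1
    rw [← mul_assoc, mul_assoc _ _ (cexp _), Finset.sum_mul, Finset.mul_sum]
    apply Finset.sum_congr rfl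
    intro a _
    have e1 : cexp (I * (((u : ℂ) + a) * θ)) = cexp (I * ((u : ℂ) * θ)) * cexp ((a * θ : ℂ) * I) := by
      rw [← Complex.exp_add]; ring_nf
    have e2 : cexp (I * (((u : ℂ) - a) * θ)) = cexp (I * ((u : ℂ) * θ)) * cexp (-(a * θ : ℂ) * I) := by
      rw [← Complex.exp_add]; ring_nf
    rw [e1, e2, Complex.sin]
    field_simp
    have hI2 : I ^ 2 = -1 := Complex.I_sq
    ring_nf
    rw [hI2]
    ring
  have hcont : ∀ v : ℤ, Continuous (fun θ : ℝ => (P θ : ℂ) * cexp (I * ((v : ℂ) * (θ : ℂ)))) := by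
    intro v
    fun_prop
  have hterm : ∀ a : ℕ, Continuous (fun θ : ℝ => ((ε : ℂ) / (2 * I)) *
      ((P θ : ℂ) * cexp (I * (((u + a : ℤ) : ℂ) * (θ : ℂ))) -
          (P θ : ℂ) * cexp (I * (((u - a : ℤ) : ℂ) * (θ : ℂ))))) := by
    intro a
    exact continuous_const.mul ((hcont _).sub (hcont _))
  simp_rw [key]
  rw [intervalIntegral.integral_add ((hcont u).intervalIntegrable _ _)
    (Continuous.intervalIntegrable (continuous_finsetSum _ (fun a _ => hterm a)) _ _)]
  rw [intervalIntegral.integral_finsetSum (fun a _ => (hterm a).intervalIntegrable _ _)]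
  rw [add_div]
  congr 1
  rw [Finset.sum_div, Finset.mul_sum]
  apply Finset.sum_congr rfl
  intro a _
  rw [intervalIntegral.integral_const_mul, intervalIntegral.integral_sub
    ((hcont _).intervalIntegrable _ _) ((hcont _).intervalIntegrable _ _)]
  ring

lemma rp_cont (A : Finset ℕ) (L : ℕ) (s e : ℕ → ℕ) (ε : ℝ) (i : ℕ) : Continuous (rp A L s e ε i) := by
  induction i with
  | zero => exact continuous_const
  | succ i ih =>
    have : rp A L s e ε (i + 1) = fun θ => rp A L s e ε i θ *
      (1 + ε * ∑ a ∈ core A L (s i) (e i), Real.sin ((a : ℝ) * θ)) := rfl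
    rw [this]
    fun_prop

lemma av_add (f g : ℝ → ℝ) (hf : Continuous f) (hg : Continuous g) :
    av (fun θ => f θ + g θ) = av f + av g := by
  unfold av
  rw [intervalIntegral.integral_add (hf.intervalIntegrable _ _) (hg.intervalIntegrable _ _), add_div]

lemma av_const_mul (c : ℝ) (f : ℝ → ℝ) : av (fun θ => c * f θ) = c * av f := by
  unfold av
  rw [intervalIntegral.integral_const_mul, mul_div_assoc]

lemma av_sum {ι : Type*} (s : Finset ι) (f : ι → ℝ → ℝ) (hf : ∀ i ∈ s, Continuous (f i)) :
    av (fun θ => ∑ i ∈ s, f i θ) = ∑ i ∈ s, av (f i) := by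
  unfold av
  rw [intervalIntegral.integral_finsetSum (fun i hi => (hf i hi).intervalIntegrable _ _), Finset.sum_div]

lemma av_mono (f g : ℝ → ℝ) (hf : Continuous f) (hg : Continuous g) (h : ∀ θ, f θ ≤ g θ) :
    av f ≤ av g := by
  unfold av
  apply div_le_div_of_nonneg_right _ (by positivity)
  apply intervalIntegral.integral_mono (by positivity) (hf.intervalIntegrable _ _)
    (hg.intervalIntegrable _ _) h

lemma re_fc (P : ℝ → ℝ) (hP : Continuous P) (u : ℤ) :
    (fc P u).re = av (fun θ => P θ * Real.cos ((u : ℝ) * θ)) := by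
  unfold fc av
  have hcont : Continuous (fun θ : ℝ => (P θ : ℂ) * cexp (I * ((u : ℂ) * (θ : ℂ)))) := by
    fun_prop
  have h2 : (2 * (Real.pi : ℂ)) = ((2 * Real.pi : ℝ) : ℂ) := by push_cast; rfl
  rw [h2, Complex.div_ofReal_re]
  congr 1
  have := Complex.reCLM.intervalIntegral_comp_comm (hcont.intervalIntegrable (μ := MeasureTheory.volume) 0 (2 * Real.pi))
  simp only [Complex.reCLM_apply] at this
  rw [← this]
  apply intervalIntegral.integral_congr
  intro θ _
  simp only
  rw [Complex.re_ofReal_mul]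
  congr 1
  have : I * ((u : ℂ) * (θ : ℂ)) = (((u : ℝ) * θ : ℝ) : ℂ) * I := by push_cast; ring
  rw [this, Complex.exp_ofReal_mul_I_re]


lemma av_sin (b : ℕ) : av (fun θ => Real.sin ((b : ℝ) * θ)) = 0 := by
  unfold av
  rcases Nat.eq_zero_or_pos b with h | h
  · subst h; simp
  · have hb : (b : ℝ) ≠ 0 := by positivity
    rw [intervalIntegral.integral_comp_mul_left (fun x => Real.sin x) hb, integral_sin]
    have : Real.cos ((b : ℝ) * (2 * Real.pi)) = 1 := by
      exact Real.cos_nat_mul_two_pi b
    rw [this]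
    simp

lemma mem_win {A : Finset ℕ} {i j a : ℕ} (h : a ∈ win A i j) : a ∈ A ∧ 2 ^ i ≤ a ∧ a < 2 ^ j := by
  simpa [win] using h

lemma rp_inv (A : Finset ℕ) (J L : ℕ) (s e : ℕ → ℕ) (κ : ℝ)
    (hκ : 1 ≤ κ) (hL : 2 ≤ L) (hs : ∀ i, i < J → L ≤ s i) (hse : ∀ i, i < J → s i < e i)
    (hes : ∀ i, i + 1 < J → e i ≤ s (i + 1))
    (hC : ∀ i, i < J → ((core A L (s i) (e i)).card : ℝ) ≤ 2 * κ) (i : ℕ) (hi : i ≤ J) :
    (∀ u : ℤ, i < J → (2 : ℤ) ^ (s i - L + 1) < |u| → fc (rp A L s e (1 / (8 * κ)) i) u = 0) ∧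
    fc (rp A L s e (1 / (8 * κ)) i) 0 = 1 ∧
    ∀ u : ℤ, u ≠ 0 → ‖fc (rp A L s e (1 / (8 * κ)) i) u‖ ≤ 1 / (8 * κ) := by
  set ε : ℝ := 1 / (8 * κ) with hε
  have hε0 : 0 < ε := by positivity
  induction i with
  | zero =>
    have h0 : rp A L s e ε 0 = fun _ => 1 := rfl
    rw [h0]
    refine ⟨?_, ?_, ?_⟩
    · intro u _ hu
      rw [fc_one, if_neg]
      rintro rfl
      simp at hu
      have : (0 : ℤ) < 2 ^ (s 0 - L + 1) := by positivity
      omega
    · rw [fc_one]; simp
    · intro u hu
      rw [fc_one, if_neg hu]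
      simp
      positivity
  | succ i ih =>
    obtain ⟨ih1, ih2, ih3⟩ := ih (by omega)
    have hiJ : i < J := by omega
    set c := fc (rp A L s e ε i) with hc
    set C := core A L (s i) (e i) with hCdef
    have hstep : ∀ u : ℤ, fc (rp A L s e ε (i + 1)) u =
        c u + (ε / (2 * I)) * ∑ a ∈ C, (c (u + a) - c (u - a)) := by
      intro u
      exact fc_step _ (rp_cont A L s e ε i) C ε u
    have hLs := hs i hiJ
    have hD0 : (0 : ℤ) < 2 ^ (s i - L + 1) := by positivity
    -- elements of the core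
    have hCel : ∀ a ∈ C, (2 : ℤ) ^ (s i + L) ≤ (a : ℤ) ∧ (a : ℤ) < 2 ^ (e i - L) := by
      intro a ha
      have := mem_win ha
      exact ⟨by exact_mod_cast this.2.1, by exact_mod_cast this.2.2⟩
    have hpow1 : (2 : ℤ) ^ (s i + L) = 2 * 2 ^ (s i + L - 1) := by
      rw [← pow_succ']; congr 1; omega
    have hpow2 : (2 : ℤ) ^ (s i - L + 1) < 2 ^ (s i + L - 1) := by
      apply pow_lt_pow_right₀ (by norm_num); omega
    -- small u
    have hsmall : ∀ u : ℤ, |u| ≤ 2 ^ (s i + L - 1) → fc (rp A L s e ε (i + 1)) u = c u := by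
      intro u hu
      rw [hstep, Finset.sum_eq_zero, mul_zero, add_zero]
      intro a ha
      have h1 := (hCel a ha).1
      rw [ih1 (u + a) hiJ, ih1 (u - a) hiJ, sub_zero]
      · have := neg_abs_le u
        have h2 := le_abs_self u
        have h3 : (a : ℤ) - u ≤ |u - a| := by rw [abs_sub_comm]; exact le_abs_self _
        linarith
      · have := neg_abs_le u
        have h3 : u + a ≤ |u + a| := le_abs_self _
        linarith
    -- large u
    have hone : ∀ (f : ℕ → ℤ), (∀ a ∈ C, ∀ b ∈ C, f a = 0 → f b = 0 → a = b) →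
        ‖∑ a ∈ C, c (f a)‖ ≤ 2 := by
      intro f hf
      calc ‖∑ a ∈ C, c (f a)‖ ≤ ∑ a ∈ C, ‖c (f a)‖ := norm_sum_le _ _
        _ ≤ ∑ a ∈ C, (ε + if f a = 0 then 1 else 0) := by
            apply Finset.sum_le_sum
            intro a _
            split_ifs with h
            · rw [h, ih2]; simp; exact hε0.le
            · rw [add_zero]; exact ih3 _ h
        _ = C.card * ε + ∑ a ∈ C, (if f a = 0 then (1 : ℝ) else 0) := by
            rw [Finset.sum_add_distrib, Finset.sum_const, nsmul_eq_mul]
        _ ≤ 1 / 4 + 1 := by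
            gcongr
            · have := hC i hiJ
              rw [hε]
              calc (C.card : ℝ) * (1 / (8 * κ)) ≤ (2 * κ) * (1 / (8 * κ)) := by gcongr
                _ = 1 / 4 := by field_simp; norm_num
            · rw [Finset.sum_ite, Finset.sum_const_zero, add_zero, Finset.sum_const, nsmul_eq_mul, mul_one]
              have : (C.filter (fun a => f a = 0)).card ≤ 1 := by
                rw [Finset.card_le_one]
                intro a ha b hb
                rw [Finset.mem_filter] at ha hb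
                exact hf a ha.1 b hb.1 ha.2 hb.2
              exact_mod_cast this
        _ ≤ 2 := by norm_num
    have hlarge : ∀ u : ℤ, (2 : ℤ) ^ (s i + L - 1) < |u| →
        ‖fc (rp A L s e ε (i + 1)) u‖ ≤ ε := by
      intro u hu
      have hcu : c u = 0 := ih1 u hiJ (by linarith)
      rw [hstep, hcu, zero_add, norm_mul]
      have hn : ‖((ε : ℂ) / (2 * I))‖ = ε / 2 := by
        rw [norm_div, Complex.norm_real, norm_mul, Complex.norm_I]
        simp [abs_of_pos hε0]
      rw [hn]
      have hsum : ‖∑ a ∈ C, (c (u + a) - c (u - a))‖ ≤ 2 := by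
        rcases lt_or_ge 0 u with h0 | h0
        · have : ∑ a ∈ C, (c (u + a) - c (u - a)) = - ∑ a ∈ C, c (u - a) := by
            rw [← Finset.sum_neg_distrib]
            apply Finset.sum_congr rfl
            intro a ha
            have ha0 : (0 : ℤ) ≤ a := Int.natCast_nonneg a
            rw [ih1 (u + a) hiJ, zero_sub]
            have : u + a ≤ |u + a| := le_abs_self _
            rw [abs_of_pos h0] at hu
            linarith
          rw [this, norm_neg]
          apply hone
          intro a _ b _ h1 h2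
          have : (a : ℤ) = b := by linarith
          exact_mod_cast this
        · have : ∑ a ∈ C, (c (u + a) - c (u - a)) = ∑ a ∈ C, c (u + a) := by
            apply Finset.sum_congr rfl
            intro a ha
            have ha0 : (0 : ℤ) ≤ a := Int.natCast_nonneg a
            rw [ih1 (u - a) hiJ, sub_zero]
            have : -(u - a) ≤ |u - a| := neg_le_abs _
            rw [abs_of_nonpos h0] at hu
            linarith
          rw [this]
          apply hone
          intro a _ b _ h1 h2
          have : (a : ℤ) = b := by linarith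
          exact_mod_cast this
      calc ε / 2 * ‖∑ a ∈ C, (c (u + a) - c (u - a))‖ ≤ ε / 2 * 2 := by gcongr
        _ = ε := by ring
    refine ⟨?_, ?_, ?_⟩
    · intro u hi1 hu
      have hei := hes i hi1
      have hsei := hse i hiJ
      have hD : (2 : ℤ) ^ (s i - L + 1) ≤ 2 ^ (e i - L) := by
        apply pow_le_pow_right₀ (by norm_num); omega
      have hD2 : 2 * (2 : ℤ) ^ (e i - L) ≤ 2 ^ (s (i + 1) - L + 1) := by
        rw [← pow_succ']
        apply pow_le_pow_right₀ (by norm_num); omega
      rw [hstep, ih1 u hiJ (by linarith [(by positivity : (0 : ℤ) < 2 ^ (e i - L))]), zero_add,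
        Finset.sum_eq_zero, mul_zero]
      intro a ha
      have h1 := (hCel a ha).2
      have ha0 : (0 : ℤ) ≤ a := Int.natCast_nonneg a
      have e1 : |u| ≤ |u + a| + a := by
        have := abs_sub_abs_le_abs_sub u (-(a : ℤ))
        rw [abs_neg, abs_of_nonneg ha0, sub_neg_eq_add] at this
        linarith
      have e2 : |u| ≤ |u - a| + a := by
        have := abs_sub_abs_le_abs_sub u (a : ℤ)
        rw [abs_of_nonneg ha0] at this
        linarith
      rw [ih1 (u + a) hiJ (by linarith), ih1 (u - a) hiJ (by linarith), sub_zero]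
    · rw [hsmall 0 (by simp), ih2]
    · intro u hu
      rcases le_or_gt |u| (2 ^ (s i + L - 1)) with h | h
      · rw [hsmall u h]; exact ih3 u hu
      · exact hlarge u h


theorem lemmaJ (A : Finset ℕ) (M : ℝ) (hM : SupB A M) (J L : ℕ) (s e : ℕ → ℕ) (κ : ℝ)
    (hκ : 1 ≤ κ) (hL : 2 ≤ L) (hs : ∀ i, i < J → L ≤ s i) (hse : ∀ i, i < J → s i < e i)
    (hes : ∀ i, i + 1 < J → e i ≤ s (i + 1))
    (hC : ∀ i, i < J → ((core A L (s i) (e i)).card : ℝ) ≤ 2 * κ)
    (hN : ∀ i, i < J → ((near A L (s i) (e i)).card : ℝ) ≤ 3 * κ) :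
    ∑ i ∈ range J, ((core A L (s i) (e i)).card : ℝ) ≤ 32 * κ * M := by
  set ε : ℝ := 1 / (8 * κ) with hε
  have hε0 : 0 < ε := by positivity
  set S : ℝ → ℝ := fun θ => ∑ b ∈ A, Real.sin ((b : ℝ) * θ) with hS
  have hScont : Continuous S := by rw [hS]; fun_prop
  have hPc : ∀ i, Continuous (rp A L s e ε i) := rp_cont A L s e ε
  -- positivity
  have hpos : ∀ i, i ≤ J → ∀ θ, 0 ≤ rp A L s e ε i θ := by
    intro i
    induction i with
    | zero => intro _ θ; show (0 : ℝ) ≤ 1; norm_num
    | succ i ih =>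
      intro hi θ
      have h1 := ih (by omega) θ
      have h2 : |∑ a ∈ core A L (s i) (e i), Real.sin ((a : ℝ) * θ)| ≤ 2 * κ := by
        calc |∑ a ∈ core A L (s i) (e i), Real.sin ((a : ℝ) * θ)|
            ≤ ∑ a ∈ core A L (s i) (e i), |Real.sin ((a : ℝ) * θ)| := Finset.abs_sum_le_sum_abs _ _
          _ ≤ ∑ a ∈ core A L (s i) (e i), (1 : ℝ) :=
              Finset.sum_le_sum (fun a _ => Real.abs_sin_le_one _)
          _ = ((core A L (s i) (e i)).card : ℝ) := by simp
          _ ≤ 2 * κ := hC i (by omega)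
      have h3 := neg_abs_le (∑ a ∈ core A L (s i) (e i), Real.sin ((a : ℝ) * θ))
      have h4 : ε * (2 * κ) = 1 / 4 := by rw [hε]; field_simp; norm_num
      have h5 : ε * (-(2 * κ)) ≤ ε * ∑ a ∈ core A L (s i) (e i), Real.sin ((a : ℝ) * θ) := by
        apply mul_le_mul_of_nonneg_left _ hε0.le
        linarith
      show 0 ≤ rp A L s e ε i θ * (1 + ε * ∑ a ∈ core A L (s i) (e i), Real.sin ((a : ℝ) * θ))
      apply mul_nonneg h1
      have : ε * (-(2 * κ)) = -(1 / 4) := by rw [mul_neg, h4]
      linarith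
  -- upper bound
  have hup : av (fun θ => rp A L s e ε J θ * S θ) ≤ M := by
    have h1 : av (fun θ => rp A L s e ε J θ * S θ) ≤ av (fun θ => M * rp A L s e ε J θ) := by
      apply av_mono (fun θ => rp A L s e ε J θ * S θ) (fun θ => M * rp A L s e ε J θ)
        ((hPc J).mul hScont) (continuous_const.mul (hPc J))
      intro θ
      rw [mul_comm M]
      apply mul_le_mul_of_nonneg_left _ (hpos J le_rfl θ)
      exact (le_abs_self _).trans (hM θ)
    rw [av_const_mul] at h1
    have h2 : av (rp A L s e ε J) = 1 := by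
      have h3 := re_fc (rp A L s e ε J) (hPc J) 0
      rw [(rp_inv A J L s e κ hκ hL hs hse hes hC J le_rfl).2.1] at h3
      simp only [Complex.one_re, Int.cast_zero, zero_mul, Real.cos_zero, mul_one] at h3
      exact h3.symm
    rwa [h2, mul_one] at h1
  -- one step
  have hB : ∀ i, i < J → ((core A L (s i) (e i)).card : ℝ) / 4 ≤
      av (fun θ => rp A L s e ε i θ * (∑ a ∈ core A L (s i) (e i), Real.sin ((a : ℝ) * θ)) * S θ) := by
    intro i hi
    obtain ⟨c1, c2, c3⟩ := rp_inv A J L s e κ hκ hL hs hse hes hC i hi.le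
    rw [← hε] at c1 c2 c3
    set P := rp A L s e ε i with hP
    set C := core A L (s i) (e i) with hCdef
    have hLs := hs i hi
    have hexp : (fun θ => P θ * (∑ a ∈ C, Real.sin ((a : ℝ) * θ)) * S θ) =
        fun θ => ∑ a ∈ C, ∑ b ∈ A, (1 / 2) * (P θ * Real.cos (((b - a : ℤ) : ℝ) * θ) +
          (-1) * (P θ * Real.cos (((b + a : ℤ) : ℝ) * θ))) := by
      funext θ
      rw [hS, mul_assoc, Finset.sum_mul_sum, Finset.mul_sum]
      apply Finset.sum_congr rfl
      intro a _
      rw [Finset.mul_sum]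
      apply Finset.sum_congr rfl
      intro b _
      push_cast
      rw [sub_mul, add_mul, Real.cos_sub, Real.cos_add]
      ring
    have hc1 : ∀ v : ℤ, Continuous (fun θ => P θ * Real.cos ((v : ℝ) * θ)) := by
      intro v
      exact (hPc i).mul (by fun_prop)
    have hc2 : ∀ a b : ℕ, Continuous (fun θ => (1 / 2) * (P θ * Real.cos (((b - a : ℤ) : ℝ) * θ) +
          (-1) * (P θ * Real.cos (((b + a : ℤ) : ℝ) * θ)))) := by
      intro a b
      exact continuous_const.mul ((hc1 _).add (continuous_const.mul (hc1 _)))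
    rw [hexp, av_sum _ _ (fun a _ => continuous_finsetSum _ (fun b _ => hc2 a b))]
    have hin : ∀ a ∈ C, (1 : ℝ) / 4 ≤ av (fun θ => ∑ b ∈ A, (1 / 2) * (P θ * Real.cos (((b - a : ℤ) : ℝ) * θ) +
          (-1) * (P θ * Real.cos (((b + a : ℤ) : ℝ) * θ)))) := by
      intro a ha
      rw [av_sum _ _ (fun b _ => hc2 a b)]
      have ha' := mem_win ha
      have haA := ha'.1
      have hal : (2 : ℤ) ^ (s i + L) ≤ (a : ℤ) := by exact_mod_cast ha'.2.1
      have hau : (a : ℤ) < 2 ^ (e i - L) := by exact_mod_cast ha'.2.2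
      have hpow : (2 : ℤ) ^ (s i - L + 1) < 2 ^ (s i + L) := by
        apply pow_lt_pow_right₀ (by norm_num); omega
      have hterm : ∀ b ∈ A, (1 / 2) * ((if b = a then (1 : ℝ) else 0) -
          (if b ∈ near A L (s i) (e i) then ε else 0)) ≤
          av (fun θ => (1 / 2) * (P θ * Real.cos (((b - a : ℤ) : ℝ) * θ) +
          (-1) * (P θ * Real.cos (((b + a : ℤ) : ℝ) * θ)))) := by
        intro b hb
        rw [av_const_mul, av_add (fun θ => P θ * Real.cos (((b - a : ℤ) : ℝ) * θ))
          (fun θ => (-1) * (P θ * Real.cos (((b + a : ℤ) : ℝ) * θ))) (hc1 _)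
          (continuous_const.mul (hc1 _)), av_const_mul,
          ← re_fc P (hPc i), ← re_fc P (hPc i)]
        apply mul_le_mul_of_nonneg_left _ (by norm_num)
        have hb0 : (0 : ℤ) ≤ b := Int.natCast_nonneg b
        have e1 : fc P (b + a) = 0 := by
          apply c1 _ hi
          have : (b : ℤ) + a ≤ |(b : ℤ) + a| := le_abs_self _
          linarith
        rw [e1]
        simp only [Complex.zero_re, mul_zero, add_zero]
        by_cases hba : b = a
        · subst hba
          rw [if_pos rfl, sub_self, c2]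
          simp only [Complex.one_re]
          split_ifs <;> linarith
        · rw [if_neg hba, zero_sub]
          by_cases hfar : (2 : ℤ) ^ (s i - L + 1) < |(b : ℤ) - a|
          · rw [c1 _ hi hfar]
            simp only [Complex.zero_re]
            split_ifs <;> linarith
          · rw [not_lt] at hfar
            have hnear : b ∈ near A L (s i) (e i) := by
              have hsl : s i + L < e i - L := by
                have : (2 : ℤ) ^ (s i + L) < 2 ^ (e i - L) := by linarith
                exact (pow_lt_pow_iff_right₀ (by norm_num)).1 this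
              have g1 := (abs_le.1 hfar).1
              have g2 := (abs_le.1 hfar).2
              have p1 : (2 : ℤ) ^ (s i - L + 1) = 2 * 2 ^ (s i - L) := by rw [pow_succ']
              have p2 : (2 : ℤ) ^ (s i - L + 2) ≤ 2 ^ (s i + L) := by
                apply pow_le_pow_right₀ (by norm_num); omega
              have p3 : (2 : ℤ) ^ (s i - L + 2) = 4 * 2 ^ (s i - L) := by
                rw [pow_add]; norm_num; ring
              have p4 : (2 : ℤ) ^ (s i - L + 1) ≤ 2 ^ (e i - L) := by
                apply pow_le_pow_right₀ (by norm_num); omega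
              have p5 : 2 * (2 : ℤ) ^ (e i - L) ≤ 2 ^ (e i + L) := by
                rw [← pow_succ']
                apply pow_le_pow_right₀ (by norm_num); omega
              have q0 : (0 : ℤ) < 2 ^ (s i - L) := by positivity
              have q1 : (2 : ℤ) ^ (s i - L) ≤ b := by linarith
              have q2 : (b : ℤ) < 2 ^ (e i + L) := by linarith
              unfold near win
              rw [Finset.mem_filter]
              exact ⟨hb, by exact_mod_cast q1, by exact_mod_cast q2⟩
            rw [if_pos hnear]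
            have hne : ((b : ℤ) - a) ≠ 0 := by
              intro h0
              apply hba
              have : (b : ℤ) = a := by linarith
              exact_mod_cast this
            have := c3 _ hne
            have h2 := Complex.abs_re_le_norm (fc P ((b : ℤ) - a))
            have h3 := neg_abs_le (fc P ((b : ℤ) - a)).re
            linarith
      refine le_trans ?_ (Finset.sum_le_sum hterm)
      rw [← Finset.mul_sum, Finset.sum_sub_distrib, Finset.sum_ite_eq' A a, if_pos haA,
        ← Finset.sum_filter, Finset.sum_const, nsmul_eq_mul]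
      have hcard : ((A.filter (fun b => b ∈ near A L (s i) (e i))).card : ℝ) ≤ 3 * κ := by
        refine le_trans ?_ (hN i hi)
        exact_mod_cast Finset.card_le_card (by
          intro b hb
          exact (Finset.mem_filter.1 hb).2)
      have : ((A.filter (fun b => b ∈ near A L (s i) (e i))).card : ℝ) * ε ≤ 3 / 8 := by
        calc ((A.filter (fun b => b ∈ near A L (s i) (e i))).card : ℝ) * ε ≤ (3 * κ) * ε := by gcongr
          _ = 3 / 8 := by rw [hε]; field_simp
      linarith
    calc ((C.card : ℝ)) / 4 = ∑ a ∈ C, (1 / 4 : ℝ) := by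
          rw [Finset.sum_const, nsmul_eq_mul]; ring
      _ ≤ _ := Finset.sum_le_sum hin
  -- telescoping
  have htel : ∀ i, i ≤ J → ε * ∑ k ∈ range i, ((core A L (s k) (e k)).card : ℝ) / 4 ≤
      av (fun θ => rp A L s e ε i θ * S θ) := by
    intro i
    induction i with
    | zero =>
      intro _
      simp only [Finset.range_zero, Finset.sum_empty, mul_zero]
      have h0 : (fun θ => rp A L s e ε 0 θ * S θ) = fun θ => ∑ b ∈ A, Real.sin ((b : ℝ) * θ) := by
        funext θ
        show (1 : ℝ) * S θ = _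
        rw [one_mul]
      rw [h0, av_sum _ _ (fun b _ => by fun_prop)]
      apply le_of_eq
      symm
      apply Finset.sum_eq_zero
      intro b _
      exact av_sin b
    | succ i ih =>
      intro hi
      have h1 := ih (by omega)
      have h2 := hB i (by omega)
      have h3 : (fun θ => rp A L s e ε (i + 1) θ * S θ) = fun θ => rp A L s e ε i θ * S θ +
          ε * (rp A L s e ε i θ * (∑ a ∈ core A L (s i) (e i), Real.sin ((a : ℝ) * θ)) * S θ) := by
        funext θ
        show rp A L s e ε i θ * (1 + ε * ∑ a ∈ core A L (s i) (e i), Real.sin ((a : ℝ) * θ)) * S θ = _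
        ring
      rw [h3, av_add (fun θ => rp A L s e ε i θ * S θ)
        (fun θ => ε * (rp A L s e ε i θ * (∑ a ∈ core A L (s i) (e i), Real.sin ((a : ℝ) * θ)) * S θ))
        ((hPc i).mul hScont) (by
        have := hPc i
        fun_prop), av_const_mul, Finset.sum_range_succ, mul_add]
      have := mul_le_mul_of_nonneg_left h2 hε0.le
      linarith
  have hfin := (htel J le_rfl).trans hup
  rw [← Finset.sum_div] at hfin
  have h8 : ∀ Z : ℝ, ε * (Z / 4) = Z / (32 * κ) := by
    intro Z
    rw [hε]; field_simp; ring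
  rw [h8, div_le_iff₀ (by positivity)] at hfin
  linarith

end Pool.Agent.LibBohr
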