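import Pool.Agent.LibBohr.MainConstruction

set_option autoImplicit false

namespace Pool.Agent.LibBohr

open Finset Real

theorem gE_TY (H : ℕ) (A : Finset ℕ) (hAH : ∀ a ∈ A, 4 * a ≤ 2 ^ H) : gE H (TY H A) = 0 := by
  have hTY : TY H A = fun x => ∑ a ∈ A, gcos H (a : ℤ) (-(π / 2)) x := by
    funext x
    unfold TY
    exact Finset.sum_congr rfl (fun a _ => sin_eq_gcos H a x)
  rw [hTY, gE_sum]
  apply Finset.sum_eq_zero
  intro a ha
  rcases Nat.eq_zero_or_pos a with h0 | h0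
  · subst h0
    have : ∀ x, gcos H ((0 : ℕ) : ℤ) (-(π / 2)) x = 0 := by
      intro x
      rw [← sin_eq_gcos]; simp
    rw [gE_congr H this, gE_const]
  · apply gE_gcos_zero
    · omega
    · rw [abs_of_nonneg (by positivity)]
      have := hAH a ha
      have : 2 * a ≤ 2 ^ H := by omega
      exact_mod_cast this

theorem main_construction (A : Finset ℕ) (M : ℝ) (hM : SupB A M)
    (J L d : ℕ) (s e : ℕ → ℕ) (κ lam B Nt Ea Eb : ℝ) (hd : 1 ≤ d)
    (hL : 10 ≤ L) (hL2 : 200 * (A.card : ℝ) ^ 4 ≤ 2 ^ L)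
    (hs : ∀ i, i < J → L ≤ s i) (hse : ∀ i, i < J → s i + 2 * L + 1 ≤ e i)
    (hes : ∀ i, i + 1 < J → e i ≤ s (i + 1))
    (G : Finset ℕ) (hG : ∀ i ∈ G, i < J ∧ i % d ≠ 0)
    (hC1 : ∀ i ∈ G, κ ≤ ((core A L (s i) (e i)).card : ℝ))
    (hR : ∀ i ∈ G, ((near A L (s i) (e i) \ core A L (s i) (e i)).card : ℝ) ≤ κ / 500)
    (hN : ∀ i ∈ G, (closePairs (near A L (s i) (e i)) (2 ^ (s (d * (i / d)) + L + 1)) : ℝ) ≤ Nt)
    (hX : ∀ i ∈ G, ∃ X ⊆ core A L (s i) (e i), (X.card : ℝ) ≤ κ / 500 ∧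
      En 1 (core A L (s i) (e i) \ X) ≤ Ea ∧
      En (2 ^ (s (d * (i / d)) + L + 1)) (core A L (s i) (e i) \ X) ≤ Eb)
    (hlam : 0 < lam) (hB : 1 ≤ B) (hκ : 1000 ≤ κ)
    (hβ1 : 4 * lam * B ≤ 1) (hβ2 : d * (2 * lam * B) ^ 2 ≤ 1 / 2)
    (h2 : 16 * lam * B * (Nt + 1) ≤ κ / 1000)
    (h4 : Ea + 60 * lam * B * Eb + 1 ≤ κ * B ^ 2 / 100)
    (h5 : 32 * lam ^ 2 * B ^ 4 * d ≤ κ / 5) :
    (G.card : ℝ) * (lam * κ / 10) ≤ M := by
  -- choice of the grid
  set H : ℕ := (∑ i ∈ range J, e i) + (∑ a ∈ A, a) + 2 with hH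
  have heH : ∀ i, i < J → e i ≤ H := by
    intro i hi
    have : e i ≤ ∑ i ∈ range J, e i :=
      Finset.single_le_sum (f := e) (fun _ _ => Nat.zero_le _) (Finset.mem_range.mpr hi)
    omega
  have hAH : ∀ a ∈ A, 4 * a ≤ 2 ^ H := by
    intro a ha
    have h1 : a ≤ ∑ a ∈ A, a :=
      Finset.single_le_sum (f := fun a => a) (fun _ _ => Nat.zero_le _) ha
    have h3 : a < 2 ^ a := Nat.lt_two_pow_self
    have h6 : 2 ^ (a + 2) ≤ 2 ^ H := Nat.pow_le_pow_right (by norm_num) (by omega)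
    have h7 : 2 ^ (a + 2) = 4 * 2 ^ a := by rw [pow_add]; ring
    omega
  have hB0 : 0 < B := by linarith
  have hβ0 : 0 ≤ 2 * lam * B := by positivity
  have hβle : 2 * lam * B ≤ 1 := by linarith
  have hse' : ∀ i, i < J → s i ≤ e i := fun i hi => by have := hse i hi; omega
  have hse1 : ∀ i, i < J → s i + 1 ≤ e i := fun i hi => by have := hse i hi; omega
  set f : ℕ → ℝ := TY H A with hf
  have hfM : ∀ x, |f x| ≤ M := fun x => hM _
  have hf0 : gE H f = 0 := gE_TY H A hAH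
  have hmain := main_ineq (f := f) hse' hes heH hlam.le hB0.le hβle hfM hf0
  refine le_trans ?_ hmain
  -- each good window
  have hgood : ∀ i ∈ G, κ / 10 ≤ gE H (fun x => Pseq H lam B s e f i x *
      min (mdiff H (s i) (e i) f x ^ 2) (B ^ 2)) := by
    intro i hi
    obtain ⟨hiJ, himod⟩ := hG i hi
    obtain ⟨X, hXC, hXc, hEa, hEb⟩ := hX i hi
    set b := d * (i / d) with hb
    have hbi : b + i % d = i := Nat.div_add_mod i d
    have hblt : b < i := by omega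
    have hbJ : b < J := by omega
    have hebs := e_le_s hse' hes b i hblt hiJ
    have hsb : s b + 2 * L + 1 ≤ s i := (hse b hbJ).trans hebs
    have hsbH : s b ≤ H := (hse' b hbJ).trans (heH b hbJ)
    have hcoef : CoefHyp H (s b) (2 * lam * B) (Pseq H lam B s e f b) :=
      { nonneg := Pseq_nonneg hlam.le hB0.le hβle b
        mass := gE_Pseq hse' hes heH hbJ.le
        β0 := hβ0
        b1 := fun u hu0 hu => coef_bound2 hse1 hes heH hlam.le hB0.le hβle u hu0 hu 0 hbJ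
        b2 := fun u hu0 hu => coef_bound1 hse1 hes heH hlam.le hB0.le hβle u hu0 hu 0 hbJ }
    have hmeas : Meas H (s i) (Pseq H lam B s e f b) :=
      (meas_Pseq_s hse' hes hbJ hsbH).mono (by omega) ((hse' i hiJ).trans (heH i hiJ))
    have hwl := window_lower A hcoef hmeas hβle (hs i hiJ) (hse i hiJ) (heH i hiJ) hsb hAH hL2
      (hC1 i hi) (hR i hi) (hN i hi) hXC hXc hEa hEb hB0 hκ (by
        have : 8 * (2 * lam * B) * (Nt + 1) = 16 * lam * B * (Nt + 1) := by ring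
        rw [this]; exact h2) (by
        have : 30 * (2 * lam * B) * Eb = 60 * lam * B * Eb := by ring
        rw [this]; exact h4)
    have hnt := near_top (f := f) hse' hes heH hlam.le hB0.le hβle b (k := i % d) (d := d)
      (by omega) (Nat.mod_lt i (by omega)).le hβ2
      (fun x => min (mdiff H (s i) (e i) f x ^ 2) (B ^ 2))
      (fun x => le_min (sq_nonneg _) (sq_nonneg _)) (fun x => min_le_right _ _)
      (show 0 ≤ κ / 5 by positivity) hwl h5
    rw [hbi] at hnt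
    linarith
  have hnn : ∀ i, 0 ≤ gE H (fun x => Pseq H lam B s e f i x *
      min (mdiff H (s i) (e i) f x ^ 2) (B ^ 2)) := by
    intro i
    apply gE_nonneg
    intro x
    exact mul_nonneg (Pseq_nonneg hlam.le hB0.le hβle i x) (le_min (sq_nonneg _) (sq_nonneg _))
  have hGsub : G ⊆ range J := by
    intro i hi
    exact Finset.mem_range.mpr (hG i hi).1
  have hsum : (G.card : ℝ) * (κ / 10) ≤ ∑ k ∈ range J, gE H (fun x => Pseq H lam B s e f k x *
      min (mdiff H (s k) (e k) f x ^ 2) (B ^ 2)) := by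
    calc (G.card : ℝ) * (κ / 10) = ∑ _i ∈ G, κ / 10 := by
          rw [Finset.sum_const, nsmul_eq_mul]
      _ ≤ ∑ i ∈ G, gE H (fun x => Pseq H lam B s e f i x *
          min (mdiff H (s i) (e i) f x ^ 2) (B ^ 2)) := Finset.sum_le_sum hgood
      _ ≤ _ := Finset.sum_le_sum_of_subset_of_nonneg hGsub (fun i _ _ => hnn i)
  calc (G.card : ℝ) * (lam * κ / 10) = lam * ((G.card : ℝ) * (κ / 10)) := by ring
    _ ≤ _ := mul_le_mul_of_nonneg_left hsum hlam.le

end Pool.Agent.LibBohr
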