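import Pool.Agent.LibBohr.Numer
import Pool.Agent.LibBohr.Count
import Pool.Agent.LibBohr.FewStructured
import Pool.Agent.LibBohr.LemmaJ
import Pool.Agent.LibBohr.Dissoc
import Pool.Agent.LibBohr.MainThm

set_option autoImplicit false

namespace Pool.Agent.LibBohr

open Finset

/-- Parameters of the final argument. -/
structure Par (A : Finset ℕ) (y : ℝ) (L : ℕ) : Prop where
  hL : 10 ≤ L
  hy : 10 ^ 20 * (L : ℝ) ≤ y
  hn : (A.card : ℝ) = y ^ 2000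
  hL2 : 200 * (A.card : ℝ) ^ 4 ≤ 2 ^ L
  hM : SupB A (y ^ 1001)
  hpos : ∀ a ∈ A, 0 < a

theorem Par.hy21 {A : Finset ℕ} {y : ℝ} {L : ℕ} (h : Par A y L) : 10 ^ 21 ≤ y := by
  have h1 := h.hy
  have h2 : (10 : ℝ) ≤ L := by exact_mod_cast h.hL
  linarith

theorem Par.hLy {A : Finset ℕ} {y : ℝ} {L : ℕ} (h : Par A y L) : (L : ℝ) ≤ y := by
  have h1 := h.hy
  have h2 : (10 : ℝ) ≤ L := by exact_mod_cast h.hL
  linarith

theorem Par.lev {A : Finset ℕ} {y : ℝ} {L : ℕ} (h : Par A y L) (i : ℕ) :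
    ((win A i (i + 1)).card : ℝ) ≤ 2 * y ^ 1001 := level_card A _ h.hM i

theorem few {A : Finset ℕ} {y : ℝ} {L : ℕ} (h : Par A y L) (m W D X0 : ℕ) (hm : 1 ≤ m)
    (hm2 : (m : ℝ) ≤ 2 * y ^ 965) (hX0 : y ^ 996 ≤ (X0 : ℝ))
    (hW : 1 ≤ W) (hD : 1 ≤ D) (T : Finset ℕ) (s e : ℕ → ℕ)
    (hgap : ∀ i ∈ T, ∀ i' ∈ T, i < i' → e i ≤ s i')
    (hlen : ∀ i ∈ T, e i ≤ s i + D)
    (hsW : ∀ i ∈ T, 2 ^ 18 * W ≤ 2 ^ (s i + L))
    (hst : ∀ i ∈ T, ∃ X ⊆ core A L (s i) (e i), ∃ Λ : Finset ℕ, Λ.card ≤ m ∧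
      (∀ x ∈ X, NearSpan W Λ x) ∧ 512 * D * X0 ≤ X.card) :
    (T.card : ℝ) ≤ 16 * L * y ^ 28 * m := by
  by_contra hcon
  push Not at hcon
  have hy := h.hy21
  have hy1 : (1 : ℝ) < y := lt_of_lt_of_le (by norm_num) hy
  have hy0 : (0 : ℝ) < y := by linarith
  set r := ⌈y ^ 11⌉₊ with hr
  set p := ⌈y ^ 6⌉₊ with hp
  have hr2 : (r : ℝ) ≤ 2 * y ^ 11 := ceil_le_two_mul (one_le_pow₀ hy1.le)
  have hp2 : (p : ℝ) ≤ 2 * y ^ 6 := ceil_le_two_mul (one_le_pow₀ hy1.le)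
  have hr1 : y ^ 11 ≤ (r : ℝ) := Nat.le_ceil _
  have hp1 : y ^ 6 ≤ (p : ℝ) := Nat.le_ceil _
  have hrpos : 1 ≤ r := Nat.one_le_iff_ne_zero.mpr (by
    intro h0
    rw [h0] at hr1
    have : 0 < y ^ 11 := by positivity
    push_cast at hr1
    linarith)
  have hrq := param_rq y L r m p hy hr2 hp2
  have hT : r * ((2 * L * r * m) * p) ≤ T.card := by
    have : ((r * ((2 * L * r * m) * p) : ℕ) : ℝ) ≤ (T.card : ℝ) := hrq.trans hcon.le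
    exact_mod_cast this
  have hfs := few_structured A (y ^ 1001) h.hM h.lev m W r ((2 * L * r * m) * p) (2 * L * r * m) X0
    hm hW L D (by have := h.hL; omega) hD T s e hgap hlen hsW hst
    (param_hq0 y _ L r m hy h.hLy h.hn h.hL2 hr2 hm2 hrpos hm)
    (param_hq y _ p X0 hy hp1 hX0) hT
  have h1 : y ^ 11 * (y ^ 996) ^ 2 ≤ (r : ℝ) * (X0 : ℝ) ^ 2 := by
    apply mul_le_mul hr1 _ (by positivity) (Nat.cast_nonneg _)
    exact pow_le_pow_left₀ (by positivity) hX0 2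
  have h2 : y ^ 11 * (y ^ 996) ^ 2 = y * y ^ 2002 := by ring
  have h3 : 8 * (y ^ 1001) ^ 2 = 8 * y ^ 2002 := by ring
  rw [h3] at hfs
  rw [h2] at h1
  have h4 : (0 : ℝ) < y ^ 2002 := by positivity
  have h5 : y * y ^ 2002 ≤ 8 * y ^ 2002 := h1.trans hfs
  have h6 : y ≤ 8 := le_of_mul_le_mul_right h5 h4
  linarith

end Pool.Agent.LibBohr
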