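import Pool.Agent.LibBohr.FinalA

set_option autoImplicit false

namespace Pool.Agent.LibBohr

open Finset

theorem core_subset_near (A : Finset ℕ) (L s e : ℕ) : core A L s e ⊆ near A L s e := by
  intro a ha
  unfold core win at ha
  unfold near win
  rw [Finset.mem_filter] at ha ⊢
  refine ⟨ha.1, le_trans (Nat.pow_le_pow_right (by norm_num) (by omega)) ha.2.1,
    lt_of_lt_of_le ha.2.2 (Nat.pow_le_pow_right (by norm_num) (by omega))⟩

theorem core_card_le (A : Finset ℕ) (M : ℝ) (hM0 : 0 ≤ M)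
    (hlev : ∀ i, ((win A i (i + 1)).card : ℝ) ≤ 2 * M) (L s e D : ℕ) (hlen : e ≤ s + D) :
    ((core A L s e).card : ℝ) ≤ D * (2 * M) := by
  have h1 : core A L s e ⊆ (Finset.Ico (s + L) (e - L)).biUnion (fun j => win A j (j + 1)) := by
    intro a ha
    unfold core win at ha
    rw [Finset.mem_filter] at ha
    obtain ⟨haA, h1, h2⟩ := ha
    have ha0 : a ≠ 0 := by
      have : 0 < 2 ^ (s + L) := by positivity
      omega
    rw [Finset.mem_biUnion]
    refine ⟨Nat.log 2 a, ?_, ?_⟩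
    · rw [Finset.mem_Ico]
      exact ⟨(Nat.le_log_iff_pow_le (by norm_num) ha0).mpr h1, Nat.log_lt_of_lt_pow ha0 h2⟩
    · unfold win
      rw [Finset.mem_filter]
      exact ⟨haA, Nat.pow_log_le_self 2 ha0, Nat.lt_pow_succ_log_self (by norm_num) a⟩
  have h2 := (Finset.card_le_card h1).trans Finset.card_biUnion_le
  have h3 : ((core A L s e).card : ℝ) ≤ ∑ j ∈ Finset.Ico (s + L) (e - L), ((win A j (j + 1)).card : ℝ) := by
    exact_mod_cast h2
  refine h3.trans ((Finset.sum_le_sum (fun j _ => hlev j)).trans ?_)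
  rw [Finset.sum_const, nsmul_eq_mul, Nat.card_Ico]
  have h4 : ((e - L - (s + L) : ℕ) : ℝ) ≤ D := by
    have : e - L - (s + L) ≤ D := by omega
    exact_mod_cast this
  gcongr

/-- Window data. -/
structure WinData (A : Finset ℕ) (L D : ℕ) (s e : ℕ → ℕ) (κ : ℕ) (T : Finset ℕ) : Prop where
  κ1 : 1 ≤ κ
  hs : ∀ i ∈ T, L ≤ s i
  hlen : ∀ i ∈ T, e i = s i + D
  gap : ∀ i ∈ T, ∀ i' ∈ T, i < i' → e i + 2 * L ≤ s i'
  c1 : ∀ i ∈ T, κ ≤ (core A L (s i) (e i)).card
  c2 : ∀ i ∈ T, (core A L (s i) (e i)).card ≤ 2 * κ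
  c3 : ∀ i ∈ T, 500 * (near A L (s i) (e i) \ core A L (s i) (e i)).card ≤ κ

theorem WinData.mono {A : Finset ℕ} {L D : ℕ} {s e : ℕ → ℕ} {κ : ℕ} {T T' : Finset ℕ}
    (w : WinData A L D s e κ T) (h : T' ⊆ T) : WinData A L D s e κ T' where
  κ1 := w.κ1
  hs := fun i hi => w.hs i (h hi)
  hlen := fun i hi => w.hlen i (h hi)
  gap := fun i hi i' hi' => w.gap i (h hi) i' (h hi')
  c1 := fun i hi => w.c1 i (h hi)
  c2 := fun i hi => w.c2 i (h hi)
  c3 := fun i hi => w.c3 i (h hi)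

/-- Pull back window data along an increasing enumeration. -/
theorem WinData.enum {A : Finset ℕ} {L D : ℕ} {s e : ℕ → ℕ} {κ : ℕ} {T : Finset ℕ}
    (w : WinData A L D s e κ T) :
    ∃ t : ℕ → ℕ, (∀ i, i < T.card → t i ∈ T) ∧
      WinData A L D (fun i => s (t i)) (fun i => e (t i)) κ (range T.card) := by
  obtain ⟨t, ht, hmono⟩ := exists_enum T
  refine ⟨t, ht, ?_⟩
  exact
    { κ1 := w.κ1
      hs := fun i hi => w.hs _ (ht i (Finset.mem_range.mp hi))
      hlen := fun i hi => w.hlen _ (ht i (Finset.mem_range.mp hi))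
      gap := fun i hi i' hi' hlt => w.gap _ (ht i (Finset.mem_range.mp hi)) _
        (ht i' (Finset.mem_range.mp hi')) (hmono i i' hlt (Finset.mem_range.mp hi'))
      c1 := fun i hi => w.c1 _ (ht i (Finset.mem_range.mp hi))
      c2 := fun i hi => w.c2 _ (ht i (Finset.mem_range.mp hi))
      c3 := fun i hi => w.c3 _ (ht i (Finset.mem_range.mp hi)) }

theorem few_windows {A : Finset ℕ} {L D : ℕ} {s e : ℕ → ℕ} {κ : ℕ} {T : Finset ℕ} {M : ℝ}
    (hM : SupB A M) (hL : 2 ≤ L) (hD : 1 ≤ D) (w : WinData A L D s e κ T) :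
    (T.card : ℝ) ≤ 32 * M := by
  obtain ⟨t, ht, w'⟩ := w.enum
  have hκ : (1 : ℝ) ≤ κ := by exact_mod_cast w.κ1
  have h1 := lemmaJ A M hM T.card L (fun i => s (t i)) (fun i => e (t i)) κ hκ hL
    (fun i hi => w'.hs i (Finset.mem_range.mpr hi))
    (fun i hi => by
      have := w'.hlen i (Finset.mem_range.mpr hi)
      omega)
    (fun i hi => by
      have := w'.gap i (Finset.mem_range.mpr (by omega)) (i + 1) (Finset.mem_range.mpr hi) (by omega)
      omega)
    (fun i hi => by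
      have := w'.c2 i (Finset.mem_range.mpr hi)
      exact_mod_cast this)
    (fun i hi => by
      have h2 := w'.c2 i (Finset.mem_range.mpr hi)
      have h3 := w'.c3 i (Finset.mem_range.mpr hi)
      have h4 := Finset.card_sdiff_add_card_eq_card (core_subset_near A L (s (t i)) (e (t i)))
      have h5 : (near A L (s (t i)) (e (t i))).card ≤ 3 * κ := by omega
      exact_mod_cast h5)
  have h2 : (T.card : ℝ) * κ ≤ ∑ i ∈ range T.card, ((core A L (s (t i)) (e (t i))).card : ℝ) := by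
    have : (T.card : ℝ) * κ = ∑ _i ∈ range T.card, (κ : ℝ) := by
      rw [Finset.sum_const, nsmul_eq_mul, Finset.card_range]
    rw [this]
    apply Finset.sum_le_sum
    intro i hi
    exact_mod_cast w'.c1 i hi
  have h3 : (T.card : ℝ) * κ ≤ (32 * M) * κ := by
    calc _ ≤ _ := h2
      _ ≤ _ := h1
      _ = _ := by ring
  exact le_of_mul_le_mul_right h3 (by linarith)

end Pool.Agent.LibBohr
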