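import Pool.Agent.LibBohr.FinalB

set_option autoImplicit false

namespace Pool.Agent.LibBohr

open Finset

theorem near_disjoint {A : Finset ℕ} {L D : ℕ} {s e : ℕ → ℕ} {κ : ℕ} {T : Finset ℕ}
    (w : WinData A L D s e κ T) {i i' : ℕ} (hi : i ∈ T) (hi' : i' ∈ T) (hlt : i < i') :
    Disjoint (near A L (s i) (e i)) (near A L (s i') (e i')) := by
  rw [Finset.disjoint_left]
  intro a ha ha'
  unfold near win at ha ha'
  rw [Finset.mem_filter] at ha ha'
  have h1 := w.gap i hi i' hi' hlt
  have h2 : e i + L ≤ s i' - L := by omega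
  have h3 : 2 ^ (e i + L) ≤ 2 ^ (s i' - L) := Nat.pow_le_pow_right (by norm_num) h2
  omega

open Classical in
theorem group_good {A : Finset ℕ} {y : ℝ} {L : ℕ} (h : Par A y L) {D κ X0 m d J : ℕ}
    {s e : ℕ → ℕ} (w : WinData A L D s e κ (range J)) (hD : 20 ≤ D)
    (hX0 : y ^ 996 ≤ (X0 : ℝ)) (hm : 1 ≤ m) (hm2 : (m : ℝ) ≤ 2 * y ^ 750)
    (hd : y ^ 790 ≤ (d : ℝ)) (X Λ : ℕ → Finset ℕ)
    (hX : ∀ i, X i ⊆ core A L (s i) (e i)) (hΛ : ∀ i, (Λ i).card ≤ m)
    (hspan : ∀ i, ∀ x ∈ X i, NearSpan (2 ^ (s (d * (i / d)) + L + 1)) (Λ i) x)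
    {g : ℕ} (hg : g < J / d) :
    d / 2 ≤ ((Finset.Ico (d * g) (d * (g + 1))).filter (fun i => i % d ≠ 0 ∧
      (X i).card < 512 * D * X0 ∧
      (closePairs (near A L (s i) (e i)) (2 ^ (s (d * (i / d)) + L + 1)) : ℝ) ≤
        16 * y ^ 2002 / d)).card := by
  have hy := h.hy21
  have hy1 : (1 : ℝ) < y := lt_of_lt_of_le (by norm_num) hy
  have hy0 : (0 : ℝ) < y := by linarith
  have hdpos : (0 : ℝ) < d := lt_of_lt_of_le (by positivity) hd
  have hdn : 0 < d := by exact_mod_cast hdpos
  set Ig := Finset.Ico (d * g) (d * (g + 1)) with hIg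
  set W := 2 ^ (s (d * g) + L + 1) with hW
  have hIgJ : ∀ i ∈ Ig, i < J := by
    intro i hi
    rw [hIg, Finset.mem_Ico] at hi
    have h1 : d * (g + 1) ≤ d * (J / d) := Nat.mul_le_mul_left _ (by omega)
    have h2 := Nat.mul_div_le J d
    omega
  have hbase : ∀ i ∈ Ig, d * (i / d) = d * g := by
    intro i hi
    rw [hIg, Finset.mem_Ico] at hi
    congr 1
    apply Nat.div_eq_of_lt_le
    · rw [mul_comm]; exact hi.1
    · rw [mul_comm]; exact hi.2
  have hbJ : d * g ∈ range J := by
    rw [Finset.mem_range]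
    apply hIgJ
    rw [hIg, Finset.mem_Ico]
    constructor
    · exact le_rfl
    · exact Nat.mul_lt_mul_of_pos_left (by omega) hdn
  have hlow : ∀ i ∈ Ig, i % d ≠ 0 → d * g < i := by
    intro i hi hmod
    rw [hIg, Finset.mem_Ico] at hi
    rcases Nat.lt_or_ge (d * g) i with h1 | h1
    · exact h1
    · exfalso
      have : i = d * g := by omega
      apply hmod
      rw [this]
      exact Nat.mul_mod_right d g
  -- structured windows in the group
  set Bg := Ig.filter (fun i => i % d ≠ 0 ∧ 512 * D * X0 ≤ (X i).card) with hBg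
  have hsg : ∀ i ∈ Ig, i % d ≠ 0 → s (d * g) + D + 2 * L ≤ s i := by
    intro i hi hmod
    have h1 := w.gap (d * g) hbJ i (Finset.mem_range.mpr (hIgJ i hi)) (hlow i hi hmod)
    have h2 := w.hlen (d * g) hbJ
    omega
  have hBcard : (Bg.card : ℝ) ≤ 16 * L * y ^ 28 * m := by
    apply few h m W D X0 hm (hm2.trans (by
        have : y ^ 750 ≤ y ^ 965 := pow_le_pow_right₀ hy1.le (by norm_num)
        linarith)) hX0 (Nat.one_le_two_pow) (by omega) Bg s e
    · intro i hi i' hi' hlt
      rw [hBg, Finset.mem_filter] at hi hi'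
      have := w.gap i (Finset.mem_range.mpr (hIgJ i hi.1)) i' (Finset.mem_range.mpr (hIgJ i' hi'.1)) hlt
      omega
    · intro i hi
      rw [hBg, Finset.mem_filter] at hi
      exact (w.hlen i (Finset.mem_range.mpr (hIgJ i hi.1))).le
    · intro i hi
      rw [hBg, Finset.mem_filter] at hi
      have h1 := hsg i hi.1 hi.2.1
      rw [hW, ← pow_add]
      apply Nat.pow_le_pow_right (by norm_num)
      omega
    · intro i hi
      rw [hBg, Finset.mem_filter] at hi
      refine ⟨X i, hX i, Λ i, hΛ i, ?_, hi.2.2⟩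
      intro x hx
      have := hspan i x hx
      rw [hbase i hi.1] at this
      exact this
  -- windows with many close pairs
  set I' := Ig.filter (fun i => i % d ≠ 0) with hI'
  have hI'1 : ∀ i ∈ I', i ∈ Ig ∧ i % d ≠ 0 := by
    intro i hi; rw [hI', Finset.mem_filter] at hi; exact hi
  set Cg := I'.filter (fun i => 16 * y ^ 2002 / d <
    ((closePairs (near A L (s i) (e i)) W : ℕ) : ℝ)) with hCg
  have hsum : ((∑ i ∈ I', closePairs (near A L (s i) (e i)) W : ℕ) : ℝ) ≤ 4 * (y ^ 1001) ^ 2 := by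
    have h1 := closePairs_sum_le A W I' (fun i => near A L (s i) (e i))
      (fun i _ => Finset.filter_subset _ _)
      (fun i hi a ha => by
        have h2 := hsg i (hI'1 i hi).1 (hI'1 i hi).2
        unfold near win at ha
        rw [Finset.mem_filter] at ha
        refine le_trans ?_ ha.2.1
        rw [hW]
        apply Nat.pow_le_pow_right (by norm_num)
        omega)
      (fun i hi i' hi' hne => by
        have h2 := Finset.mem_range.mpr (hIgJ i (hI'1 i hi).1)
        have h3 := Finset.mem_range.mpr (hIgJ i' (hI'1 i' hi').1)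
        rcases Nat.lt_or_gt_of_ne hne with h4 | h4
        · exact near_disjoint w h2 h3 h4
        · exact (near_disjoint w h3 h2 h4).symm)
    have h5 := bmo A (y ^ 1001) h.hM W (Nat.one_le_two_pow)
    refine le_trans ?_ h5
    exact_mod_cast h1
  have hCcard : (Cg.card : ℝ) ≤ d / 4 := by
    have h1 := markov_count I' (fun i => closePairs (near A L (s i) (e i)) W)
      (16 * y ^ 2002 / d) _ hsum
    have h2 : (Cg.card : ℝ) * (16 * y ^ 2002 / d) ≤ 4 * (y ^ 1001) ^ 2 := h1
    have h3 : (y ^ 1001) ^ 2 = y ^ 2002 := by rw [← pow_mul]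
    rw [h3] at h2
    have h4 : (0 : ℝ) < y ^ 2002 := by positivity
    have h5 : (Cg.card : ℝ) * (16 * y ^ 2002 / d) = (4 * (Cg.card : ℝ) / d) * (4 * y ^ 2002) := by
      field_simp; ring
    rw [h5] at h2
    have h6 : 4 * (Cg.card : ℝ) / d ≤ 1 := by
      have h7 : (4 * (Cg.card : ℝ) / d) * (4 * y ^ 2002) ≤ 1 * (4 * y ^ 2002) := by linarith
      exact le_of_mul_le_mul_right h7 (by positivity)
    rw [div_le_one hdpos] at h6
    linarith
  -- cover
  set good := Ig.filter (fun i => i % d ≠ 0 ∧ (X i).card < 512 * D * X0 ∧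
      (closePairs (near A L (s i) (e i)) (2 ^ (s (d * (i / d)) + L + 1)) : ℝ) ≤
        16 * y ^ 2002 / d) with hgood
  have hcover : Ig ⊆ ((good ∪ {d * g}) ∪ Bg) ∪ Cg := by
    intro i hi
    by_cases hmod : i % d = 0
    · have h1 : i = d * g := by
        have h2 := hbase i hi
        have h3 := Nat.div_add_mod i d
        omega
      simp [h1]
    · by_cases hB : 512 * D * X0 ≤ (X i).card
      · have : i ∈ Bg := by rw [hBg, Finset.mem_filter]; exact ⟨hi, hmod, hB⟩
        simp [this]
      · by_cases hC : 16 * y ^ 2002 / d < ((closePairs (near A L (s i) (e i)) W : ℕ) : ℝ)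
        · have : i ∈ Cg := by
            rw [hCg, Finset.mem_filter, hI', Finset.mem_filter]; exact ⟨⟨hi, hmod⟩, hC⟩
          simp [this]
        · have : i ∈ good := by
            rw [hgood, Finset.mem_filter]
            refine ⟨hi, hmod, by omega, ?_⟩
            rw [hbase i hi]
            push Not at hC
            exact hC
          simp [this]
  have hcard : Ig.card ≤ ((good.card + 1) + Bg.card) + Cg.card := by
    refine (Finset.card_le_card hcover).trans ?_
    refine (Finset.card_union_le _ _).trans ?_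
    apply Nat.add_le_add_right
    refine (Finset.card_union_le _ _).trans ?_
    apply Nat.add_le_add_right
    refine (Finset.card_union_le _ _).trans ?_
    simp
  have hIgc : Ig.card = d := by
    rw [hIg, Nat.card_Ico, Nat.mul_add, Nat.mul_one, Nat.add_sub_cancel_left]
  rw [hIgc] at hcard
  have hcardR : (d : ℝ) ≤ good.card + 1 + Bg.card + Cg.card := by exact_mod_cast hcard
  have hB2 : 16 * (L : ℝ) * y ^ 28 * m + 1 ≤ d / 4 := by
    have h1 : 16 * (L : ℝ) * y ^ 28 * m ≤ 16 * L * y ^ 28 * (2 * y ^ 750) := by gcongr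
    have h2 : 16 * (L : ℝ) * y ^ 28 * (2 * y ^ 750) = 32 * L * y ^ 778 := by ring
    have h3 : 32 * (L : ℝ) * y ^ 778 ≤ y * y ^ 778 := by
      have := h.hy
      have hL0 : (0 : ℝ) ≤ L := Nat.cast_nonneg _
      apply mul_le_mul_of_nonneg_right _ (by positivity)
      linarith
    have h4 : y * y ^ 778 = y ^ 779 := by ring
    have h5 : y ^ 790 = y ^ 779 * y ^ 11 := by ring
    have h6 : (1 : ℝ) ≤ y ^ 779 := one_le_pow₀ hy1.le
    have h7 : y ≤ y ^ 11 := le_self_pow₀ hy1.le (by norm_num)
    have h8 : y ^ 779 * 8 ≤ y ^ 779 * y ^ 11 := by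
      apply mul_le_mul_of_nonneg_left _ (by positivity)
      linarith
    linarith
  have hfin : (d : ℝ) / 2 ≤ good.card := by linarith
  have h1 : ((d / 2 : ℕ) : ℝ) ≤ (d : ℝ) / 2 := Nat.cast_div_le
  exact_mod_cast h1.trans hfin

end Pool.Agent.LibBohr
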