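import Pool.Agent.LibBohr.FinalC

set_option autoImplicit false

namespace Pool.Agent.LibBohr

open Finset

/-- Numerical hypotheses of the main construction. -/
theorem numerics {y κ d : ℝ} (hy : 10 ^ 21 ≤ y) (hκ1 : y ^ 997 ≤ κ) (hκ2 : κ ≤ y ^ 1002)
    (hd1 : y ^ 790 ≤ d) (hd2 : d ≤ 2 * y ^ 790) {ma mb : ℝ} (hma : y ^ 965 ≤ ma)
    (hmb : y ^ 750 ≤ mb) :
    (4 * (1 / y ^ 990) * y ^ 540 ≤ 1) ∧
    (d * (2 * (1 / y ^ 990) * y ^ 540) ^ 2 ≤ 1 / 2) ∧
    (16 * (1 / y ^ 990) * y ^ 540 * (16 * y ^ 2002 / d + 1) ≤ κ / 1000) ∧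
    (64 * κ ^ 4 / ma ^ 2 + 60 * (1 / y ^ 990) * y ^ 540 * (64 * κ ^ 4 / mb ^ 2) + 1 ≤
      κ * (y ^ 540) ^ 2 / 100) ∧
    (32 * (1 / y ^ 990) ^ 2 * (y ^ 540) ^ 4 * d ≤ κ / 5) := by
  have hy1 : (1 : ℝ) < y := lt_of_lt_of_le (by norm_num) hy
  have hy0 : (0 : ℝ) < y := by linarith
  have hlB : (1 / y ^ 990) * y ^ 540 = 1 / y ^ 450 := by
    have : y ^ 990 = y ^ 450 * y ^ 540 := by ring
    rw [this]; field_simp
  have hp450 : (0 : ℝ) < y ^ 450 := by positivity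
  have hκ0 : 0 < κ := lt_of_lt_of_le (by positivity) hκ1
  have hd0 : 0 < d := lt_of_lt_of_le (by positivity) hd1
  have hbig : ∀ k : ℕ, 1 ≤ k → 10 ^ 21 ≤ y ^ k := fun k hk =>
    hy.trans (le_self_pow₀ hy1.le (by omega))
  refine ⟨?_, ?_, ?_, ?_, ?_⟩
  · have : 4 * (1 / y ^ 990) * y ^ 540 = 4 * (1 / y ^ 450) := by rw [← hlB]; ring
    rw [this]
    have h1 := hbig 450 (by norm_num)
    have h2 : 4 * (1 / y ^ 450) = 4 / y ^ 450 := by ring
    rw [h2, div_le_one hp450]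
    linarith
  · have : d * (2 * (1 / y ^ 990) * y ^ 540) ^ 2 = d * (2 * (1 / y ^ 450)) ^ 2 := by
      rw [← hlB]; ring
    rw [this]
    have h2 : d * (2 * (1 / y ^ 450)) ^ 2 = 4 * d / y ^ 900 := by
      have : y ^ 900 = y ^ 450 * y ^ 450 := by ring
      rw [this]; field_simp
      try ring
    rw [h2, div_le_div_iff₀ (by positivity) (by norm_num)]
    have h3 : y ^ 900 = y ^ 790 * y ^ 110 := by ring
    have h4 := hbig 110 (by norm_num)
    have h5 : y ^ 790 * 16 ≤ y ^ 790 * y ^ 110 := by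
      apply mul_le_mul_of_nonneg_left _ (by positivity)
      linarith
    linarith
  · have : 16 * (1 / y ^ 990) * y ^ 540 * (16 * y ^ 2002 / d + 1) =
        16 * (1 / y ^ 450) * (16 * y ^ 2002 / d + 1) := by
      rw [← hlB]; ring
    rw [this]
    have h1 : 16 * y ^ 2002 / d ≤ 16 * y ^ 1212 := by
      rw [div_le_iff₀ hd0]
      have : y ^ 2002 = y ^ 1212 * y ^ 790 := by ring
      rw [this]
      have h2 : y ^ 1212 * y ^ 790 ≤ y ^ 1212 * d := mul_le_mul_of_nonneg_left hd1 (by positivity)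
      linarith
    have h2 : 16 * (1 / y ^ 450) * (16 * y ^ 2002 / d + 1) ≤
        16 * (1 / y ^ 450) * (16 * y ^ 1212 + y ^ 1212) := by
      apply mul_le_mul_of_nonneg_left _ (by positivity)
      have : (1 : ℝ) ≤ y ^ 1212 := one_le_pow₀ hy1.le
      linarith
    have h3 : 16 * (1 / y ^ 450) * (16 * y ^ 1212 + y ^ 1212) = 272 * y ^ 762 := by
      have : y ^ 1212 = y ^ 450 * y ^ 762 := by ring
      rw [this]; field_simp; ring
    have h4 : 272000 * y ^ 762 ≤ y ^ 997 := by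
      have h5 : y ^ 997 = y ^ 762 * y ^ 235 := by ring
      have h6 := hbig 235 (by norm_num)
      rw [h5]
      have h7 : y ^ 762 * 272000 ≤ y ^ 762 * y ^ 235 := by
        apply mul_le_mul_of_nonneg_left _ (by positivity)
        linarith
      linarith
    rw [h3] at h2
    linarith
  · have hκ3 : κ ^ 3 ≤ y ^ 3006 := by
      have := pow_le_pow_left₀ hκ0.le hκ2 3
      rwa [← pow_mul] at this
    have h1 : 64 * κ ^ 4 / ma ^ 2 ≤ κ * (64 * y ^ 1076) := by
      have hma2 : y ^ 1930 ≤ ma ^ 2 := by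
        have := pow_le_pow_left₀ (by positivity) hma 2
        rwa [← pow_mul] at this
      have hma0 : 0 < ma ^ 2 := lt_of_lt_of_le (by positivity) hma2
      rw [div_le_iff₀ hma0]
      have h2 : κ * (64 * y ^ 1076) * y ^ 1930 ≤ κ * (64 * y ^ 1076) * ma ^ 2 :=
        mul_le_mul_of_nonneg_left hma2 (by positivity)
      refine le_trans ?_ h2
      have h3 : κ * (64 * y ^ 1076) * y ^ 1930 = 64 * κ * y ^ 3006 := by ring
      rw [h3]
      have h4 : 64 * κ ^ 4 = 64 * κ * κ ^ 3 := by ring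
      rw [h4]
      exact mul_le_mul_of_nonneg_left hκ3 (by positivity)
    have h2 : 60 * (1 / y ^ 990) * y ^ 540 * (64 * κ ^ 4 / mb ^ 2) ≤ κ * (3840 * y ^ 1056) := by
      have e1 : 60 * (1 / y ^ 990) * y ^ 540 * (64 * κ ^ 4 / mb ^ 2) =
          60 * (1 / y ^ 450) * (64 * κ ^ 4 / mb ^ 2) := by
        rw [← hlB]; ring
      rw [e1]
      have hmb2 : y ^ 1500 ≤ mb ^ 2 := by
        have := pow_le_pow_left₀ (by positivity) hmb 2
        rwa [← pow_mul] at this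
      have hmb0 : 0 < mb ^ 2 := lt_of_lt_of_le (by positivity) hmb2
      have e2 : 60 * (1 / y ^ 450) * (64 * κ ^ 4 / mb ^ 2) = (3840 * κ * κ ^ 3) / (y ^ 450 * mb ^ 2) := by
        field_simp; ring
      rw [e2, div_le_iff₀ (by positivity)]
      have h3 : κ * (3840 * y ^ 1056) * (y ^ 450 * y ^ 1500) ≤
          κ * (3840 * y ^ 1056) * (y ^ 450 * mb ^ 2) := by gcongr
      refine le_trans ?_ h3
      have h4 : κ * (3840 * y ^ 1056) * (y ^ 450 * y ^ 1500) = 3840 * κ * y ^ 3006 := by ring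
      rw [h4]
      exact mul_le_mul_of_nonneg_left hκ3 (by positivity)
    have h3 : (1 : ℝ) ≤ κ * y ^ 1056 := by
      have h4 : (1 : ℝ) ≤ κ := (one_le_pow₀ hy1.le).trans hκ1
      have h5 : (1 : ℝ) ≤ y ^ 1056 := one_le_pow₀ hy1.le
      nlinarith
    have h4 : κ * (64 * y ^ 1076) + κ * (3840 * y ^ 1056) + κ * y ^ 1056 ≤ κ * (y ^ 540) ^ 2 / 100 := by
      have e1 : (y ^ 540) ^ 2 = y ^ 1056 * y ^ 24 := by ring
      have e2 : y ^ 1076 = y ^ 1056 * y ^ 20 := by ring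
      rw [e1, e2]
      have h5 : 64 * y ^ 20 + 3841 ≤ y ^ 24 / 100 := by
        have h6 : y ^ 24 = y ^ 20 * y ^ 4 := by ring
        have h7 := hbig 4 (by norm_num)
        have h8 : (1 : ℝ) ≤ y ^ 20 := one_le_pow₀ hy1.le
        rw [h6]
        have h9 : y ^ 20 * 10 ^ 21 ≤ y ^ 20 * y ^ 4 := mul_le_mul_of_nonneg_left h7 (by positivity)
        linarith
      have h6 : (κ * y ^ 1056) * (64 * y ^ 20 + 3841) ≤ (κ * y ^ 1056) * (y ^ 24 / 100) :=
        mul_le_mul_of_nonneg_left h5 (by positivity)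
      linarith
    linarith
  · have e1 : 32 * (1 / y ^ 990) ^ 2 * (y ^ 540) ^ 4 * d = 32 * y ^ 180 * d := by
      have : (y ^ 540) ^ 4 = y ^ 180 * (y ^ 990) ^ 2 := by ring
      rw [this]; field_simp
    rw [e1]
    have h1 : 32 * y ^ 180 * d ≤ 32 * y ^ 180 * (2 * y ^ 790) := by gcongr
    have h2 : 32 * y ^ 180 * (2 * y ^ 790) = 64 * y ^ 970 := by ring
    have h3 : 320 * y ^ 970 ≤ y ^ 997 := by
      have h5 : y ^ 997 = y ^ 970 * y ^ 27 := by ring
      have h6 := hbig 27 (by norm_num)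
      rw [h5]
      have h7 : y ^ 970 * 320 ≤ y ^ 970 * y ^ 27 := by
        apply mul_le_mul_of_nonneg_left _ (by positivity)
        linarith
      linarith
    linarith

end Pool.Agent.LibBohr
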