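import Pool.Agent.LibBohr.FinalD

set_option autoImplicit false

namespace Pool.Agent.LibBohr

open Finset

/-- Size bounds for the window data. -/
theorem sizes {A : Finset ℕ} {y : ℝ} {L : ℕ} (h : Par A y L) {s e : ℕ → ℕ} {κ : ℕ}
    {T : Finset ℕ} (w : WinData A L (40000 * L) s e κ T)
    (hmass : A.card ≤ 20 * (Nat.log 2 A.card + 1) * κ * T.card) :
    y ^ 1999 ≤ (κ : ℝ) * T.card ∧ (κ : ℝ) ≤ y ^ 1002 ∧ y ^ 997 ≤ (κ : ℝ) ∧
      y ^ 997 ≤ (T.card : ℝ) := by
  have hy := h.hy21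
  have hy1 : (1 : ℝ) < y := lt_of_lt_of_le (by norm_num) hy
  have hy0 : (0 : ℝ) < y := by linarith
  have hn := h.hn
  have hA1 : (1 : ℝ) ≤ A.card := by rw [hn]; exact one_le_pow₀ hy1.le
  have hA0 : A.card ≠ 0 := by
    intro h0; rw [h0] at hA1; norm_num at hA1
  have hlog : Nat.log 2 A.card + 1 ≤ L := by
    have h1 : (A.card : ℝ) < 2 ^ L := by
      have h2 : (A.card : ℝ) ≤ (A.card : ℝ) ^ 4 := le_self_pow₀ hA1 (by norm_num)
      have := h.hL2
      linarith
    have h3 : A.card < 2 ^ L := by exact_mod_cast h1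
    exact Nat.log_lt_of_lt_pow hA0 h3
  have h1999 : y ^ 1999 ≤ (κ : ℝ) * T.card := by
    have h1 : (A.card : ℝ) ≤ 20 * ((Nat.log 2 A.card + 1 : ℕ) : ℝ) * κ * T.card := by
      exact_mod_cast hmass
    have h2 : ((Nat.log 2 A.card + 1 : ℕ) : ℝ) ≤ L := by exact_mod_cast hlog
    have h3 : (A.card : ℝ) ≤ y * (κ * T.card) := by
      have hκT : (0 : ℝ) ≤ (κ : ℝ) * T.card := by positivity
      calc (A.card : ℝ) ≤ 20 * ((Nat.log 2 A.card + 1 : ℕ) : ℝ) * κ * T.card := h1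
        _ = (20 * ((Nat.log 2 A.card + 1 : ℕ) : ℝ)) * (κ * T.card) := by ring
        _ ≤ y * (κ * T.card) := by
            apply mul_le_mul_of_nonneg_right _ hκT
            have := h.hy
            have hL0 : (0 : ℝ) ≤ L := Nat.cast_nonneg _
            linarith
    rw [hn] at h3
    have h4 : y ^ 2000 = y * y ^ 1999 := by ring
    rw [h4] at h3
    exact le_of_mul_le_mul_left h3 hy0
  have hκT0 : (0 : ℝ) < (κ : ℝ) * T.card := lt_of_lt_of_le (by positivity) h1999
  have hTne : T.Nonempty := by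
    rw [Finset.nonempty_iff_ne_empty]
    rintro rfl
    simp at hκT0
  obtain ⟨i0, hi0⟩ := hTne
  have hκ2 : (κ : ℝ) ≤ y ^ 1002 := by
    have h1 := core_card_le A (y ^ 1001) (by positivity) h.lev L (s i0) (e i0) (40000 * L)
      (w.hlen i0 hi0).le
    have h2 : (κ : ℝ) ≤ ((core A L (s i0) (e i0)).card : ℝ) := by exact_mod_cast w.c1 i0 hi0
    refine h2.trans (h1.trans ?_)
    push_cast
    have h3 : y ^ 1002 = y * y ^ 1001 := by ring
    rw [h3]
    have h4 : (40000 * (L : ℝ)) * (2 * y ^ 1001) = (80000 * L) * y ^ 1001 := by ring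
    rw [h4]
    apply mul_le_mul_of_nonneg_right _ (by positivity)
    have := h.hy
    have hL0 : (0 : ℝ) ≤ L := Nat.cast_nonneg _
    linarith
  have hT2 : (T.card : ℝ) ≤ y ^ 1002 := by
    have h1 := few_windows h.hM (by have := h.hL; omega) (by have := h.hL; omega) w
    have h3 : y ^ 1002 = y * y ^ 1001 := by ring
    have h4 : (0 : ℝ) < y ^ 1001 := by positivity
    nlinarith
  refine ⟨h1999, hκ2, ?_, ?_⟩
  · have h1 : y ^ 1999 = y ^ 997 * y ^ 1002 := by ring
    have h2 : y ^ 997 * y ^ 1002 ≤ (κ : ℝ) * y ^ 1002 := by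
      rw [← h1]
      exact h1999.trans (mul_le_mul_of_nonneg_left hT2 (Nat.cast_nonneg _))
    exact le_of_mul_le_mul_right h2 (by positivity)
  · have h1 : y ^ 1999 = y ^ 1002 * y ^ 997 := by ring
    have h2 : y ^ 1002 * y ^ 997 ≤ y ^ 1002 * (T.card : ℝ) := by
      rw [← h1]
      exact h1999.trans (mul_le_mul_of_nonneg_right hκ2 (Nat.cast_nonneg _))
    exact le_of_mul_le_mul_left h2 (by positivity)

theorem X0_bound {y : ℝ} {L κ : ℕ} (hL : 10 ≤ L) (hy : 10 ^ 20 * (L : ℝ) ≤ y)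
    (hκ : y ^ 997 ≤ (κ : ℝ)) : y ^ 996 ≤ ((κ / (512000 * (40000 * L)) : ℕ) : ℝ) := by
  have hLr : (10 : ℝ) ≤ L := by exact_mod_cast hL
  have hy1 : (1 : ℝ) < y := by linarith
  have hy0 : (0 : ℝ) < y := by linarith
  have hpos : 0 < 512000 * (40000 * L) := by omega
  have h1 : κ < (κ / (512000 * (40000 * L)) + 1) * (512000 * (40000 * L)) := by
    have := Nat.lt_div_mul_add (a := κ) hpos
    calc κ < κ / (512000 * (40000 * L)) * (512000 * (40000 * L)) + 512000 * (40000 * L) := this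
      _ = _ := by ring
  have h2 : (κ : ℝ) < (((κ / (512000 * (40000 * L)) : ℕ) : ℝ) + 1) * (512000 * (40000 * L)) := by
    exact_mod_cast h1
  set X := ((κ / (512000 * (40000 * L)) : ℕ) : ℝ) with hX
  have h3 : y ^ 997 = y ^ 996 * y := by ring
  have h4 : (1 : ℝ) ≤ y ^ 996 := one_le_pow₀ hy1.le
  by_contra hcon
  push Not at hcon
  have h5 : (X + 1) * (512000 * (40000 * (L : ℝ))) ≤ (2 * y ^ 996) * (512000 * (40000 * L)) := by
    apply mul_le_mul_of_nonneg_right _ (by positivity)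
    linarith
  have h6 : (2 * y ^ 996) * (512000 * (40000 * (L : ℝ))) = y ^ 996 * (40960000000 * L) := by ring
  have h7 : y ^ 996 * (40960000000 * (L : ℝ)) ≤ y ^ 996 * y := by
    apply mul_le_mul_of_nonneg_left _ (by positivity)
    linarith
  linarith

open Classical in
theorem final_core {A : Finset ℕ} {y : ℝ} {L : ℕ} (h : Par A y L) {s e : ℕ → ℕ} {κ : ℕ}
    {T : Finset ℕ} (w : WinData A L (40000 * L) s e κ T)
    (hmass : A.card ≤ 20 * (Nat.log 2 A.card + 1) * κ * T.card) : False := by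
  have hy := h.hy21
  have hy1 : (1 : ℝ) < y := lt_of_lt_of_le (by norm_num) hy
  have hy0 : (0 : ℝ) < y := by linarith
  have hL10 := h.hL
  obtain ⟨h1999, hκ2, hκ1, hT1⟩ := sizes h w hmass
  set D := 40000 * L with hD
  set X0 := κ / (512000 * D) with hX0def
  have hX0 : y ^ 996 ≤ (X0 : ℝ) := X0_bound h.hL h.hy hκ1
  have hX0κ : 1000 * (512 * D * X0) ≤ κ := by
    have := Nat.div_mul_le_self κ (512000 * D)
    calc 1000 * (512 * D * X0) = X0 * (512000 * D) := by ring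
      _ ≤ κ := this
  set ma := ⌈y ^ 965⌉₊ with hma
  set mb := ⌈y ^ 750⌉₊ with hmb
  set d := ⌈y ^ 790⌉₊ with hd
  have hma1 : y ^ 965 ≤ (ma : ℝ) := Nat.le_ceil _
  have hma2 : (ma : ℝ) ≤ 2 * y ^ 965 := ceil_le_two_mul (one_le_pow₀ hy1.le)
  have hmb1 : y ^ 750 ≤ (mb : ℝ) := Nat.le_ceil _
  have hmb2 : (mb : ℝ) ≤ 2 * y ^ 750 := ceil_le_two_mul (one_le_pow₀ hy1.le)
  have hd1 : y ^ 790 ≤ (d : ℝ) := Nat.le_ceil _
  have hd2 : (d : ℝ) ≤ 2 * y ^ 790 := ceil_le_two_mul (one_le_pow₀ hy1.le)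
  have hpos_nat : ∀ (k m : ℕ), y ^ k ≤ (m : ℝ) → 1 ≤ m := by
    intro k m hk
    have h1 : (1 : ℝ) ≤ m := (one_le_pow₀ hy1.le).trans hk
    exact_mod_cast h1
  have hma0 := hpos_nat _ _ hma1
  have hmb0 := hpos_nat _ _ hmb1
  have hd0 := hpos_nat _ _ hd1
  -- remove windows structured at scale one
  set Pα : ℕ → Prop := fun i => ∃ X ⊆ core A L (s i) (e i), ∃ Λ : Finset ℕ, Λ.card ≤ ma ∧
      (∀ x ∈ X, NearSpan 1 Λ x) ∧ 512 * D * X0 ≤ X.card with hPα
  set Ta := T.filter Pα with hTa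
  set T' := T.filter (fun i => ¬ Pα i) with hT'
  have hTacard : (Ta.card : ℝ) ≤ 16 * L * y ^ 28 * ma := by
    apply few h ma 1 D X0 hma0 hma2 hX0 le_rfl (by omega) Ta s e
    · intro i hi i' hi' hlt
      rw [hTa, Finset.mem_filter] at hi hi'
      have := w.gap i hi.1 i' hi'.1 hlt
      omega
    · intro i hi
      rw [hTa, Finset.mem_filter] at hi
      exact (w.hlen i hi.1).le
    · intro i hi
      rw [hTa, Finset.mem_filter] at hi
      have h1 := w.hs i hi.1
      rw [mul_one]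
      apply Nat.pow_le_pow_right (by norm_num)
      omega
    · intro i hi
      rw [hTa, Finset.mem_filter] at hi
      exact hi.2
  have hTsplit : Ta.card + T'.card = T.card := by
    rw [hTa, hT']
    exact Finset.card_filter_add_card_filter_not Pα
  set J := T'.card with hJ
  have hJT : (T.card : ℝ) ≤ 2 * J := by
    have h1 : (Ta.card : ℝ) + J = T.card := by exact_mod_cast hTsplit
    have h2 : 16 * (L : ℝ) * y ^ 28 * ma ≤ y ^ 997 / 2 := by
      have h3 : 16 * (L : ℝ) * y ^ 28 * ma ≤ 16 * L * y ^ 28 * (2 * y ^ 965) := by gcongr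
      have h4 : 16 * (L : ℝ) * y ^ 28 * (2 * y ^ 965) = 32 * L * y ^ 993 := by ring
      have h5 : 32 * (L : ℝ) * y ^ 993 ≤ y * y ^ 993 := by
        have := h.hy
        have hL0 : (0 : ℝ) ≤ L := Nat.cast_nonneg _
        apply mul_le_mul_of_nonneg_right _ (by positivity)
        linarith
      have h6 : y ^ 997 = (y * y ^ 993) * y ^ 3 := by ring
      have h7 : y ≤ y ^ 3 := le_self_pow₀ hy1.le (by norm_num)
      have h8 : (y * y ^ 993) * 2 ≤ (y * y ^ 993) * y ^ 3 := by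
        apply mul_le_mul_of_nonneg_left _ (by positivity)
        linarith
      linarith
    linarith
  have w1 : WinData A L D s e κ T' := w.mono (Finset.filter_subset _ _)
  obtain ⟨t, ht, w2⟩ := w1.enum
  rw [← hJ] at ht w2
  -- structured remainders
  have hpa : ∀ i, ∃ X ⊆ core A L (s (t i)) (e (t i)), ∃ Λ : Finset ℕ, Λ.card ≤ ma ∧
      (∀ x ∈ X, NearSpan 1 Λ x) ∧ ∀ Z ⊆ core A L (s (t i)) (e (t i)) \ X,
      En 1 Z ≤ 4 * ((core A L (s (t i)) (e (t i))).card : ℝ) ^ 4 / (ma : ℝ) ^ 2 :=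
    fun i => diss_partition 1 ma le_rfl hma0 _
  choose Xa hXa Λa hΛa hspa hEa using hpa
  have hpb : ∀ i, ∃ X ⊆ core A L (s (t i)) (e (t i)), ∃ Λ : Finset ℕ, Λ.card ≤ mb ∧
      (∀ x ∈ X, NearSpan (2 ^ (s (t (d * (i / d))) + L + 1)) Λ x) ∧
      ∀ Z ⊆ core A L (s (t i)) (e (t i)) \ X,
      En (2 ^ (s (t (d * (i / d))) + L + 1)) Z ≤
        4 * ((core A L (s (t i)) (e (t i))).card : ℝ) ^ 4 / (mb : ℝ) ^ 2 :=
    fun i => diss_partition _ mb Nat.one_le_two_pow hmb0 _
  choose Xb hXb Λb hΛb hspb hEb using hpb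
  have hXaCard : ∀ i, i < J → (Xa i).card < 512 * D * X0 := by
    intro i hi
    by_contra hcon
    push Not at hcon
    have h1 := ht i hi
    rw [hT', Finset.mem_filter] at h1
    exact h1.2 ⟨Xa i, hXa i, Λa i, hΛa i, hspa i, hcon⟩
  -- good windows
  set G := (range J).filter (fun i => i % d ≠ 0 ∧ (Xb i).card < 512 * D * X0 ∧
      (closePairs (near A L (s (t i)) (e (t i))) (2 ^ (s (t (d * (i / d))) + L + 1)) : ℝ) ≤
        16 * y ^ 2002 / d) with hG
  have hGcount : (J / d) * (d / 2) ≤ G.card := by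
    apply group_count J d (d / 2)
    intro g hg
    exact group_good h w2 (by omega) hX0 hmb0 hmb2 hd1 Xb Λb hXb hΛb hspb hg
  have hGreal : (J : ℝ) / 8 ≤ G.card := by
    have h1 : (((J / d) * (d / 2) : ℕ) : ℝ) ≤ (G.card : ℝ) := by exact_mod_cast hGcount
    have hdpos : (0 : ℝ) < d := by exact_mod_cast hd0
    have h2 : (J : ℝ) / (2 * d) ≤ ((J / d : ℕ) : ℝ) := by
      have h3 : J < (J / d + 1) * d := by
        have := Nat.lt_div_mul_add (a := J) (show 0 < d by omega)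
        calc J < J / d * d + d := this
          _ = _ := by ring
      have h4 : (J : ℝ) < (((J / d : ℕ) : ℝ) + 1) * d := by exact_mod_cast h3
      have h5 : (d : ℝ) * 2 ≤ J := by
        have h6 : (2 * y ^ 790) * 4 ≤ y ^ 997 := by
          have h7 : y ^ 997 = y ^ 790 * y ^ 207 := by ring
          have h8 : y ≤ y ^ 207 := le_self_pow₀ hy1.le (by norm_num)
          have h9 : y ^ 790 * 8 ≤ y ^ 790 * y ^ 207 := by
            apply mul_le_mul_of_nonneg_left _ (by positivity)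
            linarith
          linarith
        linarith
      rw [div_le_iff₀ (by positivity)]
      nlinarith
    have h3 : (d : ℝ) / 4 ≤ ((d / 2 : ℕ) : ℝ) := by
      have h4 : d < (d / 2 + 1) * 2 := by omega
      have h5 : (d : ℝ) < (((d / 2 : ℕ) : ℝ) + 1) * 2 := by exact_mod_cast h4
      have h6 : (4 : ℝ) ≤ d := by
        have h7 : y ≤ y ^ 790 := le_self_pow₀ hy1.le (by norm_num)
        linarith
      linarith
    have h4 : ((J : ℝ) / (2 * d)) * ((d : ℝ) / 4) ≤ ((J / d : ℕ) : ℝ) * ((d / 2 : ℕ) : ℝ) :=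
      mul_le_mul h2 h3 (by positivity) (Nat.cast_nonneg _)
    have h5 : ((J : ℝ) / (2 * d)) * ((d : ℝ) / 4) = J / 8 := by field_simp; ring
    rw [h5] at h4
    push_cast at h1
    linarith
  -- numerics
  obtain ⟨n1, n2, n3, n4, n5⟩ := numerics hy hκ1 hκ2 hd1 hd2 hma1 hmb1
  have hκ1000 : (1000 : ℝ) ≤ κ := by
    have h1 : y ≤ y ^ 997 := le_self_pow₀ hy1.le (by norm_num)
    linarith
  have hcoreEn : ∀ (i : ℕ) (m : ℕ), i < J → 1 ≤ m →
      4 * ((core A L (s (t i)) (e (t i))).card : ℝ) ^ 4 / (m : ℝ) ^ 2 ≤ 64 * (κ : ℝ) ^ 4 / (m : ℝ) ^ 2 := by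
    intro i m hi hm
    have h1 : ((core A L (s (t i)) (e (t i))).card : ℝ) ≤ 2 * κ := by
      exact_mod_cast w2.c2 i (Finset.mem_range.mpr hi)
    have h2 : ((core A L (s (t i)) (e (t i))).card : ℝ) ^ 4 ≤ (2 * κ) ^ 4 :=
      pow_le_pow_left₀ (Nat.cast_nonneg _) h1 4
    have h3 : (2 * (κ : ℝ)) ^ 4 = 16 * κ ^ 4 := by ring
    apply div_le_div_of_nonneg_right _ (by positivity)
    linarith
  have hmain := main_construction A (y ^ 1001) h.hM J L d (fun i => s (t i)) (fun i => e (t i))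
    (κ : ℝ) (1 / y ^ 990) (y ^ 540) (16 * y ^ 2002 / d) (64 * (κ : ℝ) ^ 4 / (ma : ℝ) ^ 2)
    (64 * (κ : ℝ) ^ 4 / (mb : ℝ) ^ 2) hd0 h.hL h.hL2
    (fun i hi => w2.hs i (Finset.mem_range.mpr hi))
    (fun i hi => by
      have := w2.hlen i (Finset.mem_range.mpr hi)
      omega)
    (fun i hi => by
      have := w2.gap i (Finset.mem_range.mpr (by omega)) (i + 1) (Finset.mem_range.mpr hi) (by omega)
      omega)
    G
    (fun i hi => by
      rw [hG, Finset.mem_filter, Finset.mem_range] at hi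
      exact ⟨hi.1, hi.2.1⟩)
    (fun i hi => by
      rw [hG, Finset.mem_filter] at hi
      exact_mod_cast w2.c1 i hi.1)
    (fun i hi => by
      rw [hG, Finset.mem_filter] at hi
      have h1 := w2.c3 i hi.1
      have h2 : (500 : ℝ) * ((near A L (s (t i)) (e (t i)) \ core A L (s (t i)) (e (t i))).card : ℝ) ≤ κ := by
        exact_mod_cast h1
      linarith)
    (fun i hi => by
      rw [hG, Finset.mem_filter] at hi
      exact hi.2.2.2)
    (fun i hi => by
      rw [hG, Finset.mem_filter, Finset.mem_range] at hi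
      refine ⟨Xa i ∪ Xb i, Finset.union_subset (hXa i) (hXb i), ?_, ?_, ?_⟩
      · have h1 := Finset.card_union_le (Xa i) (Xb i)
        have h2 := hXaCard i hi.1
        have h3 := hi.2.2.1
        have h4 : 500 * (Xa i ∪ Xb i).card ≤ κ := by omega
        have h5 : (500 : ℝ) * ((Xa i ∪ Xb i).card : ℝ) ≤ κ := by exact_mod_cast h4
        linarith
      · refine (hEa i _ ?_).trans (hcoreEn i ma hi.1 hma0)
        exact Finset.sdiff_subset_sdiff (Finset.Subset.refl _) Finset.subset_union_left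
      · refine (hEb i _ ?_).trans (hcoreEn i mb hi.1 hmb0)
        exact Finset.sdiff_subset_sdiff (Finset.Subset.refl _) Finset.subset_union_right)
    (by positivity) (one_le_pow₀ hy1.le) hκ1000 n1 n2 n3 n4 n5
  -- contradiction
  have hprod : y ^ 1999 / 16 ≤ (G.card : ℝ) * κ := by
    have h1 : (J : ℝ) / 8 * κ ≤ (G.card : ℝ) * κ := mul_le_mul_of_nonneg_right hGreal (Nat.cast_nonneg _)
    have h2 : (κ : ℝ) * T.card ≤ κ * (2 * J) := mul_le_mul_of_nonneg_left hJT (Nat.cast_nonneg _)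
    linarith
  have h1 : (G.card : ℝ) * (1 / y ^ 990 * κ / 10) = ((G.card : ℝ) * κ) / (10 * y ^ 990) := by
    field_simp
  rw [h1, div_le_iff₀ (by positivity)] at hmain
  have h2 : y ^ 1001 * (10 * y ^ 990) = 10 * y ^ 1991 := by ring
  rw [h2] at hmain
  have h3 : y ^ 1999 = y ^ 1991 * y ^ 8 := by ring
  have h4 : y ≤ y ^ 8 := le_self_pow₀ hy1.le (by norm_num)
  have h5 : y ^ 1991 * 161 ≤ y ^ 1991 * y ^ 8 := by
    apply mul_le_mul_of_nonneg_left _ (by positivity)
    linarith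
  have h6 : (0 : ℝ) < y ^ 1991 := by positivity
  linarith

end Pool.Agent.LibBohr
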