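import Pool.Agent.LibBohr.CondExp

set_option autoImplicit false

namespace Pool.Agent.LibBohr

open Finset Real

/-- Grid cosine with integer frequency and phase. -/
noncomputable def gcos (H : ℕ) (u : ℤ) (ψ : ℝ) (x : ℕ) : ℝ :=
  Real.cos (2 * π * u / 2 ^ H * x + ψ)

theorem gcos_abs_le (H : ℕ) (u : ℤ) (ψ : ℝ) (x : ℕ) : |gcos H u ψ x| ≤ 1 := Real.abs_cos_le_one _

theorem sum_cos_telescope (ω ψ : ℝ) (b : ℕ) :
    2 * Real.sin (ω / 2) * ∑ y ∈ range b, Real.cos (ω * y + ψ) =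
      Real.sin (ω * b - ω / 2 + ψ) - Real.sin (-(ω / 2) + ψ) := by
  induction b with
  | zero => simp
  | succ b ih =>
    rw [Finset.sum_range_succ, mul_add, ih]
    have h := Real.sin_sub_sin (ω * (b + 1 : ℕ) - ω / 2 + ψ) (ω * b - ω / 2 + ψ)
    have e1 : (ω * (b + 1 : ℕ) - ω / 2 + ψ - (ω * b - ω / 2 + ψ)) / 2 = ω / 2 := by push_cast; ring
    have e2 : (ω * (b + 1 : ℕ) - ω / 2 + ψ + (ω * b - ω / 2 + ψ)) / 2 = ω * b + ψ := by push_cast; ring
    rw [e1, e2] at h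
    linarith

theorem sin_lower (H : ℕ) (u : ℤ) (hu : 2 * |u| ≤ 2 ^ H) :
    2 * |(u : ℝ)| / 2 ^ H ≤ |Real.sin (2 * π * u / 2 ^ H / 2)| := by
  have key : ∀ v : ℝ, 0 ≤ v → 2 * v ≤ 2 ^ H → 2 * v / 2 ^ H ≤ Real.sin (π * v / 2 ^ H) := by
    intro v hv hvH
    have h1 : 0 ≤ π * v / 2 ^ H := by positivity
    have h2 : π * v / 2 ^ H ≤ π / 2 := by
      rw [div_le_div_iff₀ (by positivity) (by norm_num)]
      nlinarith [Real.pi_pos]
    have h3 := Real.mul_le_sin h1 h2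
    calc 2 * v / 2 ^ H = 2 / π * (π * v / 2 ^ H) := by
          have := Real.pi_pos.ne'
          field_simp
      _ ≤ _ := h3
  have hu' : 2 * |(u : ℝ)| ≤ 2 ^ H := by exact_mod_cast hu
  have h := key |(u : ℝ)| (abs_nonneg _) hu'
  have e : |Real.sin (2 * π * u / 2 ^ H / 2)| = |Real.sin (π * |(u : ℝ)| / 2 ^ H)| := by
    rcases abs_cases (u : ℝ) with ⟨h1, _⟩ | ⟨h1, _⟩
    · rw [h1]; congr 2; ring
    · rw [h1]
      have : 2 * π * (u : ℝ) / 2 ^ H / 2 = -(π * -(u : ℝ) / 2 ^ H) := by ring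
      rw [this, Real.sin_neg, abs_neg]
  rw [e]
  exact h.trans (le_abs_self _)

theorem ce_gcos_bound {H t : ℕ} (htH : t ≤ H) (u : ℤ) (hu0 : u ≠ 0) (hu : 2 * |u| ≤ 2 ^ H) (ψ : ℝ)
    (x : ℕ) : |ce H t (gcos H u ψ) x| ≤ 2 ^ t / (2 * |(u : ℝ)|) := by
  have hupos : 0 < |(u : ℝ)| := abs_pos.mpr (by exact_mod_cast hu0)
  set k := x / 2 ^ (H - t) with hk
  set b := 2 ^ (H - t) with hb
  set ω : ℝ := 2 * π * u / 2 ^ H with hω
  have hs := sin_lower H u hu
  rw [← hω] at hs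
  have hspos : 0 < |Real.sin (ω / 2)| := lt_of_lt_of_le (by positivity) hs
  have htel := sum_cos_telescope ω (ω * (k * b : ℕ) + ψ) b
  have hsum : ∑ y ∈ range b, gcos H u ψ (k * b + y) =
      ∑ y ∈ range b, Real.cos (ω * y + (ω * (k * b : ℕ) + ψ)) := by
    apply Finset.sum_congr rfl
    intro y _
    simp only [gcos]
    rw [← hω]
    congr 1
    push_cast
    ring
  have habs : 2 * |Real.sin (ω / 2)| * |∑ y ∈ range b, gcos H u ψ (k * b + y)| ≤ 2 := by
    rw [hsum]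
    have h2 : 2 * |Real.sin (ω / 2)| * |∑ y ∈ range b, Real.cos (ω * y + (ω * (k * b : ℕ) + ψ))| =
        |2 * Real.sin (ω / 2) * ∑ y ∈ range b, Real.cos (ω * y + (ω * (k * b : ℕ) + ψ))| := by
      rw [abs_mul, abs_mul, abs_two]
    rw [h2, htel]
    calc _ ≤ |Real.sin (ω * b - ω / 2 + (ω * (k * b : ℕ) + ψ))| +
          |Real.sin (-(ω / 2) + (ω * (k * b : ℕ) + ψ))| := abs_sub _ _
      _ ≤ 1 + 1 := add_le_add (Real.abs_sin_le_one _) (Real.abs_sin_le_one _)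
      _ = 2 := by norm_num
  have hbound : |∑ y ∈ range b, gcos H u ψ (k * b + y)| ≤ 2 ^ H / (2 * |(u : ℝ)|) := by
    rw [le_div_iff₀ (by positivity)]
    have h3 : |∑ y ∈ range b, gcos H u ψ (k * b + y)| * (2 * |(u : ℝ)| / 2 ^ H) ≤ 1 := by
      calc _ ≤ |∑ y ∈ range b, gcos H u ψ (k * b + y)| * |Real.sin (ω / 2)| := by gcongr
        _ ≤ 1 := by linarith
    have h4 : |∑ y ∈ range b, gcos H u ψ (k * b + y)| * (2 * |(u : ℝ)|) =
        (|∑ y ∈ range b, gcos H u ψ (k * b + y)| * (2 * |(u : ℝ)| / 2 ^ H)) * 2 ^ H := by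
      field_simp
    rw [h4]
    have : (0 : ℝ) < 2 ^ H := by positivity
    nlinarith
  simp only [ce]
  rw [abs_div, abs_of_pos (by positivity : (0 : ℝ) < 2 ^ (H - t)), div_le_iff₀ (by positivity)]
  refine hbound.trans (le_of_eq ?_)
  have h5 : (2 : ℝ) ^ H = 2 ^ t * 2 ^ (H - t) := by
    rw [← pow_add]; congr 1; omega
  rw [h5]; ring

theorem gcos_sub_ce_bound {H t : ℕ} (htH : t ≤ H) (u : ℤ) (ψ : ℝ)
    (x : ℕ) : |gcos H u ψ x - ce H t (gcos H u ψ) x| ≤ 2 * π * |(u : ℝ)| / 2 ^ t := by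
  set k := x / 2 ^ (H - t) with hk
  set b := 2 ^ (H - t) with hb
  have hbpos : (0 : ℝ) < 2 ^ (H - t) := by positivity
  have hbn : 0 < 2 ^ (H - t) := by positivity
  have h1 : gcos H u ψ x - ce H t (gcos H u ψ) x =
      (∑ y ∈ range b, (gcos H u ψ x - gcos H u ψ (k * b + y))) / 2 ^ (H - t) := by
    have hce : ce H t (gcos H u ψ) x = (∑ y ∈ range b, gcos H u ψ (k * b + y)) / 2 ^ (H - t) := rfl
    rw [hce, Finset.sum_sub_distrib, Finset.sum_const, Finset.card_range, nsmul_eq_mul]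
    have hbr : ((b : ℕ) : ℝ) = 2 ^ (H - t) := by rw [hb]; push_cast; rfl
    rw [hbr]
    field_simp
  rw [h1, abs_div, abs_of_pos hbpos, div_le_iff₀ hbpos]
  calc |∑ y ∈ range b, (gcos H u ψ x - gcos H u ψ (k * b + y))|
      ≤ ∑ y ∈ range b, |gcos H u ψ x - gcos H u ψ (k * b + y)| := Finset.abs_sum_le_sum_abs _ _
    _ ≤ ∑ y ∈ range b, (2 * π * |(u : ℝ)| / 2 ^ t) := by
        apply Finset.sum_le_sum
        intro y hy
        rw [Finset.mem_range] at hy
        simp only [gcos]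
        refine (Real.abs_cos_sub_cos_le _ _).trans ?_
        have e : 2 * π * (u : ℝ) / 2 ^ H * (x : ℝ) + ψ - (2 * π * u / 2 ^ H * ((k * b + y : ℕ) : ℝ) + ψ)
            = 2 * π * u / 2 ^ H * ((x : ℝ) - ((k * b + y : ℕ) : ℝ)) := by ring
        rw [e, abs_mul]
        have hxb : |(x : ℝ) - ((k * b + y : ℕ) : ℝ)| ≤ 2 ^ (H - t) := by
          have hx1 : k * b ≤ x := Nat.div_mul_le_self x _
          have hx2 : x < k * b + b := by
            have := Nat.lt_div_mul_add (a := x) hbn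
            exact this
          rw [abs_le]
          have hbr : ((b : ℕ) : ℝ) = 2 ^ (H - t) := by rw [hb]; push_cast; rfl
          have hyr : (y : ℝ) < b := by exact_mod_cast hy
          have hx1r : ((k * b : ℕ) : ℝ) ≤ x := by exact_mod_cast hx1
          have hx2r : (x : ℝ) < ((k * b : ℕ) : ℝ) + b := by exact_mod_cast hx2
          have hy0 : (0 : ℝ) ≤ y := Nat.cast_nonneg _
          constructor
          · push_cast at *; linarith
          · push_cast at *; linarith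
        have habs : |2 * π * (u : ℝ) / 2 ^ H| = 2 * π * |(u : ℝ)| / 2 ^ H := by
          rw [abs_div, abs_mul, abs_mul, abs_two, abs_of_pos Real.pi_pos,
            abs_of_pos (by positivity : (0 : ℝ) < 2 ^ H)]
        rw [habs]
        have h5 : (2 : ℝ) ^ H = 2 ^ t * 2 ^ (H - t) := by
          rw [← pow_add]; congr 1; omega
        calc 2 * π * |(u : ℝ)| / 2 ^ H * |(x : ℝ) - ((k * b + y : ℕ) : ℝ)|
            ≤ 2 * π * |(u : ℝ)| / 2 ^ H * 2 ^ (H - t) := by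
              have := Real.pi_pos
              gcongr
          _ = 2 * π * |(u : ℝ)| / 2 ^ t := by
              rw [h5]; field_simp
    _ = 2 * π * |(u : ℝ)| / 2 ^ t * 2 ^ (H - t) := by
        rw [Finset.sum_const, Finset.card_range, nsmul_eq_mul, hb]
        push_cast
        ring

/-- grid average of a nonconstant exponential vanishes -/
theorem gE_gcos_zero {H : ℕ} (u : ℤ) (hu0 : u ≠ 0) (hu : 2 * |u| ≤ 2 ^ H) (ψ : ℝ) :
    gE H (gcos H u ψ) = 0 := by
  set ω : ℝ := 2 * π * u / 2 ^ H with hω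
  have hupos : 0 < |(u : ℝ)| := abs_pos.mpr (by exact_mod_cast hu0)
  have hs := sin_lower H u hu
  rw [← hω] at hs
  have hspos : 0 < |Real.sin (ω / 2)| := lt_of_lt_of_le (by positivity) hs
  have hs0 : Real.sin (ω / 2) ≠ 0 := abs_pos.mp hspos
  have htel := sum_cos_telescope ω ψ (2 ^ H)
  have e : ω * ((2 ^ H : ℕ) : ℝ) - ω / 2 + ψ = -(ω / 2) + ψ + u * (2 * π) := by
    rw [hω]; push_cast; field_simp; ring
  rw [e, Real.sin_add_int_mul_two_pi, sub_self] at htel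
  have hz : ∑ y ∈ range (2 ^ H), Real.cos (ω * y + ψ) = 0 := by
    have := mul_eq_zero.mp htel
    rcases this with h | h
    · exact absurd (mul_eq_zero.mp h) (by simp [hs0])
    · exact h
  simp only [gE, gcos]
  rw [← hω, hz, zero_div]

end Pool.Agent.LibBohr
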