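import Pool.Agent.LibBohr.Coef

set_option autoImplicit false

namespace Pool.Agent.LibBohr

open Finset Real

theorem one_add_pow_le {y : ℝ} (hy : 0 ≤ y) (k : ℕ) (h : k * y ≤ 1 / 2) :
    (1 + y) ^ k - 1 ≤ 2 * k * y := by
  rcases Nat.eq_zero_or_pos k with h0 | h0
  · subst h0; simp
  have hk1 : (1 : ℝ) ≤ k := by exact_mod_cast h0
  have hy1 : y ≤ 1 := by nlinarith
  have hbern : 1 - k * y ≤ (1 - y) ^ k := by
    have := one_add_mul_le_pow (a := -y) (by linarith) k
    simpa [sub_eq_add_neg] using this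
  have hprod : (1 + y) ^ k * (1 - y) ^ k ≤ 1 := by
    rw [← mul_pow]
    apply pow_le_one₀
    · nlinarith
    · nlinarith
  have hpos : 0 < (1 + y) ^ k := by positivity
  have h1 : (1 + y) ^ k * (1 - k * y) ≤ 1 :=
    (mul_le_mul_of_nonneg_left hbern hpos.le).trans hprod
  have h2 : (1 + y) ^ k ≤ 2 := by nlinarith
  have h3 : (1 + y) ^ k * (k * y) ≤ 2 * (k * y) := mul_le_mul_of_nonneg_right h2 (by positivity)
  linarith

section group

variable {H : ℕ} {lam B : ℝ} {s e : ℕ → ℕ} {f : ℕ → ℝ} {J : ℕ}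

/-- Partial product starting at `b`. -/
noncomputable def Zseq (H : ℕ) (lam B : ℝ) (s e : ℕ → ℕ) (f : ℕ → ℝ) (b : ℕ) : ℕ → ℕ → ℝ
  | 0, _ => 1
  | k + 1, x => Zseq H lam B s e f b k x * (1 + gfac H lam B (s (b + k)) (e (b + k)) f x)

theorem Pseq_eq (b k x : ℕ) :
    Pseq H lam B s e f (b + k) x = Pseq H lam B s e f b x * Zseq H lam B s e f b k x := by
  induction k with
  | zero => simp [Zseq]
  | succ k ih =>
    rw [← Nat.add_assoc]
    simp only [Pseq, Zseq]
    rw [ih]; ring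

theorem meas_Zseq (hse : ∀ i, i < J → s i ≤ e i) (b : ℕ) {k t : ℕ} (hk : b + k ≤ J)
    (ht : ∀ i', i' < b + k → e i' ≤ t) (htH : t ≤ H) : Meas H t (Zseq H lam B s e f b k) := by
  induction k with
  | zero => exact Meas.const H t 1
  | succ k ih =>
    have h1 := ih (by omega) (fun i' hi' => ht i' (by omega))
    have h2 : Meas H t (gfac H lam B (s (b + k)) (e (b + k)) f) :=
      (meas_gfac lam B (hse (b + k) (by omega)) ((ht (b + k) (by omega)).trans htH) f).mono
        (ht (b + k) (by omega)) htH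
    exact h1.mul (h2.comp (fun y => 1 + y))

theorem gE_Zsq (hse : ∀ i, i < J → s i ≤ e i) (hes : ∀ i, i + 1 < J → e i ≤ s (i + 1))
    (heH : ∀ i, i < J → e i ≤ H) (hlam : 0 ≤ lam) (hB : 0 ≤ B) (hβ : 2 * lam * B ≤ 1)
    (b : ℕ) {k : ℕ} (hk : b + k < J) :
    gE H (fun x => Pseq H lam B s e f b x * Zseq H lam B s e f b k x ^ 2) ≤
      (1 + (2 * lam * B) ^ 2) ^ k := by
  induction k with
  | zero =>
    simp only [Zseq, one_pow, mul_one, pow_zero]
    exact (gE_Pseq hse hes heH (by omega)).le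
  | succ k ih =>
    have h1 := ih (by omega)
    have hlt : b + k < J := by omega
    have hsH : s (b + k) ≤ H := (hse _ hlt).trans (heH _ hlt)
    have hmP : Meas H (s (b + k)) (Pseq H lam B s e f b) :=
      meas_Pseq hse (by omega) (fun i' hi' => e_le_s hse hes i' _ (by omega) hlt) hsH
    have hmZ : Meas H (s (b + k)) (Zseq H lam B s e f b k) :=
      meas_Zseq hse b hlt.le (fun i' hi' => e_le_s hse hes i' _ (by omega) hlt) hsH
    have hm : Meas H (s (b + k)) (fun x => Pseq H lam B s e f b x * Zseq H lam B s e f b k x ^ 2) :=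
      hmP.mul (hmZ.comp (fun y => y ^ 2))
    have h0 := gE_mul_gfac hsH lam B f hm (e := e (b + k))
    have h2 : gE H (fun x => Pseq H lam B s e f b x * Zseq H lam B s e f b (k + 1) x ^ 2) =
        gE H (fun x => Pseq H lam B s e f b x * Zseq H lam B s e f b k x ^ 2) +
        2 * gE H (fun x => (Pseq H lam B s e f b x * Zseq H lam B s e f b k x ^ 2) *
          gfac H lam B (s (b + k)) (e (b + k)) f x) +
        gE H (fun x => (Pseq H lam B s e f b x * Zseq H lam B s e f b k x ^ 2) *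
          gfac H lam B (s (b + k)) (e (b + k)) f x ^ 2) := by
      rw [← gE_const_mul, ← gE_add, ← gE_add]
      apply gE_congr; intro x; simp only [Zseq]; ring
    have h3 : gE H (fun x => (Pseq H lam B s e f b x * Zseq H lam B s e f b k x ^ 2) *
          gfac H lam B (s (b + k)) (e (b + k)) f x ^ 2) ≤
        (2 * lam * B) ^ 2 * gE H (fun x => Pseq H lam B s e f b x * Zseq H lam B s e f b k x ^ 2) := by
      rw [← gE_const_mul]
      apply gE_mono; intro x
      have hp : 0 ≤ Pseq H lam B s e f b x * Zseq H lam B s e f b k x ^ 2 :=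
        mul_nonneg (Pseq_nonneg hlam hB hβ b x) (sq_nonneg _)
      have hg := gfac_abs_le (H := H) (s := s (b + k)) (e := e (b + k)) hlam hB f x
      have hg2 : gfac H lam B (s (b + k)) (e (b + k)) f x ^ 2 ≤ (2 * lam * B) ^ 2 := by
        rw [← sq_abs]
        exact pow_le_pow_left₀ (abs_nonneg _) hg 2
      rw [mul_comm ((2 * lam * B) ^ 2)]
      exact mul_le_mul_of_nonneg_left hg2 hp
    rw [h2, h0, pow_succ]
    have h4 : 0 ≤ (2 * lam * B) ^ 2 := sq_nonneg _
    nlinarith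

/-- Near-top comparison. -/
theorem near_top (hse : ∀ i, i < J → s i ≤ e i) (hes : ∀ i, i + 1 < J → e i ≤ s (i + 1))
    (heH : ∀ i, i < J → e i ≤ H) (hlam : 0 ≤ lam) (hB : 0 ≤ B) (hβ : 2 * lam * B ≤ 1)
    (b : ℕ) {k d : ℕ} (hk : b + k < J) (hkd : k ≤ d) (hd : d * (2 * lam * B) ^ 2 ≤ 1 / 2)
    (h : ℕ → ℝ) (h0 : ∀ x, 0 ≤ h x) (hB2 : ∀ x, h x ≤ B ^ 2) {X : ℝ} (hX : 0 ≤ X)
    (hxX : X ≤ gE H (fun x => Pseq H lam B s e f b x * h x))
    (hcond : 32 * lam ^ 2 * B ^ 4 * d ≤ X) :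
    X / 2 ≤ gE H (fun x => Pseq H lam B s e f (b + k) x * h x) := by
  set P := Pseq H lam B s e f b with hP
  set Z := Zseq H lam B s e f b k with hZ
  have hP0 : ∀ x, 0 ≤ P x := Pseq_nonneg hlam hB hβ b
  set xx := gE H (fun x => P x * h x) with hxx
  have hEP : gE H P = 1 := gE_Pseq hse hes heH (by omega)
  have hEPZ : gE H (fun x => P x * Z x) = 1 := by
    have h1 := gE_Pseq (lam := lam) (B := B) (f := f) hse hes heH hk.le
    rw [← h1]
    apply gE_congr; intro x; rw [Pseq_eq]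
  have hZ2 : gE H (fun x => P x * (Z x - 1) ^ 2) ≤ 2 * d * (2 * lam * B) ^ 2 := by
    have h1 : gE H (fun x => P x * (Z x - 1) ^ 2) =
        gE H (fun x => P x * Z x ^ 2) - 2 * gE H (fun x => P x * Z x) + gE H P := by
      rw [← gE_const_mul, ← gE_sub, ← gE_add]
      apply gE_congr; intro x; ring
    have h2 := gE_Zsq (f := f) hse hes heH hlam hB hβ b hk
    have h4 : 0 ≤ (2 * lam * B) ^ 2 := sq_nonneg _
    have hkd' : (k : ℝ) ≤ d := by exact_mod_cast hkd
    have h3 := one_add_pow_le h4 k (by nlinarith)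
    rw [h1, hEPZ, hEP]
    have h5 : 2 * (k : ℝ) * (2 * lam * B) ^ 2 ≤ 2 * d * (2 * lam * B) ^ 2 := by gcongr
    have h6 : gE H (fun x => P x * Z x ^ 2) ≤ (1 + (2 * lam * B) ^ 2) ^ k := h2
    linarith
  have hh2 : gE H (fun x => P x * h x ^ 2) ≤ B ^ 2 * xx := by
    rw [hxx, ← gE_const_mul]
    apply gE_mono; intro x
    have h1 := hP0 x
    have h2 := h0 x
    have h3 := hB2 x
    have h4 : h x ^ 2 ≤ B ^ 2 * h x := by nlinarith
    calc P x * h x ^ 2 ≤ P x * (B ^ 2 * h x) := mul_le_mul_of_nonneg_left h4 h1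
      _ = _ := by ring
  have hCS := gE_cauchy H P (fun x => Z x - 1) h hP0
  set D := gE H (fun x => P x * ((Z x - 1) * h x)) with hD
  have hxx0 : 0 ≤ xx := hX.trans hxX
  have hD2 : D ^ 2 ≤ (xx / 2) ^ 2 := by
    calc D ^ 2 ≤ gE H (fun x => P x * (Z x - 1) ^ 2) * gE H (fun x => P x * h x ^ 2) := hCS
      _ ≤ (2 * d * (2 * lam * B) ^ 2) * (B ^ 2 * xx) := by
          apply mul_le_mul hZ2 hh2
          · exact gE_nonneg H (fun x => mul_nonneg (hP0 x) (sq_nonneg _))
          · positivity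
      _ = (32 * lam ^ 2 * B ^ 4 * d) * xx / 4 := by ring
      _ ≤ xx * xx / 4 := by
          have : 32 * lam ^ 2 * B ^ 4 * d ≤ xx := hcond.trans hxX
          nlinarith
      _ = _ := by ring
  have hD3 : -(xx / 2) ≤ D := by
    have := abs_le_of_sq_le_sq hD2 (by linarith)
    exact (abs_le.mp this).1
  have hfin : gE H (fun x => Pseq H lam B s e f (b + k) x * h x) = xx + D := by
    rw [hxx, hD, ← gE_add]
    apply gE_congr; intro x; rw [Pseq_eq]; ring
  rw [hfin]
  linarith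

end group

end Pool.Agent.LibBohr
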