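import Pool.Agent.LibBohr.Moments

set_option autoImplicit false

namespace Pool.Agent.LibBohr

open Finset Real

theorem mem_win_iff {A : Finset ℕ} {i j a : ℕ} : a ∈ win A i j ↔ a ∈ A ∧ 2 ^ i ≤ a ∧ a < 2 ^ j := by
  unfold win; rw [Finset.mem_filter]

theorem closePairs_mono {Y Y' : Finset ℕ} (h : Y ⊆ Y') (W : ℕ) :
    closePairs Y W ≤ closePairs Y' W := by
  unfold closePairs
  apply Finset.card_le_card
  apply Finset.filter_subset_filter
  exact Finset.product_subset_product h h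

/-- Martingale difference of a single sine. -/
theorem mdiff_TY (H s e : ℕ) (Y : Finset ℕ) (x : ℕ) :
    mdiff H s e (TY H Y) x = ∑ a ∈ Y, mdiff H s e (gcos H (a : ℤ) (-(π / 2))) x := by
  have hTY : TY H Y = fun x => ∑ a ∈ Y, gcos H (a : ℤ) (-(π / 2)) x := by
    funext x
    unfold TY
    exact Finset.sum_congr rfl (fun a _ => sin_eq_gcos H a x)
  unfold mdiff
  rw [hTY, ce_sum, ce_sum, ← Finset.sum_sub_distrib]

theorem err_core {H s e L a : ℕ} (hse : s + 2 * L + 1 ≤ e) (heH : e ≤ H)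
    (ha1 : 2 ^ (s + L) ≤ a) (ha2 : a < 2 ^ (e - L)) (haH : 4 * a ≤ 2 ^ H) (ψ : ℝ) (x : ℕ) :
    |mdiff H s e (gcos H (a : ℤ) ψ) x - gcos H (a : ℤ) ψ x| ≤ 13 / 2 ^ L := by
  have ha0 : 0 < a := lt_of_lt_of_le (by positivity) ha1
  have hne : (a : ℤ) ≠ 0 := by omega
  have h2 : 2 * |(a : ℤ)| ≤ 2 ^ H := by
    rw [abs_of_nonneg (by positivity)]
    have : 2 * a ≤ 2 ^ H := by omega
    exact_mod_cast this
  have h3 := gcos_sub_ce_bound heH (a : ℤ) ψ x
  have h4 := ce_gcos_bound (show s ≤ H by omega) (a : ℤ) hne h2 ψ x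
  have hapos : (0 : ℝ) < a := by exact_mod_cast ha0
  have habs : |((a : ℤ) : ℝ)| = (a : ℝ) := by
    push_cast; exact abs_of_pos hapos
  rw [habs] at h3 h4
  have hL : (0 : ℝ) < 2 ^ L := by positivity
  have h5 : 2 * π * (a : ℝ) / 2 ^ e ≤ 2 * π / 2 ^ L := by
    have : (a : ℝ) ≤ 2 ^ (e - L) := by exact_mod_cast ha2.le
    have he : (2 : ℝ) ^ e = 2 ^ (e - L) * 2 ^ L := by
      rw [← pow_add]; congr 1; omega
    rw [he, div_le_div_iff₀ (by positivity) hL]
    have hp := Real.pi_pos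
    have : 2 * π * (a : ℝ) * 2 ^ L ≤ 2 * π * 2 ^ (e - L) * 2 ^ L := by gcongr
    calc _ ≤ _ := this
      _ = _ := by ring
  have h6 : (2 : ℝ) ^ s / (2 * (a : ℝ)) ≤ 1 / 2 ^ L := by
    have h7 : (2 : ℝ) ^ (s + L) ≤ (a : ℝ) := by exact_mod_cast ha1
    rw [div_le_div_iff₀ (by positivity) hL, one_mul, ← pow_add]
    linarith
  have h8 : mdiff H s e (gcos H (a : ℤ) ψ) x - gcos H (a : ℤ) ψ x =
      -(gcos H (a : ℤ) ψ x - ce H e (gcos H (a : ℤ) ψ) x) - ce H s (gcos H (a : ℤ) ψ) x := by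
    unfold mdiff; ring
  rw [h8]
  refine (abs_sub _ _).trans ?_
  rw [abs_neg]
  have hpi := Real.pi_lt_d2
  have h9 : 2 * π / 2 ^ L + 1 / 2 ^ L ≤ 13 / 2 ^ L := by
    rw [← add_div]
    gcongr
    linarith
  linarith

theorem err_rest {H s e L a : ℕ} (hs : L ≤ s) (hse : s ≤ e) (heH : e ≤ H)
    (ha : ¬ (2 ^ (s - L) ≤ a ∧ a < 2 ^ (e + L))) (haH : 4 * a ≤ 2 ^ H) (ψ : ℝ) (x : ℕ) :
    |mdiff H s e (gcos H (a : ℤ) ψ) x| ≤ 13 / 2 ^ L := by
  have hL : (0 : ℝ) < 2 ^ L := by positivity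
  have habs : |((a : ℤ) : ℝ)| = (a : ℝ) := by
    push_cast; exact abs_of_nonneg (Nat.cast_nonneg _)
  rcases not_and_or.mp ha with h | h
  · push Not at h
    have h3 := gcos_sub_ce_bound heH (a : ℤ) ψ x
    have h4 := gcos_sub_ce_bound (hse.trans heH) (a : ℤ) ψ x
    rw [habs] at h3 h4
    have h5 : ∀ t, s ≤ t → 2 * π * (a : ℝ) / 2 ^ t ≤ 2 * π / 2 ^ L := by
      intro t ht
      have h6 : (a : ℝ) ≤ 2 ^ (s - L) := by exact_mod_cast h.le
      have h7 : (2 : ℝ) ^ (s - L) * 2 ^ L ≤ 2 ^ t := by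
        rw [← pow_add]; apply pow_le_pow_right₀ (by norm_num); omega
      rw [div_le_div_iff₀ (by positivity) hL]
      have hp := Real.pi_pos
      calc 2 * π * (a : ℝ) * 2 ^ L ≤ 2 * π * 2 ^ (s - L) * 2 ^ L := by gcongr
        _ = 2 * π * (2 ^ (s - L) * 2 ^ L) := by ring
        _ ≤ 2 * π * 2 ^ t := by gcongr
    have h8 : mdiff H s e (gcos H (a : ℤ) ψ) x =
        -(gcos H (a : ℤ) ψ x - ce H e (gcos H (a : ℤ) ψ) x) +
          (gcos H (a : ℤ) ψ x - ce H s (gcos H (a : ℤ) ψ) x) := by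
      unfold mdiff; ring
    rw [h8]
    refine (abs_add_le _ _).trans ?_
    rw [abs_neg]
    have hpi := Real.pi_lt_d2
    have h9 : 2 * π / 2 ^ L + 2 * π / 2 ^ L ≤ 13 / 2 ^ L := by
      rw [← add_div]
      gcongr
      linarith
    have h10 := h5 e hse
    have h11 := h5 s le_rfl
    linarith
  · push Not at h
    have ha0 : 0 < a := lt_of_lt_of_le (by positivity) h
    have hne : (a : ℤ) ≠ 0 := by omega
    have h2 : 2 * |(a : ℤ)| ≤ 2 ^ H := by
      rw [abs_of_nonneg (by positivity)]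
      have : 2 * a ≤ 2 ^ H := by omega
      exact_mod_cast this
    have h3 := ce_gcos_bound heH (a : ℤ) hne h2 ψ x
    have h4 := ce_gcos_bound (hse.trans heH) (a : ℤ) hne h2 ψ x
    rw [habs] at h3 h4
    have hapos : (0 : ℝ) < a := by exact_mod_cast ha0
    have h5 : ∀ t, t ≤ e → (2 : ℝ) ^ t / (2 * (a : ℝ)) ≤ 1 / 2 ^ L := by
      intro t ht
      have h7 : (2 : ℝ) ^ (e + L) ≤ (a : ℝ) := by exact_mod_cast h
      have h8 : (2 : ℝ) ^ (t + L) ≤ 2 ^ (e + L) := pow_le_pow_right₀ (by norm_num) (by omega)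
      rw [div_le_div_iff₀ (by positivity) hL, one_mul, ← pow_add]
      linarith
    unfold mdiff
    refine (abs_sub _ _).trans ?_
    have h9 : 1 / (2 : ℝ) ^ L + 1 / 2 ^ L ≤ 13 / 2 ^ L := by
      rw [← add_div]
      gcongr
      norm_num
    have h10 := h5 e le_rfl
    have h11 := h5 s hse
    linarith

/-- Decomposition of the martingale difference. -/
theorem mdiff_decomp {H s e L : ℕ} (A : Finset ℕ) (hs : L ≤ s) (hse : s + 2 * L + 1 ≤ e)
    (heH : e ≤ H) (hAH : ∀ a ∈ A, 4 * a ≤ 2 ^ H) (x : ℕ) :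
    |mdiff H s e (TY H A) x - TY H (core A L s e) x -
      mdiff H s e (TY H (near A L s e \ core A L s e)) x| ≤ (A.card : ℝ) * (13 / 2 ^ L) := by
  set C := core A L s e with hC
  set Nr := near A L s e with hNr
  have hCN : C ⊆ Nr := by
    intro a ha
    rw [hC, core, mem_win_iff] at ha
    rw [hNr, near, mem_win_iff]
    refine ⟨ha.1, le_trans (Nat.pow_le_pow_right (by norm_num) (by omega)) ha.2.1,
      lt_of_lt_of_le ha.2.2 (Nat.pow_le_pow_right (by norm_num) (by omega))⟩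
  have hNA : Nr ⊆ A := Finset.filter_subset _ _
  have hCA : C ⊆ A := hCN.trans hNA
  have h1 : mdiff H s e (TY H A) x = ∑ a ∈ A, mdiff H s e (gcos H (a : ℤ) (-(π / 2))) x :=
    mdiff_TY H s e A x
  have h2 : mdiff H s e (TY H (Nr \ C)) x =
      ∑ a ∈ A, (if a ∈ Nr \ C then mdiff H s e (gcos H (a : ℤ) (-(π / 2))) x else 0) := by
    rw [mdiff_TY, ← Finset.sum_filter]
    congr 1
    ext a
    simp only [Finset.mem_filter, Finset.mem_sdiff]
    constructor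
    · rintro ⟨h, h'⟩; exact ⟨hNA h, h, h'⟩
    · rintro ⟨_, h⟩; exact h
  have h3 : TY H C x = ∑ a ∈ A, (if a ∈ C then gcos H (a : ℤ) (-(π / 2)) x else 0) := by
    rw [← Finset.sum_filter]
    unfold TY
    rw [show A.filter (fun a => a ∈ C) = C by
      ext a; simp only [Finset.mem_filter]; exact ⟨fun h => h.2, fun h => ⟨hCA h, h⟩⟩]
    exact Finset.sum_congr rfl (fun a _ => sin_eq_gcos H a x)
  rw [h1, h2, h3, ← Finset.sum_sub_distrib, ← Finset.sum_sub_distrib]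
  refine (Finset.abs_sum_le_sum_abs _ _).trans ?_
  rw [← nsmul_eq_mul, ← Finset.sum_const]
  apply Finset.sum_le_sum
  intro a ha
  have haH := hAH a ha
  by_cases hc : a ∈ C
  · have hn : a ∉ Nr \ C := by simp [hc]
    rw [if_pos hc, if_neg hn, sub_zero]
    rw [hC, core, mem_win_iff] at hc
    exact err_core hse heH hc.2.1 hc.2.2 haH _ x
  · rw [if_neg hc, sub_zero]
    by_cases hn : a ∈ Nr
    · have : a ∈ Nr \ C := by simp [hc, hn]
      rw [if_pos this, sub_self, abs_zero]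
      positivity
    · have : a ∉ Nr \ C := by simp [hn]
      rw [if_neg this, sub_zero]
      refine err_rest hs (by omega) heH ?_ haH _ x
      intro h
      apply hn
      rw [hNr, near, mem_win_iff]
      exact ⟨ha, h⟩

theorem min_lower (F G : ℝ) {B : ℝ} (hB : 0 < B) : (1 / 2) * (F ^ 2 - F ^ 4 / B ^ 2) - G ^ 2 ≤ min ((F + G) ^ 2) (B ^ 2) := by
  have hsq : F ^ 2 ≤ 2 * (F + G) ^ 2 + 2 * G ^ 2 := by nlinarith [sq_nonneg (F + 2 * G)]
  have hG := sq_nonneg G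
  have hB2 : 0 < B ^ 2 := by positivity
  apply le_min
  · have : 0 ≤ F ^ 4 / B ^ 2 := by positivity
    linarith
  · have h1 : F ^ 2 - F ^ 4 / B ^ 2 ≤ B ^ 2 := by
      have : F ^ 4 / B ^ 2 = (F ^ 2 / B) ^ 2 := by field_simp
      have h2 : F ^ 2 = (F ^ 2 / B) * B := by field_simp
      nlinarith [sq_nonneg (F ^ 2 / B - B / 2), sq_nonneg B]
    linarith

/-- Lower bound for the truncated second moment of one window. -/
theorem window_lower {H sb s e L : ℕ} {β κ Nt Ea Eb B : ℝ} {P : ℕ → ℝ} (A : Finset ℕ)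
    (h : CoefHyp H sb β P) (hP : Meas H s P) (hβ1 : β ≤ 1)
    (hs : L ≤ s) (hse : s + 2 * L + 1 ≤ e) (heH : e ≤ H) (hsb : sb + 2 * L + 1 ≤ s)
    (hAH : ∀ a ∈ A, 4 * a ≤ 2 ^ H) (hL2 : 200 * (A.card : ℝ) ^ 4 ≤ 2 ^ L)
    (hC1 : κ ≤ ((core A L s e).card : ℝ))
    (hR : ((near A L s e \ core A L s e).card : ℝ) ≤ κ / 500)
    (hN : (closePairs (near A L s e) (2 ^ (sb + L + 1)) : ℝ) ≤ Nt)
    {X : Finset ℕ} (hXC : X ⊆ core A L s e) (hX : (X.card : ℝ) ≤ κ / 500)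
    (hEa : En 1 (core A L s e \ X) ≤ Ea) (hEb : En (2 ^ (sb + L + 1)) (core A L s e \ X) ≤ Eb)
    (hB : 0 < B) (hκ : 1000 ≤ κ) (h2 : 8 * β * (Nt + 1) ≤ κ / 1000)
    (h4 : Ea + 30 * β * Eb + 1 ≤ κ * B ^ 2 / 100) :
    κ / 5 ≤ gE H (fun x => P x * min (mdiff H s e (TY H A) x ^ 2) (B ^ 2)) := by
  set C := core A L s e with hC
  set Nr := near A L s e with hNr
  set n : ℝ := (A.card : ℝ) with hn
  have hβ0 := h.β0
  have hP0 := h.nonneg
  have hCN : C ⊆ Nr := by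
    intro a ha
    rw [hC, core, mem_win_iff] at ha
    rw [hNr, near, mem_win_iff]
    refine ⟨ha.1, le_trans (Nat.pow_le_pow_right (by norm_num) (by omega)) ha.2.1,
      lt_of_lt_of_le ha.2.2 (Nat.pow_le_pow_right (by norm_num) (by omega))⟩
  have hNA : Nr ⊆ A := Finset.filter_subset _ _
  have hCA : C ⊆ A := hCN.trans hNA
  have hn0 : 0 ≤ n := Nat.cast_nonneg _
  have hn1 : 1 ≤ n := by
    have h1 : (C.card : ℝ) ≤ n := by rw [hn]; exact_mod_cast Finset.card_le_card hCA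
    linarith
  have hLpos : (0 : ℝ) < 2 ^ L := by positivity
  have hn4 : n ≤ n ^ 4 := by
    have : n * 1 ≤ n * n ^ 3 := mul_le_mul_of_nonneg_left (one_le_pow₀ hn1) hn0
    calc n = n * 1 := by ring
      _ ≤ n * n ^ 3 := this
      _ = n ^ 4 := by ring
  have hn24 : n ^ 2 ≤ n ^ 4 := pow_le_pow_right₀ hn1 (by norm_num)
  -- facts for subsets of the near window
  have hWN : ∀ a ∈ Nr, 2 ^ (sb + L + 1) ≤ a := by
    intro a ha
    rw [hNr, near, mem_win_iff] at ha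
    exact le_trans (Nat.pow_le_pow_right (by norm_num) (by omega)) ha.2.1
  have hsub : ∀ Y ⊆ Nr, |gE H (fun x => P x * TY H Y x ^ 2) - (Y.card : ℝ) / 2| ≤ κ / 1000 := by
    intro Y hY
    have h5 := second_moment (L := L) h Y Nt (fun a ha => hWN a (hY ha))
      (fun a ha => hAH a (hNA (hY ha)))
      (le_trans (by exact_mod_cast closePairs_mono hY _) hN) (by
        have h6 : (Y.card : ℝ) ≤ n := by rw [hn]; exact_mod_cast Finset.card_le_card (hY.trans hNA)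
        have h7 : (Y.card : ℝ) ^ 2 ≤ n ^ 2 := by gcongr
        nlinarith)
    exact h5.trans h2
  have hZN : C \ X ⊆ Nr := Finset.sdiff_subset.trans hCN
  have hXN : X ⊆ Nr := hXC.trans hCN
  have hm1 := (abs_le.mp (hsub _ hZN)).1
  have hm2 := (abs_le.mp (hsub _ hXN)).2
  have hm3 := (abs_le.mp (hsub (Nr \ C) Finset.sdiff_subset)).2
  have hZcard : (0.998 : ℝ) * κ ≤ ((C \ X).card : ℝ) := by
    have h5 : ((C \ X).card : ℝ) = (C.card : ℝ) - X.card := by
      rw [Finset.card_sdiff_of_subset hXC, Nat.cast_sub (Finset.card_le_card hXC)]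
    rw [h5]; linarith
  have hF4 := fourth_moment (L := L) h (C \ X) (fun a ha => hAH a (hNA (hZN ha)))
  have hF4' : gE H (fun x => P x * TY H (C \ X) x ^ 4) ≤ κ * B ^ 2 / 100 := by
    have h5 : ((C \ X).card : ℝ) ^ 4 * (β / 2 ^ L) ≤ 1 := by
      have h6 : ((C \ X).card : ℝ) ≤ n := by
        rw [hn]; exact_mod_cast Finset.card_le_card (hZN.trans hNA)
      have h7 : ((C \ X).card : ℝ) ^ 4 ≤ n ^ 4 := by gcongr
      have h8 : ((C \ X).card : ℝ) ^ 4 ≤ 2 ^ L := by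
        have : 0 ≤ n ^ 4 := by positivity
        linarith
      calc ((C \ X).card : ℝ) ^ 4 * (β / 2 ^ L) ≤ 2 ^ L * (β / 2 ^ L) := by gcongr
        _ = β := by field_simp
        _ ≤ 1 := hβ1
    have h6 : 30 * β * En (2 ^ (sb + L + 1)) (C \ X) ≤ 30 * β * Eb := by gcongr
    linarith
  -- decomposition
  set F : ℕ → ℝ := TY H (C \ X) with hF
  set TX : ℕ → ℝ := TY H X with hTX
  set τ : ℕ → ℝ := mdiff H s e (TY H (Nr \ C)) with hτ
  set Δ : ℕ → ℝ := mdiff H s e (TY H A) with hΔ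
  have hTC : ∀ x, TY H C x = F x + TX x := by
    intro x
    rw [hF, hTX]
    unfold TY
    exact (Finset.sum_sdiff hXC).symm
  have herr : ∀ x, |Δ x - (F x + TX x) - τ x| ≤ 1 := by
    intro x
    have h5 := mdiff_decomp A hs hse heH hAH x
    rw [← hC, ← hNr, hTC] at h5
    refine h5.trans ?_
    have h6 : (A.card : ℝ) * (13 / 2 ^ L) = 13 * n / 2 ^ L := by rw [hn]; ring
    rw [h6, div_le_one hLpos]
    nlinarith
  have hτ2 : gE H (fun x => P x * τ x ^ 2) ≤ gE H (fun x => P x * TY H (Nr \ C) x ^ 2) :=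
    gE_diff_sq_le (by omega) heH hP hP0 _
  have hpt : ∀ x, P x * ((1 / 2) * (F x ^ 2 - F x ^ 4 / B ^ 2) - (3 * TX x ^ 2 + 3 * τ x ^ 2 + 3)) ≤
      P x * min (Δ x ^ 2) (B ^ 2) := by
    intro x
    apply mul_le_mul_of_nonneg_left _ (hP0 x)
    have h5 := min_lower (F x) (Δ x - F x) hB
    have h6 : F x + (Δ x - F x) = Δ x := by ring
    rw [h6] at h5
    refine le_trans ?_ h5
    have h7 := herr x
    have h8 : (Δ x - (F x + TX x) - τ x) ^ 2 ≤ 1 := by
      rw [← sq_abs]; exact pow_le_one₀ (abs_nonneg _) h7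
    have h9 : (Δ x - F x) ^ 2 ≤ 3 * TX x ^ 2 + 3 * τ x ^ 2 + 3 * (Δ x - (F x + TX x) - τ x) ^ 2 := by
      nlinarith [sq_nonneg (TX x - τ x), sq_nonneg (TX x - (Δ x - (F x + TX x) - τ x)),
        sq_nonneg (τ x - (Δ x - (F x + TX x) - τ x))]
    linarith
  have hmono := gE_mono H hpt
  refine le_trans ?_ hmono
  have hexp : gE H (fun x => P x * ((1 / 2) * (F x ^ 2 - F x ^ 4 / B ^ 2) -
      (3 * TX x ^ 2 + 3 * τ x ^ 2 + 3))) =
      (1 / 2) * gE H (fun x => P x * F x ^ 2) - (1 / (2 * B ^ 2)) * gE H (fun x => P x * F x ^ 4)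
        - 3 * gE H (fun x => P x * TX x ^ 2) - 3 * gE H (fun x => P x * τ x ^ 2) - 3 * gE H P := by
    rw [← gE_const_mul, ← gE_const_mul, ← gE_const_mul, ← gE_const_mul, ← gE_const_mul,
      ← gE_sub, ← gE_sub, ← gE_sub, ← gE_sub]
    apply gE_congr; intro x
    field_simp
    ring
  rw [hexp, h.mass]
  have hB2 : 0 < B ^ 2 := by positivity
  have h10 : (1 / (2 * B ^ 2)) * gE H (fun x => P x * F x ^ 4) ≤ κ / 200 := by
    calc (1 / (2 * B ^ 2)) * gE H (fun x => P x * F x ^ 4) ≤ (1 / (2 * B ^ 2)) * (κ * B ^ 2 / 100) := by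
          gcongr
      _ = κ / 200 := by field_simp; ring
  linarith

end Pool.Agent.LibBohr
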