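import Pool.Agent.LibBohr.GridTrig

set_option autoImplicit false

namespace Pool.Agent.LibBohr

open Finset Real

/-- Clip at level `B`. -/
noncomputable def clip (B x : ℝ) : ℝ := max (-B) (min B x)

theorem clip_abs_le {B : ℝ} (hB : 0 ≤ B) (x : ℝ) : |clip B x| ≤ B := by
  unfold clip
  rw [abs_le]
  constructor
  · exact le_max_left _ _
  · exact max_le (by linarith) (min_le_left _ _)

theorem mul_clip_ge {B : ℝ} (hB : 0 ≤ B) (x : ℝ) : min (x ^ 2) (B ^ 2) ≤ x * clip B x := by
  unfold clip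
  rcases le_total x (-B) with h | h
  · have h1 : min B x = x := min_eq_right (by linarith)
    rw [h1, max_eq_left h]
    refine (min_le_right _ _).trans ?_
    nlinarith
  · rcases le_total x B with h2 | h2
    · rw [min_eq_right h2, max_eq_right h]
      exact (min_le_left _ _).trans (by nlinarith)
    · rw [min_eq_left h2, max_eq_right (by linarith)]
      refine (min_le_right _ _).trans ?_
      nlinarith

/-- Martingale difference between levels `s` and `e`. -/
noncomputable def mdiff (H s e : ℕ) (f : ℕ → ℝ) (x : ℕ) : ℝ := ce H e f x - ce H s f x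

/-- Tilt factor. -/
noncomputable def gfac (H : ℕ) (lam B : ℝ) (s e : ℕ) (f : ℕ → ℝ) (x : ℕ) : ℝ :=
  lam * (clip B (mdiff H s e f x) - ce H s (fun z => clip B (mdiff H s e f z)) x)

/-- Product density. -/
noncomputable def Pseq (H : ℕ) (lam B : ℝ) (s e : ℕ → ℕ) (f : ℕ → ℝ) : ℕ → ℕ → ℝ
  | 0, _ => 1
  | i + 1, x => Pseq H lam B s e f i x * (1 + gfac H lam B (s i) (e i) f x)

theorem meas_mdiff {H s e : ℕ} (hse : s ≤ e) (heH : e ≤ H) (f : ℕ → ℝ) :
    Meas H e (mdiff H s e f) :=
  (meas_ce H e f).sub ((meas_ce H s f).mono hse heH)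

theorem meas_gfac {H s e : ℕ} (lam B : ℝ) (hse : s ≤ e) (heH : e ≤ H) (f : ℕ → ℝ) :
    Meas H e (gfac H lam B s e f) := by
  unfold gfac
  refine (((meas_mdiff hse heH f).comp (clip B)).sub ((meas_ce H s _).mono hse heH)).comp (fun y => lam * y)

theorem gfac_abs_le {H s e : ℕ} {lam B : ℝ} (hlam : 0 ≤ lam) (hB : 0 ≤ B) (f : ℕ → ℝ) (x : ℕ) :
    |gfac H lam B s e f x| ≤ 2 * lam * B := by
  unfold gfac
  rw [abs_mul, abs_of_nonneg hlam]
  have h1 := clip_abs_le hB (mdiff H s e f x)
  have h2 : |ce H s (fun z => clip B (mdiff H s e f z)) x| ≤ B :=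
    ce_abs_le (fun z => clip_abs_le hB _) x
  have h3 : |clip B (mdiff H s e f x) - ce H s (fun z => clip B (mdiff H s e f z)) x| ≤ B + B :=
    (abs_sub _ _).trans (add_le_add h1 h2)
  calc lam * _ ≤ lam * (B + B) := by gcongr
    _ = 2 * lam * B := by ring

theorem gE_mul_gfac {H s e : ℕ} (hsH : s ≤ H) (lam B : ℝ) (f : ℕ → ℝ) {G : ℕ → ℝ}
    (hG : Meas H s G) : gE H (fun x => G x * gfac H lam B s e f x) = 0 := by
  have h := gE_mul_ce' hsH hG (fun z => clip B (mdiff H s e f z))
  have h2 : gE H (fun x => G x * gfac H lam B s e f x) =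
      lam * gE H (fun x => G x * (clip B (mdiff H s e f x) - ce H s (fun z => clip B (mdiff H s e f z)) x)) := by
    rw [← gE_const_mul]
    apply gE_congr; intro x; unfold gfac; ring
  rw [h2, h, mul_zero]

theorem gE_mul_mdiff {H s e : ℕ} (hse : s ≤ e) (heH : e ≤ H) (f : ℕ → ℝ) {G : ℕ → ℝ}
    (hG : Meas H s G) : gE H (fun x => G x * mdiff H s e f x) = 0 := by
  have h1 := gE_mul_ce (hse.trans heH) hG f
  have h2 := gE_mul_ce heH (hG.mono hse heH) f
  have h3 : gE H (fun x => G x * mdiff H s e f x) =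
      gE H (fun x => G x * ce H e f x) - gE H (fun x => G x * ce H s f x) := by
    rw [← gE_sub]
    apply gE_congr; intro x; unfold mdiff; ring
  rw [h3, h1, h2, sub_self]

/-- The gain of one window. -/
theorem gE_gain {H s e : ℕ} (hse : s ≤ e) (heH : e ≤ H) (lam B : ℝ) (f : ℕ → ℝ) {G : ℕ → ℝ}
    (hG : Meas H s G) :
    gE H (fun x => (G x * gfac H lam B s e f x) * f x) =
      lam * gE H (fun x => G x * (mdiff H s e f x * clip B (mdiff H s e f x))) := by
  have hsH := hse.trans heH
  have hm1 : Meas H e (fun x => G x * gfac H lam B s e f x) :=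
    (hG.mono hse heH).mul (meas_gfac lam B hse heH f)
  have h1 := gE_mul_ce heH hm1 f
  have hm2 : Meas H s (fun x => G x * ce H s f x) := hG.mul (meas_ce H s f)
  have h2 := gE_mul_gfac hsH lam B f hm2 (e := e)
  have h3 : gE H (fun x => (G x * gfac H lam B s e f x) * ce H e f x) =
      gE H (fun x => (G x * gfac H lam B s e f x) * mdiff H s e f x) +
        gE H (fun x => (G x * ce H s f x) * gfac H lam B s e f x) := by
    rw [← gE_add]
    apply gE_congr; intro x; unfold mdiff; ring
  have hm3 : Meas H s (fun x => G x * ce H s (fun z => clip B (mdiff H s e f z)) x) :=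
    hG.mul (meas_ce H s _)
  have h4 := gE_mul_mdiff hse heH f hm3
  have h5 : gE H (fun x => (G x * gfac H lam B s e f x) * mdiff H s e f x) =
      lam * gE H (fun x => G x * (mdiff H s e f x * clip B (mdiff H s e f x))) -
      lam * gE H (fun x => (G x * ce H s (fun z => clip B (mdiff H s e f z)) x) * mdiff H s e f x) := by
    rw [← gE_const_mul, ← gE_const_mul, ← gE_sub]
    apply gE_congr; intro x; unfold gfac; ring
  rw [← h1, h3, h2, h5, h4]
  ring

section seq

variable {H : ℕ} {lam B : ℝ} {s e : ℕ → ℕ} {f : ℕ → ℝ} {J : ℕ}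

theorem e_le_s (hse : ∀ i, i < J → s i ≤ e i) (hes : ∀ i, i + 1 < J → e i ≤ s (i + 1)) :
    ∀ i' i, i' < i → i < J → e i' ≤ s i := by
  intro i' i h hi
  induction i with
  | zero => omega
  | succ i ih =>
    rcases Nat.lt_succ_iff_lt_or_eq.mp h with h1 | h1
    · exact (ih h1 (by omega)).trans ((hse i (by omega)).trans (hes i hi))
    · subst h1; exact hes _ hi

theorem meas_Pseq (hse : ∀ i, i < J → s i ≤ e i) {i t : ℕ} (hi : i ≤ J)
    (ht : ∀ i', i' < i → e i' ≤ t) (htH : t ≤ H) : Meas H t (Pseq H lam B s e f i) := by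
  induction i with
  | zero => exact Meas.const H t 1
  | succ i ih =>
    have h1 := ih (by omega) (fun i' hi' => ht i' (by omega))
    have h2 : Meas H t (gfac H lam B (s i) (e i) f) :=
      (meas_gfac lam B (hse i (by omega)) ((ht i (by omega)).trans htH) f).mono (ht i (by omega)) htH
    exact h1.mul (h2.comp (fun y => 1 + y))

theorem meas_Pseq_s (hse : ∀ i, i < J → s i ≤ e i) (hes : ∀ i, i + 1 < J → e i ≤ s (i + 1))
    {i : ℕ} (hi : i < J) (hH : s i ≤ H) : Meas H (s i) (Pseq H lam B s e f i) :=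
  meas_Pseq hse hi.le (fun i' hi' => e_le_s hse hes i' i hi' hi) hH

theorem Pseq_nonneg (hlam : 0 ≤ lam) (hB : 0 ≤ B) (hβ : 2 * lam * B ≤ 1) (i x : ℕ) :
    0 ≤ Pseq H lam B s e f i x := by
  induction i with
  | zero => simp [Pseq]
  | succ i ih =>
    simp only [Pseq]
    apply mul_nonneg ih
    have := gfac_abs_le (H := H) (s := s i) (e := e i) hlam hB f x
    have := (abs_le.mp this).1
    linarith

theorem gE_Pseq (hse : ∀ i, i < J → s i ≤ e i) (hes : ∀ i, i + 1 < J → e i ≤ s (i + 1))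
    (heH : ∀ i, i < J → e i ≤ H) {i : ℕ} (hi : i ≤ J) :
    gE H (Pseq H lam B s e f i) = 1 := by
  induction i with
  | zero => exact gE_const H 1
  | succ i ih =>
    have hiJ : i < J := by omega
    have h1 : gE H (Pseq H lam B s e f (i + 1)) = gE H (Pseq H lam B s e f i) +
        gE H (fun x => Pseq H lam B s e f i x * gfac H lam B (s i) (e i) f x) := by
      rw [← gE_add]
      apply gE_congr; intro x; simp only [Pseq]; ring
    rw [h1, ih (by omega), gE_mul_gfac ((hse i hiJ).trans (heH i hiJ)) lam B f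
      (meas_Pseq_s hse hes hiJ ((hse i hiJ).trans (heH i hiJ)))]
    ring

/-- Main identity. -/
theorem gE_Pseq_mul (hse : ∀ i, i < J → s i ≤ e i) (hes : ∀ i, i + 1 < J → e i ≤ s (i + 1))
    (heH : ∀ i, i < J → e i ≤ H) {i : ℕ} (hi : i ≤ J) :
    gE H (fun x => Pseq H lam B s e f i x * f x) = gE H f +
      lam * ∑ k ∈ range i, gE H (fun x => Pseq H lam B s e f k x *
        (mdiff H (s k) (e k) f x * clip B (mdiff H (s k) (e k) f x))) := by
  induction i with
  | zero =>
    simp only [Pseq, Finset.range_zero, Finset.sum_empty, mul_zero, add_zero, one_mul]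
  | succ i ih =>
    have hiJ : i < J := by omega
    have h1 : gE H (fun x => Pseq H lam B s e f (i + 1) x * f x) =
        gE H (fun x => Pseq H lam B s e f i x * f x) +
        gE H (fun x => (Pseq H lam B s e f i x * gfac H lam B (s i) (e i) f x) * f x) := by
      rw [← gE_add]
      apply gE_congr; intro x; simp only [Pseq]; ring
    rw [h1, ih (by omega), gE_gain (hse i hiJ) (heH i hiJ) lam B f
      (meas_Pseq_s hse hes hiJ ((hse i hiJ).trans (heH i hiJ))), Finset.sum_range_succ]
    ring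

/-- Main inequality. -/
theorem main_ineq (hse : ∀ i, i < J → s i ≤ e i) (hes : ∀ i, i + 1 < J → e i ≤ s (i + 1))
    (heH : ∀ i, i < J → e i ≤ H) (hlam : 0 ≤ lam) (hB : 0 ≤ B) (hβ : 2 * lam * B ≤ 1)
    {M : ℝ} (hf : ∀ x, |f x| ≤ M) (hf0 : gE H f = 0) :
    lam * ∑ k ∈ range J, gE H (fun x => Pseq H lam B s e f k x *
        min (mdiff H (s k) (e k) f x ^ 2) (B ^ 2)) ≤ M := by
  have h1 := gE_Pseq_mul (lam := lam) (B := B) (f := f) hse hes heH le_rfl
  rw [hf0, zero_add] at h1
  have h2 : gE H (fun x => Pseq H lam B s e f J x * f x) ≤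
      gE H (fun x => M * Pseq H lam B s e f J x) := by
    apply gE_mono; intro x
    have hp := Pseq_nonneg (H := H) (s := s) (e := e) (f := f) hlam hB hβ J x
    have := (abs_le.mp (hf x)).2
    nlinarith
  rw [gE_const_mul, gE_Pseq hse hes heH le_rfl, mul_one] at h2
  refine le_trans ?_ h2
  rw [h1]
  apply mul_le_mul_of_nonneg_left _ hlam
  apply Finset.sum_le_sum
  intro k _
  apply gE_mono; intro x
  exact mul_le_mul_of_nonneg_left (mul_clip_ge hB _) (Pseq_nonneg hlam hB hβ k x)

end seq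

end Pool.Agent.LibBohr
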