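import Pool.Agent.LibBohr.Group
import Pool.Agent.LibBohr.Defs

set_option autoImplicit false

namespace Pool.Agent.LibBohr

open Finset Real

/-- Grid version of the sine sum over `Y`. -/
noncomputable def TY (H : ℕ) (Y : Finset ℕ) (x : ℕ) : ℝ :=
  ∑ a ∈ Y, Real.sin ((a : ℝ) * (2 * π / 2 ^ H * x))

theorem sin_eq_gcos (H a x : ℕ) :
    Real.sin ((a : ℝ) * (2 * π / 2 ^ H * x)) = gcos H (a : ℤ) (-(π / 2)) x := by
  unfold gcos
  have : 2 * π * ((a : ℤ) : ℝ) / 2 ^ H * (x : ℝ) + -(π / 2) = (a : ℝ) * (2 * π / 2 ^ H * x) - π / 2 := by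
    push_cast; ring
  rw [this, Real.cos_sub_pi_div_two]

theorem gcos_zero_phase (H : ℕ) (u : ℤ) (x : ℕ) :
    gcos H u 0 x = Real.cos ((u : ℝ) * (2 * π / 2 ^ H * x)) := by
  unfold gcos
  congr 1; ring

theorem TY_sq (H : ℕ) (Y : Finset ℕ) (x : ℕ) :
    TY H Y x ^ 2 = ∑ a ∈ Y, ∑ b ∈ Y,
      (gcos H ((a : ℤ) - b) 0 x - gcos H ((a : ℤ) + b) 0 x) / 2 := by
  unfold TY
  rw [sq, Finset.sum_mul_sum]
  apply Finset.sum_congr rfl; intro a _
  apply Finset.sum_congr rfl; intro b _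
  rw [gcos_zero_phase, gcos_zero_phase]
  push_cast
  rw [sub_mul, add_mul, Real.cos_sub, Real.cos_add]
  ring

theorem sum_cos_sq_add {ι : Type*} (s : Finset ι) (α : ι → ℝ) :
    (∑ i ∈ s, Real.cos (α i)) ^ 2 + (∑ i ∈ s, Real.sin (α i)) ^ 2 =
      ∑ i ∈ s, ∑ j ∈ s, Real.cos (α i - α j) := by
  rw [sq, sq, Finset.sum_mul_sum, Finset.sum_mul_sum, ← Finset.sum_add_distrib]
  apply Finset.sum_congr rfl; intro i _
  rw [← Finset.sum_add_distrib]
  apply Finset.sum_congr rfl; intro j _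
  rw [Real.cos_sub]

theorem TY_pow4 (H : ℕ) (Y : Finset ℕ) (x : ℕ) :
    TY H Y x ^ 4 ≤ ∑ a ∈ Y, ∑ b ∈ Y, ∑ c ∈ Y, ∑ d ∈ Y,
      gcos H ((a : ℤ) + b - c - d) 0 x := by
  set θ : ℝ := 2 * π / 2 ^ H * x with hθ
  set Cs := ∑ a ∈ Y, Real.cos ((a : ℝ) * θ) with hCs
  set Sn := ∑ a ∈ Y, Real.sin ((a : ℝ) * θ) with hSn
  have h1 : ∑ p ∈ Y ×ˢ Y, Real.cos (((p.1 : ℝ) + p.2) * θ) = Cs ^ 2 - Sn ^ 2 := by
    rw [hCs, hSn, sq, sq, Finset.sum_mul_sum, Finset.sum_mul_sum, Finset.sum_product,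
      ← Finset.sum_sub_distrib]
    apply Finset.sum_congr rfl; intro a _
    rw [← Finset.sum_sub_distrib]
    apply Finset.sum_congr rfl; intro b _
    rw [add_mul, Real.cos_add]
  have h2 : ∑ p ∈ Y ×ˢ Y, Real.sin (((p.1 : ℝ) + p.2) * θ) = 2 * (Cs * Sn) := by
    have e1 : Cs * Sn = ∑ a ∈ Y, ∑ b ∈ Y, Real.cos ((a : ℝ) * θ) * Real.sin ((b : ℝ) * θ) := by
      rw [hCs, hSn, Finset.sum_mul_sum]
    have e2 : Cs * Sn = ∑ a ∈ Y, ∑ b ∈ Y, Real.sin ((a : ℝ) * θ) * Real.cos ((b : ℝ) * θ) := by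
      rw [hCs, hSn, mul_comm, Finset.sum_mul_sum]
    rw [two_mul]
    nth_rewrite 1 [e1]
    rw [e2, Finset.sum_product, ← Finset.sum_add_distrib]
    apply Finset.sum_congr rfl; intro a _
    rw [← Finset.sum_add_distrib]
    apply Finset.sum_congr rfl; intro b _
    rw [add_mul, Real.sin_add]; ring
  have h3 := sum_cos_sq_add (Y ×ˢ Y) (fun p => ((p.1 : ℝ) + p.2) * θ)
  rw [h1, h2] at h3
  have h4 : ∑ p ∈ Y ×ˢ Y, ∑ q ∈ Y ×ˢ Y,
      Real.cos (((p.1 : ℝ) + p.2) * θ - ((q.1 : ℝ) + q.2) * θ) =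
      ∑ a ∈ Y, ∑ b ∈ Y, ∑ c ∈ Y, ∑ d ∈ Y, gcos H ((a : ℤ) + b - c - d) 0 x := by
    rw [Finset.sum_product]
    apply Finset.sum_congr rfl; intro a _
    apply Finset.sum_congr rfl; intro b _
    rw [Finset.sum_product]
    apply Finset.sum_congr rfl; intro c _
    apply Finset.sum_congr rfl; intro d _
    rw [gcos_zero_phase, ← hθ]
    congr 1
    push_cast; ring
  rw [← h4, ← h3]
  have h5 : TY H Y x = Sn := rfl
  rw [h5]
  nlinarith [sq_nonneg (Cs ^ 2), sq_nonneg (Cs * Sn), mul_nonneg (sq_nonneg Cs) (sq_nonneg Sn)]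

section moments

variable {H s L : ℕ} {P : ℕ → ℝ} {β : ℝ}

/-- Hypotheses on the coefficients of a density. -/
structure CoefHyp (H s : ℕ) (β : ℝ) (P : ℕ → ℝ) : Prop where
  nonneg : ∀ x, 0 ≤ P x
  mass : gE H P = 1
  β0 : 0 ≤ β
  b1 : ∀ u : ℤ, u ≠ 0 → 2 * |u| ≤ 2 ^ H → |gE H (fun x => P x * gcos H u 0 x)| ≤ 15 * β
  b2 : ∀ u : ℤ, u ≠ 0 → 2 * |u| ≤ 2 ^ H →
    |gE H (fun x => P x * gcos H u 0 x)| ≤ β * (2 ^ s / |(u : ℝ)|)

theorem CoefHyp.zero (h : CoefHyp H s β P) : gE H (fun x => P x * gcos H 0 0 x) = 1 := by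
  rw [← h.mass]
  apply gE_congr; intro x
  simp [gcos]

theorem second_moment (h : CoefHyp H s β P) (Y : Finset ℕ) (Nt : ℝ)
    (hW : ∀ a ∈ Y, 2 ^ (s + L + 1) ≤ a) (hH : ∀ a ∈ Y, 4 * a ≤ 2 ^ H)
    (hN : (closePairs Y (2 ^ (s + L + 1)) : ℝ) ≤ Nt) (hL : (Y.card : ℝ) ^ 2 ≤ 2 ^ L) :
    |gE H (fun x => P x * TY H Y x ^ 2) - (Y.card : ℝ) / 2| ≤ 8 * β * (Nt + 1) := by
  set c : ℤ → ℝ := fun u => gE H (fun x => P x * gcos H u 0 x) with hc
  have hβ0 := h.β0
  have h1 : gE H (fun x => P x * TY H Y x ^ 2) =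
      ∑ a ∈ Y, ∑ b ∈ Y, (c ((a : ℤ) - b) - c ((a : ℤ) + b)) / 2 := by
    have e1 : (fun x => P x * TY H Y x ^ 2) = (fun x => ∑ a ∈ Y, ∑ b ∈ Y,
        ((1 / 2) * (P x * gcos H ((a : ℤ) - b) 0 x) - (1 / 2) * (P x * gcos H ((a : ℤ) + b) 0 x))) := by
      funext x
      rw [TY_sq, Finset.mul_sum]
      apply Finset.sum_congr rfl; intro a _
      rw [Finset.mul_sum]
      apply Finset.sum_congr rfl; intro b _
      ring
    rw [e1, gE_sum]
    apply Finset.sum_congr rfl; intro a _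
    rw [gE_sum]
    apply Finset.sum_congr rfl; intro b _
    rw [gE_sub, gE_const_mul, gE_const_mul]
    ring
  have h2 : (Y.card : ℝ) / 2 = ∑ a ∈ Y, ∑ b ∈ Y, (if a = b then (1 : ℝ) / 2 else 0) := by
    have : ∀ a ∈ Y, ∑ b ∈ Y, (if a = b then (1 : ℝ) / 2 else 0) = 1 / 2 := by
      intro a ha
      rw [Finset.sum_ite_eq]
      simp [ha]
    rw [Finset.sum_congr rfl this, Finset.sum_const, nsmul_eq_mul]
    ring
  rw [h1, h2, ← Finset.sum_sub_distrib]
  refine (Finset.abs_sum_le_sum_abs _ _).trans ?_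
  have h3 : ∀ a ∈ Y, |∑ b ∈ Y, (c ((a : ℤ) - b) - c ((a : ℤ) + b)) / 2 -
      ∑ b ∈ Y, (if a = b then (1 : ℝ) / 2 else 0)| ≤
      ∑ b ∈ Y, ((15 * β / 2) * (if a < b + 2 ^ (s + L + 1) ∧ b < a + 2 ^ (s + L + 1) then 1 else 0)
        + β / 2 ^ L / 2) := by
    intro a ha
    rw [← Finset.sum_sub_distrib]
    refine (Finset.abs_sum_le_sum_abs _ _).trans ?_
    apply Finset.sum_le_sum
    intro b hb
    have hWa := hW a ha
    have hWb := hW b hb
    have hHa := hH a ha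
    have hHb := hH b hb
    have hpowpos : 0 < 2 ^ (s + L + 1) := by positivity
    -- sum part
    have hs1 : |c ((a : ℤ) + b)| ≤ β / 2 ^ L / 2 := by
      have hne : ((a : ℤ) + b) ≠ 0 := by
        have : 0 < a := lt_of_lt_of_le hpowpos hWa
        omega
      have hb2 := h.b2 ((a : ℤ) + b) hne (by
        rw [abs_of_nonneg (by positivity)]
        have : 4 * (a + b) ≤ 2 * 2 ^ H := by omega
        have h' : (2 * ((a : ℤ) + b)) ≤ 2 ^ H := by
          have := (show 2 * (a + b) ≤ 2 ^ H by omega)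
          exact_mod_cast this
        exact h')
      refine hb2.trans ?_
      have habs : (2 : ℝ) ^ (s + L + 1) ≤ |(((a : ℤ) + b : ℤ) : ℝ)| := by
        push_cast
        rw [abs_of_nonneg (by positivity)]
        have : (2 : ℝ) ^ (s + L + 1) ≤ (a : ℝ) := by exact_mod_cast hWa
        have hb0 : (0 : ℝ) ≤ b := Nat.cast_nonneg _
        linarith
      calc β * (2 ^ s / |(((a : ℤ) + b : ℤ) : ℝ)|) ≤ β * (2 ^ s / 2 ^ (s + L + 1)) := by
            gcongr
        _ = β / 2 ^ L / 2 := by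
            rw [pow_succ, pow_add]; field_simp
    have hs2 : |c ((a : ℤ) - b) - (if a = b then (1 : ℝ) else 0)| ≤
        (15 * β) * (if a < b + 2 ^ (s + L + 1) ∧ b < a + 2 ^ (s + L + 1) then 1 else 0)
        + β / 2 ^ L / 2 := by
      by_cases hab : a = b
      · subst hab
        simp only [sub_self, if_true]
        have : c 0 = 1 := h.zero
        rw [this, sub_self, abs_zero]
        have : 0 < 2 ^ (s + L + 1) := by positivity
        rw [if_pos ⟨by omega, by omega⟩]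
        positivity
      · rw [if_neg hab, sub_zero]
        have hne : ((a : ℤ) - b) ≠ 0 := by
          intro h'; apply hab; omega
        have hu : 2 * |(a : ℤ) - b| ≤ 2 ^ H := by
          have h1' : |(a : ℤ) - b| ≤ max (a : ℤ) b := by
            rw [abs_le]; constructor
            · have := le_max_right (a : ℤ) b; omega
            · have := le_max_left (a : ℤ) b; omega
          have h2' : 2 * max (a : ℤ) b ≤ 2 ^ H := by
            have hHa' : 4 * (a : ℤ) ≤ 2 ^ H := by exact_mod_cast hHa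
            have hHb' : 4 * (b : ℤ) ≤ 2 ^ H := by exact_mod_cast hHb
            rcases max_cases (a : ℤ) b with ⟨h, _⟩ | ⟨h, _⟩ <;> rw [h] <;> omega
          omega
        by_cases hcl : a < b + 2 ^ (s + L + 1) ∧ b < a + 2 ^ (s + L + 1)
        · rw [if_pos hcl, mul_one]
          have := h.b1 _ hne hu
          have hp : 0 ≤ β / 2 ^ L / 2 := by positivity
          have e : |c ((a : ℤ) - b)| ≤ 15 * β := this
          linarith
        · rw [if_neg hcl, mul_zero, zero_add]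
          have hb2 := h.b2 _ hne hu
          refine hb2.trans ?_
          have hge : (2 : ℤ) ^ (s + L + 1) ≤ |(a : ℤ) - b| := by
            rw [not_and_or, not_lt, not_lt] at hcl
            rcases hcl with h' | h'
            · have h'' : (b : ℤ) + 2 ^ (s + L + 1) ≤ a := by exact_mod_cast h'
              have := le_abs_self ((a : ℤ) - b)
              linarith
            · have h'' : (a : ℤ) + 2 ^ (s + L + 1) ≤ b := by exact_mod_cast h'
              have := neg_abs_le ((a : ℤ) - b)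
              linarith
          have hgeR : (2 : ℝ) ^ (s + L + 1) ≤ |(((a : ℤ) - b : ℤ) : ℝ)| := by exact_mod_cast hge
          calc β * (2 ^ s / |(((a : ℤ) - b : ℤ) : ℝ)|) ≤ β * (2 ^ s / 2 ^ (s + L + 1)) := by
                gcongr
            _ = β / 2 ^ L / 2 := by
                rw [pow_succ, pow_add]; field_simp
    have e3 : (c ((a : ℤ) - b) - c ((a : ℤ) + b)) / 2 - (if a = b then (1 : ℝ) / 2 else 0) =
        (c ((a : ℤ) - b) - (if a = b then (1 : ℝ) else 0)) / 2 + (-(c ((a : ℤ) + b))) / 2 := by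
      split_ifs <;> ring
    rw [e3]
    refine (abs_add_le _ _).trans ?_
    rw [abs_div, abs_div, abs_neg, abs_two]
    have : (15 * β / 2) * (if a < b + 2 ^ (s + L + 1) ∧ b < a + 2 ^ (s + L + 1) then (1 : ℝ) else 0)
        = ((15 * β) * (if a < b + 2 ^ (s + L + 1) ∧ b < a + 2 ^ (s + L + 1) then (1 : ℝ) else 0)) / 2 := by
      ring
    rw [this]
    linarith
  refine (Finset.sum_le_sum h3).trans ?_
  have h4 : ∑ a ∈ Y, ∑ b ∈ Y, ((15 * β / 2) *
      (if a < b + 2 ^ (s + L + 1) ∧ b < a + 2 ^ (s + L + 1) then (1 : ℝ) else 0) + β / 2 ^ L / 2) =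
      (15 * β / 2) * (closePairs Y (2 ^ (s + L + 1)) : ℝ) + (Y.card : ℝ) ^ 2 * (β / 2 ^ L / 2) := by
    have e1 : (closePairs Y (2 ^ (s + L + 1)) : ℝ) = ∑ a ∈ Y, ∑ b ∈ Y,
        (if a < b + 2 ^ (s + L + 1) ∧ b < a + 2 ^ (s + L + 1) then (1 : ℝ) else 0) := by
      unfold closePairs
      rw [Finset.card_filter, Nat.cast_sum, Finset.sum_product]
      apply Finset.sum_congr rfl; intro a _
      apply Finset.sum_congr rfl; intro b _
      push_cast
      rfl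
    rw [e1, Finset.mul_sum]
    simp only [Finset.sum_add_distrib, Finset.sum_const, nsmul_eq_mul, ← Finset.mul_sum]
    ring
  rw [h4]
  have h5 : (Y.card : ℝ) ^ 2 * (β / 2 ^ L / 2) ≤ β / 2 := by
    have hp : (0 : ℝ) < 2 ^ L := by positivity
    have : (Y.card : ℝ) ^ 2 * (β / 2 ^ L / 2) = ((Y.card : ℝ) ^ 2 / 2 ^ L) * (β / 2) := by field_simp
    rw [this]
    have h6 : (Y.card : ℝ) ^ 2 / 2 ^ L ≤ 1 := (div_le_one hp).mpr hL
    nlinarith
  have h7 : (15 * β / 2) * (closePairs Y (2 ^ (s + L + 1)) : ℝ) ≤ (15 * β / 2) * Nt := by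
    gcongr
  have hNt : 0 ≤ Nt := (Nat.cast_nonneg _).trans hN
  nlinarith [mul_nonneg hβ0 hNt]

theorem fourth_moment (h : CoefHyp H s β P) (Z : Finset ℕ) (hH : ∀ a ∈ Z, 4 * a ≤ 2 ^ H) :
    gE H (fun x => P x * TY H Z x ^ 4) ≤ En 1 Z + 30 * β * En (2 ^ (s + L + 1)) Z +
      (Z.card : ℝ) ^ 4 * (β / 2 ^ L) := by
  set c : ℤ → ℝ := fun u => gE H (fun x => P x * gcos H u 0 x) with hc
  have hβ0 := h.β0
  have h1 : gE H (fun x => P x * TY H Z x ^ 4) ≤
      ∑ a ∈ Z, ∑ b ∈ Z, ∑ p ∈ Z, ∑ q ∈ Z, c ((a : ℤ) + b - p - q) := by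
    have e1 : gE H (fun x => P x * TY H Z x ^ 4) ≤ gE H (fun x => ∑ a ∈ Z, ∑ b ∈ Z, ∑ p ∈ Z, ∑ q ∈ Z,
        (P x * gcos H ((a : ℤ) + b - p - q) 0 x)) := by
      apply gE_mono; intro x
      have := mul_le_mul_of_nonneg_left (TY_pow4 H Z x) (h.nonneg x)
      refine this.trans (le_of_eq ?_)
      simp only [Finset.mul_sum]
    refine e1.trans (le_of_eq ?_)
    rw [gE_sum]; apply Finset.sum_congr rfl; intro a _
    rw [gE_sum]; apply Finset.sum_congr rfl; intro b _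
    rw [gE_sum]; apply Finset.sum_congr rfl; intro p _
    rw [gE_sum]
  refine h1.trans ?_
  have h2 : ∀ a ∈ Z, ∀ b ∈ Z, ∀ p ∈ Z, ∀ q ∈ Z, c ((a : ℤ) + b - p - q) ≤
      tri 1 ((a : ℤ) + b - p - q) + 30 * β * tri (2 ^ (s + L + 1)) ((a : ℤ) + b - p - q) + β / 2 ^ L := by
    intro a ha b hb p hp q hq
    set v : ℤ := (a : ℤ) + b - p - q with hv
    have hβL : 0 ≤ β / 2 ^ L := by positivity
    have ht1 : 0 ≤ tri 1 v := le_max_left _ _
    have ht2 : 0 ≤ tri (2 ^ (s + L + 1)) v := le_max_left _ _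
    by_cases hv0 : v = 0
    · have e0 : c v = 1 := by rw [hv0]; exact h.zero
      have e1 : tri 1 v = 1 := by rw [hv0]; simp [tri]
      rw [e0, e1]
      have : 0 ≤ 30 * β * tri (2 ^ (s + L + 1)) v := by positivity
      linarith
    · have hu : 2 * |v| ≤ 2 ^ H := by
        have hHa : 4 * (a : ℤ) ≤ 2 ^ H := by exact_mod_cast hH a ha
        have hHb : 4 * (b : ℤ) ≤ 2 ^ H := by exact_mod_cast hH b hb
        have hHp : 4 * (p : ℤ) ≤ 2 ^ H := by exact_mod_cast hH p hp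
        have hHq : 4 * (q : ℤ) ≤ 2 ^ H := by exact_mod_cast hH q hq
        rcases abs_cases v with ⟨h', _⟩ | ⟨h', _⟩ <;> rw [h'] <;> omega
      by_cases hsm : 2 * |v| ≤ 2 ^ (s + L + 1)
      · have h3 := (le_abs_self _).trans (h.b1 v hv0 hu)
        have h4 : (1 : ℝ) / 2 ≤ tri (2 ^ (s + L + 1)) v := by
          refine le_trans ?_ (le_max_right _ _)
          have hsm' : 2 * |(v : ℝ)| ≤ 2 ^ (s + L + 1) := by exact_mod_cast hsm
          have hpos : (0 : ℝ) < 2 ^ (s + L + 1) := by positivity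
          push_cast
          rw [le_sub_iff_add_le, ← le_sub_iff_add_le', div_le_iff₀ hpos]
          linarith
        have h5 : 15 * β ≤ 30 * β * tri (2 ^ (s + L + 1)) v := by nlinarith
        have e : c v ≤ 15 * β := h3
        linarith
      · push Not at hsm
        have h3 := (le_abs_self _).trans (h.b2 v hv0 hu)
        have e : c v ≤ β * (2 ^ s / |(v : ℝ)|) := h3
        have hsm' : (2 : ℝ) ^ (s + L + 1) ≤ 2 * |(v : ℝ)| := by exact_mod_cast hsm.le
        have hpos : (0 : ℝ) < 2 ^ (s + L) := by positivity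
        have h6 : (2 : ℝ) ^ (s + L) ≤ |(v : ℝ)| := by
          rw [pow_succ] at hsm'; linarith
        have h7 : β * (2 ^ s / |(v : ℝ)|) ≤ β * (2 ^ s / 2 ^ (s + L)) := by gcongr
        have h8 : β * (2 ^ s / 2 ^ (s + L)) = β / 2 ^ L := by
          rw [pow_add]; field_simp
        have h9 : 0 ≤ 30 * β * tri (2 ^ (s + L + 1)) v := by positivity
        linarith
  calc ∑ a ∈ Z, ∑ b ∈ Z, ∑ p ∈ Z, ∑ q ∈ Z, c ((a : ℤ) + b - p - q)
      ≤ ∑ a ∈ Z, ∑ b ∈ Z, ∑ p ∈ Z, ∑ q ∈ Z, (tri 1 ((a : ℤ) + b - p - q) +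
        30 * β * tri (2 ^ (s + L + 1)) ((a : ℤ) + b - p - q) + β / 2 ^ L) := by
        apply Finset.sum_le_sum; intro a ha
        apply Finset.sum_le_sum; intro b hb
        apply Finset.sum_le_sum; intro p hp
        apply Finset.sum_le_sum; intro q hq
        exact h2 a ha b hb p hp q hq
    _ = _ := by
        simp only [En, Finset.sum_add_distrib, Finset.sum_const, nsmul_eq_mul, ← Finset.mul_sum]
        ring

end moments

end Pool.Agent.LibBohr
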