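import Pool.Agent.LibBohr.Defs

set_option autoImplicit false

namespace Pool.Agent.LibBohr

open Finset

theorem param_hq0 (y n : ℝ) (L r m : ℕ) (hy : 10 ^ 21 ≤ y) (hLy : (L : ℝ) ≤ y)
    (hn : n = y ^ 2000) (hL2 : 200 * n ^ 4 ≤ 2 ^ L) (hr : (r : ℝ) ≤ 2 * y ^ 11)
    (hm : (m : ℝ) ≤ 2 * y ^ 965) (hr1 : 1 ≤ r) (hm1 : 1 ≤ m) :
    (4 * (2 * L * r * m) * (200 * m ^ 2) + 1) ^ (r * m) < 2 ^ (2 * L * r * m) := by
  have hy1 : (1 : ℝ) < y := lt_of_lt_of_le (by norm_num) hy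
  have hy0 : (0 : ℝ) < y := by linarith
  have e1 : 2 ^ (2 * L * r * m) = (2 ^ (2 * L)) ^ (r * m) := by
    rw [← pow_mul]; congr 1; ring
  rw [e1]
  apply Nat.pow_lt_pow_left
  · have hreal : ((4 * (2 * L * r * m) * (200 * m ^ 2) + 1 : ℕ) : ℝ) < ((2 ^ (2 * L) : ℕ) : ℝ) := by
      push_cast
      have h1 : (m : ℝ) ^ 3 ≤ (2 * y ^ 965) ^ 3 := pow_le_pow_left₀ (Nat.cast_nonneg _) hm 3
      have h2 : (L : ℝ) * r ≤ y * (2 * y ^ 11) := mul_le_mul hLy hr (Nat.cast_nonneg _) hy0.le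
      have h3 : (L : ℝ) * r * (m : ℝ) ^ 3 ≤ y * (2 * y ^ 11) * (2 * y ^ 965) ^ 3 :=
        mul_le_mul h2 h1 (by positivity) (by positivity)
      have h4 : y * (2 * y ^ 11) * (2 * y ^ 965) ^ 3 = 16 * y ^ 2907 := by ring
      have h5 : (4 : ℝ) * (2 * L * r * m) * (200 * m ^ 2) + 1 = 1600 * (L * r * (m : ℝ) ^ 3) + 1 := by ring
      have h6 : (1 : ℝ) ≤ y ^ 2907 := one_le_pow₀ hy1.le
      have h7 : y ^ 2908 = y ^ 2907 * y := pow_succ y 2907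
      have h8 : 25601 * y ^ 2907 ≤ y ^ 2908 := by
        rw [h7]; nlinarith
      have h9 : y ^ 2908 < y ^ 16000 := pow_lt_pow_right₀ hy1 (by norm_num)
      have h10 : y ^ 16000 ≤ 2 ^ (2 * L) := by
        have h11 : y ^ 8000 ≤ 2 ^ L := by
          have : n ^ 4 = y ^ 8000 := by rw [hn, ← pow_mul]
          have h12 : 0 ≤ n ^ 4 := by rw [this]; positivity
          rw [← this]; linarith
        have h13 : (y ^ 8000) ^ 2 ≤ (2 ^ L) ^ 2 := pow_le_pow_left₀ (by positivity) h11 2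
        rw [← pow_mul, ← pow_mul, mul_comm L 2] at h13
        exact h13
      rw [h5]
      linarith
    exact_mod_cast hreal
  · positivity

theorem param_hq (y : ℝ) (q0 p X0 : ℕ) (hy : 10 ^ 21 ≤ y) (hp : y ^ 6 ≤ (p : ℝ))
    (hX0 : y ^ 996 ≤ (X0 : ℝ)) :
    (q0 : ℝ) * X0 + 32 * q0 * (y ^ 1001) ≤ ((q0 * p : ℕ) : ℝ) * X0 := by
  have hy1 : (1 : ℝ) < y := lt_of_lt_of_le (by norm_num) hy
  have hy0 : (0 : ℝ) < y := by linarith
  push_cast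
  have h1 : (X0 : ℝ) + 32 * y ^ 1001 ≤ (p : ℝ) * X0 := by
    have h2 : y ^ 6 * (X0 : ℝ) ≤ p * X0 := mul_le_mul_of_nonneg_right hp (Nat.cast_nonneg _)
    have h3 : 32 * y ^ 1001 ≤ (y ^ 6 - 1) * X0 := by
      have h4 : 32 * y ^ 5 ≤ y ^ 6 - 1 := by
        have h5 : y ^ 6 = y ^ 5 * y := pow_succ y 5
        have h6 : (1 : ℝ) ≤ y ^ 5 := one_le_pow₀ hy1.le
        rw [h5]; nlinarith
      calc 32 * y ^ 1001 = (32 * y ^ 5) * y ^ 996 := by ring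
        _ ≤ (y ^ 6 - 1) * X0 := mul_le_mul h4 hX0 (by positivity) (le_trans (by positivity) h4)
    linarith
  have hq0 : (0 : ℝ) ≤ q0 := Nat.cast_nonneg _
  have := mul_le_mul_of_nonneg_left h1 hq0
  linarith

theorem param_rq (y : ℝ) (L r m p : ℕ) (hy : 10 ^ 21 ≤ y) (hr : (r : ℝ) ≤ 2 * y ^ 11)
    (hp : (p : ℝ) ≤ 2 * y ^ 6) :
    ((r * ((2 * L * r * m) * p) : ℕ) : ℝ) ≤ 16 * L * y ^ 28 * m := by
  have hy1 : (1 : ℝ) < y := lt_of_lt_of_le (by norm_num) hy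
  have hy0 : (0 : ℝ) < y := by linarith
  push_cast
  have h1 : (r : ℝ) * r ≤ (2 * y ^ 11) * (2 * y ^ 11) :=
    mul_le_mul hr hr (Nat.cast_nonneg _) (by positivity)
  have h2 : (r : ℝ) * r * p ≤ (2 * y ^ 11) * (2 * y ^ 11) * (2 * y ^ 6) :=
    mul_le_mul h1 hp (Nat.cast_nonneg _) (by positivity)
  have h3 : (r : ℝ) * (2 * L * r * m * p) = (2 * L * m) * (r * r * p) := by ring
  rw [h3]
  calc (2 * (L : ℝ) * m) * (r * r * p) ≤ (2 * L * m) * ((2 * y ^ 11) * (2 * y ^ 11) * (2 * y ^ 6)) := by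
        gcongr
    _ = 16 * L * y ^ 28 * m := by ring

theorem ceil_le_two_mul {x : ℝ} (hx : 1 ≤ x) : ((⌈x⌉₊ : ℕ) : ℝ) ≤ 2 * x := by
  have := Nat.ceil_lt_add_one (show 0 ≤ x by linarith)
  linarith

end Pool.Agent.LibBohr
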